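import Pool.Agent.H51.CycPoisson

set_option autoImplicit false
open MeasureTheory
open scoped ComplexConjugate

/-! Fourier coefficients: the general Parseval identity for absolutely summable expansions. -/

namespace Pool.Agent.H51

theorem integral_exp_nu (k : ℤ) :
    ∫ s : ℝ, Complex.exp ((k : ℂ) * s * Complex.I) ∂nu = if k = 0 then 1 else 0 := by
  by_cases hk : k = 0
  · simp [hk]
  · have hpi := Real.pi_pos
    have h2 : (0 : ℝ) ≤ 2 * Real.pi := by positivity
    rw [nu, integral_smul_measure, ← intervalIntegral.integral_of_le h2, if_neg hk]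
    have h1 : (k : ℂ) * Complex.I ≠ 0 := mul_ne_zero (by exact_mod_cast hk) Complex.I_ne_zero
    have h3 : ∀ s : ℝ, Complex.exp ((k : ℂ) * s * Complex.I)
        = Complex.exp ((k : ℂ) * Complex.I * s) := by
      intro s; congr 1; ring
    simp_rw [h3]
    rw [integral_exp_mul_complex h1]
    have h4 : Complex.exp ((k : ℂ) * Complex.I * ((2 * Real.pi : ℝ) : ℂ)) = 1 := by
      rw [Complex.exp_eq_one_iff]
      exact ⟨k, by push_cast; ring⟩
    rw [h4]
    simp

section Parseval

variable {Ω ι : Type*} [MeasurableSpace Ω] [Countable ι] [DecidableEq ι] {μ : Measure Ω} [IsProbabilityMeasure μ]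
  {e : ι → Ω → ℂ} (he : ∀ i, AEStronglyMeasurable (e i) μ) (he1 : ∀ i ω, ‖e i ω‖ ≤ 1)
  (horth : ∀ i j, ∫ ω, e i ω * conj (e j ω) ∂μ = if i = j then 1 else 0)
  {a : ι → ℂ} (ha : Summable fun i => ‖a i‖)

include he he1 horth ha in
theorem coeff_eq_integral (j : ι) :
    ∫ ω, (∑' i, a i * e i ω) * conj (e j ω) ∂μ = a j := by
  have hint : ∀ i, Integrable (fun ω => a i * e i ω * conj (e j ω)) μ := by
    intro i
    refine Integrable.of_bound (C := ‖a i‖) ?_ (Filter.Eventually.of_forall fun ω => ?_)
    · exact ((he i).const_mul (a i)).mul (Complex.continuous_conj.comp_aestronglyMeasurable (he j))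
    · rw [norm_mul, norm_mul, Complex.norm_conj]
      calc ‖a i‖ * ‖e i ω‖ * ‖e j ω‖ ≤ ‖a i‖ * 1 * 1 := by
            gcongr
            · exact he1 i ω
            · exact he1 j ω
        _ = ‖a i‖ := by ring
  have hsum : Summable fun i => ∫ ω, ‖a i * e i ω * conj (e j ω)‖ ∂μ := by
    refine Summable.of_nonneg_of_le (fun i => integral_nonneg fun _ => norm_nonneg _) (fun i => ?_) ha
    calc ∫ ω, ‖a i * e i ω * conj (e j ω)‖ ∂μ ≤ ∫ ω, ‖a i‖ ∂μ := by
          refine integral_mono (hint i).norm (integrable_const _) fun ω => ?_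
          simp only [norm_mul, Complex.norm_conj]
          calc ‖a i‖ * ‖e i ω‖ * ‖e j ω‖ ≤ ‖a i‖ * 1 * 1 := by
                gcongr
                · exact he1 i ω
                · exact he1 j ω
            _ = ‖a i‖ := by ring
      _ = ‖a i‖ := by simp
  have h1 := hasSum_integral_of_summable_integral_norm hint hsum
  have h2 : ∀ i, ∫ ω, a i * e i ω * conj (e j ω) ∂μ = if i = j then a j else 0 := by
    intro i
    simp_rw [mul_assoc]
    rw [integral_const_mul, horth]
    by_cases h : i = j
    · rw [if_pos h, if_pos h, h, mul_one]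
    · rw [if_neg h, if_neg h, mul_zero]
  simp_rw [h2] at h1
  have h3 : HasSum (fun i => if i = j then a j else 0) (a j) := hasSum_ite_eq j (a j)
  have h4 := h1.unique h3
  rw [← h4]
  refine integral_congr_ae (Filter.Eventually.of_forall fun ω => ?_)
  simp only
  rw [tsum_mul_right]

include he he1 horth ha in
theorem parseval :
    HasSum (fun i => ‖a i‖ ^ 2) (∫ ω, ‖∑' i, a i * e i ω‖ ^ 2 ∂μ) := by
  set F : Ω → ℂ := fun ω => ∑' i, a i * e i ω with hF
  have hsumω : ∀ ω, Summable fun i => ‖a i * e i ω‖ := by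
    intro ω
    refine Summable.of_nonneg_of_le (fun i => norm_nonneg _) (fun i => ?_) ha
    rw [norm_mul]
    exact mul_le_of_le_one_right (norm_nonneg _) (he1 i ω)
  set T := ∑' i, ‖a i‖ with hT
  have hFb : ∀ ω, ‖F ω‖ ≤ T := by
    intro ω
    refine (norm_tsum_le_tsum_norm (hsumω ω)).trans ?_
    refine (hsumω ω).tsum_le_tsum (fun i => ?_) ha
    rw [norm_mul]
    exact mul_le_of_le_one_right (norm_nonneg _) (he1 i ω)
  have hFm : AEStronglyMeasurable F μ := by
    have h1 := fun s : Finset ι => (Finset.aestronglyMeasurable_fun_sum s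
      (f := fun i ω => a i * e i ω) (μ := μ) fun i _ => (he i).const_mul (a i))
    refine aestronglyMeasurable_of_tendsto_ae (Filter.atTop : Filter (Finset ι)) h1
      (Filter.Eventually.of_forall fun ω => ?_)
    exact (hsumω ω).of_norm.hasSum
  have hT0 : 0 ≤ T := tsum_nonneg fun i => norm_nonneg _
  have hint : ∀ i, Integrable (fun ω => conj (a i) * (F ω * conj (e i ω))) μ := by
    intro i
    refine Integrable.of_bound (C := ‖a i‖ * T) ?_ (Filter.Eventually.of_forall fun ω => ?_)
    · exact (hFm.mul (Complex.continuous_conj.comp_aestronglyMeasurable (he i))).const_mul _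
    · rw [norm_mul, norm_mul, Complex.norm_conj, Complex.norm_conj]
      calc ‖a i‖ * (‖F ω‖ * ‖e i ω‖) ≤ ‖a i‖ * (T * 1) := by
            gcongr
            · exact hFb ω
            · exact he1 i ω
        _ = ‖a i‖ * T := by ring
  have hsum : Summable fun i => ∫ ω, ‖conj (a i) * (F ω * conj (e i ω))‖ ∂μ := by
    refine Summable.of_nonneg_of_le (fun i => integral_nonneg fun _ => norm_nonneg _) (fun i => ?_)
      (ha.mul_right T)
    calc ∫ ω, ‖conj (a i) * (F ω * conj (e i ω))‖ ∂μ ≤ ∫ ω, ‖a i‖ * T ∂μ := by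
          refine integral_mono (hint i).norm (integrable_const _) fun ω => ?_
          simp only [norm_mul, Complex.norm_conj]
          calc ‖a i‖ * (‖F ω‖ * ‖e i ω‖) ≤ ‖a i‖ * (T * 1) := by
                gcongr
                · exact hFb ω
                · exact he1 i ω
            _ = ‖a i‖ * T := by ring
      _ = ‖a i‖ * T := by simp
  have h1 := hasSum_integral_of_summable_integral_norm hint hsum
  have h2 : ∀ i, ∫ ω, conj (a i) * (F ω * conj (e i ω)) ∂μ = ((‖a i‖ ^ 2 : ℝ) : ℂ) := by
    intro i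
    rw [integral_const_mul, hF, coeff_eq_integral he he1 horth ha i, Complex.conj_mul']
    push_cast
    rfl
  simp_rw [h2] at h1
  have h3 : ∫ ω, ∑' i, conj (a i) * (F ω * conj (e i ω)) ∂μ
      = ((∫ ω, ‖F ω‖ ^ 2 ∂μ : ℝ) : ℂ) := by
    rw [← integral_complex_ofReal]
    refine integral_congr_ae (Filter.Eventually.of_forall fun ω => ?_)
    simp only
    have h4 : ∀ i, conj (a i) * (F ω * conj (e i ω)) = F ω * conj (a i * e i ω) := by
      intro i; rw [map_mul]; ring
    simp_rw [h4]
    rw [tsum_mul_left, ← Complex.conj_tsum]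
    rw [Complex.mul_conj']
    push_cast
    rfl
  rw [h3] at h1
  exact Complex.hasSum_ofReal.mp h1

end Parseval

end Pool.Agent.H51
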