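import Pool.Agent.H51.CycArr

set_option autoImplicit false
open MeasureTheory Finset
open scoped ComplexConjugate

/-! Absolutely summable arrays on the closed bidisc, convolution, Parseval. -/

namespace Pool.Agent.H51

/-- first coordinate of the point of the torus with parameters `(s,t)` -/
noncomputable def zOne (ω : ℝ × ℝ) : ℂ := Complex.exp (ω.1 * Complex.I)
/-- second coordinate -/
noncomputable def zTwo (ω : ℝ × ℝ) : ℂ := Complex.exp ((ω.1 + ω.2) * Complex.I)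

theorem norm_zOne (ω : ℝ × ℝ) : ‖zOne ω‖ = 1 := Complex.norm_exp_ofReal_mul_I _
theorem norm_zTwo (ω : ℝ × ℝ) : ‖zTwo ω‖ = 1 := by
  unfold zTwo
  rw [← Complex.ofReal_add]
  exact Complex.norm_exp_ofReal_mul_I _

theorem continuous_zOne : Continuous zOne := by unfold zOne; fun_prop
theorem continuous_zTwo : Continuous zTwo := by unfold zTwo; fun_prop

/-- the characters -/
noncomputable def chr (p : ℕ × ℕ) (ω : ℝ × ℝ) : ℂ := zOne ω ^ p.1 * zTwo ω ^ p.2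

theorem continuous_chr (p : ℕ × ℕ) : Continuous (chr p) :=
  (continuous_zOne.pow _).mul (continuous_zTwo.pow _)

theorem norm_chr (p : ℕ × ℕ) (ω : ℝ × ℝ) : ‖chr p ω‖ ≤ 1 := by
  unfold chr
  rw [norm_mul, norm_pow, norm_pow, norm_zOne, norm_zTwo]
  simp

theorem chr_orth (p q : ℕ × ℕ) :
    ∫ ω, chr p ω * conj (chr q ω) ∂(nu.prod nu) = if p = q then 1 else 0 := by
  have h1 : ∀ ω : ℝ × ℝ, chr p ω * conj (chr q ω)
      = Complex.exp ((((p.1 + p.2 : ℤ) - (q.1 + q.2) : ℤ) : ℂ) * ω.1 * Complex.I)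
        * Complex.exp ((((p.2 : ℤ) - q.2 : ℤ) : ℂ) * ω.2 * Complex.I) := by
    intro ω
    unfold chr zOne zTwo
    rw [map_mul, map_pow, map_pow, ← Complex.exp_conj, ← Complex.exp_conj, ← Complex.exp_nat_mul,
      ← Complex.exp_nat_mul, ← Complex.exp_nat_mul, ← Complex.exp_nat_mul, ← Complex.exp_add,
      ← Complex.exp_add, ← Complex.exp_add, ← Complex.exp_add]
    congr 1
    simp only [map_mul, map_add, Complex.conj_ofReal, Complex.conj_I]
    push_cast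
    ring
  simp_rw [h1]
  rw [integral_prod_mul (fun s : ℝ => Complex.exp ((((p.1 + p.2 : ℤ) - (q.1 + q.2) : ℤ) : ℂ) * s * Complex.I))
    (fun t : ℝ => Complex.exp ((((p.2 : ℤ) - q.2 : ℤ) : ℂ) * t * Complex.I)),
    integral_exp_nu, integral_exp_nu]
  by_cases h : p = q
  · subst h
    simp
  · rw [if_neg h]
    by_cases h2 : ((p.2 : ℤ) - q.2) = 0
    · have h3 : ¬ ((p.1 + p.2 : ℤ) - (q.1 + q.2)) = 0 := by
        intro h3
        apply h
        ext
        · omega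
        · omega
      rw [if_neg h3, zero_mul]
    · rw [if_neg h2, mul_zero]

/-- the convolution of two arrays, in the form used in the statement -/
def conv (a b : ℕ × ℕ → ℂ) (p : ℕ × ℕ) : ℂ :=
  ∑ i ∈ range (p.1 + 1), ∑ j ∈ range (p.2 + 1), a (i, j) * b (p.1 - i, p.2 - j)

/-- pairs adding up to `p` -/
def antiProd (p : ℕ × ℕ) : Finset ((ℕ × ℕ) × (ℕ × ℕ)) :=
  (range (p.1 + 1) ×ˢ range (p.2 + 1)).map
    ⟨fun s => (s, (p.1 - s.1, p.2 - s.2)), fun _ _ h => (Prod.mk.inj h).1⟩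

theorem mem_antiProd {p : ℕ × ℕ} {x : (ℕ × ℕ) × (ℕ × ℕ)} : x ∈ antiProd p ↔ x.1 + x.2 = p := by
  obtain ⟨⟨a, b⟩, ⟨c, d⟩⟩ := x
  obtain ⟨m, n⟩ := p
  simp only [antiProd, mem_map, mem_product, mem_range, Function.Embedding.coeFn_mk, Prod.mk.injEq,
    Prod.exists, Prod.mk_add_mk]
  constructor
  · rintro ⟨i, j, ⟨hi, hj⟩, ⟨rfl, rfl⟩, rfl, rfl⟩
    omega
  · rintro ⟨rfl, rfl⟩
    exact ⟨a, b, ⟨by omega, by omega⟩, ⟨rfl, rfl⟩, by omega, by omega⟩

/-- local antidiagonal structure on `ℕ × ℕ` -/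
@[reducible] def antiInst : HasAntidiagonal (ℕ × ℕ) where
  antidiagonal := antiProd
  mem_antidiagonal := mem_antiProd

theorem conv_eq (a b : ℕ × ℕ → ℂ) (p : ℕ × ℕ) :
    conv a b p = ∑ x ∈ antiProd p, a x.1 * b x.2 := by
  unfold conv antiProd
  rw [sum_map, sum_product]
  rfl

/-- `a` is an absolutely summable array representing `F` on the closed bidisc -/
def IsArr (a : ℕ × ℕ → ℂ) (F : ℂ → ℂ → ℂ) : Prop :=
  (Summable fun p => ‖a p‖) ∧
    ∀ z w : ℂ, ‖z‖ ≤ 1 → ‖w‖ ≤ 1 → HasSum (fun p : ℕ × ℕ => a p * (z ^ p.1 * w ^ p.2)) (F z w)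

theorem IsArr.norm_summable {a : ℕ × ℕ → ℂ} {z w : ℂ} (ha : Summable fun p => ‖a p‖)
    (hz : ‖z‖ ≤ 1) (hw : ‖w‖ ≤ 1) : Summable fun p : ℕ × ℕ => ‖a p * (z ^ p.1 * w ^ p.2)‖ := by
  refine Summable.of_nonneg_of_le (fun p => norm_nonneg _) (fun p => ?_) ha
  rw [norm_mul, norm_mul, norm_pow, norm_pow]
  refine mul_le_of_le_one_right (norm_nonneg _) ?_
  exact mul_le_one₀ (pow_le_one₀ (norm_nonneg _) hz) (by positivity)
    (pow_le_one₀ (norm_nonneg _) hw)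

theorem conv_summable {a b : ℕ × ℕ → ℂ} (ha : Summable fun p => ‖a p‖)
    (hb : Summable fun p => ‖b p‖) : Summable fun p => ‖conv a b p‖ := by
  let _ := antiInst
  have h1 : Summable fun x : (ℕ × ℕ) × (ℕ × ℕ) => ‖a x.1‖ * ‖b x.2‖ :=
    ha.mul_of_nonneg hb (fun _ => norm_nonneg _) (fun _ => norm_nonneg _)
  have h2 := summable_sum_mul_antidiagonal_of_summable_mul (f := fun p => ‖a p‖)
    (g := fun p => ‖b p‖) h1
  refine Summable.of_nonneg_of_le (fun p => norm_nonneg _) (fun p => ?_) h2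
  rw [conv_eq]
  refine (norm_sum_le _ _).trans (le_of_eq ?_)
  refine sum_congr rfl fun x _ => ?_
  rw [norm_mul]

theorem conv_hasSum {a b : ℕ × ℕ → ℂ} {z w A B : ℂ}
    (ha : Summable fun p : ℕ × ℕ => ‖a p * (z ^ p.1 * w ^ p.2)‖)
    (hb : Summable fun p : ℕ × ℕ => ‖b p * (z ^ p.1 * w ^ p.2)‖)
    (hA : HasSum (fun p : ℕ × ℕ => a p * (z ^ p.1 * w ^ p.2)) A)
    (hB : HasSum (fun p : ℕ × ℕ => b p * (z ^ p.1 * w ^ p.2)) B) :
    HasSum (fun p : ℕ × ℕ => conv a b p * (z ^ p.1 * w ^ p.2)) (A * B) := by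
  let _ := antiInst
  set f : ℕ × ℕ → ℂ := fun p => a p * (z ^ p.1 * w ^ p.2) with hf
  set g : ℕ × ℕ → ℂ := fun p => b p * (z ^ p.1 * w ^ p.2) with hg
  have h0 : Summable fun x : (ℕ × ℕ) × (ℕ × ℕ) => f x.1 * g x.2 :=
    summable_mul_of_summable_norm (f := f) (g := g) ha hb
  have h1 := hA.summable.tsum_mul_tsum_eq_tsum_sum_antidiagonal hB.summable h0
  have h2 := summable_sum_mul_antidiagonal_of_summable_mul (f := f) (g := g) h0
  have h3 : ∀ p : ℕ × ℕ, ∑ x ∈ antidiagonal p, f x.1 * g x.2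
      = conv a b p * (z ^ p.1 * w ^ p.2) := by
    intro p
    rw [conv_eq, sum_mul]
    refine sum_congr rfl fun x hx => ?_
    have hx' : x.1 + x.2 = p := mem_antiProd.mp hx
    rw [← hx', Prod.fst_add, Prod.snd_add, pow_add, pow_add, hf, hg]
    ring
  simp_rw [h3] at h1 h2
  rw [hA.tsum_eq, hB.tsum_eq] at h1
  rw [h1]
  exact h2.hasSum

theorem IsArr.mul {a b : ℕ × ℕ → ℂ} {F G : ℂ → ℂ → ℂ} (ha : IsArr a F) (hb : IsArr b G) :
    IsArr (conv a b) (fun z w => F z w * G z w) := by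
  refine ⟨conv_summable ha.1 hb.1, fun z w hz hw => ?_⟩
  exact conv_hasSum (IsArr.norm_summable ha.1 hz hw) (IsArr.norm_summable hb.1 hz hw)
    (ha.2 z w hz hw) (hb.2 z w hz hw)

theorem IsArr.coeff {a : ℕ × ℕ → ℂ} {F : ℂ → ℂ → ℂ} (ha : IsArr a F) (p : ℕ × ℕ) :
    a p = ∫ ω, F (zOne ω) (zTwo ω) * conj (chr p ω) ∂(nu.prod nu) := by
  rw [← coeff_eq_integral (μ := nu.prod nu) (e := chr)
    (fun i => (continuous_chr i).aestronglyMeasurable) norm_chr chr_orth ha.1 p]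
  refine integral_congr_ae (Filter.Eventually.of_forall fun ω => ?_)
  simp only
  congr 1
  exact (ha.2 _ _ (norm_zOne ω).le (norm_zTwo ω).le).tsum_eq

theorem IsArr.unique {a b : ℕ × ℕ → ℂ} {F G : ℂ → ℂ → ℂ} (ha : IsArr a F) (hb : IsArr b G)
    (h : ∀ z w : ℂ, ‖z‖ ≤ 1 → ‖w‖ ≤ 1 → F z w = G z w) : a = b := by
  funext p
  rw [ha.coeff, hb.coeff]
  refine integral_congr_ae (Filter.Eventually.of_forall fun ω => ?_)
  simp only
  rw [h _ _ (norm_zOne ω).le (norm_zTwo ω).le]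

theorem IsArr.parseval {a : ℕ × ℕ → ℂ} {F : ℂ → ℂ → ℂ} (ha : IsArr a F) :
    HasSum (fun p => ‖a p‖ ^ 2) (∫ ω, ‖F (zOne ω) (zTwo ω)‖ ^ 2 ∂(nu.prod nu)) := by
  have h := Pool.Agent.H51.parseval (μ := nu.prod nu) (e := chr)
    (fun i => (continuous_chr i).aestronglyMeasurable) norm_chr chr_orth ha.1
  have h2 : ∀ ω, ∑' i, a i * chr i ω = F (zOne ω) (zTwo ω) := fun ω =>
    (ha.2 _ _ (norm_zOne ω).le (norm_zTwo ω).le).tsum_eq
  simp_rw [h2] at h
  exact h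

/-- one-variable version of Parseval -/
theorem parseval_one {a : ℕ → ℂ} (ha : Summable fun n => ‖a n‖) :
    HasSum (fun n => ‖a n‖ ^ 2) (∫ α : ℝ, ‖∑' n, a n * Complex.exp (α * Complex.I) ^ n‖ ^ 2 ∂nu) := by
  refine Pool.Agent.H51.parseval (μ := nu) (e := fun (n : ℕ) (α : ℝ) => Complex.exp (α * Complex.I) ^ n)
    (fun i => Continuous.aestronglyMeasurable (by fun_prop)) (fun i ω => ?_) (fun p q => ?_) ha
  · rw [norm_pow, Complex.norm_exp_ofReal_mul_I, one_pow]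
  · have h1 : ∀ ω : ℝ, Complex.exp (ω * Complex.I) ^ p * conj (Complex.exp (ω * Complex.I) ^ q)
        = Complex.exp ((((p : ℤ) - q : ℤ) : ℂ) * ω * Complex.I) := by
      intro ω
      rw [map_pow, ← Complex.exp_conj, ← Complex.exp_nat_mul, ← Complex.exp_nat_mul,
        ← Complex.exp_add]
      congr 1
      simp only [map_mul, Complex.conj_ofReal, Complex.conj_I]
      push_cast
      ring
    simp_rw [h1]
    rw [integral_exp_nu]
    by_cases h : p = q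
    · subst h; simp
    · rw [if_neg h, if_neg]
      omega

end Pool.Agent.H51
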