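import Pool.Agent.H51.CycArr2

set_option autoImplicit false
open MeasureTheory Finset
open scoped ComplexConjugate

/-! Arrays of the exponential of a polynomial in two variables, and limits of such arrays. -/

namespace Pool.Agent.H51

/-- the unit array -/
def dlt (p : ℕ × ℕ) : ℂ := if p = 0 then 1 else 0

theorem dlt_isArr : IsArr dlt (fun _ _ => 1) := by
  constructor
  · refine summable_of_ne_finset_zero (s := {0}) fun p hp => ?_
    have : p ≠ 0 := by simpa using hp
    simp [dlt, this]
  · intro z w _ _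
    have h := hasSum_single (f := fun p : ℕ × ℕ => dlt p * (z ^ p.1 * w ^ p.2)) (0 : ℕ × ℕ)
      (fun p hp => by simp [dlt, hp])
    simpa [dlt] using h

theorem conv_congr {a a' b b' : ℕ × ℕ → ℂ} {p : ℕ × ℕ}
    (h1 : ∀ q : ℕ × ℕ, q.1 + q.2 ≤ p.1 + p.2 → a q = a' q)
    (h2 : ∀ q : ℕ × ℕ, q.1 + q.2 ≤ p.1 + p.2 → b q = b' q) : conv a b p = conv a' b' p := by
  unfold conv
  refine sum_congr rfl fun i hi => sum_congr rfl fun j hj => ?_
  rw [mem_range] at hi hj
  rw [h1 _ (by simp only; omega), h2 _ (by simp only; omega)]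

theorem conv_dlt (a : ℕ × ℕ → ℂ) (p : ℕ × ℕ) : conv a dlt p = a p := by
  unfold conv
  rw [sum_eq_single_of_mem p.1 (by simp), sum_eq_single_of_mem p.2 (by simp)]
  · simp [dlt]
  · intro j hj hne
    rw [mem_range] at hj
    have : ((p.1 - p.1, p.2 - j) : ℕ × ℕ) ≠ 0 := by
      intro h
      have := (Prod.mk.inj h).2
      omega
    simp only [dlt, if_neg this, mul_zero]
  · intro i hi hne
    rw [mem_range] at hi
    refine sum_eq_zero fun j _ => ?_
    have : ((p.1 - i, p.2 - j) : ℕ × ℕ) ≠ 0 := by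
      intro h
      have := (Prod.mk.inj h).1
      omega
    simp only [dlt, if_neg this, mul_zero]

/-- the array of the exponential of a monomial -/
theorem exists_arr_monomial (c : ℂ) (s : ℕ × ℕ) :
    ∃ a, IsArr a (fun z w => Complex.exp (c * (z ^ s.1 * w ^ s.2))) ∧
      ∀ D, (c ≠ 0 → D ≤ s.1 + s.2) → ∀ p : ℕ × ℕ, p.1 + p.2 < D → a p = dlt p := by
  by_cases hs : s.1 + s.2 = 0
  · have h1 : s.1 = 0 := by omega
    have h2 : s.2 = 0 := by omega
    refine ⟨fun p => Complex.exp c * dlt p, ⟨?_, ?_⟩, ?_⟩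
    · simpa using dlt_isArr.1.mul_left ‖Complex.exp c‖
    · intro z w hz hw
      have := (dlt_isArr.2 z w hz hw).mul_left (Complex.exp c)
      simpa [h1, h2, mul_assoc] using this
    · intro D hD p hp
      by_cases hc : c = 0
      · simp [hc]
      · have := hD hc
        omega
  · -- the injection `k ↦ (k s.1, k s.2)`
    set g : ℕ → ℕ × ℕ := fun k => (k * s.1, k * s.2) with hg
    have hinj : Function.Injective g := by
      intro k l hkl
      have h1 := (Prod.mk.inj hkl).1
      have h2 := (Prod.mk.inj hkl).2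
      have h3 : k * (s.1 + s.2) = l * (s.1 + s.2) := by rw [mul_add, mul_add, h1, h2]
      exact Nat.eq_of_mul_eq_mul_right (Nat.pos_of_ne_zero hs) h3
    have key : ∀ x : ℂ, HasSum (fun k : ℕ => x ^ k / (k.factorial : ℂ)) (Complex.exp x) := by
      intro x
      rw [Complex.exp_eq_exp_ℂ]
      exact NormedSpace.expSeries_div_hasSum_exp x
    refine ⟨Function.extend g (fun k => c ^ k / (k.factorial : ℂ)) 0, ⟨?_, ?_⟩, ?_⟩
    · have h1 : Summable fun k : ℕ => ‖c ^ k / (k.factorial : ℂ)‖ := by
        exact NormedSpace.norm_expSeries_div_summable c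
      have h2 : (fun p => ‖Function.extend g (fun k => c ^ k / (k.factorial : ℂ)) 0 p‖)
          = Function.extend g (fun k => ‖c ^ k / (k.factorial : ℂ)‖) 0 := by
        funext p
        by_cases hp : ∃ k, g k = p
        · obtain ⟨k, rfl⟩ := hp
          rw [hinj.extend_apply, hinj.extend_apply]
        · rw [Function.extend_apply' _ _ _ hp, Function.extend_apply' _ _ _ hp]
          simp
      rw [h2]
      exact (hasSum_extend_zero hinj).mpr h1.hasSum |>.summable
    · intro z w _ _
      have h2 : (fun p : ℕ × ℕ => Function.extend g (fun k => c ^ k / (k.factorial : ℂ)) 0 p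
            * (z ^ p.1 * w ^ p.2))
          = Function.extend g (fun k => (c * (z ^ s.1 * w ^ s.2)) ^ k / (k.factorial : ℂ)) 0 := by
        funext p
        by_cases hp : ∃ k, g k = p
        · obtain ⟨k, rfl⟩ := hp
          rw [hinj.extend_apply, hinj.extend_apply]
          simp only [hg]
          rw [mul_pow, mul_pow, ← pow_mul, ← pow_mul, mul_comm s.1 k, mul_comm s.2 k]
          ring
        · rw [Function.extend_apply' _ _ _ hp, Function.extend_apply' _ _ _ hp]
          simp
      rw [h2]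
      exact (hasSum_extend_zero hinj).mpr (key _)
    · intro D hD p hp
      by_cases hp0 : p = 0
      · have : g 0 = p := by rw [hp0]; simp [hg]
        rw [← this, hinj.extend_apply]
        simp [hg, dlt]
      · by_cases hp1 : ∃ k, g k = p
        · obtain ⟨k, rfl⟩ := hp1
          rw [hinj.extend_apply]
          have hk : k ≠ 0 := by
            rintro rfl
            exact hp0 (by simp [hg])
          by_cases hc : c = 0
          · rw [hc, zero_pow hk]
            simp [dlt, hp0]
          · exfalso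
            have h1 := hD hc
            simp only [hg] at hp
            have h2 : 1 * (s.1 + s.2) ≤ k * (s.1 + s.2) :=
              Nat.mul_le_mul_right _ (Nat.one_le_iff_ne_zero.mpr hk)
            nlinarith
        · rw [Function.extend_apply' _ _ _ hp1]
          simp [dlt, hp0]

theorem exists_arr_sum {ι : Type*} [DecidableEq ι] (T : Finset ι) (c : ι → ℂ) (s : ι → ℕ × ℕ) :
    ∃ a, IsArr a (fun z w => Complex.exp (∑ i ∈ T, c i * (z ^ (s i).1 * w ^ (s i).2))) ∧
      ∀ D, (∀ i ∈ T, c i ≠ 0 → D ≤ (s i).1 + (s i).2) →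
        ∀ p : ℕ × ℕ, p.1 + p.2 < D → a p = dlt p := by
  induction T using Finset.induction_on with
  | empty =>
    refine ⟨dlt, ?_, fun D _ p _ => rfl⟩
    simpa using dlt_isArr
  | insert i T hi ih =>
    obtain ⟨a, ha, ha'⟩ := ih
    obtain ⟨b, hb, hb'⟩ := exists_arr_monomial (c i) (s i)
    refine ⟨conv b a, ?_, fun D hD p hp => ?_⟩
    · have := hb.mul ha
      simp_rw [Finset.sum_insert hi, Complex.exp_add]
      exact this
    · rw [conv_congr (a' := dlt) (b' := dlt)
        (fun q hq => hb' D (hD i (mem_insert_self i T)) q (by omega))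
        (fun q hq => ha' D (fun j hj => hD j (mem_insert_of_mem hj)) q (by omega)), conv_dlt]

/-- evaluation of a polynomial in two variables -/
noncomputable def ev (P : MvPolynomial (Fin 2) ℂ) (z w : ℂ) : ℂ := MvPolynomial.eval ![z, w] P

theorem ev_eq (P : MvPolynomial (Fin 2) ℂ) (z w : ℂ) :
    ev P z w = ∑ s ∈ P.support, P.coeff s * (z ^ (s 0) * w ^ (s 1)) := by
  rw [ev, MvPolynomial.eval_eq']
  refine sum_congr rfl fun s _ => ?_
  rw [Fin.prod_univ_two]
  rfl

/-- all monomials of `P` have total degree at least `D` -/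
def LowVan (D : ℕ) (P : MvPolynomial (Fin 2) ℂ) : Prop := ∀ s ∈ P.support, D ≤ s 0 + s 1

theorem exists_arr (P : MvPolynomial (Fin 2) ℂ) :
    ∃ a, IsArr a (fun z w => Complex.exp (ev P z w)) ∧
      ∀ D, LowVan D P → ∀ p : ℕ × ℕ, p.1 + p.2 < D → a p = dlt p := by
  classical
  obtain ⟨a, ha, ha'⟩ := exists_arr_sum P.support (fun s => P.coeff s) (fun s => (s 0, s 1))
  refine ⟨a, ?_, fun D hD p hp => ha' D (fun s hs _ => hD s hs) p hp⟩
  simp_rw [ev_eq]
  exact ha

/-- the array of `exp P` -/
noncomputable def earr (P : MvPolynomial (Fin 2) ℂ) : ℕ × ℕ → ℂ := (exists_arr P).choose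

theorem earr_isArr (P : MvPolynomial (Fin 2) ℂ) :
    IsArr (earr P) (fun z w => Complex.exp (ev P z w)) := (exists_arr P).choose_spec.1

theorem earr_low {P : MvPolynomial (Fin 2) ℂ} {D : ℕ} (hD : LowVan D P) {p : ℕ × ℕ}
    (hp : p.1 + p.2 < D) : earr P p = dlt p := (exists_arr P).choose_spec.2 D hD p hp

theorem ev_add (P Q : MvPolynomial (Fin 2) ℂ) (z w : ℂ) : ev (P + Q) z w = ev P z w + ev Q z w :=
  map_add _ _ _
theorem ev_mul (P Q : MvPolynomial (Fin 2) ℂ) (z w : ℂ) : ev (P * Q) z w = ev P z w * ev Q z w :=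
  map_mul _ _ _
theorem ev_neg (P : MvPolynomial (Fin 2) ℂ) (z w : ℂ) : ev (-P) z w = - ev P z w :=
  map_neg _ _

theorem earr_add (P Q : MvPolynomial (Fin 2) ℂ) : earr (P + Q) = conv (earr P) (earr Q) := by
  refine (earr_isArr (P + Q)).unique ((earr_isArr P).mul (earr_isArr Q)) fun z w _ _ => ?_
  rw [ev_add, Complex.exp_add]

theorem conv_earr_neg (P : MvPolynomial (Fin 2) ℂ) : conv (earr P) (earr (-P)) = dlt := by
  refine ((earr_isArr P).mul (earr_isArr (-P))).unique dlt_isArr fun z w _ _ => ?_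
  rw [ev_neg, ← Complex.exp_add, add_neg_cancel, Complex.exp_zero]

theorem earr_stab {P Q : MvPolynomial (Fin 2) ℂ} {D : ℕ} (hD : LowVan D (Q - P)) {p : ℕ × ℕ}
    (hp : p.1 + p.2 < D) : earr Q p = earr P p := by
  have h : Q = P + (Q - P) := by ring
  conv_lhs => rw [h]
  rw [earr_add, conv_congr (a' := earr P) (b' := dlt) (fun _ _ => rfl)
    (fun q hq => earr_low hD (by omega)), conv_dlt]

section limit

variable (P : ℕ → MvPolynomial (Fin 2) ℂ) (hP : ∀ J, LowVan (J + 1) (P (J + 1) - P J))

/-- limit array -/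
noncomputable def limArr (p : ℕ × ℕ) : ℂ := earr (P (p.1 + p.2)) p

include hP in
theorem earr_eq_limArr {p : ℕ × ℕ} {J : ℕ} (hJ : p.1 + p.2 ≤ J) : earr (P J) p = limArr P p := by
  induction J, hJ using Nat.le_induction with
  | base => rfl
  | succ J hJ ih =>
    rw [← ih]
    exact earr_stab (hP J) (by omega)

include hP in
theorem limArr_conv (p : ℕ × ℕ) :
    conv (limArr P) (limArr fun J => -P J) p = dlt p := by
  have hP' : ∀ J, LowVan (J + 1) (-P (J + 1) - -P J) := by
    intro J
    have h : -P (J + 1) - -P J = -(P (J + 1) - P J) := by ring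
    rw [h]
    unfold LowVan
    rw [MvPolynomial.support_neg]
    exact hP J
  rw [conv_congr (a' := earr (P (p.1 + p.2))) (b' := earr (-P (p.1 + p.2)))
    (fun q hq => (earr_eq_limArr P hP hq).symm)
    (fun q hq => (earr_eq_limArr (fun J => -P J) hP' hq).symm), conv_earr_neg]

variable (C : ℝ) (hC : ∀ J, ∫ ω, ‖Complex.exp (ev (P J) (zOne ω) (zTwo ω))‖ ^ 2 ∂(nu.prod nu) ≤ C)

include hP hC in
theorem limArr_summable : Summable fun p => ‖limArr P p‖ ^ 2 := by
  refine summable_of_sum_le (c := C) (fun p => by positivity) fun T => ?_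
  set J := T.sup fun p => p.1 + p.2 with hJ
  have h1 : ∑ p ∈ T, ‖limArr P p‖ ^ 2 = ∑ p ∈ T, ‖earr (P J) p‖ ^ 2 := by
    refine sum_congr rfl fun p hp => ?_
    rw [earr_eq_limArr P hP]
    exact Finset.le_sup (f := fun p : ℕ × ℕ => p.1 + p.2) hp
  rw [h1]
  have h2 := (earr_isArr (P J)).parseval
  refine le_trans ?_ (hC J)
  rw [← h2.tsum_eq]
  exact h2.summable.sum_le_tsum T fun p _ => by positivity

include hP hC in
theorem limArr_diag (z : ℂ) (hz : ‖z‖ < 1) :
    Summable (fun p : ℕ × ℕ => ‖limArr P p * (z ^ p.1 * z ^ p.2)‖) ∧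
    Filter.Tendsto (fun J => Complex.exp (ev (P J) z z)) Filter.atTop
      (nhds (∑' p : ℕ × ℕ, limArr P p * (z ^ p.1 * z ^ p.2))) := by
  have hC0 : 0 ≤ C := le_trans (integral_nonneg fun ω => by positivity) (hC 0)
  have hb : ∀ J p, ‖earr (P J) p‖ ≤ Real.sqrt C := by
    intro J p
    refine Real.le_sqrt_of_sq_le ?_
    have h2 := (earr_isArr (P J)).parseval
    refine le_trans ?_ (hC J)
    rw [← h2.tsum_eq]
    exact h2.summable.le_tsum p fun q _ => by positivity
  have hgeom : Summable fun p : ℕ × ℕ => Real.sqrt C * (‖z‖ ^ p.1 * ‖z‖ ^ p.2) := by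
    have h1 : Summable fun n : ℕ => ‖z‖ ^ n := summable_geometric_of_lt_one (norm_nonneg _) hz
    exact (h1.mul_of_nonneg h1 (fun _ => by positivity) (fun _ => by positivity)).mul_left _
  have hb' : ∀ J p, ‖earr (P J) p * (z ^ p.1 * z ^ p.2)‖ ≤ Real.sqrt C * (‖z‖ ^ p.1 * ‖z‖ ^ p.2) := by
    intro J p
    rw [norm_mul, norm_mul, norm_pow, norm_pow]
    exact mul_le_mul_of_nonneg_right (hb J p) (by positivity)
  constructor
  · refine Summable.of_nonneg_of_le (fun p => norm_nonneg _) (fun p => ?_) hgeom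
    rw [← earr_eq_limArr P hP le_rfl]
    exact hb' _ p
  · have h1 := tendsto_tsum_of_dominated_convergence
      (f := fun J (p : ℕ × ℕ) => earr (P J) p * (z ^ p.1 * z ^ p.2))
      (g := fun p : ℕ × ℕ => limArr P p * (z ^ p.1 * z ^ p.2)) (𝓕 := Filter.atTop) hgeom
      (fun p => ?_) (Filter.Eventually.of_forall fun J p => hb' J p)
    · refine h1.congr fun J => ?_
      exact ((earr_isArr (P J)).2 z z hz.le hz.le).tsum_eq
    · refine tendsto_const_nhds.congr' ?_
      filter_upwards [Filter.eventually_ge_atTop (p.1 + p.2)] with J hJ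
      rw [earr_eq_limArr P hP hJ]

end limit

end Pool.Agent.H51
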