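import Pool.Agent.H51.CycPoisson

set_option autoImplicit false
open MeasureTheory Polynomial
open scoped ENNReal

/-! The killed Poisson chain. -/

namespace Pool.Agent.H51

/-- the Poisson kernel between two concentric circles, as an extended nonnegative real -/
noncomputable def kE (r R α β : ℝ) : ℝ≥0∞ :=
  ENNReal.ofReal (poissonKernel 0 (circleMap 0 r α) (circleMap 0 R β))

theorem circleMap_mem_ball' {r R : ℝ} (hr : 0 ≤ r) (hrR : r < R) (α : ℝ) :
    circleMap 0 r α ∈ Metric.ball (0 : ℂ) R := by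
  simpa [abs_of_nonneg hr] using hrR

theorem measurable_kE (r R : ℝ) : Measurable (fun p : ℝ × ℝ => kE r R p.1 p.2) := by
  unfold kE
  simp only [poissonKernel_def, sub_zero]
  refine ENNReal.measurable_ofReal.comp (Measurable.div ?_ ?_)
  · exact Continuous.measurable (by fun_prop)
  · exact Continuous.measurable (by fun_prop)

theorem lintegral_kE {r R : ℝ} (hr : 0 ≤ r) (hrR : r < R) (α : ℝ) :
    ∫⁻ β, kE r R α β ∂nu = 1 := by
  have hb := circleMap_mem_ball' hr hrR α
  unfold kE
  rw [← ofReal_integral_eq_lintegral_ofReal (integrable_nu (continuous_poisson hb))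
    (Filter.Eventually.of_forall fun θ => poisson_nonneg hb θ), poisson_one hb, ENNReal.ofReal_one]

theorem kE_symm {r R : ℝ} (α β : ℝ) : kE r R α β = kE r R β α := by
  unfold kE
  congr 1
  simp only [poissonKernel_def, sub_zero]
  have h1 : ‖circleMap 0 R β - circleMap 0 r α‖ = ‖circleMap 0 R α - circleMap 0 r β‖ := by
    rw [← sq_eq_sq₀ (norm_nonneg _) (norm_nonneg _), ← Complex.normSq_eq_norm_sq,
      ← Complex.normSq_eq_norm_sq]
    simp only [circleMap, zero_add, Complex.normSq_apply, Complex.sub_re, Complex.sub_im,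
      Complex.re_ofReal_mul, Complex.im_ofReal_mul, Complex.exp_ofReal_mul_I_re,
      Complex.exp_ofReal_mul_I_im]
    have h1 := Real.sin_sq_add_cos_sq α
    have h2 := Real.sin_sq_add_cos_sq β
    linear_combination (R ^ 2 - r ^ 2) * h2 + (r ^ 2 - R ^ 2) * h1
  rw [h1]
  simp

theorem lintegral_kE' {r R : ℝ} (hr : 0 ≤ r) (hrR : r < R) (β : ℝ) :
    ∫⁻ α, kE r R α β ∂nu = 1 := by
  simp_rw [kE_symm _ β]
  exact lintegral_kE hr hrR β

theorem subMean_lintegral (q : ℂ[X]) {r R t : ℝ} (hr : 0 ≤ r) (hrR : r < R) (ht : 0 < t) (α : ℝ) :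
    ENNReal.ofReal (‖q.eval (circleMap 0 r α)‖ ^ t) ≤
      ∫⁻ β, kE r R α β * ENNReal.ofReal (‖q.eval (circleMap 0 R β)‖ ^ t) ∂nu := by
  have hb := circleMap_mem_ball' hr hrR α
  have hw : ‖circleMap 0 r α‖ < R := by simpa using hb
  have h1 := subMean q (lt_of_le_of_lt hr hrR) ht hw
  refine (ENNReal.ofReal_le_ofReal h1).trans (le_of_eq ?_)
  rw [ofReal_integral_eq_lintegral_ofReal]
  · refine lintegral_congr fun β => ?_
    rw [kE, ENNReal.ofReal_mul (poisson_nonneg hb β)]
  · refine integrable_nu ((continuous_poisson hb).mul ?_)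
    refine Continuous.rpow_const ?_ (fun _ => Or.inr ht.le)
    exact (q.continuous.comp (continuous_circleMap 0 R)).norm
  · exact Filter.Eventually.of_forall fun θ => mul_nonneg (poisson_nonneg hb θ) (by positivity)

/-- the value at the centre -/
theorem subMean_zero (q : ℂ[X]) {R t : ℝ} (hR : 0 < R) (ht : 0 < t) :
    ENNReal.ofReal (‖q.eval 0‖ ^ t) ≤
      ∫⁻ β, ENNReal.ofReal (‖q.eval (circleMap 0 R β)‖ ^ t) ∂nu := by
  have h := subMean_lintegral q (r := 0) le_rfl hR ht 0
  have h1 : ∀ β, kE 0 R 0 β = 1 := by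
    intro β
    unfold kE
    simp only [poissonKernel_def, sub_zero, circleMap_zero_radius, Function.const_apply, norm_zero,
      norm_circleMap R β hR.le]
    have h2 : R ^ 2 ≠ 0 := by positivity
    have h3 : (R ^ 2 - 0 ^ 2) / R ^ 2 = 1 := by rw [zero_pow two_ne_zero, sub_zero, div_self h2]
    rw [h3, ENNReal.ofReal_one]
  simpa [h1] using h

/-! ### translation invariance -/

theorem lintegral_nu_add {f : ℝ → ℝ≥0∞} (hf : Function.Periodic f (2 * Real.pi)) (s : ℝ) :
    ∫⁻ β, f (β + s) ∂nu = ∫⁻ β, f β ∂nu := by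
  unfold nu
  rw [lintegral_smul_measure, lintegral_smul_measure]
  congr 1
  have h2 : (0 : ℝ) < 2 * Real.pi := by positivity
  have h1 : ∫⁻ β in Set.Ioc 0 (2 * Real.pi), f (β + s)
      = ∫⁻ β in Set.Ioc s (s + 2 * Real.pi), f β := by
    rw [← lintegral_indicator measurableSet_Ioc, ← lintegral_indicator measurableSet_Ioc,
      ← lintegral_add_right_eq_self (fun β => (Set.Ioc s (s + 2 * Real.pi)).indicator (fun β => f β) β) s]
    refine lintegral_congr fun β => ?_
    by_cases hβ : β ∈ Set.Ioc 0 (2 * Real.pi)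
    · have : β + s ∈ Set.Ioc s (s + 2 * Real.pi) := by
        constructor <;> [linarith [hβ.1]; linarith [hβ.2]]
      rw [Set.indicator_of_mem hβ, Set.indicator_of_mem this]
    · have : β + s ∉ Set.Ioc s (s + 2 * Real.pi) := by
        intro h
        exact hβ ⟨by linarith [h.1], by linarith [h.2]⟩
      rw [Set.indicator_of_notMem hβ, Set.indicator_of_notMem this]
  rw [h1]
  have h3 := (isAddFundamentalDomain_Ioc h2 s).setLIntegral_eq (isAddFundamentalDomain_Ioc h2 0) f
    (fun g x => ?_)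
  · simpa using h3
  · obtain ⟨g, hg⟩ := g
    obtain ⟨k, rfl⟩ := AddSubgroup.mem_zmultiples_iff.mp hg
    show f (k • (2 * Real.pi) + x) = f x
    rw [add_comm]
    exact hf.zsmul k x

/-! ### the stop sets -/

/-- points of the circle where `ζ^n` is not close to one -/
def Sset (n : ℕ) : Set ℝ := {β | 1 / 6 < ‖Complex.exp ((n * β : ℝ) * Complex.I) - 1‖}

theorem measurableSet_Sset (n : ℕ) : MeasurableSet (Sset n) := by
  refine (isOpen_lt continuous_const ?_).measurableSet
  fun_prop

theorem norm_exp_sub_one_le_abs (x : ℝ) : ‖Complex.exp (x * Complex.I) - 1‖ ≤ |x| := by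
  have h := Real.norm_exp_I_mul_ofReal_sub_one_le (x := x)
  rwa [mul_comm, Real.norm_eq_abs] at h

theorem Sset_periodic (n : ℕ) (β : ℝ) : β + 2 * Real.pi ∈ Sset n ↔ β ∈ Sset n := by
  unfold Sset
  simp only [Set.mem_ofPred_eq]
  have : Complex.exp (((n : ℝ) * (β + 2 * Real.pi) : ℝ) * Complex.I)
      = Complex.exp (((n : ℝ) * β : ℝ) * Complex.I) := by
    rw [Complex.exp_eq_exp_iff_exists_int]
    refine ⟨n, ?_⟩
    push_cast
    ring
  rw [this]

theorem exists_good_shift {n : ℕ} (hn : 0 < n) (β : ℝ) :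
    ∃ k ∈ Finset.range 38, β - k * (2 * Real.pi / (38 * n)) ∉ Sset n := by
  have hn' : (0 : ℝ) < n := by exact_mod_cast hn
  have hpi := Real.pi_pos
  set m : ℤ := ⌊38 * (n * β) / (2 * Real.pi)⌋ with hm
  have hk0 : 0 ≤ m % 38 := Int.emod_nonneg m (by norm_num)
  have hk1 : m % 38 < 38 := Int.emod_lt_of_pos m (by norm_num)
  refine ⟨(m % 38).toNat, by rw [Finset.mem_range]; omega, ?_⟩
  unfold Sset
  simp only [Set.mem_ofPred_eq, not_lt]
  have hcast : (((m % 38).toNat : ℕ) : ℝ) = ((m % 38 : ℤ) : ℝ) := by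
    have : (((m % 38).toNat : ℕ) : ℤ) = m % 38 := Int.toNat_of_nonneg hk0
    exact_mod_cast this
  have hdm : (38 : ℤ) * (m / 38) + m % 38 = m := Int.mul_ediv_add_emod m 38
  have hdm' : (38 : ℝ) * ((m / 38 : ℤ) : ℝ) + ((m % 38 : ℤ) : ℝ) = (m : ℝ) := by exact_mod_cast hdm
  have h1 : Complex.exp (((n : ℝ) * (β - ((m % 38).toNat : ℕ) * (2 * Real.pi / (38 * n))) : ℝ)
      * Complex.I) = Complex.exp (((n : ℝ) * β - m * (2 * Real.pi / 38) : ℝ) * Complex.I) := by
    rw [Complex.exp_eq_exp_iff_exists_int]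
    refine ⟨m / 38, ?_⟩
    have h2 : (n : ℝ) * (β - ((m % 38).toNat : ℕ) * (2 * Real.pi / (38 * n)))
        = ((n : ℝ) * β - m * (2 * Real.pi / 38)) + ((m / 38 : ℤ) : ℝ) * (2 * Real.pi) := by
      rw [hcast, ← hdm']
      field_simp
      ring
    rw [h2]
    push_cast
    ring
  rw [h1]
  refine (norm_exp_sub_one_le_abs _).trans ?_
  have h3 : (m : ℝ) ≤ 38 * (n * β) / (2 * Real.pi) := Int.floor_le _
  have h4 : 38 * (n * β) / (2 * Real.pi) < m + 1 := Int.lt_floor_add_one _
  rw [le_div_iff₀ (by positivity)] at h3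
  rw [div_lt_iff₀ (by positivity)] at h4
  have h5 : (n : ℝ) * β - m * (2 * Real.pi / 38) = (38 * (n * β) - m * (2 * Real.pi)) / 38 := by ring
  rw [h5, abs_of_nonneg (div_nonneg (by linarith) (by norm_num)), div_le_iff₀ (by norm_num)]
  have := Real.pi_lt_d2
  nlinarith

theorem kE_shift {r R : ℝ} (hr : 0 ≤ r) (hrR : r < R) (hR : R ≤ 1) (α β s : ℝ) (hs : 0 ≤ s)
    (hs' : 128 * s ≤ R - r) :
    kE r R α β ≤ ENNReal.ofReal ((1 + 1 / 128) ^ 2) * kE r R α (β + s) := by
  have hb := circleMap_mem_ball' hr hrR α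
  have hw : ‖circleMap 0 r α‖ = r := norm_circleMap r α hr
  have hR0 : 0 ≤ R := hr.trans hrR.le
  unfold kE
  rw [← ENNReal.ofReal_mul (by positivity)]
  refine ENNReal.ofReal_le_ofReal ?_
  simp only [poissonKernel_def, sub_zero, hw, norm_circleMap _ _ hR0]
  set w := circleMap 0 r α
  have hpos : ∀ β, R - r ≤ ‖circleMap 0 R β - w‖ := by
    intro β
    have := norm_sub_norm_le (circleMap 0 R β) w
    rw [hw, norm_circleMap _ _ hR0] at this
    exact this
  have hd : ‖circleMap 0 R (β + s) - circleMap 0 R β‖ ≤ s := by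
    have h1 : circleMap 0 R (β + s) - circleMap 0 R β
        = circleMap 0 R β * (Complex.exp (s * Complex.I) - 1) := by
      simp only [circleMap, zero_add]
      push_cast
      rw [add_mul, Complex.exp_add]
      ring
    rw [h1, norm_mul, norm_circleMap _ _ hR0]
    have h2 := norm_exp_sub_one_le_abs s
    rw [abs_of_nonneg hs] at h2
    calc R * ‖Complex.exp (s * Complex.I) - 1‖ ≤ 1 * s :=
          mul_le_mul hR h2 (norm_nonneg _) zero_le_one
      _ = s := one_mul s
  have h3 : ‖circleMap 0 R (β + s) - w‖ ≤ (1 + 1 / 128) * ‖circleMap 0 R β - w‖ := by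
    have h4 : circleMap 0 R (β + s) - w
        = (circleMap 0 R (β + s) - circleMap 0 R β) + (circleMap 0 R β - w) := by ring
    rw [h4]
    refine (norm_add_le _ _).trans ?_
    have := hpos β
    linarith
  have hp1 : 0 < ‖circleMap 0 R β - w‖ := lt_of_lt_of_le (by linarith) (hpos β)
  have hp2 : 0 < ‖circleMap 0 R (β + s) - w‖ := lt_of_lt_of_le (by linarith) (hpos (β + s))
  rw [mul_div_assoc', div_le_div_iff₀ (by positivity) (by positivity)]
  have h5 : ‖circleMap 0 R (β + s) - w‖ ^ 2 ≤ ((1 + 1 / 128) * ‖circleMap 0 R β - w‖) ^ 2 :=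
    pow_le_pow_left₀ (norm_nonneg _) h3 2
  have h6 : 0 ≤ R ^ 2 - r ^ 2 := by nlinarith
  calc (R ^ 2 - r ^ 2) * ‖circleMap 0 R (β + s) - w‖ ^ 2
      ≤ (R ^ 2 - r ^ 2) * ((1 + 1 / 128) * ‖circleMap 0 R β - w‖) ^ 2 :=
        mul_le_mul_of_nonneg_left h5 h6
    _ = (1 + 1 / 128) ^ 2 * (R ^ 2 - r ^ 2) * ‖circleMap 0 R β - w‖ ^ 2 := by ring

theorem kE_periodic (r R α : ℝ) (β : ℝ) : kE r R α (β + 2 * Real.pi) = kE r R α β := by
  unfold kE
  rw [periodic_circleMap]

theorem measurable_kE_right (r R α : ℝ) : Measurable (fun β => kE r R α β) := by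
  have h := (measurable_kE r R).comp (measurable_prodMk_left (x := α))
  exact h

theorem stop_mass {n : ℕ} (hn : 0 < n) {r R : ℝ} (hr : 0 ≤ r) (hrR : r < R) (hR : R ≤ 1)
    (hbig : 128 * (2 * Real.pi) ≤ n * (R - r)) (α : ℝ) :
    ∫⁻ β, (Sset n).indicator 1 β * kE r R α β ∂nu ≤ ENNReal.ofReal (99 / 100) := by
  have hn' : (0 : ℝ) < n := by exact_mod_cast hn
  have hpi := Real.pi_pos
  set h : ℝ := 2 * Real.pi / (38 * n) with hh
  set I : ℝ → ℝ≥0∞ := (Sset n).indicator 1 with hI
  have hImeas : Measurable I := measurable_one.indicator (measurableSet_Sset n)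
  have hIper : ∀ β, I (β + 2 * Real.pi) = I β := by
    intro β
    by_cases hβ : β ∈ Sset n
    · rw [hI, Set.indicator_of_mem hβ, Set.indicator_of_mem ((Sset_periodic n β).mpr hβ)]; rfl
    · rw [hI, Set.indicator_of_notMem hβ,
        Set.indicator_of_notMem (fun hc => hβ ((Sset_periodic n β).mp hc))]
  set c : ℝ≥0∞ := ENNReal.ofReal ((1 + 1 / 128) ^ 2) with hc
  have hstep : ∀ k ∈ Finset.range 38, ∫⁻ β, I β * kE r R α β ∂nu ≤
      c * ∫⁻ β, I (β - k * h) * kE r R α β ∂nu := by
    intro k hk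
    have hk' : (k : ℝ) ≤ 38 := by
      have := Finset.mem_range.mp hk
      exact_mod_cast this.le
    have hs0 : 0 ≤ (k : ℝ) * h := by positivity
    have hs1 : 128 * ((k : ℝ) * h) ≤ R - r := by
      have h1 : (k : ℝ) * h ≤ 2 * Real.pi / n := by
        rw [hh]
        have : 2 * Real.pi / (n : ℝ) = 38 * (2 * Real.pi / (38 * n)) := by field_simp
        rw [this]
        exact mul_le_mul_of_nonneg_right hk' (by positivity)
      have h2 : 128 * (2 * Real.pi / n) ≤ R - r := by
        rw [mul_div_assoc', div_le_iff₀ hn']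
        linarith
      linarith
    have hper : Function.Periodic (fun β => I (β - k * h) * kE r R α β) (2 * Real.pi) := by
      intro β
      have : β + 2 * Real.pi - k * h = (β - k * h) + 2 * Real.pi := by ring
      simp only [this, hIper, kE_periodic]
    rw [← lintegral_nu_add hper (k * h), ← lintegral_const_mul]
    · refine lintegral_mono fun β => ?_
      simp only [add_sub_cancel_right]
      calc I β * kE r R α β ≤ I β * (c * kE r R α (β + k * h)) :=
            mul_le_mul_right (kE_shift hr hrR hR α β (k * h) hs0 hs1) _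
        _ = c * (I β * kE r R α (β + k * h)) := by ring
    · have h1 : Measurable fun β => kE r R α (β + k * h) :=
        (measurable_kE_right r R α).comp (measurable_id.add_const _)
      simp only [add_sub_cancel_right]
      exact hImeas.mul h1
  have hsum : ∑ k ∈ Finset.range 38, ∫⁻ β, I β * kE r R α β ∂nu ≤
      ∑ k ∈ Finset.range 38, c * ∫⁻ β, I (β - k * h) * kE r R α β ∂nu :=
    Finset.sum_le_sum hstep
  rw [Finset.sum_const, Finset.card_range, ← Finset.mul_sum] at hsum
  have hsum2 : ∑ k ∈ Finset.range 38, ∫⁻ β, I (β - k * h) * kE r R α β ∂nu ≤ 37 := by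
    rw [← lintegral_finsetSum]
    · calc ∫⁻ β, ∑ k ∈ Finset.range 38, I (β - k * h) * kE r R α β ∂nu
          ≤ ∫⁻ β, 37 * kE r R α β ∂nu := by
            refine lintegral_mono fun β => ?_
            simp only
            rw [← Finset.sum_mul]
            refine mul_le_mul_left ?_ _
            obtain ⟨k0, hk0, hnot⟩ := exists_good_shift hn β
            rw [← Finset.add_sum_erase _ _ hk0]
            have h0 : I (β - k0 * h) = 0 := by
              rw [hI]; exact Set.indicator_of_notMem hnot _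
            rw [h0, zero_add]
            calc ∑ k ∈ (Finset.range 38).erase k0, I (β - k * h)
                ≤ ∑ k ∈ (Finset.range 38).erase k0, (1 : ℝ≥0∞) := by
                  refine Finset.sum_le_sum fun k _ => ?_
                  rw [hI]
                  exact Set.indicator_le_self' (fun _ _ => bot_le) _
              _ = 37 := by
                  rw [Finset.sum_const, Finset.card_erase_of_mem hk0, Finset.card_range]
                  norm_num
        _ = 37 := by
            rw [lintegral_const_mul _ (measurable_kE_right r R α), lintegral_kE hr hrR, mul_one]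
    · intro k _
      exact (hImeas.comp (measurable_id.sub_const _)).mul (measurable_kE_right r R α)
  have hfin : (38 : ℝ≥0∞) * ∫⁻ β, I β * kE r R α β ∂nu ≤ c * 37 := by
    have := hsum.trans (mul_le_mul_right hsum2 c)
    simpa [nsmul_eq_mul] using this
  have h38 : (38 : ℝ≥0∞) * ∫⁻ β, I β * kE r R α β ∂nu ≤ 38 * ENNReal.ofReal (99 / 100) := by
    refine hfin.trans ?_
    have e1 : (37 : ℝ≥0∞) = ENNReal.ofReal 37 := by simp
    have e2 : (38 : ℝ≥0∞) = ENNReal.ofReal 38 := by simp
    rw [hc, e1, e2, ← ENNReal.ofReal_mul (by positivity), ← ENNReal.ofReal_mul (by positivity)]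
    exact ENNReal.ofReal_le_ofReal (by norm_num)
  exact (ENNReal.mul_le_mul_iff_right (by norm_num) (by norm_num)).mp h38

end Pool.Agent.H51
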