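import Pool.Agent.H51.CycChain

set_option autoImplicit false
open MeasureTheory Polynomial
open scoped ENNReal

/-! The killed Poisson chain: operators. -/

namespace Pool.Agent.H51

/-- Poisson averaging from the circle of radius `R` to the circle of radius `r`. -/
noncomputable def Pop (r R : ℝ) (v : ℝ → ℝ≥0∞) (α : ℝ) : ℝ≥0∞ := ∫⁻ β, v β * kE r R α β ∂nu

/-- expectation of the value of `F` at stage `j` of the chain, killed outside the sets `S i`. -/
noncomputable def Dop (r : ℕ → ℝ) (S : ℕ → Set ℝ) : ℕ → (ℝ → ℝ≥0∞) → ℝ≥0∞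
  | 0, F => ∫⁻ α, F α ∂nu
  | j + 1, F => Dop r S j (fun α => (S j).indicator 1 α * Pop (r j) (r (j + 1)) F α)

theorem Pop_mono (r R : ℝ) {F G : ℝ → ℝ≥0∞} (h : ∀ β, F β ≤ G β) (α : ℝ) :
    Pop r R F α ≤ Pop r R G α :=
  lintegral_mono fun β => mul_le_mul_left (h β) _

theorem measurable_Pop (r R : ℝ) {F : ℝ → ℝ≥0∞} (hF : Measurable F) : Measurable (Pop r R F) := by
  unfold Pop
  refine Measurable.lintegral_prod_right' (f := fun p : ℝ × ℝ => F p.2 * kE r R p.1 p.2) ?_
  exact (hF.comp measurable_snd).mul (measurable_kE r R)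

theorem Dop_mono (r : ℕ → ℝ) (S : ℕ → Set ℝ) (j : ℕ) {F G : ℝ → ℝ≥0∞} (h : ∀ β, F β ≤ G β) :
    Dop r S j F ≤ Dop r S j G := by
  induction j generalizing F G with
  | zero => exact lintegral_mono h
  | succ j ih => exact ih fun α => mul_le_mul_right (Pop_mono _ _ h α) _

theorem Pop_add (r R : ℝ) {F G : ℝ → ℝ≥0∞} (hF : Measurable F) (α : ℝ) :
    Pop r R (fun β => F β + G β) α = Pop r R F α + Pop r R G α := by
  unfold Pop
  simp only [add_mul]
  rw [lintegral_add_left]
  exact hF.mul (measurable_kE_right r R α)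

theorem Dop_add (r : ℕ → ℝ) (S : ℕ → Set ℝ) (hS : ∀ j, MeasurableSet (S j)) (j : ℕ)
    {F G : ℝ → ℝ≥0∞} (hF : Measurable F) :
    Dop r S j (fun β => F β + G β) = Dop r S j F + Dop r S j G := by
  induction j generalizing F G with
  | zero => exact lintegral_add_left hF _
  | succ j ih =>
    simp only [Dop]
    rw [← ih]
    · congr 1
      funext α
      rw [Pop_add _ _ hF, mul_add]
    · exact (measurable_one.indicator (hS j)).mul (measurable_Pop _ _ hF)

theorem measurable_kE_left (r R β : ℝ) : Measurable (fun α => kE r R α β) := by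
  have h := (measurable_kE r R).comp (measurable_prodMk_right (y := β))
  exact h

theorem nu_Pop {r R : ℝ} (hr : 0 ≤ r) (hrR : r < R) {F : ℝ → ℝ≥0∞} (hF : Measurable F) :
    ∫⁻ α, Pop r R F α ∂nu = ∫⁻ β, F β ∂nu := by
  unfold Pop
  rw [lintegral_lintegral_swap]
  · refine lintegral_congr fun β => ?_
    rw [lintegral_const_mul, lintegral_kE' hr hrR, mul_one]
    exact measurable_kE_left r R β
  · exact ((hF.comp measurable_snd).mul (measurable_kE r R)).aemeasurable

theorem Pop_const {r R : ℝ} (hr : 0 ≤ r) (hrR : r < R) (c : ℝ≥0∞) (α : ℝ) :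
    Pop r R (fun _ => c) α = c := by
  unfold Pop
  rw [lintegral_const_mul _ (measurable_kE_right r R α), lintegral_kE hr hrR, mul_one]

section
variable (r : ℕ → ℝ) (S : ℕ → Set ℝ) (hr0 : 0 ≤ r 0) (hr : ∀ j, r j < r (j + 1))
  (hS : ∀ j, MeasurableSet (S j))

include hr0 hr in
theorem r_nonneg (j : ℕ) : 0 ≤ r j := by
  induction j with
  | zero => exact hr0
  | succ j ih => exact ih.trans (hr j).le

theorem indicator_one_le (T : Set ℝ) (α : ℝ) : T.indicator (1 : ℝ → ℝ≥0∞) α ≤ 1 :=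
  Set.indicator_le_self' (fun _ _ => bot_le) _

include hr0 hr hS in
theorem Dop_le_nu (j : ℕ) {F : ℝ → ℝ≥0∞} (hF : Measurable F) : Dop r S j F ≤ ∫⁻ α, F α ∂nu := by
  induction j generalizing F with
  | zero => exact le_rfl
  | succ j ih =>
    simp only [Dop]
    have h1 : Measurable (fun α => (S j).indicator 1 α * Pop (r j) (r (j + 1)) F α) :=
      (measurable_one.indicator (hS j)).mul (measurable_Pop _ _ hF)
    refine (ih h1).trans ?_
    rw [← nu_Pop (r_nonneg r hr0 hr j) (hr j) hF]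
    refine lintegral_mono fun α => ?_
    calc (S j).indicator 1 α * Pop (r j) (r (j + 1)) F α ≤ 1 * Pop (r j) (r (j + 1)) F α :=
          mul_le_mul_left (indicator_one_le _ _) _
      _ = Pop (r j) (r (j + 1)) F α := one_mul _

variable (κ : ℝ≥0∞) (hκ0 : ∫⁻ α, (S 0).indicator 1 α ∂nu ≤ κ)
  (hκ : ∀ j α, ∫⁻ β, (S (j + 1)).indicator 1 β * kE (r j) (r (j + 1)) α β ∂nu ≤ κ)

include hκ0 hκ hS in
theorem Dop_const_aux (j : ℕ) (c : ℝ≥0∞) :
    Dop r S j (fun α => (S j).indicator 1 α * c) ≤ κ ^ (j + 1) * c := by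
  induction j generalizing c with
  | zero =>
    simp only [Dop, zero_add, pow_one]
    rw [lintegral_mul_const _ (measurable_one.indicator (hS 0))]
    exact mul_le_mul_left hκ0 _
  | succ j ih =>
    simp only [Dop]
    refine le_trans (Dop_mono r S j (G := fun α => (S j).indicator 1 α * (κ * c)) fun α => ?_) ?_
    · refine mul_le_mul_right ?_ _
      have : Pop (r j) (r (j + 1)) (fun α => (S (j + 1)).indicator 1 α * c) α
          = (∫⁻ β, (S (j + 1)).indicator 1 β * kE (r j) (r (j + 1)) α β ∂nu) * c := by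
        unfold Pop
        rw [← lintegral_mul_const]
        · refine lintegral_congr fun β => ?_
          ring
        · exact (measurable_one.indicator (hS (j + 1))).mul (measurable_kE_right _ _ α)
      rw [this]
      exact mul_le_mul_left (hκ j α) _
    · refine (ih (κ * c)).trans (le_of_eq ?_)
      ring

include hr0 hr hκ0 hκ hS in
theorem Dop_const (j : ℕ) (c : ℝ≥0∞) : Dop r S j (fun _ => c) ≤ κ ^ j * c := by
  cases j with
  | zero => simp [Dop]
  | succ j =>
    simp only [Dop]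
    simp_rw [Pop_const (r_nonneg r hr0 hr j) (hr j) c]
    exact Dop_const_aux r S hS κ hκ0 hκ j c

include hS in
theorem Dop_chain (u : ℕ → ℝ → ℝ≥0∞) (hu : ∀ j, Measurable (u j))
    (hsub : ∀ j α, u j α ≤ Pop (r j) (r (j + 1)) (u (j + 1)) α) (J : ℕ) :
    ∫⁻ α, u 0 α ∂nu ≤
      ∑ j ∈ Finset.range J, Dop r S j (fun α => (S j)ᶜ.indicator 1 α * u j α) + Dop r S J (u J) := by
  induction J with
  | zero => simp [Dop]
  | succ J ih =>
    refine ih.trans ?_
    rw [Finset.sum_range_succ, add_assoc]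
    refine add_le_add_right ?_ _
    have h1 : Dop r S J (u J) = Dop r S J (fun α => (S J)ᶜ.indicator 1 α * u J α)
        + Dop r S J (fun α => (S J).indicator 1 α * u J α) := by
      rw [← Dop_add r S hS J]
      · congr 1
        funext α
        by_cases hα : α ∈ S J
        · simp [hα]
        · simp [hα]
      · exact (measurable_one.indicator (hS J).compl).mul (hu J)
    rw [h1]
    refine add_le_add_right ?_ _
    simp only [Dop]
    exact Dop_mono r S J fun α => mul_le_mul_right (hsub J α) _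

end

/-- elementary inequality -/
theorem rpow_split {x c s : ℝ} (hx : 0 ≤ x) (hc : 0 < c) (hs : 0 < s) (hs1 : s ≤ 1) :
    x ^ s ≤ c ^ s + c ^ (s - 1) * x := by
  rcases le_total x c with h | h
  · have h1 : x ^ s ≤ c ^ s := Real.rpow_le_rpow hx h hs.le
    have h2 : 0 ≤ c ^ (s - 1) * x := by positivity
    linarith
  · have hx0 : 0 < x := lt_of_lt_of_le hc h
    have h1 : x ^ (s - 1) ≤ c ^ (s - 1) :=
      Real.rpow_le_rpow_of_nonpos hc h (by linarith)
    have h2 : x ^ s = x ^ (s - 1) * x := by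
      rw [← Real.rpow_add_one hx0.ne']; ring_nf
    have h3 : 0 ≤ c ^ s := by positivity
    rw [h2]
    nlinarith

/-- The main estimate of the killed chain. -/
theorem chain_bound (q : ℂ[X]) {t κ : ℝ} (ht : 0 < t) (ht2 : t ≤ 2) (hκ0 : 0 < κ) (hκ1 : κ < 1)
    (r : ℕ → ℝ) (hr0 : 0 < r 0) (hr : ∀ j, r j < r (j + 1)) (hr1 : ∀ j, r j ≤ 1)
    (S : ℕ → Set ℝ) (hS : ∀ j, MeasurableSet (S j))
    (hS0 : ∫⁻ α, (S 0).indicator 1 α ∂nu ≤ ENNReal.ofReal κ)
    (hSj : ∀ j α, ∫⁻ β, (S (j + 1)).indicator 1 β * kE (r j) (r (j + 1)) α β ∂nu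
      ≤ ENNReal.ofReal κ)
    (A : ℕ → ℝ) (hA : ∀ j, 0 ≤ A j) (Y : ℕ → ℝ → ℝ) (hYc : ∀ j, Continuous (Y j))
    (hY0 : ∀ j α, 0 ≤ Y j α) (hYint : ∀ j, ∫ α, Y j α ∂nu ≤ 4)
    (hQ : ∀ j, ∀ α ∉ S j, ‖q.eval (circleMap 0 (r j) α)‖ ^ 2 ≤ A j * Y j α)
    (C : ℝ) (hC : ∀ J, ∑ j ∈ Finset.range J, 5 * (A j ^ (t / 2) * (κ ^ (1 - t / 2)) ^ j) ≤ C) :
    ‖q.eval 0‖ ^ t ≤ C := by
  set s := t / 2 with hs
  have hs0 : 0 < s := by positivity
  have hs1 : s ≤ 1 := by rw [hs]; linarith
  set κ' : ℝ≥0∞ := ENNReal.ofReal κ with hκ'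
  set u : ℕ → ℝ → ℝ≥0∞ := fun j α => ENNReal.ofReal (‖q.eval (circleMap 0 (r j) α)‖ ^ t) with hu
  have hrn : ∀ j, 0 ≤ r j := r_nonneg r hr0.le hr
  have hcontu : ∀ j, Continuous fun α => ‖q.eval (circleMap 0 (r j) α)‖ ^ t := by
    intro j
    refine Continuous.rpow_const ?_ (fun _ => Or.inr ht.le)
    exact (q.continuous.comp (continuous_circleMap 0 (r j))).norm
  have humeas : ∀ j, Measurable (u j) := fun j => ENNReal.measurable_ofReal.comp (hcontu j).measurable
  have hsub : ∀ j α, u j α ≤ Pop (r j) (r (j + 1)) (u (j + 1)) α := by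
    intro j α
    have := subMean_lintegral q (hrn j) (hr j) ht α
    unfold Pop
    simp_rw [mul_comm (u (j + 1) _)]
    exact this
  have hstart : ENNReal.ofReal (‖q.eval 0‖ ^ t) ≤ ∫⁻ α, u 0 α ∂nu := subMean_zero q hr0 ht
  have hterm : ∀ j, Dop r S j (fun α => (S j)ᶜ.indicator 1 α * u j α) ≤
      ENNReal.ofReal (5 * (A j ^ s * (κ ^ (1 - s)) ^ j)) := by
    intro j
    set c : ℝ := (κ ^ j)⁻¹ with hc
    have hc0 : 0 < c := by positivity
    have h1 : ∀ α, (S j)ᶜ.indicator 1 α * u j α ≤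
        ENNReal.ofReal (A j ^ s * c ^ s) + ENNReal.ofReal (A j ^ s * c ^ (s - 1) * Y j α) := by
      intro α
      by_cases hα : α ∈ S j
      · have : (S j)ᶜ.indicator (1 : ℝ → ℝ≥0∞) α = 0 := by simp [hα]
        rw [this, zero_mul]
        exact bot_le
      · have : (S j)ᶜ.indicator (1 : ℝ → ℝ≥0∞) α = 1 := by simp [hα]
        rw [this, one_mul, ← ENNReal.ofReal_add (by have := hA j; positivity)
          (mul_nonneg (by have := hA j; positivity) (hY0 j α))]
        refine ENNReal.ofReal_le_ofReal ?_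
        have h2 : ‖q.eval (circleMap 0 (r j) α)‖ ^ t = (‖q.eval (circleMap 0 (r j) α)‖ ^ 2) ^ s := by
          rw [← Real.rpow_natCast, ← Real.rpow_mul (norm_nonneg _)]
          congr 1
          rw [hs]; push_cast; ring
        rw [h2]
        calc (‖q.eval (circleMap 0 (r j) α)‖ ^ 2) ^ s ≤ (A j * Y j α) ^ s :=
              Real.rpow_le_rpow (by positivity) (hQ j α hα) hs0.le
          _ = A j ^ s * (Y j α) ^ s := Real.mul_rpow (hA j) (hY0 j α)
          _ ≤ A j ^ s * (c ^ s + c ^ (s - 1) * Y j α) :=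
              mul_le_mul_of_nonneg_left (rpow_split (hY0 j α) hc0 hs0 hs1)
                (Real.rpow_nonneg (hA j) s)
          _ = A j ^ s * c ^ s + A j ^ s * c ^ (s - 1) * Y j α := by ring
    refine (Dop_mono r S j h1).trans ?_
    rw [Dop_add r S hS j measurable_const]
    have h3 := Dop_const r S hr0.le hr hS κ' hS0 hSj j (ENNReal.ofReal (A j ^ s * c ^ s))
    have hAs : 0 ≤ A j ^ s := Real.rpow_nonneg (hA j) s
    have hmeasY : Measurable fun α => ENNReal.ofReal (A j ^ s * c ^ (s - 1) * Y j α) :=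
      ENNReal.measurable_ofReal.comp ((hYc j).measurable.const_mul _)
    have h4 := Dop_le_nu r S hr0.le hr hS j hmeasY
    have h5 : ∫⁻ α, ENNReal.ofReal (A j ^ s * c ^ (s - 1) * Y j α) ∂nu
        ≤ ENNReal.ofReal (A j ^ s * c ^ (s - 1) * 4) := by
      rw [← ofReal_integral_eq_lintegral_ofReal]
      · refine ENNReal.ofReal_le_ofReal ?_
        rw [integral_const_mul]
        exact mul_le_mul_of_nonneg_left (hYint j) (by positivity)
      · exact (integrable_nu (hYc j)).const_mul _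
      · exact Filter.Eventually.of_forall fun α => mul_nonneg (by positivity) (hY0 j α)
    refine (add_le_add h3 (h4.trans h5)).trans ?_
    rw [hκ', ← ENNReal.ofReal_pow hκ0.le, ← ENNReal.ofReal_mul (by positivity),
      ← ENNReal.ofReal_add (by positivity) (by positivity)]
    refine ENNReal.ofReal_le_ofReal (le_of_eq ?_)
    have e1 : κ ^ j * c ^ s = (κ ^ (1 - s)) ^ j := by
      rw [hc, Real.inv_rpow (by positivity), ← Real.rpow_natCast, ← Real.rpow_natCast,
        ← Real.rpow_mul hκ0.le, ← Real.rpow_mul hκ0.le, ← Real.rpow_neg hκ0.le,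
        ← Real.rpow_add hκ0]
      congr 1; ring
    have e2 : c ^ (s - 1) = (κ ^ (1 - s)) ^ j := by
      rw [hc, Real.inv_rpow (by positivity), ← Real.rpow_natCast, ← Real.rpow_natCast,
        ← Real.rpow_mul hκ0.le, ← Real.rpow_mul hκ0.le, ← Real.rpow_neg hκ0.le]
      congr 1; ring
    rw [← e2]
    rw [← e2] at e1
    linear_combination (A j ^ s) * e1
  -- uniform bound for the last term
  obtain ⟨M, hM0, hM⟩ : ∃ M : ℝ, 0 ≤ M ∧ ∀ z : ℂ, ‖z‖ ≤ 1 → ‖q.eval z‖ ^ t ≤ M := by
    have hcomp : IsCompact (Metric.closedBall (0 : ℂ) 1) := isCompact_closedBall 0 1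
    obtain ⟨M, hM⟩ := (hcomp.image_of_continuousOn (f := fun z => ‖q.eval z‖ ^ t)
      ((q.continuous.norm.rpow_const fun _ => Or.inr ht.le).continuousOn)).bddAbove
    refine ⟨max M 0, le_max_right _ _, fun z hz => le_max_of_le_left ?_⟩
    exact hM ⟨z, by simpa using hz, rfl⟩
  have hlast : ∀ J, Dop r S J (u J) ≤ ENNReal.ofReal (κ ^ J * M) := by
    intro J
    have h1 : ∀ α, u J α ≤ ENNReal.ofReal M := fun α => ENNReal.ofReal_le_ofReal
      (hM _ (by rw [norm_circleMap _ _ (hrn J)]; exact hr1 J))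
    refine (Dop_mono r S J h1).trans ?_
    refine (Dop_const r S hr0.le hr hS κ' hS0 hSj J _).trans (le_of_eq ?_)
    rw [hκ', ← ENNReal.ofReal_pow hκ0.le, ← ENNReal.ofReal_mul (by positivity)]
  have hfin : ∀ J, ‖q.eval 0‖ ^ t ≤ C + κ ^ J * M := by
    intro J
    have h1 := hstart.trans (Dop_chain r S hS u humeas hsub J)
    have h2 : ∑ j ∈ Finset.range J, Dop r S j (fun α => (S j)ᶜ.indicator 1 α * u j α) ≤
        ENNReal.ofReal C := by
      refine (Finset.sum_le_sum fun j _ => hterm j).trans ?_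
      rw [← ENNReal.ofReal_sum_of_nonneg]
      · exact ENNReal.ofReal_le_ofReal (hC J)
      · intro j _
        have := hA j
        positivity
    have h3 := h1.trans (add_le_add h2 (hlast J))
    have hC0 : 0 ≤ C := by simpa using hC 0
    rw [← ENNReal.ofReal_add hC0 (by positivity)] at h3
    exact (ENNReal.ofReal_le_ofReal_iff (by positivity)).mp h3
  have hlim : Filter.Tendsto (fun J : ℕ => C + κ ^ J * M) Filter.atTop (nhds (C + 0 * M)) :=
    ((tendsto_pow_atTop_nhds_zero_of_lt_one hκ0.le hκ1).mul_const M).const_add C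
  have := ge_of_tendsto' hlim hfin
  simpa using this

end Pool.Agent.H51
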