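import Pool.Agent.H51.CycSeq

set_option autoImplicit false
open Finset MvPolynomial MeasureTheory

/-! Lower bounds on the diagonal. -/

namespace Pool.Agent.H51

/-- restriction of a polynomial to the diagonal -/
noncomputable def dg (P : MvPolynomial (Fin 2) ℂ) : Polynomial ℂ :=
  MvPolynomial.aeval (fun _ => (Polynomial.X : Polynomial ℂ)) P

theorem dg_eval (P : MvPolynomial (Fin 2) ℂ) (z : ℂ) : (dg P).eval z = ev P z z := by
  unfold dg ev
  have h : (Polynomial.evalRingHom z).comp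
      ((MvPolynomial.aeval (fun _ : Fin 2 => (Polynomial.X : Polynomial ℂ)) :
        MvPolynomial (Fin 2) ℂ →ₐ[ℂ] Polynomial ℂ) : MvPolynomial (Fin 2) ℂ →+* Polynomial ℂ)
      = MvPolynomial.eval ![z, z] := by
    apply MvPolynomial.ringHom_ext
    · intro a
      simp
    · intro i
      fin_cases i <;> simp
  rw [← h]
  rfl

theorem norm_pow_sub_pow_le (n : ℕ) {z w : ℂ} (hz : ‖z‖ ≤ 1) (hw : ‖w‖ ≤ 1) :
    ‖z ^ n - w ^ n‖ ≤ n * ‖z - w‖ := by
  rw [← geom_sum₂_mul, norm_mul]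
  refine mul_le_mul_of_nonneg_right ?_ (norm_nonneg _)
  refine (norm_sum_le _ _).trans ?_
  calc ∑ i ∈ range n, ‖z ^ i * w ^ (n - 1 - i)‖ ≤ ∑ i ∈ range n, (1 : ℝ) := by
        refine sum_le_sum fun i _ => ?_
        rw [norm_mul, norm_pow, norm_pow]
        exact mul_le_one₀ (pow_le_one₀ (norm_nonneg _) hz) (by positivity)
          (pow_le_one₀ (norm_nonneg _) hw)
    _ = n := by simp

theorem poisson_tail {ζ ξ : ℂ} (hζ : ‖ζ‖ = 1) (hξ : ‖ξ‖ = 1) {r d : ℝ} (hr : 0 ≤ r) (hr1 : r < 1)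
    (hd : 0 < d) (hd1 : d ≤ 1) (hξζ : d ≤ ‖ξ - ζ‖) :
    poissonKernel 0 ((r : ℂ) * ζ) ξ ≤
      32 * ((1 - r) / d) * poissonKernel 0 (((1 - d : ℝ) : ℂ) * ζ) ξ := by
  simp only [poissonKernel_def, sub_zero, norm_mul, Complex.norm_real, Real.norm_eq_abs, hζ, hξ,
    mul_one, abs_of_nonneg hr, abs_of_nonneg (by linarith : 0 ≤ 1 - d)]
  set D := ‖ξ - ζ‖ with hD
  have hD0 : 0 < D := lt_of_lt_of_le hd hξζ
  have e1 : ‖(r : ℂ) * ζ - ζ‖ = 1 - r := by
    have : (r : ℂ) * ζ - ζ = ((r - 1 : ℝ) : ℂ) * ζ := by push_cast; ring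
    rw [this, norm_mul, hζ, mul_one, Complex.norm_real, Real.norm_eq_abs, abs_sub_comm,
      abs_of_pos (by linarith)]
  have e2 : ‖((1 - d : ℝ) : ℂ) * ζ - ζ‖ = d := by
    have : ((1 - d : ℝ) : ℂ) * ζ - ζ = ((-d : ℝ) : ℂ) * ζ := by push_cast; ring
    rw [this, norm_mul, hζ, mul_one, Complex.norm_real, Real.norm_eq_abs, abs_neg, abs_of_pos hd]
  have h1 : 1 - r ≤ ‖ξ - (r : ℂ) * ζ‖ := by
    have := norm_sub_norm_le ξ ((r : ℂ) * ζ)
    rw [hξ, norm_mul, hζ, Complex.norm_real, Real.norm_eq_abs, abs_of_nonneg hr, mul_one] at this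
    exact this
  have h2 : D ≤ 2 * ‖ξ - (r : ℂ) * ζ‖ := by
    have : ξ - ζ = (ξ - (r : ℂ) * ζ) + ((r : ℂ) * ζ - ζ) := by ring
    rw [hD, this]
    refine (norm_add_le _ _).trans ?_
    rw [e1]; linarith
  have h3 : ‖ξ - ((1 - d : ℝ) : ℂ) * ζ‖ ≤ 2 * D := by
    have : ξ - ((1 - d : ℝ) : ℂ) * ζ = (ξ - ζ) - (((1 - d : ℝ) : ℂ) * ζ - ζ) := by ring
    rw [this]
    refine (norm_sub_le _ _).trans ?_
    rw [e2]; linarith
  have h4 : 0 < ‖ξ - ((1 - d : ℝ) : ℂ) * ζ‖ := by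
    have := norm_sub_norm_le ξ (((1 - d : ℝ) : ℂ) * ζ)
    rw [hξ, norm_mul, hζ, Complex.norm_real, Real.norm_eq_abs,
      abs_of_nonneg (by linarith : 0 ≤ 1 - d), mul_one] at this
    linarith
  have h5 : 0 < ‖ξ - (r : ℂ) * ζ‖ := by linarith
  set a := ‖ξ - (r : ℂ) * ζ‖
  set c := ‖ξ - ((1 - d : ℝ) : ℂ) * ζ‖
  have h6 : (1 ^ 2 - r ^ 2) / a ^ 2 ≤ 8 * (1 - r) / D ^ 2 := by
    rw [div_le_div_iff₀ (by positivity) (by positivity)]
    have h7 : D ^ 2 ≤ (2 * a) ^ 2 := pow_le_pow_left₀ hD0.le h2 2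
    have h8 : 1 ^ 2 - r ^ 2 ≤ 2 * (1 - r) := by nlinarith
    calc (1 ^ 2 - r ^ 2) * D ^ 2 ≤ (2 * (1 - r)) * (2 * a) ^ 2 :=
          mul_le_mul h8 h7 (by positivity) (by linarith)
      _ = 8 * (1 - r) * a ^ 2 := by ring
  have h9 : d / (4 * D ^ 2) ≤ (1 ^ 2 - (1 - d) ^ 2) / c ^ 2 := by
    rw [div_le_div_iff₀ (by positivity) (by positivity)]
    have h10 : c ^ 2 ≤ (2 * D) ^ 2 := pow_le_pow_left₀ h4.le h3 2
    have h11 : d ≤ 1 ^ 2 - (1 - d) ^ 2 := by nlinarith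
    calc d * c ^ 2 ≤ (1 ^ 2 - (1 - d) ^ 2) * (2 * D) ^ 2 :=
          mul_le_mul h11 h10 (by positivity) (by linarith)
      _ = (1 ^ 2 - (1 - d) ^ 2) * (4 * D ^ 2) := by ring
  refine h6.trans ?_
  calc 8 * (1 - r) / D ^ 2 = 32 * ((1 - r) / d) * (d / (4 * D ^ 2)) := by
        field_simp
        ring
    _ ≤ 32 * ((1 - r) / d) * ((1 ^ 2 - (1 - d) ^ 2) / c ^ 2) := by
        refine mul_le_mul_of_nonneg_left h9 ?_
        have : 0 ≤ (1 - r) / d := div_nonneg (by linarith) hd.le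
        linarith

/-- the frequency on the diagonal -/
def fA (A j : ℕ) : ℕ := 3 * nA A j - 1

/-- inverse of the distance of the circles to the unit circle -/
noncomputable def LA (A j : ℕ) : ℝ := 768 * bA A j * fA A j

variable {A : ℕ}

theorem fA_pos (hA : 1 ≤ A) (j : ℕ) : 0 < fA A j := by
  have := nA_pos hA j
  unfold fA
  omega

theorem LA_pos (hA : 1 ≤ A) (j : ℕ) : 0 < LA A j := by
  have h1 : (0 : ℝ) < fA A j := by exact_mod_cast fA_pos hA j
  have h2 : (0 : ℝ) < bA A j := by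
    have := two_le_bA hA j
    exact_mod_cast (by omega : 0 < bA A j)
  unfold LA
  positivity

theorem one_lt_LA (hA : 1 ≤ A) (j : ℕ) : 1 < LA A j := by
  have h1 : (1 : ℝ) ≤ fA A j := by exact_mod_cast fA_pos hA j
  have h2 : (2 : ℝ) ≤ bA A j := by exact_mod_cast two_le_bA hA j
  unfold LA
  nlinarith

/-- the value `V = b - Re G` on the circle -/
theorem GA_V (hA : 1 ≤ A) (j : ℕ) {ξ : ℂ} (hξ : ‖ξ‖ = 1) :
    0 ≤ (bA A j : ℝ) - (ev (GA A (j + 1)) ξ ξ).re ∧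
    (bA A j : ℝ) - (ev (GA A (j + 1)) ξ ξ).re ≤ 2 * bA A j ∧
    (‖ξ ^ (fA A j) - 1‖ ≤ 1 / 3 → (bA A j : ℝ) - (ev (GA A (j + 1)) ξ ξ).re ≤ 1 / 2) := by
  rw [GA_succ_re hA j hξ hξ, ev_MN_diag (nA_pos hA j)]
  have h1 := GA_re_bound hA j hξ hξ
  obtain ⟨_, _, h2, h3, _⟩ := psi_spec (two_le_bA hA j)
  have hn : ‖ξ ^ (3 * nA A j - 1)‖ = 1 := by rw [norm_pow, hξ, one_pow]
  obtain ⟨h4, h5⟩ := h2 _ hn.le
  rw [abs_le] at h1
  set x := (ev (GA A j) ξ ξ).re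
  have hb : (2 : ℝ) ≤ bA A j := by exact_mod_cast two_le_bA hA j
  have h6 : 0 ≤ (bA A j : ℝ) - x := by linarith
  refine ⟨?_, ?_, fun h => ?_⟩
  · have := mul_nonneg h6 h4
    linarith
  · have h7 := mul_le_mul (by linarith : (bA A j : ℝ) - x ≤ 5 / 4 * bA A j) h5 h4 (by positivity)
    linarith
  · have h7 := h3 _ hn h
    have h8 := mul_le_mul (by linarith : (bA A j : ℝ) - x ≤ 5 / 4 * bA A j) h7 h4 (by positivity)
    have h9 : (4 * bA A j : ℕ) ≤ 2 ^ (bA A j) := by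
      have h10 : 5 ≤ bA A j := by
        have := le_bA (A := A) j
        omega
      have : ∀ n : ℕ, 5 ≤ n → 4 * n ≤ 2 ^ n := by
        intro n hn
        induction n, hn using Nat.le_induction with
        | base => norm_num
        | succ n hn ih => rw [pow_succ]; omega
      exact this _ h10
    have h11 : (4 * bA A j : ℝ) ≤ 2 ^ (bA A j) := by exact_mod_cast h9
    have h12 : (4 * bA A j : ℝ) * (1 / 2) ^ (bA A j) ≤ 1 := by
      rw [one_div, inv_pow, ← div_eq_mul_inv, div_le_one (by positivity)]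
      exact h11
    have h13 : 5 / 4 * (bA A j : ℝ) * (8 / 5 * (1 / 2) ^ (bA A j)) ≤ 1 / 2 := by
      calc 5 / 4 * (bA A j : ℝ) * (8 / 5 * (1 / 2) ^ (bA A j))
          = (4 * bA A j : ℝ) * (1 / 2) ^ (bA A j) / 2 := by ring
        _ ≤ 1 / 2 := by linarith
    linarith

theorem GA_diag_lower (hA : 1 ≤ A) (j : ℕ) {ζ : ℂ} (hζ : ‖ζ‖ = 1)
    (h : ‖ζ ^ (fA A j) - 1‖ ≤ 1 / 6) :
    (bA A j : ℝ) - 1 ≤
      (ev (GA A (j + 1)) (((1 - 1 / LA A j : ℝ) : ℂ) * ζ) (((1 - 1 / LA A j : ℝ) : ℂ) * ζ)).re := by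
  have hL := one_lt_LA hA j
  have hL0 := LA_pos hA j
  set r : ℝ := 1 - 1 / LA A j with hr
  have hr0 : 0 ≤ r := by
    rw [hr, sub_nonneg, div_le_one hL0]; exact hL.le
  have hr1 : r < 1 := by
    rw [hr]; have : 0 < 1 / LA A j := by positivity
    linarith
  have hf : (1 : ℝ) ≤ fA A j := by exact_mod_cast fA_pos hA j
  have hb : (2 : ℝ) ≤ bA A j := by exact_mod_cast two_le_bA hA j
  set d : ℝ := 1 / (6 * fA A j) with hd
  have hd0 : 0 < d := by positivity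
  have hd1 : d ≤ 1 := by
    rw [hd, div_le_one (by positivity)]; linarith
  have hw : (r : ℂ) * ζ ∈ Metric.ball (0 : ℂ) 1 := by
    rw [mem_ball_zero_iff, norm_mul, hζ, mul_one, Complex.norm_real, Real.norm_eq_abs,
      abs_of_nonneg hr0]
    exact hr1
  have hw' : ((1 - d : ℝ) : ℂ) * ζ ∈ Metric.ball (0 : ℂ) 1 := by
    rw [mem_ball_zero_iff, norm_mul, hζ, mul_one, Complex.norm_real, Real.norm_eq_abs,
      abs_of_nonneg (by linarith)]
    linarith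
  have hP := poisson_poly_re hw (Polynomial.C (bA A j : ℂ) - dg (GA A (j + 1)))
  simp only [Polynomial.eval_sub, Polynomial.eval_C, Complex.sub_re, Complex.natCast_re, dg_eval]
    at hP
  have hcont := continuous_poisson hw
  have hcont' := continuous_poisson hw'
  have hcv : Continuous fun θ : ℝ =>
      ((bA A j : ℝ) - (ev (GA A (j + 1)) (circleMap 0 1 θ) (circleMap 0 1 θ)).re) := by
    have : Continuous fun θ : ℝ => (dg (GA A (j + 1))).eval (circleMap 0 1 θ) :=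
      (dg (GA A (j + 1))).continuous.comp (continuous_circleMap 0 1)
    simp only [dg_eval] at this
    exact continuous_const.sub (Complex.continuous_re.comp this)
  set c : ℝ := 2 * bA A j * (32 * ((1 - r) / d)) with hc
  have hc0 : 0 ≤ c := by
    have : 0 ≤ (1 - r) / d := div_nonneg (by linarith) hd0.le
    positivity
  have hcval : c = 1 / 2 := by
    rw [hc, hr, hd]
    unfold LA
    field_simp
    ring
  have hmain : ∀ θ : ℝ, poissonKernel 0 ((r : ℂ) * ζ) (circleMap 0 1 θ) *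
      ((bA A j : ℝ) - (ev (GA A (j + 1)) (circleMap 0 1 θ) (circleMap 0 1 θ)).re) ≤
      (1 / 2) * poissonKernel 0 ((r : ℂ) * ζ) (circleMap 0 1 θ) +
        c * poissonKernel 0 (((1 - d : ℝ) : ℂ) * ζ) (circleMap 0 1 θ) := by
    intro θ
    set ξ := circleMap 0 1 θ with hξdef
    have hξ : ‖ξ‖ = 1 := norm_circleMap 1 θ zero_le_one
    obtain ⟨v0, v1, v2⟩ := GA_V hA j hξ
    have p0 : 0 ≤ poissonKernel 0 ((r : ℂ) * ζ) ξ := poisson_nonneg hw θ
    have p1 : 0 ≤ poissonKernel 0 (((1 - d : ℝ) : ℂ) * ζ) ξ := poisson_nonneg hw' θ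
    by_cases hcase : ‖ξ ^ (fA A j) - 1‖ ≤ 1 / 3
    · have := mul_le_mul_of_nonneg_left (v2 hcase) p0
      have := mul_nonneg hc0 p1
      linarith
    · push Not at hcase
      have h1 : 1 / 6 ≤ ‖ξ ^ (fA A j) - ζ ^ (fA A j)‖ := by
        have h2 : ξ ^ (fA A j) - 1 = (ξ ^ (fA A j) - ζ ^ (fA A j)) + (ζ ^ (fA A j) - 1) := by ring
        rw [h2] at hcase
        have := norm_add_le (ξ ^ (fA A j) - ζ ^ (fA A j)) (ζ ^ (fA A j) - 1)
        linarith
      have h3 := norm_pow_sub_pow_le (fA A j) hξ.le hζ.le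
      have h4 : d ≤ ‖ξ - ζ‖ := by
        rw [hd, div_le_iff₀ (by positivity)]
        linarith
      have h5 := poisson_tail hζ hξ hr0 hr1 hd0 hd1 h4
      calc poissonKernel 0 ((r : ℂ) * ζ) ξ * ((bA A j : ℝ) - (ev (GA A (j + 1)) ξ ξ).re)
          ≤ (32 * ((1 - r) / d) * poissonKernel 0 (((1 - d : ℝ) : ℂ) * ζ) ξ) * (2 * bA A j) :=
            mul_le_mul h5 v1 v0 (mul_nonneg (mul_nonneg (by norm_num)
              (div_nonneg (by linarith) hd0.le)) p1)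
        _ = c * poissonKernel 0 (((1 - d : ℝ) : ℂ) * ζ) ξ := by rw [hc]; ring
        _ ≤ _ := by linarith [mul_nonneg (by norm_num : (0 : ℝ) ≤ 1 / 2) p0]
  have hint := integral_mono (μ := nu) (integrable_nu (hcont.mul hcv))
    (integrable_nu ((hcont.const_mul (1 / 2)).add (hcont'.const_mul c))) hmain
  simp only [Pi.mul_apply, Pi.add_apply] at hint
  rw [hP] at hint
  have hrhs : ∫ θ, ((1 / 2) * poissonKernel 0 ((r : ℂ) * ζ) (circleMap 0 1 θ) +
        c * poissonKernel 0 (((1 - d : ℝ) : ℂ) * ζ) (circleMap 0 1 θ)) ∂nu = 1 / 2 + c := by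
    rw [integral_add (integrable_nu (hcont.const_mul _)) (integrable_nu (hcont'.const_mul _)),
      integral_const_mul, integral_const_mul, poisson_one hw, poisson_one hw']
    ring
  have hint2 : (bA A j : ℝ) - (ev (GA A (j + 1)) ((r : ℂ) * ζ) ((r : ℂ) * ζ)).re ≤ 1 / 2 + c := by
    rw [← hrhs]
    exact hint
  rw [hcval] at hint2
  linarith

end Pool.Agent.H51
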