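import Pool.Agent.H51.CycDiag

set_option autoImplicit false
open Finset MvPolynomial MeasureTheory

/-! Later increments on the diagonal. -/

namespace Pool.Agent.H51

theorem ev_KN_diag {N : ℕ} (hN : 0 < N) (z : ℂ) : ev (KN N) z z = z ^ (N - 1) := by
  rw [ev_KN]
  have h1 : ∀ i ∈ range N, z ^ i * z ^ (N - 1 - i) = z ^ (N - 1) := by
    intro i hi
    rw [mem_range] at hi
    rw [← pow_add]
    congr 1
    omega
  rw [sum_congr rfl h1, sum_const, card_range, nsmul_eq_mul, ← mul_assoc (N : ℂ)⁻¹,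
    inv_mul_cancel₀ (by exact_mod_cast hN.ne'), one_mul]

theorem exists_quot (b : ℕ) {N : ℕ} (hN : 0 < N) (Ψ : Polynomial ℂ) (P : MvPolynomial (Fin 2) ℂ) :
    ∃ ψ : Polynomial ℂ, ∀ z, ev (stepP b N Ψ P) z z - ev P z z = z ^ (N - 1) * ψ.eval z := by
  refine ⟨dg ((C (b : ℂ) - C (1 / 2) * P) * (X 0 * X 1) ^ N * Polynomial.aeval (MN N) Ψ.divX
    - C (1 / 2) * sharp N P * Polynomial.aeval (MN N) Ψ.divX), fun z => ?_⟩
  rw [dg_eval, ← ev_KN_diag hN, ← ev_mul]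
  unfold stepP
  rw [ev_add, add_sub_cancel_left]

variable {A : ℕ}

theorem GA_diag_zero (hA : 1 ≤ A) (j : ℕ) : ev (GA A (j + 1)) 0 0 = ev (GA A j) 0 0 := by
  obtain ⟨ψ, hψ⟩ := exists_quot (bA A j) (nA_pos hA j) (psi (bA A j)) (GA A j)
  have h := hψ 0
  have h1 := one_lt_nA hA j
  rw [zero_pow (by omega), zero_mul, sub_eq_zero] at h
  exact h

theorem GA_diag_BC (hA : 1 ≤ A) (j : ℕ) {z : ℂ} (hz : ‖z‖ < 1) :
    ‖ev (GA A (j + 1)) z z - ev (GA A j) z z‖ ≤ 2 * (5 / 4 * bA A j) * ‖z‖ / (1 - ‖z‖) := by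
  have hb : (2 : ℝ) ≤ bA A j := by exact_mod_cast two_le_bA hA j
  set φ := dg (GA A (j + 1)) - dg (GA A j) with hφ
  have hev : ∀ z, φ.eval z = ev (GA A (j + 1)) z z - ev (GA A j) z z := by
    intro z
    rw [hφ, Polynomial.eval_sub, dg_eval, dg_eval]
  have hcirc : ∀ α : ℝ, (φ.eval (Complex.exp (α * Complex.I))).re ≤ 5 / 4 * bA A j := by
    intro α
    have hξ : ‖Complex.exp (α * Complex.I)‖ = 1 := Complex.norm_exp_ofReal_mul_I α
    rw [hev, Complex.sub_re, GA_succ_re hA j hξ hξ]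
    have h1 := GA_re_bound hA j hξ hξ
    obtain ⟨_, _, h2, _⟩ := psi_spec (two_le_bA hA j)
    obtain ⟨h4, h5⟩ := h2 _ (norm_MN_le (A := A) j hξ hξ)
    rw [abs_le] at h1
    set x := (ev (GA A j) (Complex.exp (α * Complex.I)) (Complex.exp (α * Complex.I))).re
    have h6 : 0 ≤ (bA A j : ℝ) - x := by linarith
    have := mul_nonneg h6 h4
    linarith
  have h := Complex.borelCaratheodory_zero (f := fun z => φ.eval z) (M := 5 / 4 * bA A j) (R := 1)
    (z := z) (by positivity) φ.differentiable.differentiableOn ?_ one_pos (by simpa using hz) ?_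
  · rw [← hev]; exact h
  · intro w hw
    have hw' : ‖w‖ < 1 := by simpa using hw
    exact re_le_of_circle φ _ hcirc w hw'.le
  · show φ.eval 0 = 0
    rw [hev, GA_diag_zero hA, sub_self]

theorem rho_pow (N : ℕ) (hN : 1 < N) : (1 : ℝ) / 4 ≤ (1 - 1 / N) ^ (N - 1) := by
  obtain ⟨m, rfl⟩ : ∃ m, N = m + 1 := ⟨N - 1, by omega⟩
  have hm : 0 < m := by omega
  have hm' : (0 : ℝ) < m := by exact_mod_cast hm
  have h1 : (1 : ℝ) - 1 / ((m + 1 : ℕ) : ℝ) = (1 + 1 / (m : ℝ))⁻¹ := by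
    push_cast
    field_simp
    ring
  rw [Nat.add_sub_cancel, h1, inv_pow, one_div, inv_le_inv₀ (by norm_num) (by positivity)]
  have h2 : (1 : ℝ) + 1 / m ≤ Real.exp (1 / m) := by
    have := Real.add_one_le_exp (1 / (m : ℝ))
    linarith
  calc ((1 : ℝ) + 1 / m) ^ m ≤ (Real.exp (1 / m)) ^ m := pow_le_pow_left₀ (by positivity) h2 m
    _ = Real.exp 1 := by
        rw [← Real.exp_nat_mul]
        congr 1
        field_simp
    _ ≤ 4 := by
        have := Real.exp_one_lt_d9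
        linarith

theorem GA_diag_incr (hA : 1 ≤ A) (j : ℕ) {z : ℂ} (hz : ‖z‖ ≤ 1 - 1 / nA A j) :
    ‖ev (GA A (j + 1)) z z - ev (GA A j) z z‖ ≤ 10 * bA A j * nA A j * ‖z‖ ^ (nA A j - 1) := by
  have hN1 := one_lt_nA hA j
  have hN : 0 < nA A j := nA_pos hA j
  obtain ⟨ψ, hψ⟩ := exists_quot (bA A j) hN (psi (bA A j)) (GA A j)
  have hψ' : ∀ z, ev (GA A (j + 1)) z z - ev (GA A j) z z = z ^ (nA A j - 1) * ψ.eval z := hψ
  set N := nA A j with hNdef
  have hN1' : (1 : ℝ) < N := by exact_mod_cast hN1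
  set ρ : ℝ := 1 - 1 / N with hρ
  have hρ0 : 0 < ρ := by
    rw [hρ, sub_pos, div_lt_one (by positivity)]; exact hN1'
  have hρ1 : ρ < 1 := by
    rw [hρ]; have : 0 < 1 / (N : ℝ) := by positivity
    linarith
  have hb : (2 : ℝ) ≤ bA A j := by exact_mod_cast two_le_bA hA j
  have hbound : ∀ w ∈ frontier (Metric.ball (0 : ℂ) ρ), ‖ψ.eval w‖ ≤ 10 * bA A j * N := by
    intro w hw
    rw [frontier_ball _ hρ0.ne'] at hw
    have hw' : ‖w‖ = ρ := by simpa using hw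
    have h1 := GA_diag_BC hA j (z := w) (by rw [hw']; exact hρ1)
    rw [hψ', norm_mul, norm_pow, hw'] at h1
    have h2 : 1 - ρ = 1 / N := by rw [hρ]; ring
    rw [h2] at h1
    have h3 : 2 * (5 / 4 * (bA A j : ℝ)) * ρ / (1 / N) = 5 / 2 * bA A j * N * ρ := by
      field_simp
      ring
    rw [h3] at h1
    have h4 := rho_pow N hN1
    rw [← hρ] at h4
    have h5 : 5 / 2 * (bA A j : ℝ) * N * ρ ≤ 5 / 2 * bA A j * N := by
      have : (0 : ℝ) ≤ 5 / 2 * bA A j * N := by positivity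
      nlinarith
    have h6 : 1 / 4 * ‖ψ.eval w‖ ≤ ρ ^ (N - 1) * ‖ψ.eval w‖ :=
      mul_le_mul_of_nonneg_right h4 (norm_nonneg _)
    linarith
  have h1 := Complex.norm_le_of_forall_mem_frontier_norm_le (f := fun w => ψ.eval w)
    Metric.isBounded_ball (ψ.differentiable.diffContOnCl) hbound (z := z)
    (by rw [closure_ball _ hρ0.ne']; simpa using hz)
  rw [hψ', norm_mul, norm_pow, mul_comm]
  exact mul_le_mul_of_nonneg_right h1 (by positivity)

theorem ten_le_bA (hA : 2 ≤ A) (j : ℕ) : 10 ≤ bA A j := by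
  have := le_bA (A := A) j
  omega

/-- `288 b ≤ 4^b` -/
theorem num_one {b : ℕ} (hb : 10 ≤ b) : 4608 * b ≤ 4 ^ b := by
  induction b, hb using Nat.le_induction with
  | base => norm_num
  | succ n hn ih => rw [pow_succ]; omega

theorem LA_le (j : ℕ) : LA A j ≤ 2304 * bA A j * nA A j := by
  have h1 : (fA A j : ℝ) ≤ 3 * nA A j := by
    have : fA A j ≤ 3 * nA A j := Nat.sub_le _ _
    exact_mod_cast this
  unfold LA
  have hb : (0 : ℝ) ≤ bA A j := by positivity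
  nlinarith

theorem LA_le_nA (hA : 2 ≤ A) (j : ℕ) : 16 ^ (bA A j) * LA A j ≤ nA A (j + 1) / 2 := by
  have h1 := LA_le (A := A) j
  have h2 : (4608 * bA A j : ℝ) ≤ 4 ^ (bA A j) := by exact_mod_cast num_one (ten_le_bA hA j)
  have h3 : (nA A (j + 1) : ℝ) = 16 * 64 ^ (bA A j) * nA A j := by exact_mod_cast nA_succ A j
  have h4 : (64 : ℝ) ^ (bA A j) = 16 ^ (bA A j) * 4 ^ (bA A j) := by rw [← mul_pow]; norm_num
  rw [h3, h4]
  have hn : (0 : ℝ) ≤ nA A j := by positivity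
  have hp : (0 : ℝ) < 16 ^ (bA A j) := by positivity
  calc 16 ^ (bA A j) * LA A j ≤ 16 ^ (bA A j) * (2304 * bA A j * nA A j) :=
        mul_le_mul_of_nonneg_left h1 hp.le
    _ = 16 ^ (bA A j) * nA A j * (4608 * bA A j) / 2 := by ring
    _ ≤ 16 ^ (bA A j) * nA A j * (4 ^ (bA A j)) / 2 := by gcongr
    _ ≤ 16 * (16 ^ (bA A j) * 4 ^ (bA A j)) * nA A j / 2 := by
        have : 0 ≤ (16 : ℝ) ^ (bA A j) * nA A j * (4 ^ (bA A j)) := by positivity
        linarith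

theorem one_le_sixteen_pow (b : ℕ) : (1 : ℝ) ≤ 16 ^ b := one_le_pow₀ (by norm_num)

theorem LA_mono_succ (hA : 2 ≤ A) (j : ℕ) : 2 * LA A j ≤ LA A (j + 1) := by
  have h1 := LA_le_nA hA j
  have h2 := one_le_sixteen_pow (bA A j)
  have h3 := LA_pos (A := A) (by omega) j
  have h4 : 2 * LA A j ≤ nA A (j + 1) := by nlinarith
  refine h4.trans ?_
  unfold LA
  have h5 : (nA A (j + 1) : ℝ) ≤ fA A (j + 1) := by
    have := nA_pos (A := A) (by omega) (j + 1)
    have : nA A (j + 1) ≤ fA A (j + 1) := by unfold fA; omega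
    exact_mod_cast this
  have h6 : (10 : ℝ) ≤ bA A (j + 1) := by exact_mod_cast ten_le_bA hA (j + 1)
  have h7 : (0 : ℝ) ≤ fA A (j + 1) := by positivity
  nlinarith

theorem LA_mono (hA : 2 ≤ A) {i j : ℕ} (hij : i ≤ j) : LA A i ≤ LA A j := by
  induction j, hij using Nat.le_induction with
  | base => exact le_rfl
  | succ j hj ih =>
    have h1 := LA_mono_succ hA j
    have h2 := LA_pos (A := A) (by omega) j
    linarith

theorem num_two {b : ℕ} (hb : 10 ≤ b) : 245760 * b ^ 4 ≤ 256 ^ b := by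
  have h1 : b ^ 4 ≤ (2 ^ b) ^ 4 := Nat.pow_le_pow_left (Nat.lt_two_pow_self).le 4
  have h2 : (245760 : ℕ) ≤ 16 ^ b := by
    calc (245760 : ℕ) ≤ 16 ^ 10 := by norm_num
      _ ≤ 16 ^ b := Nat.pow_le_pow_right (by norm_num) hb
  have h3 : (2 ^ b : ℕ) ^ 4 = 16 ^ b := by rw [← pow_mul, mul_comm, pow_mul]; norm_num
  rw [h3] at h1
  calc 245760 * b ^ 4 ≤ 16 ^ b * 16 ^ b := Nat.mul_le_mul h2 h1
    _ = 256 ^ b := by rw [← mul_pow]; norm_num

theorem tail_num (hA : 2 ≤ A) (j : ℕ) :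
    10 * bA A (j + 1) * nA A (j + 1) * Real.exp (-((nA A (j + 1) - 1 : ℕ) : ℝ) / LA A j) ≤
      (1 / 2) ^ (j + 1) := by
  have hA1 : 1 ≤ A := by omega
  set b := bA A j with hb
  have hb10 : 10 ≤ b := ten_le_bA hA j
  have hb10' : (10 : ℝ) ≤ b := by exact_mod_cast hb10
  have hL := LA_pos hA1 j
  have h1 := LA_le_nA hA j
  have hN1 := one_lt_nA hA1 (j + 1)
  -- exponent
  have h2 : (16 : ℝ) ^ b ≤ ((nA A (j + 1) - 1 : ℕ) : ℝ) / LA A j := by
    rw [le_div_iff₀ hL]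
    refine h1.trans ?_
    rw [Nat.cast_sub hN1.le]
    have : (2 : ℝ) ≤ nA A (j + 1) := by exact_mod_cast hN1
    push_cast
    linarith
  have h3 : Real.exp (-((nA A (j + 1) - 1 : ℕ) : ℝ) / LA A j) ≤ (Real.exp (16 ^ b))⁻¹ := by
    rw [← Real.exp_neg]
    refine Real.exp_le_exp.mpr ?_
    rw [neg_div]
    linarith
  have h4 : ((16 : ℝ) ^ b) ^ 4 / 24 ≤ Real.exp (16 ^ b) := by
    have := Real.pow_div_factorial_le_exp ((16 : ℝ) ^ b) (by positivity) 4
    simpa [Nat.factorial] using this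
  have h5 : (10 * bA A (j + 1) * nA A (j + 1) : ℝ) = 10240 * b ^ 3 * 256 ^ b := by
    have e1 : (bA A (j + 1) : ℝ) = 4 * b := by
      rw [bA_succ]; push_cast; rfl
    have e2 : (nA A (j + 1) : ℝ) = 16 * 64 ^ b * (16 * b ^ 2 * 4 ^ b) := by
      rw [nA_succ]
      unfold nA
      push_cast
      rfl
    have e3 : (256 : ℝ) ^ b = 64 ^ b * 4 ^ b := by rw [← mul_pow]; norm_num
    rw [e1, e2, e3]
    ring
  have h6 : (245760 * b ^ 4 : ℝ) ≤ 256 ^ b := by exact_mod_cast num_two hb10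
  have h7 : (2 : ℝ) ^ (j + 1) ≤ b := by
    have h8 : (5 * 2 ^ j * 2 ^ j : ℝ) ≤ b := by exact_mod_cast two_pow_le_bA hA1 j
    have h9 : (1 : ℝ) ≤ 2 ^ j := one_le_pow₀ (by norm_num)
    rw [pow_succ]
    nlinarith
  rw [h5]
  have h10 : ((16 : ℝ) ^ b) ^ 4 = 256 ^ b * 256 ^ b := by
    rw [← pow_mul, mul_comm, pow_mul, ← mul_pow]; norm_num
  rw [h10] at h4
  have hE : 0 < Real.exp (16 ^ b) := Real.exp_pos _
  calc 10240 * (b : ℝ) ^ 3 * 256 ^ b * Real.exp (-((nA A (j + 1) - 1 : ℕ) : ℝ) / LA A j)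
      ≤ 10240 * (b : ℝ) ^ 3 * 256 ^ b * (Real.exp (16 ^ b))⁻¹ :=
        mul_le_mul_of_nonneg_left h3 (by positivity)
    _ ≤ 10240 * (b : ℝ) ^ 3 * 256 ^ b * (256 ^ b * 256 ^ b / 24)⁻¹ := by
        refine mul_le_mul_of_nonneg_left ?_ (by positivity)
        exact inv_anti₀ (by positivity) h4
    _ = 245760 * (b : ℝ) ^ 3 / 256 ^ b := by
        field_simp
        ring
    _ ≤ 245760 * (b : ℝ) ^ 3 / (245760 * b ^ 4) := by
        gcongr
    _ = 1 / b := by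
        field_simp
    _ ≤ (1 / 2) ^ (j + 1) := by
        rw [one_div, one_div, inv_pow]
        exact inv_anti₀ (by positivity) h7

theorem GA_diag_tail (hA : 2 ≤ A) {i j : ℕ} (hij : i ≤ j) {z : ℂ} (hz : ‖z‖ ≤ 1 - 1 / LA A i) :
    ‖ev (GA A (j + 2)) z z - ev (GA A (j + 1)) z z‖ ≤ (1 / 2) ^ (j + 1) := by
  have hA1 : 1 ≤ A := by omega
  have hL := LA_pos hA1 j
  have hL1 := one_lt_LA hA1 j
  have hLi := LA_pos hA1 i
  have h1 : ‖z‖ ≤ 1 - 1 / LA A j := by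
    refine hz.trans ?_
    have : 1 / LA A j ≤ 1 / LA A i := one_div_le_one_div_of_le hLi (LA_mono hA hij)
    linarith
  have h2 : ‖z‖ ≤ 1 - 1 / nA A (j + 1) := by
    refine h1.trans ?_
    have h3 := LA_le_nA hA j
    have h4 := one_le_sixteen_pow (bA A j)
    have h5 : LA A j ≤ nA A (j + 1) := by nlinarith
    have : 1 / (nA A (j + 1) : ℝ) ≤ 1 / LA A j := one_div_le_one_div_of_le hL h5
    linarith
  refine (GA_diag_incr hA1 (j + 1) h2).trans ?_
  refine le_trans ?_ (tail_num hA j)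
  refine mul_le_mul_of_nonneg_left ?_ (by positivity)
  calc ‖z‖ ^ (nA A (j + 1) - 1) ≤ (Real.exp (-(1 / LA A j))) ^ (nA A (j + 1) - 1) := by
        refine pow_le_pow_left₀ (norm_nonneg _) (h1.trans ?_) _
        have := Real.add_one_le_exp (-(1 / LA A j))
        linarith
    _ = Real.exp (-((nA A (j + 1) - 1 : ℕ) : ℝ) / LA A j) := by
        rw [← Real.exp_nat_mul]
        congr 1
        ring

theorem GA_diag_final (hA : 2 ≤ A) (j : ℕ) {ζ : ℂ} (hζ : ‖ζ‖ = 1)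
    (h : ‖ζ ^ (fA A j) - 1‖ ≤ 1 / 6) (k : ℕ) :
    (bA A j : ℝ) - 2 ≤ (ev (GA A (j + 1 + k)) (((1 - 1 / LA A j : ℝ) : ℂ) * ζ)
      (((1 - 1 / LA A j : ℝ) : ℂ) * ζ)).re := by
  have hA1 : 1 ≤ A := by omega
  have hL := LA_pos hA1 j
  have hL1 := one_lt_LA hA1 j
  set z : ℂ := ((1 - 1 / LA A j : ℝ) : ℂ) * ζ with hz
  have hr0 : 0 ≤ 1 - 1 / LA A j := by
    rw [sub_nonneg, div_le_one hL]; exact hL1.le
  have hzn : ‖z‖ ≤ 1 - 1 / LA A j := by
    rw [hz, norm_mul, hζ, mul_one, Complex.norm_real, Real.norm_eq_abs, abs_of_nonneg hr0]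
  have key : (bA A j : ℝ) - 1 - (1 - (1 / 2) ^ k) ≤ (ev (GA A (j + 1 + k)) z z).re := by
    induction k with
    | zero =>
      have h0 := GA_diag_lower hA1 j hζ h
      rw [pow_zero, sub_self, sub_zero, add_zero]
      exact h0
    | succ k ih =>
      have h1 := GA_diag_tail hA (i := j) (j := j + k) (Nat.le_add_right _ _) hzn
      have h2 := (Complex.abs_re_le_norm (ev (GA A (j + k + 2)) z z - ev (GA A (j + k + 1)) z z)).trans h1
      have e1 : j + 1 + (k + 1) = j + k + 2 := by ring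
      have e2 : j + 1 + k = j + k + 1 := by ring
      rw [e1]
      rw [e2] at ih
      rw [Complex.sub_re, abs_le] at h2
      have h3 : ((1 : ℝ) / 2) ^ (j + k + 1) ≤ (1 / 2) ^ (k + 1) :=
        pow_le_pow_of_le_one (by norm_num) (by norm_num) (by omega)
      have h4 : ((1 : ℝ) / 2) ^ k = (1 / 2) ^ (k + 1) + (1 / 2) ^ (k + 1) := by
        rw [pow_succ]; ring
      linarith [h2.1]
  have hp : (0 : ℝ) < (1 / 2) ^ k := by positivity
  linarith

end Pool.Agent.H51
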