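import Pool.Agent.H51.CycMain

set_option autoImplicit false
open Finset MeasureTheory
open scoped ENNReal

/-! The final contradiction. -/

namespace Pool.Agent.H51

theorem exists_t : ∃ t : ℝ, 0 < t ∧ t ≤ 2 ∧ (8 : ℝ) ^ t * (99 / 100 : ℝ) ^ (1 - t / 2) < 1 := by
  have hcont : Continuous fun t : ℝ => (8 : ℝ) ^ t * (99 / 100 : ℝ) ^ (1 - t / 2) := by
    refine Continuous.mul ?_ ?_
    · exact Continuous.rpow continuous_const continuous_id (fun _ => Or.inl (by norm_num))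
    · exact Continuous.rpow continuous_const (by fun_prop) (fun _ => Or.inl (by norm_num))
  have h0 : (8 : ℝ) ^ (0 : ℝ) * (99 / 100 : ℝ) ^ (1 - (0 : ℝ) / 2) < 1 := by
    rw [Real.rpow_zero, zero_div, sub_zero, Real.rpow_one]; norm_num
  have h1 : ∀ᶠ t in nhds (0 : ℝ), (8 : ℝ) ^ t * (99 / 100 : ℝ) ^ (1 - t / 2) < 1 :=
    (hcont.tendsto 0).eventually_lt_const h0
  have h2 : ∀ᶠ t in nhdsWithin (0 : ℝ) (Set.Ioi 0), (8 : ℝ) ^ t * (99 / 100 : ℝ) ^ (1 - t / 2) < 1 :=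
    h1.filter_mono nhdsWithin_le_nhds
  have h3 : Set.Ioo (0 : ℝ) 2 ∈ nhdsWithin (0 : ℝ) (Set.Ioi 0) := Ioo_mem_nhdsGT (by norm_num)
  obtain ⟨t, ht, ht2⟩ := (h2.and h3).exists
  exact ⟨t, ht2.1, ht2.2.le, ht⟩

theorem exists_A (D : ℝ) : ∃ A : ℕ, 2 ≤ A ∧ D * (A : ℝ) ^ 3 < 4 ^ A := by
  have h1 : Filter.Tendsto (fun n : ℕ => (n : ℝ) ^ 3 / (4 : ℝ) ^ n) Filter.atTop (nhds 0) :=
    tendsto_pow_const_div_const_pow_of_one_lt 3 (by norm_num)
  have h2 : Filter.Tendsto (fun n : ℕ => D * ((n : ℝ) ^ 3 / (4 : ℝ) ^ n)) Filter.atTop (nhds (D * 0)) :=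
    h1.const_mul D
  rw [mul_zero] at h2
  obtain ⟨A, hA, hA2⟩ := ((h2.eventually_lt_const one_pos).and (Filter.eventually_ge_atTop 2)).exists
  refine ⟨A, hA2, ?_⟩
  have h3 : (0 : ℝ) < 4 ^ A := by positivity
  rwa [mul_div_assoc', div_lt_one h3] at hA

/-- the polynomials `c G_J` -/
noncomputable def PA (A : ℕ) (c : ℝ) (J : ℕ) : MvPolynomial (Fin 2) ℂ := MvPolynomial.C (c : ℂ) * GA A J

theorem PA_low {A : ℕ} (hA : 1 ≤ A) (c : ℝ) (J : ℕ) : LowVan (J + 1) (PA A c (J + 1) - PA A c J) := by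
  have h1 : PA A c (J + 1) - PA A c J = (GA A (J + 1) - GA A J) * MvPolynomial.C (c : ℂ) := by
    unfold PA; ring
  rw [h1]
  refine LowVan.mul_right (LowVan.mono ?_ (lowVan_stepP (bA A J) (nA A J) (psi (bA A J)) (GA A J))) _
  have h2 := two_pow_le_bA hA J
  have h3 : J < 2 ^ J := Nat.lt_two_pow_self
  have h4 : bA A J ≤ nA A J := by
    have h5 := two_le_bA hA J
    have h6 : 1 ≤ 4 ^ (bA A J) := Nat.one_le_iff_ne_zero.mpr (by positivity)
    unfold nA
    nlinarith [Nat.mul_le_mul_left (16 * bA A J ^ 2) h6]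
  have h7 : 5 * 2 ^ J ≤ 5 * 2 ^ J * 2 ^ J := Nat.le_mul_of_pos_right _ (by positivity)
  omega

theorem neg_PA (A : ℕ) (c : ℝ) : (fun J => -PA A c J) = PA A (-c) := by
  funext J
  unfold PA
  rw [Complex.ofReal_neg, map_neg, neg_mul]

/-- the value of the limit function at a point of the diagonal -/
noncomputable def fval (A : ℕ) (z : ℂ) : ℂ :=
  ∑' p : ℕ × ℕ, limArr (PA A (Real.log 2)) p * (z ^ p.1 * z ^ p.2)

section
variable {A : ℕ}

theorem abs_log_two : |Real.log 2| = Real.log 2 := abs_of_pos (Real.log_pos (by norm_num))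

theorem PA_int (hA : 1 ≤ A) (J : ℕ) :
    ∫ ω, ‖Complex.exp (ev (PA A (Real.log 2) J) (zOne ω) (zTwo ω))‖ ^ 2 ∂(nu.prod nu) ≤ 4 * 4 ^ A + 8 :=
  GA_integral hA J (Real.log 2) abs_log_two

theorem PA_int' (hA : 1 ≤ A) (J : ℕ) :
    ∫ ω, ‖Complex.exp (ev (PA A (-Real.log 2) J) (zOne ω) (zTwo ω))‖ ^ 2 ∂(nu.prod nu)
      ≤ 4 * 4 ^ A + 8 :=
  GA_integral hA J (-Real.log 2) (by rw [abs_neg]; exact abs_log_two)

theorem norm_exp_PA (J : ℕ) (z : ℂ) :
    ‖Complex.exp (ev (PA A (Real.log 2) J) z z)‖ = 2 ^ (ev (GA A J) z z).re := by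
  unfold PA
  rw [ev_mul, ev_C, Complex.norm_exp, Complex.re_ofReal_mul, Real.rpow_def_of_pos (by norm_num)]

theorem fval_summable (hA : 1 ≤ A) {z : ℂ} (hz : ‖z‖ < 1) :
    Summable fun p : ℕ × ℕ => ‖limArr (PA A (Real.log 2)) p * (z ^ p.1 * z ^ p.2)‖ :=
  (limArr_diag (PA A (Real.log 2)) (PA_low hA _) _ (PA_int hA) z hz).1

theorem fval_lower (hA : 2 ≤ A) (j : ℕ) {ζ : ℂ} (hζ : ‖ζ‖ = 1) (h : ‖ζ ^ (fA A j) - 1‖ ≤ 1 / 6) :
    (2 : ℝ) ^ (bA A j) / 4 ≤ ‖fval A (((1 - 1 / LA A j : ℝ) : ℂ) * ζ)‖ := by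
  have hA1 : 1 ≤ A := by omega
  have hL := LA_pos hA1 j
  have hL1 := one_lt_LA hA1 j
  set z : ℂ := ((1 - 1 / LA A j : ℝ) : ℂ) * ζ with hz
  have hr0 : 0 ≤ 1 - 1 / LA A j := by
    rw [sub_nonneg, div_le_one hL]; exact hL1.le
  have hzn : ‖z‖ < 1 := by
    rw [hz, norm_mul, hζ, mul_one, Complex.norm_real, Real.norm_eq_abs, abs_of_nonneg hr0]
    have : 0 < 1 / LA A j := by positivity
    linarith
  have h1 := (limArr_diag (PA A (Real.log 2)) (PA_low hA1 _) _ (PA_int hA1) z hzn).2.norm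
  refine ge_of_tendsto h1 ?_
  filter_upwards [Filter.eventually_ge_atTop (j + 1)] with J hJ
  obtain ⟨k, rfl⟩ := Nat.exists_eq_add_of_le hJ
  rw [norm_exp_PA]
  have h2 := GA_diag_final hA j hζ h k
  have h3 : (2 : ℝ) ^ ((bA A j : ℝ) - 2) ≤ 2 ^ (ev (GA A (j + 1 + k)) z z).re :=
    Real.rpow_le_rpow_of_exponent_le (by norm_num) h2
  refine le_trans (le_of_eq ?_) h3
  rw [Real.rpow_sub (by norm_num), Real.rpow_natCast]
  norm_num

theorem GA_zero_val (hA : 1 ≤ A) (J : ℕ) : ev (GA A J) 0 0 = -(A : ℂ) := by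
  induction J with
  | zero => exact ev_C _ _ _
  | succ J ih => rw [GA_diag_zero hA, ih]

theorem limArr_zero_val : limArr (PA A (Real.log 2)) 0 = (((1 / 2 : ℝ) ^ A : ℝ) : ℂ) := by
  have h1 : limArr (PA A (Real.log 2)) 0 = earr (PA A (Real.log 2) 0) 0 := rfl
  rw [h1, (earr_isArr _).zero]
  have h2 : ev (PA A (Real.log 2) 0) 0 0 = ((Real.log 2 * (-(A : ℝ)) : ℝ) : ℂ) := by
    unfold PA
    rw [ev_mul, ev_C]
    have : ev (GA A 0) 0 0 = -(A : ℂ) := ev_C _ _ _
    rw [this]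
    push_cast
    ring
  rw [h2, ← Complex.ofReal_exp]
  congr 1
  rw [← Real.rpow_def_of_pos (by norm_num), Real.rpow_neg (by norm_num), Real.rpow_natCast,
    one_div, inv_pow]

theorem continuous_fval (hA : 1 ≤ A) {r : ℝ} (hr0 : 0 ≤ r) (hr1 : r < 1) :
    Continuous fun α : ℝ => fval A (circleMap 0 r α) := by
  unfold fval
  have h1 := fval_summable hA (z := (r : ℂ)) (by
    rw [Complex.norm_real, Real.norm_eq_abs, abs_of_nonneg hr0]; exact hr1)
  refine continuous_tsum (fun p => ?_) h1 (fun p α => ?_)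
  · have := continuous_circleMap 0 r
    fun_prop
  · simp only [norm_mul, norm_pow, norm_circleMap r α hr0, Complex.norm_real, Real.norm_eq_abs,
      abs_of_nonneg hr0]
    exact le_rfl

end

/-- the polynomial on the diagonal attached to a finitely supported array -/
noncomputable def qpoly (cc : ℕ × ℕ → ℂ) (N : ℕ) : Polynomial ℂ :=
  ∑ s ∈ range N ×ˢ range N, Polynomial.C (cc s) * Polynomial.X ^ (s.1 + s.2)

theorem qpoly_hasSum {cc : ℕ × ℕ → ℂ} {N : ℕ} (hc : ∀ p : ℕ × ℕ, N ≤ p.1 ∨ N ≤ p.2 → cc p = 0)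
    (z : ℂ) : HasSum (fun p : ℕ × ℕ => cc p * (z ^ p.1 * z ^ p.2)) ((qpoly cc N).eval z) := by
  have h1 : (qpoly cc N).eval z = ∑ s ∈ range N ×ˢ range N, cc s * (z ^ s.1 * z ^ s.2) := by
    unfold qpoly
    rw [Polynomial.eval_finsetSum]
    refine sum_congr rfl fun s _ => ?_
    simp [pow_add]
  rw [h1]
  refine hasSum_sum_of_ne_finset_zero fun p hp => ?_
  rw [hc p, zero_mul]
  simp only [mem_product, mem_range, not_and, not_lt] at hp
  by_contra hcon
  push Not at hcon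
  have := hp hcon.1
  omega

theorem qpoly_summable {cc : ℕ × ℕ → ℂ} {N : ℕ} (hc : ∀ p : ℕ × ℕ, N ≤ p.1 ∨ N ≤ p.2 → cc p = 0)
    (z : ℂ) : Summable fun p : ℕ × ℕ => ‖cc p * (z ^ p.1 * z ^ p.2)‖ := by
  refine summable_of_ne_finset_zero (s := range N ×ˢ range N) fun p hp => ?_
  rw [hc p, zero_mul, norm_zero]
  simp only [mem_product, mem_range, not_and, not_lt] at hp
  by_contra hcon
  push Not at hcon
  have := hp hcon.1
  omega

theorem conv_summable_norm_diag {a cc : ℕ × ℕ → ℂ} {N : ℕ}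
    (hc : ∀ p : ℕ × ℕ, N ≤ p.1 ∨ N ≤ p.2 → cc p = 0) {z : ℂ}
    (ha : Summable fun p : ℕ × ℕ => ‖a p * (z ^ p.1 * z ^ p.2)‖) :
    Summable fun p : ℕ × ℕ => ‖conv cc a p * (z ^ p.1 * z ^ p.2)‖ := by
  have h1 := conv_summable (a := fun p => cc p * (z ^ p.1 * z ^ p.2))
    (b := fun p => a p * (z ^ p.1 * z ^ p.2)) (qpoly_summable hc z) ha
  refine h1.congr fun p => ?_
  congr 1
  rw [conv_eq, conv_eq, sum_mul]
  refine sum_congr rfl fun x hx => ?_
  have hx' : x.1 + x.2 = p := mem_antiProd.mp hx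
  rw [← hx', Prod.fst_add, Prod.snd_add, pow_add, pow_add]
  ring

/-- the crucial upper bound for multipliers -/
theorem q_zero_bound {A : ℕ} (hA : 2 ≤ A) {t : ℝ} (ht : 0 < t) (ht2 : t ≤ 2)
    (hρ : (8 : ℝ) ^ t * (99 / 100 : ℝ) ^ (1 - t / 2) < 1) {cc : ℕ × ℕ → ℂ} {N : ℕ}
    (hc : ∀ p : ℕ × ℕ, N ≤ p.1 ∨ N ≤ p.2 → cc p = 0)
    (hsq : ∑' p, ‖conv cc (limArr (PA A (Real.log 2))) p‖ ^ 2 ≤ 4) :
    ‖(qpoly cc N).eval 0‖ ^ t ≤ (589824 * (5 * (A : ℝ)) ^ 3) ^ (t / 2) *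
      (5 / (1 - (8 : ℝ) ^ t * (99 / 100 : ℝ) ^ (1 - t / 2))) := by
  have hA1 : 1 ≤ A := by omega
  set ρ : ℝ := (8 : ℝ) ^ t * (99 / 100 : ℝ) ^ (1 - t / 2) with hρdef
  have hρ0 : 0 < ρ := by positivity
  set r : ℕ → ℝ := fun j => 1 - 1 / LA A j with hr
  have hLpos : ∀ j, 0 < LA A j := LA_pos hA1
  have hL1 : ∀ j, 1 < LA A j := one_lt_LA hA1
  have hr0 : ∀ j, 0 < r j := fun j => by
    simp only [hr, sub_pos, div_lt_one (hLpos j)]; exact hL1 j
  have hr1 : ∀ j, r j < 1 := fun j => by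
    have : 0 < 1 / LA A j := by have := hLpos j; positivity
    simp only [hr]; linarith
  have hrr : ∀ j, r j < r (j + 1) := fun j => by
    simp only [hr]
    have h1 := LA_mono_succ hA j
    have h2 : 1 / LA A (j + 1) < 1 / LA A j :=
      one_div_lt_one_div_of_lt (hLpos j) (by linarith [hLpos j])
    linarith
  set a := limArr (PA A (Real.log 2)) with ha
  set h := conv cc a with hh
  have hasum : Summable fun p => ‖a p‖ ^ 2 := limArr_summable _ (PA_low hA1 _) _ (PA_int hA1)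
  have hhsum : Summable fun p => ‖h p‖ ^ 2 := conv_sq_summable hasum hc
  -- product formula on the diagonal
  have hprod : ∀ z : ℂ, ‖z‖ < 1 →
      HasSum (fun p : ℕ × ℕ => h p * (z ^ p.1 * z ^ p.2)) ((qpoly cc N).eval z * fval A z) := by
    intro z hz
    have h1 := fval_summable hA1 hz
    exact conv_hasSum (qpoly_summable hc z) h1 (qpoly_hasSum hc z) h1.of_norm.hasSum
  set Y : ℕ → ℝ → ℝ := fun j α =>
    (1 - r j ^ 2) * ‖(qpoly cc N).eval (circleMap 0 (r j) α) * fval A (circleMap 0 (r j) α)‖ ^ 2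
    with hY
  have hpi := Real.pi_pos
  have hpi4 := Real.pi_le_four
  refine (chain_bound (qpoly cc N) ht ht2 (κ := 99 / 100) (by norm_num) (by norm_num) r (hr0 0) hrr
    (fun j => (hr1 j).le) (fun j => Sset (fA A j)) (fun j => measurableSet_Sset _) ?_ ?_
    (fun j => 589824 * (bA A j : ℝ) ^ 3) (fun j => by positivity) Y ?_ ?_ ?_ ?_
    ((589824 * (5 * (A : ℝ)) ^ 3) ^ (t / 2) * (5 / (1 - ρ))) ?_)
  · -- first circle
    have h1 := stop_mass (fA_pos hA1 0) (r := 0) (R := 1) le_rfl one_pos le_rfl ?_ 0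
    · have h2 : ∀ β, kE 0 1 0 β = 1 := by
        intro β
        unfold kE
        simp only [poissonKernel_def, sub_zero, circleMap_zero_radius, Function.const_apply,
          norm_zero, norm_circleMap 1 β zero_le_one]
        norm_num
      simpa [h2] using h1
    · have h3 : 1000000 ≤ fA A 0 := by
        have h4 := ten_le_bA hA 0
        unfold fA nA
        have h5 : (4 : ℕ) ^ 10 ≤ 4 ^ (bA A 0) := Nat.pow_le_pow_right (by norm_num) h4
        have h6 : (10 : ℕ) ^ 2 ≤ (bA A 0) ^ 2 := Nat.pow_le_pow_left h4 2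
        have h7 := Nat.mul_le_mul h6 h5
        rw [mul_assoc 16]
        omega
      have h4 : (1000000 : ℝ) ≤ fA A 0 := by exact_mod_cast h3
      linarith
  · -- later circles
    intro j α
    refine stop_mass (fA_pos hA1 (j + 1)) (hr0 j).le (hrr j) (hr1 (j + 1)).le ?_ α
    have h1 := LA_le_nA hA j
    have h2 := LA_mono_succ hA j
    have h3 : (1048576 : ℝ) ≤ 16 ^ (bA A j) := by
      have h4 : (16 : ℝ) ^ 5 ≤ 16 ^ (bA A j) :=
        pow_le_pow_right₀ (by norm_num) (by have := ten_le_bA hA j; omega)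
      norm_num at h4
      exact h4
    have h5 : (nA A (j + 1) : ℝ) ≤ fA A (j + 1) := by
      have h6 := nA_pos hA1 (j + 1)
      have : nA A (j + 1) ≤ fA A (j + 1) := by unfold fA; omega
      exact_mod_cast this
    have h6 : 1 / (2 * LA A j) ≤ r (j + 1) - r j := by
      simp only [hr]
      have h7 : 1 / LA A (j + 1) ≤ 1 / (2 * LA A j) :=
        one_div_le_one_div_of_le (by linarith [hLpos j]) h2
      have h8 : 1 / LA A j = 1 / (2 * LA A j) + 1 / (2 * LA A j) := by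
        have := hLpos j
        field_simp
        ring
      linarith
    have h7 : (1048576 : ℝ) * (1 / 1) ≤ (fA A (j + 1) : ℝ) * (1 / (2 * LA A j)) := by
      rw [mul_one_div (fA A (j + 1) : ℝ), le_div_iff₀ (by linarith [hLpos j])]
      have h8 : 1048576 * LA A j ≤ nA A (j + 1) / 2 :=
        le_trans (mul_le_mul_of_nonneg_right h3 (hLpos j).le) h1
      linarith
    have h9 : (fA A (j + 1) : ℝ) * (1 / (2 * LA A j)) ≤ fA A (j + 1) * (r (j + 1) - r j) :=
      mul_le_mul_of_nonneg_left h6 (by positivity)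
    linarith
  · -- continuity
    intro j
    have h1 : Continuous fun α : ℝ => (qpoly cc N).eval (circleMap 0 (r j) α) :=
      (qpoly cc N).continuous.comp (continuous_circleMap 0 (r j))
    have h2 := continuous_fval hA1 (hr0 j).le (hr1 j)
    simp only [hY]
    exact ((h1.mul h2).norm.pow 2).const_mul _
  · intro j α
    simp only [hY]
    have : r j ^ 2 ≤ 1 := pow_le_one₀ (hr0 j).le (hr1 j).le
    have h2 : 0 ≤ 1 - r j ^ 2 := by linarith
    positivity
  · intro j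
    simp only [hY]
    have hz : ‖((r j : ℝ) : ℂ)‖ < 1 := by
      rw [Complex.norm_real, Real.norm_eq_abs, abs_of_pos (hr0 j)]; exact hr1 j
    have h1 := conv_summable_norm_diag hc (fval_summable hA1 hz)
    have h2 := circle_mean_le hhsum (hr0 j).le (hr1 j) h1
    refine le_trans (le_of_eq ?_) (h2.trans hsq)
    refine integral_congr_ae (Filter.Eventually.of_forall fun α => ?_)
    simp only
    rw [(hprod _ (by rw [norm_circleMap _ _ (hr0 j).le]; exact hr1 j)).tsum_eq]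
  · -- the stopped part
    intro j α hα
    have hζ : ‖Complex.exp (α * Complex.I)‖ = 1 := Complex.norm_exp_ofReal_mul_I α
    have h1 : ‖Complex.exp (α * Complex.I) ^ (fA A j) - 1‖ ≤ 1 / 6 := by
      unfold Sset at hα
      simp only [Set.mem_ofPred_eq, not_lt] at hα
      rw [← Complex.exp_nat_mul]
      have e : ((fA A j : ℕ) : ℂ) * (α * Complex.I) = ((fA A j * α : ℝ) : ℂ) * Complex.I := by
        push_cast
        ring
      rw [e]
      exact hα
    have h2 := fval_lower hA j hζ h1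
    have h3 : circleMap 0 (r j) α = ((1 - 1 / LA A j : ℝ) : ℂ) * Complex.exp (α * Complex.I) := by
      simp only [circleMap, zero_add, hr]
    rw [← h3] at h2
    simp only [hY]
    set z := circleMap 0 (r j) α
    rw [norm_mul, mul_pow]
    have h4 : ((2 : ℝ) ^ (bA A j) / 4) ^ 2 ≤ ‖fval A z‖ ^ 2 := pow_le_pow_left₀ (by positivity) h2 2
    have h5 : 1 / LA A j ≤ 1 - r j ^ 2 := by
      have h6 := hr0 j
      have h7 := hr1 j
      have h8 : 1 / LA A j = 1 - r j := by simp only [hr]; ring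
      rw [h8]
      nlinarith
    have h6 : (589824 * (bA A j : ℝ) ^ 3) * ((1 / LA A j) * ((2 : ℝ) ^ (bA A j) / 4) ^ 2) ≥ 1 := by
      have h7 := LA_le (A := A) j
      have h8 : (nA A j : ℝ) = 16 * (bA A j) ^ 2 * 4 ^ (bA A j) := by
        unfold nA; push_cast; rfl
      have h9 : ((2 : ℝ) ^ (bA A j) / 4) ^ 2 = 4 ^ (bA A j) / 16 := by
        rw [div_pow, ← pow_mul, mul_comm, pow_mul]; norm_num
      rw [h9, ge_iff_le, ← mul_assoc, mul_one_div, div_mul_div_comm, le_div_iff₀ (by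
        have := hLpos j; positivity)]
      rw [h8] at h7
      calc 1 * (LA A j * 16) ≤ (2304 * bA A j * (16 * (bA A j) ^ 2 * 4 ^ (bA A j))) * 16 := by
            linarith
        _ = 589824 * (bA A j : ℝ) ^ 3 * 4 ^ (bA A j) := by ring
    have h10 : (1 / LA A j) * ((2 : ℝ) ^ (bA A j) / 4) ^ 2 ≤ (1 - r j ^ 2) * ‖fval A z‖ ^ 2 := by
      refine mul_le_mul h5 h4 (by positivity) ?_
      have := hLpos j
      have : 0 ≤ 1 / LA A j := by positivity
      linarith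
    have h11 : 1 ≤ (589824 * (bA A j : ℝ) ^ 3) * ((1 - r j ^ 2) * ‖fval A z‖ ^ 2) :=
      h6.le.trans (mul_le_mul_of_nonneg_left h10 (by positivity))
    have h12 : 0 ≤ ‖(qpoly cc N).eval z‖ ^ 2 := by positivity
    calc ‖(qpoly cc N).eval z‖ ^ 2 = ‖(qpoly cc N).eval z‖ ^ 2 * 1 := (mul_one _).symm
      _ ≤ ‖(qpoly cc N).eval z‖ ^ 2 *
          ((589824 * (bA A j : ℝ) ^ 3) * ((1 - r j ^ 2) * ‖fval A z‖ ^ 2)) :=
          mul_le_mul_of_nonneg_left h11 h12
      _ = _ := by ring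
  · -- geometric series
    intro J
    set K : ℝ := 589824 * (5 * (A : ℝ)) ^ 3 with hK
    have hK0 : 0 ≤ K := by positivity
    have h1 : ∀ j, 5 * ((589824 * (bA A j : ℝ) ^ 3) ^ (t / 2) * ((99 / 100 : ℝ) ^ (1 - t / 2)) ^ j)
        = K ^ (t / 2) * (5 * ρ ^ j) := by
      intro j
      have h2 : 589824 * (bA A j : ℝ) ^ 3 = K * 64 ^ j := by
        rw [hK]
        unfold bA
        push_cast
        have : (64 : ℝ) ^ j = (4 ^ j) ^ 3 := by rw [← pow_mul, mul_comm, pow_mul]; norm_num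
        rw [this]
        ring
      have h3 : ((64 : ℝ) ^ j) ^ (t / 2) = (8 ^ t) ^ j := by
        have h4 : (64 : ℝ) ^ j = 8 ^ ((2 * j : ℕ) : ℝ) := by
          rw [Real.rpow_natCast, pow_mul]; norm_num
        rw [h4, ← Real.rpow_mul (by norm_num), ← Real.rpow_natCast, ← Real.rpow_mul (by norm_num)]
        congr 1
        push_cast
        ring
      rw [h2, Real.mul_rpow hK0 (by positivity), h3, hρdef, mul_pow]
      ring
    simp_rw [h1]
    rw [← mul_sum, ← mul_sum]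
    refine mul_le_mul_of_nonneg_left ?_ (by positivity)
    rw [div_eq_mul_inv]
    refine mul_le_mul_of_nonneg_left ?_ (by norm_num)
    rw [← tsum_geometric_of_lt_one hρ0.le hρ]
    exact (summable_geometric_of_lt_one hρ0.le hρ).sum_le_tsum _ fun i _ => by positivity

theorem main_nc : ∃ a b : ℕ × ℕ → ℂ, (Summable fun p => ‖a p‖ ^ 2) ∧ (Summable fun p => ‖b p‖ ^ 2) ∧
    (∀ p, conv a b p = dlt p) ∧ ∃ ε : ℝ, 0 < ε ∧
      ∀ (cc : ℕ × ℕ → ℂ) (N : ℕ), (∀ p : ℕ × ℕ, N ≤ p.1 ∨ N ≤ p.2 → cc p = 0) →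
        ε ≤ ∑' p, ‖conv cc a p - dlt p‖ ^ 2 := by
  obtain ⟨t, ht, ht2, hρ⟩ := exists_t
  set ρ : ℝ := (8 : ℝ) ^ t * (99 / 100 : ℝ) ^ (1 - t / 2) with hρdef
  set D : ℝ := (5 / (1 - ρ)) ^ (2 / t) with hD
  have hD0 : 0 ≤ 5 / (1 - ρ) := div_nonneg (by norm_num) (by linarith)
  obtain ⟨A, hA, hAbig⟩ := exists_A (4 * (589824 * 125) * D)
  have hA1 : 1 ≤ A := by omega
  set a := limArr (PA A (Real.log 2)) with ha
  set b := limArr (PA A (-Real.log 2)) with hb
  have hasum : Summable fun p => ‖a p‖ ^ 2 := limArr_summable _ (PA_low hA1 _) _ (PA_int hA1)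
  have hbsum : Summable fun p => ‖b p‖ ^ 2 := limArr_summable _ (PA_low hA1 _) _ (PA_int' hA1)
  refine ⟨a, b, hasum, hbsum, fun p => ?_, 1 / 4, by norm_num, fun cc N hc => ?_⟩
  · have h1 := limArr_conv (PA A (Real.log 2)) (PA_low hA1 _) p
    rw [neg_PA] at h1
    exact h1
  · by_contra hcon
    push Not at hcon
    set h := conv cc a with hh
    have hhsum : Summable fun p => ‖h p‖ ^ 2 := conv_sq_summable hasum hc
    have hdsum : Summable fun p => ‖dlt p‖ ^ 2 := by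
      refine summable_of_ne_finset_zero (s := {0}) fun p hp => ?_
      have : p ≠ 0 := by simpa using hp
      simp [dlt, this]
    have hdval : ∑' p, ‖dlt p‖ ^ 2 = 1 := by
      rw [tsum_eq_single (0 : ℕ × ℕ)]
      · simp [dlt]
      · intro p hp
        simp [dlt, hp]
    have hsub : ∀ x y : ℂ, ‖x - y‖ ^ 2 ≤ 2 * ‖x‖ ^ 2 + 2 * ‖y‖ ^ 2 := by
      intro x y
      have h1 : ‖x - y‖ ^ 2 ≤ (‖x‖ + ‖y‖) ^ 2 := pow_le_pow_left₀ (norm_nonneg _) (norm_sub_le _ _) 2
      nlinarith [sq_nonneg (‖x‖ - ‖y‖)]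
    have hdiff : Summable fun p => ‖h p - dlt p‖ ^ 2 :=
      Summable.of_nonneg_of_le (fun p => by positivity) (fun p => hsub _ _)
        ((hhsum.mul_left 2).add (hdsum.mul_left 2))
    have hsq : ∑' p, ‖h p‖ ^ 2 ≤ 4 := by
      have h1 : ∀ p, ‖h p‖ ^ 2 ≤ 2 * ‖h p - dlt p‖ ^ 2 + 2 * ‖dlt p‖ ^ 2 := by
        intro p
        have h2 := hsub (h p - dlt p) (-dlt p)
        rw [norm_neg, sub_neg_eq_add, sub_add_cancel] at h2
        exact h2
      have h2 := hhsum.tsum_le_tsum h1 ((hdiff.mul_left 2).add (hdsum.mul_left 2))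
      rw [(hdiff.mul_left 2).tsum_add (hdsum.mul_left 2), tsum_mul_left, tsum_mul_left, hdval] at h2
      linarith
    have hbound := q_zero_bound hA ht ht2 hρ hc hsq
    -- the value at zero
    have h0 : ‖h 0 - 1‖ ^ 2 < 1 / 4 := by
      have h1 := hdiff.le_tsum 0 fun p _ => by positivity
      have h2 : dlt 0 = 1 := by simp [dlt]
      rw [h2] at h1
      linarith
    have h1 : ‖h 0 - 1‖ < 1 / 2 := by
      have : ‖h 0 - 1‖ ^ 2 < (1 / 2) ^ 2 := by
        refine h0.trans_le (by norm_num)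
      exact lt_of_pow_lt_pow_left₀ 2 (by norm_num) this
    have h2 : 1 / 2 < ‖h 0‖ := by
      have h3 : ‖(1 : ℂ)‖ ≤ ‖h 0‖ + ‖h 0 - 1‖ := by
        have h4 : (1 : ℂ) = h 0 - (h 0 - 1) := by ring
        conv_lhs => rw [h4]
        exact norm_sub_le _ _
      rw [norm_one] at h3
      linarith
    have h3 : h 0 = cc 0 * a 0 := by
      rw [hh]
      unfold conv
      simp
      rfl
    have h4 : (qpoly cc N).eval 0 = cc 0 := by
      have h5 := qpoly_hasSum hc 0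
      have h6 : HasSum (fun p : ℕ × ℕ => cc p * ((0 : ℂ) ^ p.1 * 0 ^ p.2)) (cc 0) := by
        have h7 := hasSum_single (f := fun p : ℕ × ℕ => cc p * ((0 : ℂ) ^ p.1 * 0 ^ p.2)) (0 : ℕ × ℕ)
          (fun p hp => by
            rw [← pow_add, zero_pow, mul_zero]
            intro h
            apply hp
            ext <;> simp only [Prod.fst_zero, Prod.snd_zero] <;> omega)
        simpa using h7
      exact h5.unique h6
    have h5 : a 0 = (((1 / 2 : ℝ) ^ A : ℝ) : ℂ) := limArr_zero_val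
    have h6 : (2 : ℝ) ^ A / 2 < ‖(qpoly cc N).eval 0‖ := by
      rw [h3, norm_mul, h5, Complex.norm_real, Real.norm_eq_abs, abs_of_pos (by positivity)] at h2
      rw [h4]
      have h7 : (0 : ℝ) < 2 ^ A := by positivity
      rw [one_div, inv_pow, ← div_eq_mul_inv, lt_div_iff₀ h7] at h2
      linarith
    -- numeric contradiction
    set x := ‖(qpoly cc N).eval 0‖ with hx
    have hx0 : 0 ≤ x := norm_nonneg _
    set K : ℝ := 589824 * (5 * (A : ℝ)) ^ 3 with hK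
    have hK0 : 0 ≤ K := by positivity
    have h8 : (x ^ t) ^ (2 / t) ≤ (K ^ (t / 2) * (5 / (1 - ρ))) ^ (2 / t) :=
      Real.rpow_le_rpow (by positivity) hbound (by positivity)
    have h9 : (x ^ t) ^ (2 / t) = x ^ 2 := by
      rw [← Real.rpow_mul hx0, mul_div_cancel₀ _ ht.ne', ← Real.rpow_natCast]
      norm_num
    have h10 : (K ^ (t / 2) * (5 / (1 - ρ))) ^ (2 / t) = K * D := by
      rw [Real.mul_rpow (by positivity) hD0, ← Real.rpow_mul hK0]
      have : t / 2 * (2 / t) = 1 := by field_simp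
      rw [this, Real.rpow_one]
    rw [h9, h10] at h8
    have h11 : ((2 : ℝ) ^ A / 2) ^ 2 < x ^ 2 := pow_lt_pow_left₀ h6 (by positivity) two_ne_zero
    have h12 : ((2 : ℝ) ^ A / 2) ^ 2 = 4 ^ A / 4 := by
      rw [div_pow, ← pow_mul, mul_comm, pow_mul]; norm_num
    rw [h12] at h11
    have h13 : 4 * (589824 * 125) * D * (A : ℝ) ^ 3 = 4 * (K * D) := by rw [hK]; ring
    rw [h13] at hAbig
    linarith

end Pool.Agent.H51
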