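import Pool.Agent.H51.CycSeq

set_option autoImplicit false
open Finset MvPolynomial MeasureTheory

/-! Integral bounds on the torus. -/

namespace Pool.Agent.H51

theorem measurableSet_arc (θ : ℝ) : MeasurableSet {t : ℝ | ‖Complex.exp (t * Complex.I) - 1‖ < θ} :=
  (isOpen_lt (by fun_prop) continuous_const).measurableSet

theorem norm_exp_sub_one_eq (t : ℝ) : ‖Complex.exp (t * Complex.I) - 1‖ = 2 * |Real.sin (t / 2)| := by
  have h := Complex.norm_exp_I_mul_ofReal_sub_one t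
  rw [mul_comm Complex.I, Real.norm_eq_abs, abs_mul] at h
  rw [h]
  norm_num

theorem arc_subset (θ : ℝ) : {t : ℝ | ‖Complex.exp (t * Complex.I) - 1‖ < θ} ∩
    Set.Ioc 0 (2 * Real.pi) ⊆ Set.Icc 0 (Real.pi * θ / 2) ∪
      Set.Icc (2 * Real.pi - Real.pi * θ / 2) (2 * Real.pi) := by
  rintro t ⟨ht1, ht2, ht3⟩
  have hpi := Real.pi_pos
  have ht1' : 2 * |Real.sin (t / 2)| < θ := by
    rw [← norm_exp_sub_one_eq]; exact ht1
  rcases le_total t Real.pi with h | h
  · left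
    have h1 : 2 / Real.pi * (t / 2) ≤ Real.sin (t / 2) :=
      Real.mul_le_sin (by linarith) (by linarith)
    have h2 := le_abs_self (Real.sin (t / 2))
    refine ⟨ht2.le, ?_⟩
    have h3 : 2 * (2 / Real.pi * (t / 2)) < θ := by linarith
    have h4 : 2 * (2 / Real.pi * (t / 2)) = 2 * t / Real.pi := by field_simp
    rw [h4, div_lt_iff₀ hpi] at h3
    nlinarith
  · right
    have h1 : 2 / Real.pi * (Real.pi - t / 2) ≤ Real.sin (Real.pi - t / 2) :=
      Real.mul_le_sin (by linarith) (by linarith)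
    rw [Real.sin_pi_sub] at h1
    have h2 := le_abs_self (Real.sin (t / 2))
    refine ⟨?_, ht3⟩
    have h3 : 2 * (2 / Real.pi * (Real.pi - t / 2)) < θ := by linarith
    have h4 : 2 * (2 / Real.pi * (Real.pi - t / 2)) = (4 * Real.pi - 2 * t) / Real.pi := by
      field_simp
      ring
    rw [h4, div_lt_iff₀ hpi] at h3
    nlinarith

theorem nu_arc {θ : ℝ} (hθ : 0 < θ) :
    nu {t : ℝ | ‖Complex.exp (t * Complex.I) - 1‖ < θ} ≤ ENNReal.ofReal θ := by
  have hpi := Real.pi_pos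
  unfold nu
  rw [Measure.smul_apply, Measure.restrict_apply (measurableSet_arc θ), smul_eq_mul]
  have h1 := (measure_mono (μ := volume) (arc_subset θ)).trans (measure_union_le _ _)
  rw [Real.volume_Icc, Real.volume_Icc, ← ENNReal.ofReal_add (by simp; positivity)
    (by nlinarith [mul_pos hpi hθ])] at h1
  have h2 : Real.pi * θ / 2 - 0 + (2 * Real.pi - (2 * Real.pi - Real.pi * θ / 2)) = Real.pi * θ := by
    ring
  rw [h2] at h1
  have h3 : (ENNReal.ofReal (2 * Real.pi))⁻¹ = ENNReal.ofReal ((2 * Real.pi)⁻¹) :=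
    (ENNReal.ofReal_inv_of_pos (by positivity)).symm
  rw [h3]
  refine (mul_le_mul_right h1 _).trans ?_
  rw [← ENNReal.ofReal_mul (by positivity)]
  refine ENNReal.ofReal_le_ofReal ?_
  have h4 : (2 * Real.pi)⁻¹ * (Real.pi * θ) = θ / 2 := by field_simp
  rw [h4]
  linarith

theorem norm_zOne_sub_zTwo (ω : ℝ × ℝ) : ‖zOne ω - zTwo ω‖ = ‖Complex.exp (ω.2 * Complex.I) - 1‖ := by
  have h : zTwo ω = zOne ω * Complex.exp (ω.2 * Complex.I) := by
    unfold zOne zTwo
    rw [← Complex.exp_add]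
    congr 1
    ring
  rw [h, norm_sub_rev]
  have h2 : zOne ω * Complex.exp (ω.2 * Complex.I) - zOne ω
      = zOne ω * (Complex.exp (ω.2 * Complex.I) - 1) := by ring
  rw [h2, norm_mul, norm_zOne, one_mul]

theorem integral_snd_nu (g : ℝ → ℝ) : ∫ ω : ℝ × ℝ, g ω.2 ∂(nu.prod nu) = ∫ t, g t ∂nu := by
  have h := integral_prod_mul (μ := nu) (ν := nu) (fun _ : ℝ => (1 : ℝ)) g
  simpa using h

theorem norm_exp_sq (c : ℝ) (hc : |c| = Real.log 2) (x : ℂ) :
    ‖Complex.exp ((c : ℂ) * x)‖ ^ 2 ≤ (4 : ℝ) ^ |x.re| := by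
  rw [Complex.norm_exp, Complex.re_ofReal_mul, ← Real.exp_nat_mul,
    Real.rpow_def_of_pos (by norm_num)]
  refine Real.exp_le_exp.mpr ?_
  have h1 : Real.log 4 = 2 * Real.log 2 := by
    rw [show (4 : ℝ) = 2 ^ 2 by norm_num, Real.log_pow]; norm_num
  rw [h1]
  have h2 : c * x.re ≤ Real.log 2 * |x.re| := by
    rw [← hc, ← abs_mul]
    exact le_abs_self _
  push_cast
  linarith

theorem continuous_ev (P : MvPolynomial (Fin 2) ℂ) : Continuous fun p : ℂ × ℂ => ev P p.1 p.2 := by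
  simp_rw [ev_eq]
  fun_prop

theorem GA_integral {A : ℕ} (hA : 1 ≤ A) (J : ℕ) (c : ℝ) (hc : |c| = Real.log 2) :
    ∫ ω, ‖Complex.exp (ev (C (c : ℂ) * GA A J) (zOne ω) (zTwo ω))‖ ^ 2 ∂(nu.prod nu)
      ≤ 4 * 4 ^ A + 8 := by
  set E : ℕ → Set ℝ := fun j => {t : ℝ | ‖Complex.exp (t * Complex.I) - 1‖ < theta A j} with hE
  set g : ℕ → ℝ → ℝ := fun j => (E j).indicator (fun _ => (4 : ℝ) * 4 ^ (bA A j)) with hg
  have hgint : ∀ j, Integrable (g j) nu := fun j =>
    (integrable_const _).indicator (measurableSet_arc _)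
  have hgint2 : ∀ j, Integrable (fun ω : ℝ × ℝ => g j ω.2) (nu.prod nu) := fun j =>
    (hgint j).comp_snd nu
  have h1 : ∀ ω : ℝ × ℝ, ‖Complex.exp (ev (C (c : ℂ) * GA A J) (zOne ω) (zTwo ω))‖ ^ 2 ≤
      4 * 4 ^ A + ∑ j ∈ range J, g j ω.2 := by
    intro ω
    rw [ev_mul, ev_C]
    refine (norm_exp_sq c hc _).trans ?_
    refine (GA_pointwise hA J (norm_zOne ω) (norm_zTwo ω)).trans (le_of_eq ?_)
    congr 1
    refine sum_congr rfl fun j _ => ?_
    rw [norm_zOne_sub_zTwo]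
    rfl
  have hcont : Continuous fun ω : ℝ × ℝ =>
      ‖Complex.exp (ev (C (c : ℂ) * GA A J) (zOne ω) (zTwo ω))‖ ^ 2 := by
    have h2 := (continuous_ev (C (c : ℂ) * GA A J)).comp (continuous_zOne.prodMk continuous_zTwo)
    have h3 : Continuous fun ω : ℝ × ℝ => ev (C (c : ℂ) * GA A J) (zOne ω) (zTwo ω) := h2
    fun_prop
  have hsumint : Integrable (fun ω : ℝ × ℝ => 4 * 4 ^ A + ∑ j ∈ range J, g j ω.2) (nu.prod nu) :=
    (integrable_const _).add (integrable_finsetSum _ fun j _ => hgint2 j)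
  have h2 : ∫ ω, ‖Complex.exp (ev (C (c : ℂ) * GA A J) (zOne ω) (zTwo ω))‖ ^ 2 ∂(nu.prod nu)
      ≤ ∫ ω : ℝ × ℝ, (4 * 4 ^ A + ∑ j ∈ range J, g j ω.2) ∂(nu.prod nu) := by
    refine integral_mono_of_nonneg (Filter.Eventually.of_forall fun ω => by positivity) hsumint
      (Filter.Eventually.of_forall h1)
  refine h2.trans ?_
  rw [integral_add (integrable_const _) (integrable_finsetSum _ fun j _ => hgint2 j),
    integral_finsetSum _ fun j _ => hgint2 j]
  have h3 : ∀ j, ∫ ω : ℝ × ℝ, g j ω.2 ∂(nu.prod nu) ≤ 4 * (1 / 2) ^ j := by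
    intro j
    rw [integral_snd_nu (g j), hg]
    simp only
    rw [integral_indicator (measurableSet_arc _), setIntegral_const, smul_eq_mul]
    have h4 : nu.real (E j) ≤ theta A j := by
      rw [Measure.real]
      exact ENNReal.toReal_le_of_le_ofReal (theta_pos A j).le (nu_arc (theta_pos A j))
    calc nu.real (E j) * (4 * 4 ^ bA A j) ≤ theta A j * (4 * 4 ^ bA A j) :=
          mul_le_mul_of_nonneg_right h4 (by positivity)
      _ = 4 * (1 / 2) ^ j := by
          unfold theta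
          rw [one_div, inv_pow]
          field_simp
  have h5 : ∑ j ∈ range J, ∫ ω : ℝ × ℝ, g j ω.2 ∂(nu.prod nu) ≤ 8 := by
    refine (sum_le_sum fun j _ => h3 j).trans ?_
    rw [← mul_sum]
    have h6 : ∑ j ∈ range J, ((1 : ℝ) / 2) ^ j ≤ 2 := by
      have h7 := sum_geometric_two_le J
      exact h7
    linarith
  simp only [integral_const, probReal_univ, smul_eq_mul, one_mul]
  linarith

end Pool.Agent.H51
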