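import Pool.Agent.H51.CycDiag2
import Pool.Agent.H51.CycInt
import Pool.Agent.H51.CycChain2

set_option autoImplicit false
open Finset MeasureTheory
open scoped ENNReal

/-! Assembly. -/

namespace Pool.Agent.H51

theorem hasSum_antidiag {E : Type*} [NormedAddCommGroup E] [CompleteSpace E] {f : ℕ × ℕ → E} {s : E}
    (h : HasSum f s) : HasSum (fun n => ∑ p ∈ antidiagonal n, f p) s := by
  have h1 := (Finset.HasAntidiagonal.sigmaAntidiagonalEquivProd (A := ℕ)).hasSum_iff.mpr h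
  refine HasSum.sigma h1 fun n => ?_
  have h2 := hasSum_fintype fun x : antidiagonal n => f x
  rw [Finset.sum_coe_sort (antidiagonal n) f] at h2
  exact h2

theorem pow_weight (n : ℕ) {r : ℝ} (hr0 : 0 ≤ r) (hr1 : r ≤ 1) :
    (1 - r ^ 2) * ((r ^ n) ^ 2 * (n + 1)) ≤ 1 := by
  have h1 : (r ^ n) ^ 2 * (n + 1) ≤ ∑ k ∈ range (n + 1), (r ^ 2) ^ k := by
    have h2 : ∀ k ∈ range (n + 1), (r ^ n) ^ 2 ≤ (r ^ 2) ^ k := by
      intro k hk
      rw [mem_range] at hk
      rw [← pow_mul, ← pow_mul, mul_comm n 2]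
      exact pow_le_pow_of_le_one hr0 hr1 (by omega)
    have h3 := Finset.sum_le_sum h2
    rw [sum_const, card_range, nsmul_eq_mul] at h3
    push_cast at h3
    linarith
  have h4 : 0 ≤ 1 - r ^ 2 := by nlinarith
  refine (mul_le_mul_of_nonneg_left h1 h4).trans ?_
  rw [mul_neg_geom_sum]
  have : 0 ≤ (r ^ 2) ^ (n + 1) := by positivity
  linarith

/-- weighted square means on circles are controlled by the sum of squares of the coefficients -/
theorem circle_mean_le {h : ℕ × ℕ → ℂ} (hh : Summable fun p => ‖h p‖ ^ 2) {r : ℝ} (hr0 : 0 ≤ r)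
    (hr1 : r < 1) (hs : Summable fun p : ℕ × ℕ => ‖h p * ((r : ℂ) ^ p.1 * (r : ℂ) ^ p.2)‖) :
    ∫ α, (1 - r ^ 2) * ‖∑' p : ℕ × ℕ, h p * (circleMap 0 r α ^ p.1 * circleMap 0 r α ^ p.2)‖ ^ 2 ∂nu
      ≤ ∑' p, ‖h p‖ ^ 2 := by
  set φ : ℕ → ℂ := fun n => ∑ p ∈ antidiagonal n, h p * ((r : ℂ) ^ p.1 * (r : ℂ) ^ p.2) with hφ
  have hφs : Summable fun n => ‖φ n‖ := by
    have h1 := (hasSum_antidiag hs.hasSum).summable
    refine Summable.of_nonneg_of_le (fun n => norm_nonneg _) (fun n => norm_sum_le _ _) h1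
  have hpars := parseval_one hφs
  have hval : ∀ α : ℝ, ∑' n, φ n * Complex.exp (α * Complex.I) ^ n
      = ∑' p : ℕ × ℕ, h p * (circleMap 0 r α ^ p.1 * circleMap 0 r α ^ p.2) := by
    intro α
    have h1 : Summable fun p : ℕ × ℕ => h p * (circleMap 0 r α ^ p.1 * circleMap 0 r α ^ p.2) := by
      refine Summable.of_norm ?_
      refine hs.congr fun p => ?_
      simp only [norm_mul, norm_pow, norm_circleMap r α hr0, Complex.norm_real, Real.norm_eq_abs,
        abs_of_nonneg hr0]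
    have h2 := hasSum_antidiag h1.hasSum
    rw [← h2.tsum_eq]
    refine tsum_congr fun n => ?_
    rw [hφ]
    simp only
    rw [sum_mul]
    refine sum_congr rfl fun p hp => ?_
    rw [HasAntidiagonal.mem_antidiagonal] at hp
    simp only [circleMap, zero_add]
    rw [mul_pow, mul_pow, ← hp, pow_add]
    ring
  simp_rw [hval] at hpars
  rw [integral_const_mul, ← hpars.tsum_eq, ← tsum_mul_left]
  have h3 := hasSum_antidiag hh.hasSum
  rw [← h3.tsum_eq]
  have hr2 : 0 ≤ 1 - r ^ 2 := by nlinarith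
  have hterm : ∀ n, (1 - r ^ 2) * ‖φ n‖ ^ 2 ≤ ∑ p ∈ antidiagonal n, ‖h p‖ ^ 2 := by
    intro n
    have h4 : φ n = (r : ℂ) ^ n * ∑ p ∈ antidiagonal n, h p := by
      rw [hφ]
      simp only
      rw [mul_sum]
      refine sum_congr rfl fun p hp => ?_
      rw [HasAntidiagonal.mem_antidiagonal] at hp
      rw [← pow_add, hp]
      ring
    have h5 : ‖∑ p ∈ antidiagonal n, h p‖ ^ 2 ≤ (n + 1) * ∑ p ∈ antidiagonal n, ‖h p‖ ^ 2 := by
      have h6 := sq_sum_le_card_mul_sum_sq (s := antidiagonal n) (f := fun p => ‖h p‖)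
      rw [Nat.card_antidiagonal] at h6
      push_cast at h6
      refine le_trans ?_ h6
      exact pow_le_pow_left₀ (norm_nonneg _) (norm_sum_le _ _) 2
    have h7 : 0 ≤ ∑ p ∈ antidiagonal n, ‖h p‖ ^ 2 := sum_nonneg fun p _ => by positivity
    rw [h4, norm_mul, norm_pow, Complex.norm_real, Real.norm_eq_abs, abs_of_nonneg hr0, mul_pow]
    calc (1 - r ^ 2) * ((r ^ n) ^ 2 * ‖∑ p ∈ antidiagonal n, h p‖ ^ 2)
        ≤ (1 - r ^ 2) * ((r ^ n) ^ 2 * ((n + 1) * ∑ p ∈ antidiagonal n, ‖h p‖ ^ 2)) := by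
          gcongr
      _ = ((1 - r ^ 2) * ((r ^ n) ^ 2 * (n + 1))) * ∑ p ∈ antidiagonal n, ‖h p‖ ^ 2 := by ring
      _ ≤ 1 * ∑ p ∈ antidiagonal n, ‖h p‖ ^ 2 :=
          mul_le_mul_of_nonneg_right (pow_weight n hr0 hr1.le) h7
      _ = _ := one_mul _
  exact (hpars.summable.mul_left _).tsum_le_tsum hterm h3.summable

/-- shifts -/
theorem summable_shift {a : ℕ × ℕ → ℂ} (ha : Summable fun p => ‖a p‖ ^ 2) (s : ℕ × ℕ) (c : ℂ) :
    Summable fun p : ℕ × ℕ => ‖if s.1 ≤ p.1 ∧ s.2 ≤ p.2 then c * a (p.1 - s.1, p.2 - s.2) else 0‖ ^ 2 := by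
  have hinj : Function.Injective fun u : ℕ × ℕ => (u.1 + s.1, u.2 + s.2) := by
    intro u v h
    have h1 := (Prod.mk.inj h).1
    have h2 := (Prod.mk.inj h).2
    exact Prod.ext (by omega) (by omega)
  rw [← hinj.summable_iff]
  · have h1 := ha.mul_left (‖c‖ ^ 2)
    refine h1.congr fun u => ?_
    simp only [Function.comp]
    rw [if_pos ⟨Nat.le_add_left _ _, Nat.le_add_left _ _⟩, Nat.add_sub_cancel, Nat.add_sub_cancel,
      norm_mul, mul_pow]
  · intro x hx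
    rw [if_neg]
    · simp
    · rintro ⟨h1, h2⟩
      exact hx ⟨(x.1 - s.1, x.2 - s.2), by ext <;> simp only <;> omega⟩

theorem conv_sq_summable {a cc : ℕ × ℕ → ℂ} (ha : Summable fun p => ‖a p‖ ^ 2) {N : ℕ}
    (hc : ∀ p : ℕ × ℕ, N ≤ p.1 ∨ N ≤ p.2 → cc p = 0) : Summable fun p => ‖conv cc a p‖ ^ 2 := by
  have h1 : ∀ p : ℕ × ℕ, conv cc a p = ∑ s ∈ range N ×ˢ range N,
      (if s.1 ≤ p.1 ∧ s.2 ≤ p.2 then cc s * a (p.1 - s.1, p.2 - s.2) else 0) := by
    intro p
    have e1 : conv cc a p = ∑ s ∈ range (p.1 + 1) ×ˢ range (p.2 + 1),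
        cc s * a (p.1 - s.1, p.2 - s.2) := by
      unfold conv
      rw [sum_product]
    rw [e1, ← sum_filter]
    symm
    refine sum_subset_zero_on_sdiff ?_ ?_ (fun _ _ => rfl)
    · intro s hs
      simp only [mem_filter, mem_product, mem_range] at hs ⊢
      omega
    · intro s hs
      simp only [mem_sdiff, mem_filter, mem_product, mem_range, not_and] at hs
      rw [hc s, zero_mul]
      by_contra hcon
      push Not at hcon
      have := hs.2 hcon (by omega)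
      omega
  have h2 : Summable fun p : ℕ × ℕ => ((range N ×ˢ range N).card : ℝ) *
      ∑ s ∈ range N ×ˢ range N,
        ‖if s.1 ≤ p.1 ∧ s.2 ≤ p.2 then cc s * a (p.1 - s.1, p.2 - s.2) else 0‖ ^ 2 :=
    (summable_sum fun s _ => summable_shift ha s (cc s)).mul_left _
  refine Summable.of_nonneg_of_le (fun p => by positivity) (fun p => ?_) h2
  rw [h1 p]
  refine le_trans (pow_le_pow_left₀ (norm_nonneg _) (norm_sum_le _ _) 2) ?_
  exact sq_sum_le_card_mul_sum_sq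

theorem IsArr.zero {a : ℕ × ℕ → ℂ} {F : ℂ → ℂ → ℂ} (ha : IsArr a F) : a 0 = F 0 0 := by
  have h1 := ha.2 0 0 (by simp) (by simp)
  have h2 : HasSum (fun p : ℕ × ℕ => a p * ((0 : ℂ) ^ p.1 * 0 ^ p.2)) (a 0) := by
    have h3 := hasSum_single (f := fun p : ℕ × ℕ => a p * ((0 : ℂ) ^ p.1 * 0 ^ p.2)) (0 : ℕ × ℕ)
      (fun p hp => by
        rw [← pow_add, zero_pow, mul_zero]
        intro h
        apply hp
        ext <;> simp only [Prod.fst_zero, Prod.snd_zero] <;> omega)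
    simpa using h3
  exact h2.unique h1

end Pool.Agent.H51
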