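import Pool.Agent.H51.CycFinal

set_option autoImplicit false
open MeasureTheory Finset
open scoped ComplexConjugate ENNReal

/-! The invertible non-cyclic function as a function on the polydisc of any dimension `d ≥ 2`:
Hardy space norms on the `d`-torus. -/

namespace Pool.Agent.H51.CycNat

variable {d : ℕ}

/-- the normalised Lebesgue measure of the `d`-torus, in terms of the angles in `(0, 2π]` -/
noncomputable def tor (d : ℕ) : Measure (Fin d → ℝ) := Measure.pi fun _ => nu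

instance tor_prob : IsProbabilityMeasure (tor d) := by
  unfold tor
  infer_instance

/-- characters -/
noncomputable def chd (s : Fin d → ℕ) (t : Fin d → ℝ) : ℂ :=
  ∏ j, Complex.exp (t j * Complex.I) ^ (s j)

theorem continuous_chd (s : Fin d → ℕ) : Continuous (chd s) := by
  unfold chd
  fun_prop

theorem norm_chd (s : Fin d → ℕ) (t : Fin d → ℝ) : ‖chd s t‖ ≤ 1 := by
  unfold chd
  rw [norm_prod]
  refine le_of_eq (prod_eq_one fun j _ => ?_)
  rw [norm_pow, Complex.norm_exp_ofReal_mul_I, one_pow]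

theorem chd_orth (s s' : Fin d → ℕ) :
    ∫ t, chd s t * conj (chd s' t) ∂(tor d) = if s = s' then 1 else 0 := by
  have h1 : ∀ t : Fin d → ℝ, chd s t * conj (chd s' t)
      = ∏ j, Complex.exp ((((s j : ℤ) - s' j : ℤ) : ℂ) * t j * Complex.I) := by
    intro t
    unfold chd
    rw [map_prod, ← prod_mul_distrib]
    refine prod_congr rfl fun j _ => ?_
    rw [map_pow, ← Complex.exp_conj, ← Complex.exp_nat_mul, ← Complex.exp_nat_mul,
      ← Complex.exp_add]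
    congr 1
    simp only [map_mul, Complex.conj_ofReal, Complex.conj_I]
    push_cast
    ring
  simp_rw [h1]
  unfold tor
  rw [integral_fintype_prod_eq_prod
    (fun (j : Fin d) (x : ℝ) => Complex.exp ((((s j : ℤ) - s' j : ℤ) : ℂ) * x * Complex.I))]
  simp_rw [integral_exp_nu]
  by_cases h : s = s'
  · rw [if_pos h]
    refine prod_eq_one fun j _ => ?_
    rw [h, if_pos]
    ring
  · rw [if_neg h]
    obtain ⟨j, hj⟩ := Function.ne_iff.mp h
    refine prod_eq_zero (mem_univ j) ?_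
    rw [if_neg]
    omega

theorem parseval_d {A : (Fin d → ℕ) → ℂ} (hA : Summable fun s => ‖A s‖) :
    HasSum (fun s => ‖A s‖ ^ 2) (∫ t, ‖∑' s, A s * chd s t‖ ^ 2 ∂(tor d)) :=
  Pool.Agent.H51.parseval (μ := tor d) (e := chd)
    (fun i => (continuous_chd i).aestronglyMeasurable) norm_chd chd_orth hA

/-- the points of the torus of radius `r` -/
noncomputable def pt (r : ℝ) (t : Fin d → ℝ) : Fin d → ℂ :=
  fun j => (r : ℂ) * Complex.exp (t j * Complex.I)

theorem norm_pt {r : ℝ} (hr : 0 ≤ r) (t : Fin d → ℝ) (j : Fin d) : ‖pt r t j‖ = r := by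
  unfold pt
  rw [norm_mul, Complex.norm_exp_ofReal_mul_I, Complex.norm_real, Real.norm_eq_abs,
    abs_of_nonneg hr, mul_one]

/-- the squared mean of order two on the torus of radius `r` -/
noncomputable def mean2 (r : ℝ) (g : (Fin d → ℂ) → ℂ) : ℝ≥0∞ :=
  ∫⁻ t, ENNReal.ofReal (‖g (pt r t)‖ ^ 2) ∂(tor d)

/-- a function which has an absolutely summable expansion on the torus of radius `r` -/
def IsExp (r : ℝ) (g : (Fin d → ℂ) → ℂ) (C : (Fin d → ℕ) → ℂ) : Prop :=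
  (Summable fun s : Fin d → ℕ => ‖C s * (r : ℂ) ^ (∑ j, s j)‖) ∧
    ∀ z : Fin d → ℂ, (∀ j, ‖z j‖ = r) → HasSum (fun s => C s * ∏ j, z j ^ s j) (g z)

theorem prod_pt (r : ℝ) (t : Fin d → ℝ) (s : Fin d → ℕ) :
    ∏ j, pt r t j ^ s j = (r : ℂ) ^ (∑ j, s j) * chd s t := by
  unfold pt chd
  rw [← prod_pow_eq_pow_sum, ← prod_mul_distrib]
  refine prod_congr rfl fun j _ => ?_
  rw [mul_pow]

theorem mean2_eq {r : ℝ} (hr : 0 ≤ r) {g : (Fin d → ℂ) → ℂ} {C : (Fin d → ℕ) → ℂ}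
    (h : IsExp r g C) :
    (Summable fun s : Fin d → ℕ => ‖C s * (r : ℂ) ^ (∑ j, s j)‖ ^ 2) ∧
    mean2 r g = ENNReal.ofReal (∑' s : Fin d → ℕ, ‖C s * (r : ℂ) ^ (∑ j, s j)‖ ^ 2) := by
  have h1 := parseval_d h.1
  refine ⟨h1.summable, ?_⟩
  rw [h1.tsum_eq]
  have h2 : ∀ t : Fin d → ℝ, ∑' s : Fin d → ℕ, C s * (r : ℂ) ^ (∑ j, s j) * chd s t
      = g (pt r t) := by
    intro t
    have h3 := h.2 (pt r t) (fun j => norm_pt hr t j)
    simp_rw [prod_pt, ← mul_assoc] at h3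
    exact h3.tsum_eq
  simp_rw [h2]
  unfold mean2
  have hb : ∀ t : Fin d → ℝ, ‖g (pt r t)‖ ≤ ∑' s : Fin d → ℕ, ‖C s * (r : ℂ) ^ (∑ j, s j)‖ := by
    intro t
    rw [← h2]
    have h4 : ∀ s : Fin d → ℕ, ‖C s * (r : ℂ) ^ (∑ j, s j) * chd s t‖
        ≤ ‖C s * (r : ℂ) ^ (∑ j, s j)‖ := by
      intro s
      rw [norm_mul]
      exact mul_le_of_le_one_right (norm_nonneg _) (norm_chd s t)
    have h5 : Summable fun s : Fin d → ℕ => ‖C s * (r : ℂ) ^ (∑ j, s j) * chd s t‖ :=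
      Summable.of_nonneg_of_le (fun s => norm_nonneg _) h4 h.1
    exact (norm_tsum_le_tsum_norm h5).trans (h5.tsum_le_tsum h4 h.1)
  have hm : AEStronglyMeasurable (fun t => g (pt r t)) (tor d) := by
    refine aestronglyMeasurable_of_tendsto_ae (Filter.atTop : Filter (Finset (Fin d → ℕ)))
      (f := fun S t => ∑ s ∈ S, C s * (r : ℂ) ^ (∑ j, s j) * chd s t) (fun S => ?_)
      (Filter.Eventually.of_forall fun t => ?_)
    · refine (Continuous.aestronglyMeasurable ?_)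
      exact continuous_finset_sum _ fun s _ => (continuous_chd s).const_mul _
    · have h3 := h.2 (pt r t) (fun j => norm_pt hr t j)
      simp_rw [prod_pt, ← mul_assoc] at h3
      exact h3
  rw [← ofReal_integral_eq_lintegral_ofReal]
  · refine Integrable.of_bound (C := (∑' s : Fin d → ℕ, ‖C s * (r : ℂ) ^ (∑ j, s j)‖) ^ 2)
      (hm.norm.pow 2) (Filter.Eventually.of_forall fun t => ?_)
    rw [norm_pow, norm_norm]
    exact pow_le_pow_left₀ (norm_nonneg _) (hb t) 2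
  · exact Filter.Eventually.of_forall fun t => by positivity

/-! ### expansions of products with monomials and polynomials -/

theorem IsExp.congr {r : ℝ} {g g' : (Fin d → ℂ) → ℂ} {C : (Fin d → ℕ) → ℂ} (h : IsExp r g C)
    (hg : ∀ z : Fin d → ℂ, (∀ j, ‖z j‖ = r) → g z = g' z) : IsExp r g' C :=
  ⟨h.1, fun z hz => by rw [← hg z hz]; exact h.2 z hz⟩

theorem IsExp.add {r : ℝ} {g g' : (Fin d → ℂ) → ℂ} {C C' : (Fin d → ℕ) → ℂ} (h : IsExp r g C)
    (h' : IsExp r g' C') : IsExp r (fun z => g z + g' z) (fun s => C s + C' s) := by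
  constructor
  · refine Summable.of_nonneg_of_le (fun s => norm_nonneg _) (fun s => ?_) (h.1.add h'.1)
    rw [add_mul]
    exact norm_add_le _ _
  · intro z hz
    have h1 := (h.2 z hz).add (h'.2 z hz)
    simp_rw [← add_mul] at h1
    exact h1

theorem IsExp.zero (r : ℝ) : IsExp r (fun _ : Fin d → ℂ => 0) (fun _ => 0) := by
  constructor
  · simp only [zero_mul, norm_zero]
    exact summable_zero
  · intro z _
    simp only [zero_mul]
    exact hasSum_zero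

theorem IsExp.sum {r : ℝ} {ι : Type*} (S : Finset ι) {g : ι → (Fin d → ℂ) → ℂ}
    {C : ι → (Fin d → ℕ) → ℂ} (h : ∀ i ∈ S, IsExp r (g i) (C i)) :
    IsExp r (fun z => ∑ i ∈ S, g i z) (fun s => ∑ i ∈ S, C i s) := by
  classical
  induction S using Finset.induction_on with
  | empty =>
    simp only [sum_empty]
    exact IsExp.zero r
  | insert i S hi ih =>
    simp only [sum_insert hi]
    exact (h i (mem_insert_self i S)).add (ih fun j hj => h j (mem_insert_of_mem hj))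

open Classical in
/-- the shift of an array -/
noncomputable def shf (c : ℂ) (u : Fin d → ℕ) (C : (Fin d → ℕ) → ℂ) (s : Fin d → ℕ) : ℂ :=
  if u ≤ s then c * C (s - u) else 0

theorem shf_add (c : ℂ) (u : Fin d → ℕ) (C : (Fin d → ℕ) → ℂ) (s : Fin d → ℕ) :
    shf c u C (s + u) = c * C s := by
  unfold shf
  rw [if_pos (le_add_self), add_tsub_cancel_right]

theorem shf_not (c : ℂ) (u : Fin d → ℕ) (C : (Fin d → ℕ) → ℂ) (s : Fin d → ℕ)
    (hs : s ∉ Set.range (fun v : Fin d → ℕ => v + u)) : shf c u C s = 0 := by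
  unfold shf
  rw [if_neg]
  intro h
  exact hs ⟨s - u, tsub_add_cancel_of_le h⟩

theorem IsExp.shift {r : ℝ} {g : (Fin d → ℂ) → ℂ} {C : (Fin d → ℕ) → ℂ} (h : IsExp r g C)
    (c : ℂ) (u : Fin d → ℕ) :
    IsExp r (fun z => c * (∏ j, z j ^ u j) * g z) (shf c u C) := by
  have hinj : Function.Injective (fun v : Fin d → ℕ => v + u) := fun a b hab => by
    simpa using hab
  constructor
  · rw [← hinj.summable_iff (fun s hs => by rw [shf_not c u C s hs, zero_mul, norm_zero])]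
    have h1 : ((fun s : Fin d → ℕ => ‖shf c u C s * (r : ℂ) ^ (∑ j, s j)‖) ∘
        (fun v : Fin d → ℕ => v + u)) = fun v : Fin d → ℕ =>
        ‖c * (r : ℂ) ^ (∑ j, u j)‖ * ‖C v * (r : ℂ) ^ (∑ j, v j)‖ := by
      funext v
      simp only [Function.comp, shf_add, Pi.add_apply, sum_add_distrib, pow_add]
      rw [← norm_mul]
      congr 1
      ring
    rw [h1]
    exact h.1.mul_left _
  · intro z hz
    rw [← hinj.hasSum_iff (fun s hs => by rw [shf_not c u C s hs, zero_mul])]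
    have h1 : ((fun s : Fin d → ℕ => shf c u C s * ∏ j, z j ^ s j) ∘
        (fun v : Fin d → ℕ => v + u)) = fun v : Fin d → ℕ =>
        c * (∏ j, z j ^ u j) * (C v * ∏ j, z j ^ v j) := by
      funext v
      simp only [Function.comp, shf_add, Pi.add_apply, pow_add, prod_mul_distrib]
      ring
    rw [h1]
    exact (h.2 z hz).mul_left _

theorem IsExp.poly {r : ℝ} {g : (Fin d → ℂ) → ℂ} {C : (Fin d → ℕ) → ℂ} (h : IsExp r g C)
    (P : MvPolynomial (Fin d) ℂ) :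
    IsExp r (fun z => MvPolynomial.eval z P * g z)
      (fun s => ∑ u ∈ P.support, shf (P.coeff u) (fun j => u j) C s) := by
  have h1 := IsExp.sum P.support (g := fun u z => P.coeff u * (∏ j, z j ^ u j) * g z)
    (C := fun u => shf (P.coeff u) (fun j => u j) C) (fun u _ => h.shift _ _)
  refine h1.congr fun z _ => ?_
  rw [MvPolynomial.eval_eq', sum_mul]

/-! ### functions of two of the variables -/

section Two

variable (i0 i1 : Fin d)

/-- the exponent with `p.1` at `i0`, `p.2` at `i1` and zero elsewhere -/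
def emb (p : ℕ × ℕ) : Fin d → ℕ := fun j => if j = i0 then p.1 else if j = i1 then p.2 else 0

variable {i0 i1}

theorem emb_zero' (p : ℕ × ℕ) : emb i0 i1 p i0 = p.1 := by
  unfold emb
  rw [if_pos rfl]

theorem emb_one' (h : i0 ≠ i1) (p : ℕ × ℕ) : emb i0 i1 p i1 = p.2 := by
  unfold emb
  rw [if_neg (Ne.symm h), if_pos rfl]

theorem emb_else (p : ℕ × ℕ) (j : Fin d) (h0 : j ≠ i0) (h1 : j ≠ i1) : emb i0 i1 p j = 0 := by
  unfold emb
  rw [if_neg h0, if_neg h1]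

theorem emb_inj (h : i0 ≠ i1) : Function.Injective (emb i0 i1) := by
  intro p q hpq
  have h0 := congrFun hpq i0
  have h1 := congrFun hpq i1
  rw [emb_zero', emb_zero'] at h0
  rw [emb_one' h, emb_one' h] at h1
  exact Prod.ext h0 h1

theorem emb_prod (h : i0 ≠ i1) (p : ℕ × ℕ) (z : Fin d → ℂ) :
    ∏ j, z j ^ emb i0 i1 p j = z i0 ^ p.1 * z i1 ^ p.2 := by
  rw [Finset.prod_eq_mul i0 i1 h, emb_zero', emb_one' h]
  · intro j _ hj
    rw [emb_else p j hj.1 hj.2, pow_zero]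
  · intro hj
    exact absurd (mem_univ _) hj
  · intro hj
    exact absurd (mem_univ _) hj

theorem emb_sum (h : i0 ≠ i1) (p : ℕ × ℕ) : ∑ j, emb i0 i1 p j = p.1 + p.2 := by
  rw [Finset.sum_eq_add i0 i1 h, emb_zero', emb_one' h]
  · intro j _ hj
    rw [emb_else p j hj.1 hj.2]
  · intro hj
    exact absurd (mem_univ _) hj
  · intro hj
    exact absurd (mem_univ _) hj

variable (i0 i1) in
open Classical in
/-- the array in all variables -/
noncomputable def ex (a : ℕ × ℕ → ℂ) (s : Fin d → ℕ) : ℂ :=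
  if s = emb i0 i1 (s i0, s i1) then a (s i0, s i1) else 0

theorem ex_emb (h : i0 ≠ i1) (a : ℕ × ℕ → ℂ) (p : ℕ × ℕ) : ex i0 i1 a (emb i0 i1 p) = a p := by
  unfold ex
  rw [emb_zero', emb_one' h, if_pos]
  rfl

theorem ex_not (a : ℕ × ℕ → ℂ) (s : Fin d → ℕ) (hs : s ∉ Set.range (emb i0 i1)) :
    ex i0 i1 a s = 0 := by
  unfold ex
  rw [if_neg]
  intro h
  exact hs ⟨_, h.symm⟩

variable (i0 i1) in
/-- the function given by the array `a` -/
noncomputable def fn (a : ℕ × ℕ → ℂ) (z : Fin d → ℂ) : ℂ :=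
  ∑' p : ℕ × ℕ, a p * (z i0 ^ p.1 * z i1 ^ p.2)

theorem bdd_of_sq {a : ℕ × ℕ → ℂ} (ha : Summable fun p => ‖a p‖ ^ 2) : ∃ K : ℝ, 0 ≤ K ∧
    ∀ p, ‖a p‖ ≤ K := by
  refine ⟨Real.sqrt (∑' p, ‖a p‖ ^ 2), Real.sqrt_nonneg _, fun p => ?_⟩
  refine Real.le_sqrt_of_sq_le ?_
  exact ha.le_tsum p fun q _ => by positivity

theorem geom_two {r : ℝ} (hr0 : 0 ≤ r) (hr1 : r < 1) :
    Summable fun p : ℕ × ℕ => r ^ (p.1 + p.2) := by
  have h1 := (summable_geometric_of_lt_one hr0 hr1).mul_of_nonneg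
    (summable_geometric_of_lt_one hr0 hr1) (fun n => pow_nonneg hr0 n) (fun n => pow_nonneg hr0 n)
  refine h1.congr fun p => ?_
  rw [pow_add]

theorem geom_two' {r : ℝ} (hr0 : 0 ≤ r) (hr1 : r < 1) :
    Summable fun p : ℕ × ℕ => ((p.1 : ℝ) + p.2) * r ^ (p.1 + p.2) := by
  have h0 : Summable fun n : ℕ => r ^ n := summable_geometric_of_lt_one hr0 hr1
  have h1 : Summable fun n : ℕ => (n : ℝ) * r ^ n := by
    have h2 := summable_pow_mul_geometric_of_norm_lt_one 1 (r := r)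
      (by rw [Real.norm_eq_abs, abs_of_nonneg hr0]; exact hr1)
    simpa using h2
  have h3 := h1.mul_of_nonneg h0 (fun n => by positivity) (fun n => pow_nonneg hr0 n)
  have h4 := h0.mul_of_nonneg h1 (fun n => pow_nonneg hr0 n) (fun n => by positivity)
  refine (h3.add h4).congr fun p => ?_
  rw [pow_add]
  ring

theorem fn_norm_summable {a : ℕ × ℕ → ℂ} {K : ℝ} (hK : ∀ p, ‖a p‖ ≤ K) {r : ℝ} (hr0 : 0 ≤ r)
    (hr1 : r < 1) {z w : ℂ} (hz : ‖z‖ ≤ r) (hw : ‖w‖ ≤ r) :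
    Summable fun p : ℕ × ℕ => ‖a p * (z ^ p.1 * w ^ p.2)‖ := by
  refine Summable.of_nonneg_of_le (fun p => norm_nonneg _) (fun p => ?_)
    ((geom_two hr0 hr1).mul_left K)
  rw [norm_mul, norm_mul, norm_pow, norm_pow, pow_add]
  have h1 : ‖z‖ ^ p.1 ≤ r ^ p.1 := pow_le_pow_left₀ (norm_nonneg _) hz _
  have h2 : ‖w‖ ^ p.2 ≤ r ^ p.2 := pow_le_pow_left₀ (norm_nonneg _) hw _
  have hK0 : 0 ≤ K := (norm_nonneg _).trans (hK 0)
  exact mul_le_mul (hK p) (mul_le_mul h1 h2 (by positivity) (by positivity)) (by positivity) hK0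

theorem isExp_fn (h : i0 ≠ i1) {a : ℕ × ℕ → ℂ} (ha : Summable fun p => ‖a p‖ ^ 2) {r : ℝ}
    (hr0 : 0 ≤ r) (hr1 : r < 1) : IsExp r (fn i0 i1 a) (ex i0 i1 a) := by
  obtain ⟨K, hK0, hK⟩ := bdd_of_sq ha
  constructor
  · rw [← (emb_inj h).summable_iff (fun s hs => by rw [ex_not a s hs, zero_mul, norm_zero])]
    have h1 : ((fun s : Fin d → ℕ => ‖ex i0 i1 a s * (r : ℂ) ^ (∑ j, s j)‖) ∘ emb i0 i1)
        = fun p : ℕ × ℕ => ‖a p * ((r : ℂ) ^ p.1 * (r : ℂ) ^ p.2)‖ := by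
      funext p
      simp only [Function.comp, ex_emb h, emb_sum h, pow_add]
    rw [h1]
    have hr : ‖(r : ℂ)‖ ≤ r := by
      rw [Complex.norm_real, Real.norm_eq_abs, abs_of_nonneg hr0]
    exact fn_norm_summable hK hr0 hr1 hr hr
  · intro z hz
    rw [← (emb_inj h).hasSum_iff (fun s hs => by rw [ex_not a s hs, zero_mul])]
    have h1 : ((fun s : Fin d → ℕ => ex i0 i1 a s * ∏ j, z j ^ s j) ∘ emb i0 i1)
        = fun p : ℕ × ℕ => a p * (z i0 ^ p.1 * z i1 ^ p.2) := by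
      funext p
      simp only [Function.comp, ex_emb h, emb_prod h]
    rw [h1]
    exact (fn_norm_summable hK hr0 hr1 (hz i0).le (hz i1).le).of_norm.hasSum

/-- the array of coefficients of a polynomial in the variables `i0`, `i1` -/
noncomputable def cf (i0 i1 : Fin d) (P : MvPolynomial (Fin d) ℂ) (p : ℕ × ℕ) : ℂ :=
  P.coeff (Finsupp.equivFunOnFinite.symm (emb i0 i1 p))

theorem cf_bd (h : i0 ≠ i1) (P : MvPolynomial (Fin d) ℂ) : ∃ N : ℕ, ∀ p : ℕ × ℕ,
    N ≤ p.1 ∨ N ≤ p.2 → cf i0 i1 P p = 0 := by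
  refine ⟨1 + ∑ u ∈ P.support, (u i0 + u i1), fun p hp => ?_⟩
  by_contra hne
  have h1 : Finsupp.equivFunOnFinite.symm (emb i0 i1 p) ∈ P.support :=
    MvPolynomial.mem_support_iff.2 hne
  have h2 : (Finsupp.equivFunOnFinite.symm (emb i0 i1 p)) i0
      + (Finsupp.equivFunOnFinite.symm (emb i0 i1 p)) i1 ≤ ∑ u ∈ P.support, (u i0 + u i1) :=
    Finset.single_le_sum (f := fun u : Fin d →₀ ℕ => u i0 + u i1) (fun u _ => Nat.zero_le _) h1
  have h3 : (Finsupp.equivFunOnFinite.symm (emb i0 i1 p)) i0 = p.1 := emb_zero' p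
  have h4 : (Finsupp.equivFunOnFinite.symm (emb i0 i1 p)) i1 = p.2 := emb_one' h p
  rw [h3, h4] at h2
  omega

theorem coef_eq (h : i0 ≠ i1) (P : MvPolynomial (Fin d) ℂ) (a : ℕ × ℕ → ℂ) (p : ℕ × ℕ) :
    ∑ u ∈ P.support, shf (P.coeff u) (fun j => u j) (ex i0 i1 a) (emb i0 i1 p)
      = conv (cf i0 i1 P) a p := by
  classical
  have h1 : ∀ u : Fin d →₀ ℕ, (fun j => u j) ≤ emb i0 i1 p →
      shf (P.coeff u) (fun j => u j) (ex i0 i1 a) (emb i0 i1 p)
        = P.coeff u * a (p.1 - u i0, p.2 - u i1) := by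
    intro u hu
    unfold shf
    rw [if_pos hu]
    have h2 : emb i0 i1 p - (fun j => u j) = emb i0 i1 (p.1 - u i0, p.2 - u i1) := by
      funext j
      rw [Pi.sub_apply]
      by_cases h0 : j = i0
      · rw [h0, emb_zero', emb_zero']
      · by_cases h1 : j = i1
        · rw [h1, emb_one' h, emb_one' h]
        · rw [emb_else p j h0 h1, emb_else _ j h0 h1, Nat.zero_sub]
    rw [h2, ex_emb h]
  have h2 : ∑ u ∈ P.support, shf (P.coeff u) (fun j => u j) (ex i0 i1 a) (emb i0 i1 p)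
      = ∑ u ∈ P.support with (fun j => u j) ≤ emb i0 i1 p,
        P.coeff u * a (p.1 - u i0, p.2 - u i1) := by
    rw [sum_filter]
    refine sum_congr rfl fun u _ => ?_
    by_cases hu : (fun j => u j) ≤ emb i0 i1 p
    · rw [if_pos hu, h1 u hu]
    · rw [if_neg hu]
      unfold shf
      rw [if_neg hu]
  have h3 : conv (cf i0 i1 P) a p = ∑ u ∈ (range (p.1 + 1) ×ˢ range (p.2 + 1)).image
      (fun q => Finsupp.equivFunOnFinite.symm (emb i0 i1 q)),
        P.coeff u * a (p.1 - u i0, p.2 - u i1) := by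
    rw [sum_image, sum_product]
    · unfold conv
      refine sum_congr rfl fun i _ => sum_congr rfl fun j _ => ?_
      have h5 : (Finsupp.equivFunOnFinite.symm (emb i0 i1 (i, j))) i0 = i := emb_zero' (i, j)
      have h6 : (Finsupp.equivFunOnFinite.symm (emb i0 i1 (i, j))) i1 = j := emb_one' h (i, j)
      rw [h5, h6]
      rfl
    · intro q _ q' _ hq
      exact emb_inj h (Finsupp.equivFunOnFinite.symm.injective hq)
  rw [h2, h3]
  refine sum_subset ?_ ?_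
  · intro u hu
    rw [mem_filter] at hu
    rw [mem_image]
    refine ⟨(u i0, u i1), ?_, ?_⟩
    · rw [mem_product, mem_range, mem_range]
      have h5 := hu.2 i0
      have h6 := hu.2 i1
      rw [emb_zero'] at h5
      rw [emb_one' h] at h6
      exact ⟨Nat.lt_succ_of_le h5, Nat.lt_succ_of_le h6⟩
    · ext j
      change emb i0 i1 (u i0, u i1) j = u j
      by_cases h0 : j = i0
      · rw [h0, emb_zero']
      · by_cases h1 : j = i1
        · rw [h1, emb_one' h]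
        · rw [emb_else _ j h0 h1]
          have h5 : u j ≤ emb i0 i1 p j := hu.2 j
          rw [emb_else p j h0 h1] at h5
          exact (Nat.le_zero.1 h5).symm
  · intro u hu hu'
    rw [mem_filter, not_and] at hu'
    rw [mem_image] at hu
    obtain ⟨q, hq, rfl⟩ := hu
    rw [mem_product, mem_range, mem_range] at hq
    by_cases hs : Finsupp.equivFunOnFinite.symm (emb i0 i1 q) ∈ P.support
    · exfalso
      refine hu' hs fun j => ?_
      change emb i0 i1 q j ≤ emb i0 i1 p j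
      by_cases h0 : j = i0
      · rw [h0, emb_zero', emb_zero']
        omega
      · by_cases h1 : j = i1
        · rw [h1, emb_one' h, emb_one' h]
          omega
        · rw [emb_else _ j h0 h1, emb_else _ j h0 h1]
    · rw [MvPolynomial.notMem_support_iff.1 hs, zero_mul]

open Classical in
theorem isExp_const (r : ℝ) (c : ℂ) :
    IsExp r (fun _ : Fin d → ℂ => c) (fun s => if s = 0 then c else 0) := by
  constructor
  · refine summable_of_ne_finset_zero (s := {0}) fun s hs => ?_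
    have hs' : s ≠ 0 := by simpa using hs
    simp only [if_neg hs', zero_mul, norm_zero]
  · intro z _
    have h1 := hasSum_single (f := fun s : Fin d → ℕ => (if s = 0 then c else 0) * ∏ j, z j ^ s j)
      (0 : Fin d → ℕ) (fun s hs => by rw [if_neg hs, zero_mul])
    simpa using h1

theorem emb_eq_zero (h : i0 ≠ i1) (p : ℕ × ℕ) : emb i0 i1 p = 0 ↔ p = 0 := by
  constructor
  · intro hp
    have h0 := congrFun hp i0
    have h1 := congrFun hp i1
    rw [emb_zero'] at h0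
    rw [emb_one' h] at h1
    exact Prod.ext h0 h1
  · rintro rfl
    funext j
    unfold emb
    simp

/-- the lower bound for the mean -/
theorem mean2_lower (h : i0 ≠ i1) {a : ℕ × ℕ → ℂ} (ha : Summable fun p => ‖a p‖ ^ 2) {r : ℝ}
    (hr0 : 0 ≤ r) (hr1 : r < 1) (P : MvPolynomial (Fin d) ℂ) (T : Finset (ℕ × ℕ)) :
    ENNReal.ofReal (∑ p ∈ T, ‖conv (cf i0 i1 P) a p - dlt p‖ ^ 2 * (r ^ (p.1 + p.2)) ^ 2)
      ≤ mean2 r (fun z => MvPolynomial.eval z P * fn i0 i1 a z - 1) := by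
  classical
  have h1 := ((isExp_fn h ha hr0 hr1).poly P).add (isExp_const (d := d) r (-1))
  have h2 : IsExp r (fun z => MvPolynomial.eval z P * fn i0 i1 a z - 1)
      (fun s => (∑ u ∈ P.support, shf (P.coeff u) (fun j => u j) (ex i0 i1 a) s)
        + (if s = 0 then -1 else 0)) :=
    h1.congr fun z _ => by rw [← sub_eq_add_neg]
  obtain ⟨h3, h4⟩ := mean2_eq hr0 h2
  rw [h4]
  refine ENNReal.ofReal_le_ofReal ?_
  refine le_trans (le_of_eq ?_) (h3.sum_le_tsum (T.map ⟨emb i0 i1, emb_inj h⟩)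
    (fun s _ => by positivity))
  rw [sum_map]
  refine sum_congr rfl fun p _ => ?_
  simp only [Function.Embedding.coeFn_mk]
  rw [coef_eq h, emb_sum h, norm_mul, mul_pow, norm_pow, Complex.norm_real, Real.norm_eq_abs,
    abs_of_nonneg hr0]
  congr 3
  rw [sub_eq_add_neg]
  congr 1
  unfold dlt
  by_cases hp : p = 0
  · rw [if_pos hp, if_pos ((emb_eq_zero h p).2 hp)]
  · rw [if_neg hp, if_neg (fun hq => hp ((emb_eq_zero h p).1 hq)), neg_zero]

theorem mean2_upper (h : i0 ≠ i1) {a : ℕ × ℕ → ℂ} (ha : Summable fun p => ‖a p‖ ^ 2) {r : ℝ}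
    (hr0 : 0 ≤ r) (hr1 : r < 1) :
    mean2 r (fn i0 i1 a) ≤ ENNReal.ofReal (∑' p, ‖a p‖ ^ 2) := by
  obtain ⟨h3, h4⟩ := mean2_eq hr0 (isExp_fn h ha hr0 hr1)
  rw [h4]
  refine ENNReal.ofReal_le_ofReal ?_
  have h5 : ∑' s : Fin d → ℕ, ‖ex i0 i1 a s * (r : ℂ) ^ (∑ j, s j)‖ ^ 2
      = ∑' p : ℕ × ℕ, ‖ex i0 i1 a (emb i0 i1 p) * (r : ℂ) ^ (∑ j, emb i0 i1 p j)‖ ^ 2 := by
    refine ((emb_inj h).tsum_eq (f := fun s : Fin d → ℕ =>
      ‖ex i0 i1 a s * (r : ℂ) ^ (∑ j, s j)‖ ^ 2) ?_).symm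
    intro s hs
    by_contra hs'
    apply hs
    simp only
    rw [ex_not a s hs', zero_mul, norm_zero]
    norm_num
  rw [h5]
  have h6 : ∀ p : ℕ × ℕ, ‖ex i0 i1 a (emb i0 i1 p) * (r : ℂ) ^ (∑ j, emb i0 i1 p j)‖ ^ 2
      ≤ ‖a p‖ ^ 2 := by
    intro p
    rw [ex_emb h, norm_mul, norm_pow, Complex.norm_real, Real.norm_eq_abs, abs_of_nonneg hr0]
    refine pow_le_pow_left₀ (by positivity) ?_ 2
    exact mul_le_of_le_one_right (norm_nonneg _) (pow_le_one₀ hr0 hr1.le)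
  have h7 : Summable fun p : ℕ × ℕ =>
      ‖ex i0 i1 a (emb i0 i1 p) * (r : ℂ) ^ (∑ j, emb i0 i1 p j)‖ ^ 2 :=
    Summable.of_nonneg_of_le (fun p => by positivity) h6 ha
  exact h7.tsum_le_tsum h6 ha

/-! ### differentiability and the reciprocal -/

/-- the terms of the series and their derivatives -/
theorem hasFDerivAt_term (c : ℂ) (p : ℕ × ℕ) (z : Fin d → ℂ) :
    HasFDerivAt (fun z : Fin d → ℂ => c * (z i0 ^ p.1 * z i1 ^ p.2))
      (c • (z i0 ^ p.1 • (((p.2 : ℂ) * z i1 ^ (p.2 - 1)) •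
          (ContinuousLinearMap.proj (R := ℂ) (φ := fun _ : Fin d => ℂ) i1))
        + z i1 ^ p.2 • (((p.1 : ℂ) * z i0 ^ (p.1 - 1)) •
          (ContinuousLinearMap.proj (R := ℂ) (φ := fun _ : Fin d => ℂ) i0)))) z := by
  have h0 : HasFDerivAt (fun z : Fin d → ℂ => z i0)
      (ContinuousLinearMap.proj (R := ℂ) (φ := fun _ : Fin d => ℂ) i0) z := hasFDerivAt_apply i0 z
  have h1 : HasFDerivAt (fun z : Fin d → ℂ => z i1)
      (ContinuousLinearMap.proj (R := ℂ) (φ := fun _ : Fin d => ℂ) i1) z := hasFDerivAt_apply i1 z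
  have h2 := (h0.pow p.1).mul (h1.pow p.2)
  have h3 := h2.const_mul c
  refine h3.congr_fderiv ?_
  ext v
  simp [smul_eq_mul]

theorem norm_proj_le (i : Fin d) :
    ‖(ContinuousLinearMap.proj (R := ℂ) (φ := fun _ : Fin d => ℂ) i)‖ ≤ 1 := by
  refine ContinuousLinearMap.opNorm_le_bound _ zero_le_one fun v => ?_
  rw [one_mul]
  exact norm_le_pi_norm v i

theorem fn_diff (a : ℕ × ℕ → ℂ) (ha : Summable fun p => ‖a p‖ ^ 2) :
    DifferentiableOn ℂ (fn i0 i1 a) {z : Fin d → ℂ | ∀ j, ‖z j‖ < 1} := by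
  obtain ⟨K, hK0, hK⟩ := bdd_of_sq ha
  intro z hz
  -- a radius
  obtain ⟨ρ, hρ0, hρ1, hzρ⟩ : ∃ ρ : ℝ, 0 < ρ ∧ ρ < 1 ∧ ‖z‖ < ρ := by
    have h1 : ‖z‖ < 1 := (pi_norm_lt_iff zero_lt_one).2 hz
    refine ⟨(‖z‖ + 1) / 2, ?_, ?_, ?_⟩
    · have := norm_nonneg z
      linarith
    · linarith
    · linarith
  set u : ℕ × ℕ → ℝ := fun p => (K / ρ) * (((p.1 : ℝ) + p.2) * ρ ^ (p.1 + p.2)) with hu
  have husum : Summable u := (geom_two' hρ0.le hρ1).mul_left _
  have hpow : ∀ n : ℕ, ∀ w : ℂ, ‖w‖ ≤ ρ → (n : ℝ) * ‖w‖ ^ (n - 1) ≤ (n : ℝ) * ρ ^ n / ρ := by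
    intro n w hw
    cases n with
    | zero => simp
    | succ n =>
      rw [Nat.add_sub_cancel, pow_succ ρ n, ← mul_assoc, mul_div_assoc, div_self hρ0.ne', mul_one]
      exact mul_le_mul_of_nonneg_left (pow_le_pow_left₀ (norm_nonneg _) hw n) (by positivity)
  have hbound : ∀ (p : ℕ × ℕ) (w : Fin d → ℂ), w ∈ Metric.ball (0 : Fin d → ℂ) ρ →
      ‖a p • (w i0 ^ p.1 • (((p.2 : ℂ) * w i1 ^ (p.2 - 1)) •
          (ContinuousLinearMap.proj (R := ℂ) (φ := fun _ : Fin d => ℂ) i1))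
        + w i1 ^ p.2 • (((p.1 : ℂ) * w i0 ^ (p.1 - 1)) •
          (ContinuousLinearMap.proj (R := ℂ) (φ := fun _ : Fin d => ℂ) i0)))‖ ≤ u p := by
    intro p w hw
    have hw' : ‖w‖ < ρ := by simpa using hw
    have h0 : ‖w i0‖ ≤ ρ := (norm_le_pi_norm w i0).trans hw'.le
    have h1 : ‖w i1‖ ≤ ρ := (norm_le_pi_norm w i1).trans hw'.le
    have e0 : ‖w i0‖ ^ p.1 ≤ ρ ^ p.1 := pow_le_pow_left₀ (norm_nonneg _) h0 _
    have e1 : ‖w i1‖ ^ p.2 ≤ ρ ^ p.2 := pow_le_pow_left₀ (norm_nonneg _) h1 _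
    have t1 : ‖w i0 ^ p.1 • (((p.2 : ℂ) * w i1 ^ (p.2 - 1)) •
          (ContinuousLinearMap.proj (R := ℂ) (φ := fun _ : Fin d => ℂ) i1))‖
          ≤ ρ ^ p.1 * ((p.2 : ℝ) * ρ ^ p.2 / ρ) := by
      rw [norm_smul, norm_smul, norm_mul, norm_pow, norm_pow, Complex.norm_natCast]
      refine mul_le_mul e0 ?_ (by positivity) (by positivity)
      refine (mul_le_of_le_one_right (by positivity) (norm_proj_le i1)).trans ?_
      exact hpow p.2 (w i1) h1
    have t2 : ‖w i1 ^ p.2 • (((p.1 : ℂ) * w i0 ^ (p.1 - 1)) •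
          (ContinuousLinearMap.proj (R := ℂ) (φ := fun _ : Fin d => ℂ) i0))‖
          ≤ ρ ^ p.2 * ((p.1 : ℝ) * ρ ^ p.1 / ρ) := by
      rw [norm_smul, norm_smul, norm_mul, norm_pow, norm_pow, Complex.norm_natCast]
      refine mul_le_mul e1 ?_ (by positivity) (by positivity)
      refine (mul_le_of_le_one_right (by positivity) (norm_proj_le i0)).trans ?_
      exact hpow p.1 (w i0) h0
    rw [norm_smul]
    calc ‖a p‖ * _ ≤ K * (ρ ^ p.1 * ((p.2 : ℝ) * ρ ^ p.2 / ρ)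
          + ρ ^ p.2 * ((p.1 : ℝ) * ρ ^ p.1 / ρ)) :=
          mul_le_mul (hK p) ((norm_add_le _ _).trans (add_le_add t1 t2)) (norm_nonneg _) hK0
      _ = u p := by
          rw [hu]
          simp only
          rw [pow_add]
          field_simp
          ring
  have hmain := hasFDerivAt_tsum_of_isPreconnected (𝕜 := ℂ)
    (f := fun (p : ℕ × ℕ) (z : Fin d → ℂ) => a p * (z i0 ^ p.1 * z i1 ^ p.2)) husum
    Metric.isOpen_ball (convex_ball (0 : Fin d → ℂ) ρ).isPreconnected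
    (fun p w _ => hasFDerivAt_term (a p) p w) hbound (x₀ := 0) (x := z) (by simpa using hρ0)
    (by
      refine summable_of_ne_finset_zero (s := {0}) fun p hp => ?_
      have hp' : p ≠ 0 := by simpa using hp
      simp only [Pi.zero_apply]
      rw [← pow_add, zero_pow, mul_zero]
      intro hq
      apply hp'
      ext
      · simp only [Prod.fst_zero]
        omega
      · simp only [Prod.snd_zero]
        omega)
    (by simpa using hzρ)
  exact hmain.differentiableAt.differentiableWithinAt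

theorem fn_mul {a b : ℕ × ℕ → ℂ} (ha : Summable fun p => ‖a p‖ ^ 2)
    (hb : Summable fun p => ‖b p‖ ^ 2) (hab : ∀ p, conv a b p = dlt p) (z : Fin d → ℂ)
    (hz : ∀ j, ‖z j‖ < 1) : fn i0 i1 a z * fn i0 i1 b z = 1 := by
  obtain ⟨K, -, hK⟩ := bdd_of_sq ha
  obtain ⟨L, -, hL⟩ := bdd_of_sq hb
  set ρ : ℝ := max ‖z i0‖ ‖z i1‖ with hρ
  have hρ0 : 0 ≤ ρ := (norm_nonneg _).trans (le_max_left _ _)
  have hρ1 : ρ < 1 := max_lt (hz i0) (hz i1)
  have h1 := fn_norm_summable hK hρ0 hρ1 (le_max_left ‖z i0‖ ‖z i1‖) (le_max_right ‖z i0‖ ‖z i1‖)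
  have h2 := fn_norm_summable hL hρ0 hρ1 (le_max_left ‖z i0‖ ‖z i1‖) (le_max_right ‖z i0‖ ‖z i1‖)
  have h3 := conv_hasSum h1 h2 h1.of_norm.hasSum h2.of_norm.hasSum
  simp_rw [hab] at h3
  have h4 := hasSum_single (f := fun p : ℕ × ℕ => dlt p * (z i0 ^ p.1 * z i1 ^ p.2)) (0 : ℕ × ℕ)
    (fun p hp => by simp [dlt, hp])
  have h5 := h3.unique h4
  have h6 : dlt 0 * (z i0 ^ (0 : ℕ × ℕ).1 * z i1 ^ (0 : ℕ × ℕ).2) = 1 := by simp [dlt]
  rw [h6] at h5
  exact h5

end Two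

/-- the main theorem in terms of the means -/
theorem exists_fn {i0 i1 : Fin d} (h : i0 ≠ i1) : ∃ f g : (Fin d → ℂ) → ℂ,
    DifferentiableOn ℂ f {z : Fin d → ℂ | ∀ j, ‖z j‖ < 1} ∧
    DifferentiableOn ℂ g {z : Fin d → ℂ | ∀ j, ‖z j‖ < 1} ∧
    (∀ z : Fin d → ℂ, (∀ j, ‖z j‖ < 1) → f z * g z = 1) ∧
    (∃ M : ℝ, ∀ r : ℝ, 0 ≤ r → r < 1 → mean2 r f ≤ ENNReal.ofReal M ∧
      mean2 r g ≤ ENNReal.ofReal M) ∧
    ∃ η : ℝ, 0 < η ∧ ∀ P : MvPolynomial (Fin d) ℂ, ∃ r : ℝ, 0 < r ∧ r < 1 ∧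
      ENNReal.ofReal η ≤ mean2 r (fun z => MvPolynomial.eval z P * f z - 1) := by
  obtain ⟨a, b, ha, hb, hab, ε, hε, hmain⟩ := main_nc
  refine ⟨fn i0 i1 a, fn i0 i1 b, fn_diff a ha, fn_diff b hb, fn_mul ha hb hab,
    ⟨max (∑' p, ‖a p‖ ^ 2) (∑' p, ‖b p‖ ^ 2), fun r hr0 hr1 => ⟨?_, ?_⟩⟩, ε / 4, by positivity,
    fun P => ?_⟩
  · exact (mean2_upper h ha hr0 hr1).trans (ENNReal.ofReal_le_ofReal (le_max_left _ _))
  · exact (mean2_upper h hb hr0 hr1).trans (ENNReal.ofReal_le_ofReal (le_max_right _ _))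
  · obtain ⟨N, hN⟩ := cf_bd h P
    have h1 := hmain (cf i0 i1 P) N hN
    have hsum : Summable fun p => ‖conv (cf i0 i1 P) a p - dlt p‖ ^ 2 := by
      by_contra hns
      rw [tsum_eq_zero_of_not_summable hns] at h1
      linarith
    obtain ⟨T, hT⟩ : ∃ T : Finset (ℕ × ℕ),
        ε / 2 < ∑ p ∈ T, ‖conv (cf i0 i1 P) a p - dlt p‖ ^ 2 := by
      have h2 : ∀ᶠ T : Finset (ℕ × ℕ) in Filter.atTop,
          ε / 2 < ∑ p ∈ T, ‖conv (cf i0 i1 P) a p - dlt p‖ ^ 2 :=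
        hsum.hasSum.eventually_const_lt (by linarith)
      exact h2.exists
    -- the radius
    have hcont : Filter.Tendsto (fun r : ℝ =>
        ∑ p ∈ T, ‖conv (cf i0 i1 P) a p - dlt p‖ ^ 2 * (r ^ (p.1 + p.2)) ^ 2)
        (nhdsWithin 1 (Set.Iio 1)) (nhds (∑ p ∈ T, ‖conv (cf i0 i1 P) a p - dlt p‖ ^ 2)) := by
      have h3 : Continuous (fun r : ℝ =>
          ∑ p ∈ T, ‖conv (cf i0 i1 P) a p - dlt p‖ ^ 2 * (r ^ (p.1 + p.2)) ^ 2) := by
        fun_prop
      have h4 := (h3.tendsto 1).mono_left (nhdsWithin_le_nhds (s := Set.Iio (1 : ℝ)))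
      simpa using h4
    have h5 : ∀ᶠ r : ℝ in nhdsWithin 1 (Set.Iio 1),
        ε / 4 < ∑ p ∈ T, ‖conv (cf i0 i1 P) a p - dlt p‖ ^ 2 * (r ^ (p.1 + p.2)) ^ 2 :=
      hcont.eventually_const_lt (by linarith)
    have h6 : ∀ᶠ r : ℝ in nhdsWithin 1 (Set.Iio 1), 0 < r ∧ r < 1 := by
      have h7 : Set.Ioo (0 : ℝ) 1 ∈ nhdsWithin 1 (Set.Iio 1) := Ioo_mem_nhdsLT (by norm_num)
      exact h7
    obtain ⟨r, hr1, hr2⟩ := (h5.and h6).exists
    refine ⟨r, hr2.1, hr2.2, ?_⟩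
    exact (ENNReal.ofReal_le_ofReal hr1.le).trans (mean2_lower h ha hr2.1.le hr2.2 P T)

end Pool.Agent.H51.CycNat
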