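import Mathlib

set_option autoImplicit false
open MeasureTheory Polynomial
open scoped ENNReal

/-! The normalised arc length measure, the Poisson kernel, and the sub-mean value inequality for
`|q|^t`, `q` a polynomial. -/

namespace Pool.Agent.H51

/-- normalised Lebesgue measure on `(0, 2π]` -/
noncomputable def nu : Measure ℝ :=
  (ENNReal.ofReal (2 * Real.pi))⁻¹ • (volume.restrict (Set.Ioc 0 (2 * Real.pi)))

instance nu_prob : IsProbabilityMeasure nu := by
  constructor
  simp only [nu, Measure.smul_apply, Measure.restrict_apply_univ, Real.volume_Ioc, sub_zero,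
    smul_eq_mul]
  refine ENNReal.inv_mul_cancel ?_ ENNReal.ofReal_ne_top
  simpa using Real.pi_pos

theorem circleAverage_eq_nu {E : Type*} [NormedAddCommGroup E] [NormedSpace ℝ E]
    (f : ℂ → E) (R : ℝ) :
    Real.circleAverage f 0 R = ∫ θ, f (circleMap 0 R θ) ∂nu := by
  have h2 : (0 : ℝ) ≤ 2 * Real.pi := by positivity
  rw [Real.circleAverage_def, intervalIntegral.integral_of_le h2, nu, integral_smul_measure,
    ENNReal.toReal_inv, ENNReal.toReal_ofReal h2]

theorem norm_circleMap (R θ : ℝ) (hR : 0 ≤ R) : ‖circleMap 0 R θ‖ = R := by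
  simp [abs_of_nonneg hR]

theorem continuous_poisson {w : ℂ} {R : ℝ} (hw : w ∈ Metric.ball (0 : ℂ) R) :
    Continuous fun θ : ℝ => poissonKernel 0 w (circleMap 0 R θ) := by
  have hw' : ‖w‖ < R := by simpa using hw
  have hR : 0 ≤ R := (norm_nonneg w).trans hw'.le
  simp only [poissonKernel_def, sub_zero]
  refine Continuous.div (by fun_prop) (by fun_prop) fun θ => ?_
  have : circleMap 0 R θ ≠ w := circleMap_ne_mem_ball hw θ
  exact pow_ne_zero 2 (norm_ne_zero_iff.mpr (sub_ne_zero.mpr this))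

theorem poisson_nonneg {w : ℂ} {R : ℝ} (hw : w ∈ Metric.ball (0 : ℂ) R) (θ : ℝ) :
    0 ≤ poissonKernel 0 w (circleMap 0 R θ) := by
  have hw' : ‖w‖ < R := by simpa using hw
  have hR : 0 ≤ R := (norm_nonneg w).trans hw'.le
  rw [poissonKernel_def]
  refine div_nonneg ?_ (sq_nonneg _)
  rw [sub_zero, sub_zero, norm_circleMap R θ hR]
  nlinarith [norm_nonneg w]

/-- integrability of continuous functions against `nu` -/
theorem integrable_nu {E : Type*} [NormedAddCommGroup E] {f : ℝ → E} (hf : Continuous f) :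
    Integrable f nu := by
  unfold nu
  refine Integrable.smul_measure ?_ (by simp [Real.pi_pos])
  exact (hf.integrableOn_Icc (a := 0) (b := 2 * Real.pi)).mono_set Set.Ioc_subset_Icc_self

theorem poisson_diffContOnCl {w : ℂ} {R : ℝ} (hw : w ∈ Metric.ball (0 : ℂ) R) {f : ℂ → ℂ}
    (hf : DiffContOnCl ℂ f (Metric.ball 0 R)) :
    ∫ θ, (poissonKernel 0 w (circleMap 0 R θ) : ℂ) * f (circleMap 0 R θ) ∂nu = f w := by
  have h := hf.circleAverage_poissonKernel_smul hw
  rw [circleAverage_eq_nu] at h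
  simpa [Complex.real_smul] using h

theorem poisson_poly {w : ℂ} {R : ℝ} (hw : w ∈ Metric.ball (0 : ℂ) R) (p : ℂ[X]) :
    ∫ θ, (poissonKernel 0 w (circleMap 0 R θ) : ℂ) * p.eval (circleMap 0 R θ) ∂nu = p.eval w :=
  poisson_diffContOnCl hw (f := fun z => p.eval z) (p.differentiable.diffContOnCl)

theorem poisson_poly_re {w : ℂ} {R : ℝ} (hw : w ∈ Metric.ball (0 : ℂ) R) (p : ℂ[X]) :
    ∫ θ, poissonKernel 0 w (circleMap 0 R θ) * (p.eval (circleMap 0 R θ)).re ∂nu
      = (p.eval w).re := by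
  have h := poisson_poly hw p
  have hcont : Continuous fun θ : ℝ =>
      (poissonKernel 0 w (circleMap 0 R θ) : ℂ) * p.eval (circleMap 0 R θ) :=
    (Complex.continuous_ofReal.comp (continuous_poisson hw)).mul
      (p.continuous.comp (continuous_circleMap 0 R))
  have h2 := Complex.reCLM.integral_comp_comm (integrable_nu hcont)
  simp only [Complex.reCLM_apply, Complex.re_ofReal_mul] at h2
  rw [h2, h]

theorem poisson_one {w : ℂ} {R : ℝ} (hw : w ∈ Metric.ball (0 : ℂ) R) :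
    ∫ θ, poissonKernel 0 w (circleMap 0 R θ) ∂nu = 1 := by
  have h := poisson_poly_re hw 1
  simpa using h

/-- bounds for the real part of a polynomial propagate from the circle to the disc -/
theorem re_le_of_circle (p : ℂ[X]) (A : ℝ) (h : ∀ α : ℝ, (p.eval (Complex.exp (α * Complex.I))).re ≤ A)
    (w : ℂ) (hw : ‖w‖ ≤ 1) : (p.eval w).re ≤ A := by
  rcases hw.lt_or_eq with hw | hw
  · have hwb : w ∈ Metric.ball (0 : ℂ) 1 := by simpa using hw
    rw [← poisson_poly_re hwb p]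
    have h1 : ∫ θ, poissonKernel 0 w (circleMap 0 1 θ) * A ∂nu = A := by
      rw [integral_mul_const, poisson_one hwb, one_mul]
    rw [← h1]
    refine integral_mono (integrable_nu ?_) (integrable_nu ?_) fun θ => ?_
    · exact (continuous_poisson hwb).mul
        (Complex.continuous_re.comp (p.continuous.comp (continuous_circleMap 0 1)))
    · exact (continuous_poisson hwb).mul continuous_const
    · refine mul_le_mul_of_nonneg_left ?_ (poisson_nonneg hwb θ)
      have := h θ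
      simpa [circleMap] using this
  · have := h (Complex.arg w)
    rw [← Complex.norm_mul_exp_arg_mul_I w, hw]
    simpa using this

theorem le_re_of_circle (p : ℂ[X]) (A : ℝ) (h : ∀ α : ℝ, A ≤ (p.eval (Complex.exp (α * Complex.I))).re)
    (w : ℂ) (hw : ‖w‖ ≤ 1) : A ≤ (p.eval w).re := by
  have := re_le_of_circle (-p) (-A) (fun α => by simpa using h α) w hw
  simp only [eval_neg, Complex.neg_re] at this
  linarith

/-! ### The sub-mean value inequality -/

theorem diffContOnCl_const_mul {f : ℂ → ℂ} {s : Set ℂ} (h : DiffContOnCl ℂ f s) (c : ℂ) :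
    DiffContOnCl ℂ (fun z => c * f z) s := by
  have h2 := (diffContOnCl_const (c := c) (s := s) (𝕜 := ℂ)).smul h
  simpa [smul_eq_mul] using h2

theorem one_sub_mem_slit {z : ℂ} (hz : ‖z‖ ≤ 1) (h : 1 - z ≠ 0) : 1 - z ∈ Complex.slitPlane := by
  left
  have h1 : z.re ≤ ‖z‖ := Complex.re_le_norm z
  by_contra hcon
  have h2 : z.re = 1 := by
    simp only [Complex.sub_re, Complex.one_re, not_lt] at hcon
    linarith
  have h3 : z.im = 0 := by
    have h4 : ‖z‖ ^ 2 ≤ 1 := by nlinarith [norm_nonneg z]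
    rw [← Complex.normSq_eq_norm_sq, Complex.normSq_apply, h2] at h4
    nlinarith
  apply h
  apply Complex.ext <;> simp [h2, h3]

theorem factor_diffContOnCl {u : ℂ} {R t : ℝ} (hR : 0 < R) (hu : ‖u‖ * R ≤ 1) (ht : 0 < t) :
    DiffContOnCl ℂ (fun z : ℂ => (1 - u * z) ^ (t : ℂ)) (Metric.ball 0 R) := by
  constructor
  · intro z hz
    have hz' : ‖z‖ < R := by simpa using hz
    have h1 : ‖u * z‖ < 1 := by
      rw [norm_mul]
      rcases (norm_nonneg u).eq_or_lt with h | h
      · rw [← h]; simp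
      · exact lt_of_lt_of_le (mul_lt_mul_of_pos_left hz' h) hu
    have hne : 1 - u * z ≠ 0 := by
      intro h
      have : ‖u * z‖ = 1 := by rw [← sub_eq_zero.mp h]; simp
      linarith
    refine DifferentiableAt.differentiableWithinAt ?_
    exact DifferentiableAt.cpow (by fun_prop) (by fun_prop) (one_sub_mem_slit h1.le hne)
  · rw [closure_ball _ hR.ne']
    intro z hz
    have hz' : ‖z‖ ≤ R := by simpa using hz
    have h1 : ‖u * z‖ ≤ 1 := by
      rw [norm_mul]
      exact (mul_le_mul_of_nonneg_left hz' (norm_nonneg u)).trans hu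
    refine ContinuousAt.continuousWithinAt ?_
    by_cases hne : 1 - u * z = 0
    · have h2 := Complex.continuousAt_cpow_zero_of_re_pos (z := (t : ℂ)) (by simpa using ht)
      have h3 : ContinuousAt (fun z : ℂ => ((1 - u * z, (t : ℂ)) : ℂ × ℂ)) z := by fun_prop
      have h4 : ((0 : ℂ), (t : ℂ)) = (fun z : ℂ => ((1 - u * z, (t : ℂ)) : ℂ × ℂ)) z := by
        simp [hne]
      rw [h4] at h2
      exact ContinuousAt.comp (f := fun z : ℂ => ((1 - u * z, (t : ℂ)) : ℂ × ℂ)) h2 h3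
    · exact ContinuousAt.cpow (by fun_prop) (by fun_prop) (one_sub_mem_slit h1 hne)

/-- one linear factor -/
theorem exists_majorant_factor (a : ℂ) {R t : ℝ} (hR : 0 < R) (ht : 0 < t) :
    ∃ Φ : ℂ → ℂ, DiffContOnCl ℂ Φ (Metric.ball 0 R) ∧
      (∀ z, ‖z‖ = R → ‖Φ z‖ = ‖z - a‖ ^ t) ∧ (∀ z, ‖z‖ < R → ‖z - a‖ ^ t ≤ ‖Φ z‖) := by
  by_cases ha : R ≤ ‖a‖
  · have ha0 : a ≠ 0 := by
      intro h; rw [h] at ha; simp at ha; linarith
    have key : ∀ z : ℂ, ‖(((‖a‖ ^ t : ℝ) : ℂ)) * (1 - a⁻¹ * z) ^ (t : ℂ)‖ = ‖z - a‖ ^ t := by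
      intro z
      rw [norm_mul, Complex.norm_cpow_real, Complex.norm_real, Real.norm_eq_abs,
        abs_of_nonneg (by positivity), ← Real.mul_rpow (norm_nonneg _) (norm_nonneg _), ← norm_mul,
        norm_sub_rev z a]
      congr 2
      field_simp
    refine ⟨fun z => (((‖a‖ ^ t : ℝ) : ℂ)) * (1 - a⁻¹ * z) ^ (t : ℂ), ?_, fun z _ => key z,
      fun z _ => (key z).ge⟩
    refine diffContOnCl_const_mul (f := fun z : ℂ => (1 - a⁻¹ * z) ^ (t : ℂ)) ?_ _
    refine factor_diffContOnCl hR ?_ ht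
    rw [norm_inv, inv_mul_le_iff₀ (norm_pos_iff.mpr ha0)]
    simpa using ha
  · push Not at ha
    set u : ℂ := (starRingEnd ℂ a) / (R : ℂ) ^ 2 with hu
    have key : ∀ z : ℂ, ‖((R ^ t : ℝ) : ℂ) * (1 - u * z) ^ (t : ℂ)‖
        = ‖((R : ℂ) ^ 2 - starRingEnd ℂ a * z) / R‖ ^ t := by
      intro z
      rw [norm_mul, Complex.norm_cpow_real, Complex.norm_real, Real.norm_eq_abs,
        abs_of_nonneg (by positivity)]
      have : R ^ t = ‖(R : ℂ)‖ ^ t := by rw [Complex.norm_real, Real.norm_eq_abs, abs_of_pos hR]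
      rw [this, ← Real.mul_rpow (norm_nonneg _) (norm_nonneg _), ← norm_mul]
      congr 2
      have hR' : (R : ℂ) ≠ 0 := by exact_mod_cast hR.ne'
      rw [hu]
      field_simp
    -- the basic identity
    have hid : ∀ z : ℂ, ‖(R : ℂ) ^ 2 - starRingEnd ℂ a * z‖ ^ 2 - (R * ‖z - a‖) ^ 2
        = (R ^ 2 - ‖a‖ ^ 2) * (R ^ 2 - ‖z‖ ^ 2) := by
      intro z
      rw [mul_pow, ← Complex.normSq_eq_norm_sq, ← Complex.normSq_eq_norm_sq,
        ← Complex.normSq_eq_norm_sq, ← Complex.normSq_eq_norm_sq]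
      simp only [Complex.normSq_apply, Complex.sub_re, Complex.sub_im, Complex.mul_re,
        Complex.mul_im, Complex.conj_re, Complex.conj_im, ← Complex.ofReal_pow,
        Complex.ofReal_re, Complex.ofReal_im]
      ring
    refine ⟨fun z => ((R ^ t : ℝ) : ℂ) * (1 - u * z) ^ (t : ℂ), ?_, fun z hz => ?_, fun z hz => ?_⟩
    · refine diffContOnCl_const_mul (f := fun z : ℂ => (1 - u * z) ^ (t : ℂ)) ?_ _
      refine factor_diffContOnCl hR ?_ ht
      rw [hu, norm_div, Complex.norm_conj, norm_pow, Complex.norm_real, Real.norm_eq_abs,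
        abs_of_pos hR, div_mul_eq_mul_div, div_le_one (by positivity)]
      nlinarith [norm_nonneg a]
    · rw [key z]
      congr 1
      have h1 := hid z
      rw [hz, sub_self, mul_zero, sub_eq_zero] at h1
      have h2 := (sq_eq_sq₀ (norm_nonneg _) (by positivity)).mp h1
      rw [norm_div, h2, Complex.norm_real, Real.norm_eq_abs, abs_of_pos hR]
      field_simp
    · show _ ≤ ‖((R ^ t : ℝ) : ℂ) * (1 - u * z) ^ (t : ℂ)‖
      rw [key z]
      refine Real.rpow_le_rpow (norm_nonneg _) ?_ ht.le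
      have h1 := hid z
      have h3 : 0 ≤ (R ^ 2 - ‖a‖ ^ 2) * (R ^ 2 - ‖z‖ ^ 2) := by
        refine mul_nonneg ?_ ?_ <;> nlinarith [norm_nonneg a, norm_nonneg z]
      have h2 : R * ‖z - a‖ ≤ ‖(R : ℂ) ^ 2 - starRingEnd ℂ a * z‖ := by
        refine le_of_sq_le_sq ?_ (norm_nonneg _)
        linarith
      rw [norm_div, Complex.norm_real, Real.norm_eq_abs, abs_of_pos hR, le_div_iff₀ hR]
      linarith

theorem exists_majorant_prod (s : Multiset ℂ) {R t : ℝ} (hR : 0 < R) (ht : 0 < t) :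
    ∃ Φ : ℂ → ℂ, DiffContOnCl ℂ Φ (Metric.ball 0 R) ∧
      (∀ z, ‖z‖ = R → ‖Φ z‖ = ‖((s.map fun a => X - C a).prod).eval z‖ ^ t) ∧
      (∀ z, ‖z‖ < R → ‖((s.map fun a => X - C a).prod).eval z‖ ^ t ≤ ‖Φ z‖) := by
  induction s using Multiset.induction_on with
  | empty =>
    refine ⟨fun _ => 1, diffContOnCl_const, fun z _ => by simp, fun z _ => by simp⟩
  | cons a s ih =>
    obtain ⟨Φ, h1, h2, h3⟩ := ih
    obtain ⟨Φ', h1', h2', h3'⟩ := exists_majorant_factor a hR ht
    refine ⟨fun z => Φ' z * Φ z, h1'.smul h1, fun z hz => ?_, fun z hz => ?_⟩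
    · rw [norm_mul, h2 z hz, h2' z hz, Multiset.map_cons, Multiset.prod_cons, eval_mul,
        norm_mul, Real.mul_rpow (norm_nonneg _) (norm_nonneg _)]
      simp
    · rw [norm_mul, Multiset.map_cons, Multiset.prod_cons, eval_mul,
        norm_mul, Real.mul_rpow (norm_nonneg _) (norm_nonneg _)]
      refine mul_le_mul ?_ (h3 z hz) (by positivity) (norm_nonneg _)
      simpa using h3' z hz

theorem exists_majorant (q : ℂ[X]) {R t : ℝ} (hR : 0 < R) (ht : 0 < t) :
    ∃ Φ : ℂ → ℂ, DiffContOnCl ℂ Φ (Metric.ball 0 R) ∧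
      (∀ z, ‖z‖ = R → ‖Φ z‖ = ‖q.eval z‖ ^ t) ∧
      (∀ z, ‖z‖ < R → ‖q.eval z‖ ^ t ≤ ‖Φ z‖) := by
  obtain ⟨Φ, h1, h2, h3⟩ := exists_majorant_prod q.roots hR ht
  have hq : q = C q.leadingCoeff * (q.roots.map fun a => X - C a).prod :=
    (IsAlgClosed.splits q).eq_prod_roots
  have hq' : ∀ z, ‖q.eval z‖ ^ t
      = ‖q.leadingCoeff‖ ^ t * ‖((q.roots.map fun a => X - C a).prod).eval z‖ ^ t := by
    intro z
    conv_lhs => rw [hq]
    rw [eval_mul, eval_C, norm_mul, Real.mul_rpow (norm_nonneg _) (norm_nonneg _)]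
  have hn : ‖((‖q.leadingCoeff‖ ^ t : ℝ) : ℂ)‖ = ‖q.leadingCoeff‖ ^ t := by
    rw [Complex.norm_real, Real.norm_eq_abs, abs_of_nonneg (by positivity)]
  refine ⟨fun z => ((‖q.leadingCoeff‖ ^ t : ℝ) : ℂ) * Φ z, ?_, fun z hz => ?_, fun z hz => ?_⟩
  · exact diffContOnCl_const_mul (f := Φ) h1 _
  · rw [norm_mul, hn, h2 z hz, hq']
  · rw [norm_mul, hn, hq']
    exact mul_le_mul_of_nonneg_left (h3 z hz) (by positivity)

/-- sub-mean value inequality for `|q|^t` -/
theorem subMean (q : ℂ[X]) {R t : ℝ} (hR : 0 < R) (ht : 0 < t) {w : ℂ} (hw : ‖w‖ < R) :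
    ‖q.eval w‖ ^ t ≤
      ∫ θ, poissonKernel 0 w (circleMap 0 R θ) * ‖q.eval (circleMap 0 R θ)‖ ^ t ∂nu := by
  obtain ⟨Φ, h1, h2, h3⟩ := exists_majorant q hR ht
  have hwb : w ∈ Metric.ball (0 : ℂ) R := by simpa using hw
  refine (h3 w hw).trans ?_
  rw [← poisson_diffContOnCl hwb h1]
  refine (norm_integral_le_integral_norm _).trans (le_of_eq ?_)
  refine integral_congr_ae (Filter.Eventually.of_forall fun θ => ?_)
  simp only
  rw [norm_mul, Complex.norm_real, Real.norm_eq_abs, abs_of_nonneg (poisson_nonneg hwb θ),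
    h2 _ (norm_circleMap R θ hR.le)]

end Pool.Agent.H51
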