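import Mathlib

set_option autoImplicit false
open Polynomial

/-! Construction of the auxiliary one-variable polynomials `Ψ` used in the non-cyclic example. -/

namespace Pool.Agent.H51

/-- powers of the cosine as real parts of polynomials with real coefficients -/
theorem exists_cos_pow (k : ℕ) :
    ∃ R : ℝ[X], R.natDegree ≤ k ∧
      ∀ α : ℝ, (aeval (Complex.exp (α * Complex.I)) R).re = Real.cos α ^ k := by
  induction k with
  | zero => exact ⟨1, by simp, fun α => by simp⟩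
  | succ k ih =>
    obtain ⟨R, hdeg, hR⟩ := ih
    refine ⟨C (1/2) * (X * R + R.divX + C (R.coeff 0) * X), ?_, fun α => ?_⟩
    · refine (natDegree_C_mul_le _ _).trans ?_
      refine (natDegree_add_le _ _).trans (max_le ((natDegree_add_le _ _).trans (max_le ?_ ?_)) ?_)
      · refine (natDegree_mul_le).trans ?_
        have : (X : ℝ[X]).natDegree ≤ 1 := natDegree_X_le
        omega
      · exact (natDegree_divX_le).trans (by omega)
      · refine (natDegree_C_mul_le _ _).trans ?_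
        have : (X : ℝ[X]).natDegree ≤ 1 := natDegree_X_le
        omega
    · have hdiv : R.divX * X + C (R.coeff 0) = R := divX_mul_X_add R
      set ω : ℂ := Complex.exp (α * Complex.I) with hω
      have hre : ω.re = Real.cos α := by rw [hω, Complex.exp_ofReal_mul_I_re]
      have him : ω.im = Real.sin α := by rw [hω, Complex.exp_ofReal_mul_I_im]
      have h1 : aeval ω R = aeval ω R.divX * ω + (R.coeff 0 : ℂ) := by
        conv_lhs => rw [← hdiv]
        simp
      have h2 := hR α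
      rw [h1] at h2
      simp only [map_mul, map_add, aeval_X, aeval_C, h1]
      simp only [Complex.mul_re, Complex.add_re, Complex.mul_im, Complex.add_im,
        Complex.ofReal_re, Complex.ofReal_im, Complex.coe_algebraMap, hre, him] at h2 ⊢
      have hcs := Real.sin_sq_add_cos_sq α
      rw [pow_succ, ← h2]
      linear_combination (-(1/2) * (aeval ω R.divX).re) * hcs

theorem exists_cos_poly (p : ℝ[X]) :
    ∃ R : ℝ[X], R.natDegree ≤ p.natDegree ∧
      ∀ α : ℝ, (aeval (Complex.exp (α * Complex.I)) R).re = p.eval (Real.cos α) := by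
  choose R hdeg hR using exists_cos_pow
  refine ⟨∑ k ∈ Finset.range (p.natDegree + 1), C (p.coeff k) * R k, ?_, fun α => ?_⟩
  · refine natDegree_sum_le_of_forall_le _ _ (fun k hk => ?_)
    refine (natDegree_C_mul_le _ _).trans ((hdeg k).trans ?_)
    simpa [Nat.lt_succ_iff] using hk
  · rw [map_sum, Complex.re_sum, eval_eq_sum_range]
    refine Finset.sum_congr rfl fun k _ => ?_
    rw [map_mul, aeval_C, Complex.coe_algebraMap, Complex.re_ofReal_mul, hR]

/-- The polynomial `1 - (1 - ((1-x)/2)^m)^(16^m)`. -/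
noncomputable def phiPoly (m : ℕ) : ℝ[X] :=
  1 - (1 - (C (1/2) * (1 - X)) ^ m) ^ (16 ^ m)

theorem phiPoly_natDegree (m : ℕ) : (phiPoly m).natDegree ≤ m * 16 ^ m := by
  unfold phiPoly
  have h1 : (C (1/2 : ℝ) * (1 - X)).natDegree ≤ 1 := by
    refine (natDegree_C_mul_le _ _).trans ((natDegree_sub_le _ _).trans ?_)
    simp
  have h2 : ((C (1/2 : ℝ) * (1 - X)) ^ m).natDegree ≤ m := by
    refine natDegree_pow_le.trans ?_
    nlinarith
  have h3 : (1 - (C (1/2 : ℝ) * (1 - X)) ^ m).natDegree ≤ m := by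
    refine (natDegree_sub_le _ _).trans (max_le (by simp) h2)
  refine (natDegree_sub_le _ _).trans (max_le (by simp) ?_)
  refine natDegree_pow_le.trans ?_
  rw [mul_comm]
  exact Nat.mul_le_mul_right _ h3

theorem phiPoly_eval (m : ℕ) (x : ℝ) :
    (phiPoly m).eval x = 1 - (1 - ((1 - x) / 2) ^ m) ^ (16 ^ m) := by
  simp [phiPoly]
  ring_nf

theorem phiPoly_nonneg (m : ℕ) {x : ℝ} (h1 : -1 ≤ x) (h2 : x ≤ 1) : 0 ≤ (phiPoly m).eval x := by
  rw [phiPoly_eval]
  have hy0 : 0 ≤ ((1 - x) / 2) := by linarith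
  have hy1 : ((1 - x) / 2) ≤ 1 := by linarith
  have h3 : 0 ≤ ((1 - x) / 2) ^ m := pow_nonneg hy0 m
  have h4 : ((1 - x) / 2) ^ m ≤ 1 := pow_le_one₀ hy0 hy1
  have := pow_le_one₀ (n := 16 ^ m) (by linarith : 0 ≤ 1 - ((1 - x) / 2) ^ m) (by linarith)
  linarith

theorem phiPoly_le_one (m : ℕ) {x : ℝ} (h1 : -1 ≤ x) (h2 : x ≤ 1) : (phiPoly m).eval x ≤ 1 := by
  rw [phiPoly_eval]
  have hy0 : 0 ≤ ((1 - x) / 2) := by linarith
  have hy1 : ((1 - x) / 2) ≤ 1 := by linarith
  have h3 : 0 ≤ ((1 - x) / 2) ^ m := pow_nonneg hy0 m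
  have h4 : ((1 - x) / 2) ^ m ≤ 1 := pow_le_one₀ hy0 hy1
  have := pow_nonneg (by linarith : 0 ≤ 1 - ((1 - x) / 2) ^ m) (16 ^ m)
  linarith

theorem phiPoly_small (m : ℕ) {x : ℝ} (h1 : 15 / 16 ≤ x) (h2 : x ≤ 1) :
    (phiPoly m).eval x ≤ (1/2) ^ m := by
  rw [phiPoly_eval]
  have hy0 : 0 ≤ ((1 - x) / 2) := by linarith
  have hy1 : ((1 - x) / 2) ≤ 1 / 32 := by linarith
  have h4 : ((1 - x) / 2) ^ m ≤ 1 := pow_le_one₀ hy0 (by linarith)
  have h5 := one_add_mul_le_pow (a := -((1 - x) / 2) ^ m) (by linarith) (16 ^ m)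
  have h6 : ((1 - x) / 2) ^ m ≤ (1 / 32) ^ m := pow_le_pow_left₀ hy0 hy1 m
  have h7 : (16 : ℝ) ^ m * (1 / 32) ^ m = (1 / 2) ^ m := by rw [← mul_pow]; norm_num
  have h8 : (16 : ℝ) ^ m * ((1 - x) / 2) ^ m ≤ (1 / 2) ^ m := by
    rw [← h7]; exact mul_le_mul_of_nonneg_left h6 (by positivity)
  push_cast at h5
  have h9 : (1 + -((1 - x) / 2) ^ m) = (1 - ((1 - x) / 2) ^ m) := by ring
  rw [h9] at h5
  nlinarith

theorem phiPoly_large (m : ℕ) (hm : 2 ≤ m) {x : ℝ} (h1 : -1 ≤ x) (h2 : x ≤ 1 / 2) :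
    15 / 16 ≤ (phiPoly m).eval x := by
  rw [phiPoly_eval]
  have hy0 : 1 / 4 ≤ ((1 - x) / 2) := by linarith
  have hy1 : ((1 - x) / 2) ≤ 1 := by linarith
  set y := (1 - x) / 2
  have h4 : y ^ m ≤ 1 := pow_le_one₀ (by linarith) hy1
  have h5 : (1 / 4 : ℝ) ^ m ≤ y ^ m := pow_le_pow_left₀ (by norm_num) hy0 m
  have hz0 : 0 ≤ y ^ m := pow_nonneg (by linarith) m
  have h6 := one_add_mul_le_pow (a := y ^ m) (by linarith) (16 ^ m)
  have h7 : (16 : ℝ) ^ m * (1 / 4) ^ m = 4 ^ m := by rw [← mul_pow]; norm_num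
  have h8 : (4 : ℝ) ^ m ≤ (16 : ℝ) ^ m * y ^ m := by
    rw [← h7]; exact mul_le_mul_of_nonneg_left h5 (by positivity)
  have h9 : (16 : ℝ) ≤ 4 ^ m := by
    calc (16 : ℝ) = 4 ^ 2 := by norm_num
      _ ≤ 4 ^ m := pow_le_pow_right₀ (by norm_num) hm
  push_cast at h6
  have h10 : (1 - y ^ m) ^ 16 ^ m * (1 + y ^ m) ^ 16 ^ m ≤ 1 := by
    rw [← mul_pow]
    refine pow_le_one₀ (by nlinarith) (by nlinarith)
  have h11 : 0 ≤ (1 - y ^ m) ^ 16 ^ m := pow_nonneg (by linarith) _
  have h12 : (1 - y ^ m) ^ 16 ^ m * 16 ≤ 1 := by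
    refine le_trans (mul_le_mul_of_nonneg_left ?_ h11) h10
    linarith
  linarith

open MeasureTheory intervalIntegral in
/-- lower bound for the mean of `phiPoly m (cos α)` -/
theorem phiPoly_mean (m : ℕ) (hm : 2 ≤ m) :
    2 * Real.pi * (5 / 8) ≤ ∫ α in (0 : ℝ)..(2 * Real.pi), (phiPoly m).eval (Real.cos α) := by
  have hpi := Real.pi_pos
  have hcont : Continuous fun α : ℝ => (phiPoly m).eval (Real.cos α) :=
    (phiPoly m).continuous.comp Real.continuous_cos
  have hint : ∀ a b : ℝ, IntervalIntegrable (fun α : ℝ => (phiPoly m).eval (Real.cos α)) volume a b :=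
    fun a b => hcont.intervalIntegrable a b
  rw [← integral_add_adjacent_intervals (hint 0 (Real.pi / 3)) (hint _ _),
    ← integral_add_adjacent_intervals (hint (Real.pi / 3) (5 * Real.pi / 3)) (hint _ _)]
  have h1 : 0 ≤ ∫ α in (0 : ℝ)..(Real.pi / 3), (phiPoly m).eval (Real.cos α) :=
    integral_nonneg (by positivity) fun α _ =>
      phiPoly_nonneg m (Real.neg_one_le_cos α) (Real.cos_le_one α)
  have h2 : 0 ≤ ∫ α in (5 * Real.pi / 3)..(2 * Real.pi), (phiPoly m).eval (Real.cos α) :=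
    integral_nonneg (by nlinarith) fun α _ =>
      phiPoly_nonneg m (Real.neg_one_le_cos α) (Real.cos_le_one α)
  have h3 : ∫ α in (Real.pi / 3)..(5 * Real.pi / 3), (15 / 16 : ℝ) ≤
      ∫ α in (Real.pi / 3)..(5 * Real.pi / 3), (phiPoly m).eval (Real.cos α) := by
    refine integral_mono_on (by nlinarith) (by simp) (hint _ _) fun α hα => ?_
    refine phiPoly_large m hm (Real.neg_one_le_cos α) ?_
    rw [← Real.cos_pi_div_three]
    rcases le_total α Real.pi with h | h
    · exact Real.cos_le_cos_of_nonneg_of_le_pi (by positivity) h hα.1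
    · rw [← Real.cos_two_pi_sub α]
      exact Real.cos_le_cos_of_nonneg_of_le_pi (by positivity) (by linarith) (by linarith [hα.2])
  rw [intervalIntegral.integral_const, smul_eq_mul] at h3
  nlinarith

theorem normSq_exp_sub_one (α : ℝ) :
    ‖Complex.exp (α * Complex.I) - 1‖ ^ 2 = 2 - 2 * Real.cos α := by
  rw [← Complex.normSq_eq_norm_sq, Complex.normSq_apply]
  simp only [Complex.sub_re, Complex.sub_im, Complex.exp_ofReal_mul_I_re,
    Complex.exp_ofReal_mul_I_im, Complex.one_re, Complex.one_im]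
  have := Real.sin_sq_add_cos_sq α
  linear_combination this

theorem exists_psi (m : ℕ) (hm : 2 ≤ m) :
    ∃ Ψ : ℂ[X], Ψ.coeff 0 = 0 ∧ Ψ.natDegree ≤ m * 16 ^ m ∧
      ∀ α : ℝ, 0 ≤ 1 - (Ψ.eval (Complex.exp (α * Complex.I))).re ∧
        1 - (Ψ.eval (Complex.exp (α * Complex.I))).re ≤ 8 / 5 ∧
        (‖Complex.exp (α * Complex.I) - 1‖ ≤ 1 / 3 →
          1 - (Ψ.eval (Complex.exp (α * Complex.I))).re ≤ 8 / 5 * (1 / 2) ^ m) := by
  obtain ⟨R, hdeg, hR⟩ := exists_cos_poly (phiPoly m)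
  set μ : ℝ := R.coeff 0 with hμdef
  have hμ : 5 / 8 ≤ μ := by
    have h1 : Real.circleAverage (fun z => aeval z R) 0 1 = aeval (0 : ℂ) R := by
      apply DiffContOnCl.circleAverage
      apply Differentiable.diffContOnCl
      exact R.differentiable_aeval
    have h2 := phiPoly_mean m hm
    have h3 : ∫ α in (0 : ℝ)..(2 * Real.pi), (phiPoly m).eval (Real.cos α)
        = (∫ α in (0 : ℝ)..(2 * Real.pi), aeval (circleMap 0 1 α) R).re := by
      have h4 : Continuous fun α : ℝ => aeval (circleMap 0 1 α) R := by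
        exact (R.continuous_aeval).comp (continuous_circleMap 0 1)
      have h5 := Complex.reCLM.intervalIntegral_comp_comm
        (h4.intervalIntegrable 0 (2 * Real.pi) (μ := MeasureTheory.volume))
      simp only [Complex.reCLM_apply] at h5
      rw [← h5]
      refine intervalIntegral.integral_congr fun α _ => ?_
      simp only [circleMap, zero_add, Complex.ofReal_one, one_mul]
      rw [hR]
    rw [Real.circleAverage_def] at h1
    have h6 : (∫ α in (0 : ℝ)..(2 * Real.pi), aeval (circleMap 0 1 α) R)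
        = (2 * Real.pi) • aeval (0 : ℂ) R := by
      rw [← h1, smul_smul, mul_inv_cancel₀ (by positivity), one_smul]
    rw [h3, h6] at h2
    have h7 : (aeval (0 : ℂ) R) = (μ : ℂ) := by
      rw [hμdef, aeval_def, eval₂_at_zero]
      rfl
    rw [h7] at h2
    simp only [Complex.real_smul, Complex.mul_re, Complex.ofReal_re, Complex.ofReal_im,
      mul_zero, sub_zero] at h2
    have : 0 < 2 * Real.pi := by positivity
    exact le_of_mul_le_mul_left h2 this
  have hμ0 : 0 < μ := by linarith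
  refine ⟨1 - C ((μ : ℂ)⁻¹) * R.map (algebraMap ℝ ℂ), ?_, ?_, fun α => ?_⟩
  · simp only [coeff_sub, coeff_one_zero, coeff_C_mul, coeff_map, Complex.coe_algebraMap]
    rw [← hμdef, inv_mul_cancel₀ (by exact_mod_cast hμ0.ne'), sub_self]
  · refine (natDegree_sub_le _ _).trans (max_le (by simp) ?_)
    refine (natDegree_C_mul_le _ _).trans (natDegree_map_le.trans (hdeg.trans (phiPoly_natDegree m)))
  · have h1 : 1 - ((1 - C ((μ : ℂ)⁻¹) * R.map (algebraMap ℝ ℂ)).eval
        (Complex.exp (α * Complex.I))).re = μ⁻¹ * (phiPoly m).eval (Real.cos α) := by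
      rw [eval_sub, eval_one, eval_mul, eval_C, eval_map_algebraMap, Complex.sub_re,
        Complex.one_re, ← Complex.ofReal_inv, Complex.re_ofReal_mul, hR]
      ring
    rw [h1]
    have hinv : μ⁻¹ ≤ 8 / 5 := by
      rw [inv_le_comm₀ hμ0 (by norm_num)]; linarith
    have hinv0 : 0 ≤ μ⁻¹ := by positivity
    have hc1 := Real.neg_one_le_cos α
    have hc2 := Real.cos_le_one α
    refine ⟨mul_nonneg hinv0 (phiPoly_nonneg m hc1 hc2), ?_, fun hα => ?_⟩
    · have := phiPoly_le_one m hc1 hc2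
      have h0 := phiPoly_nonneg m hc1 hc2
      nlinarith
    · have h2 := normSq_exp_sub_one α
      have h3 : ‖Complex.exp (α * Complex.I) - 1‖ ^ 2 ≤ (1 / 3) ^ 2 :=
        pow_le_pow_left₀ (norm_nonneg _) hα 2
      have h4 := phiPoly_small m (x := Real.cos α) (by nlinarith) hc2
      have h0 := phiPoly_nonneg m hc1 hc2
      have h5 : (0 : ℝ) ≤ (1 / 2) ^ m := by positivity
      exact mul_le_mul hinv h4 h0 (by norm_num)

end Pool.Agent.H51
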