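import Pool.Agent.H51.CycPsi
import Pool.Agent.H51.CycPoisson

set_option autoImplicit false
open Polynomial

namespace Pool.Agent.H51

theorem psi_facts (m : ℕ) (hm : 2 ≤ m) :
    ∃ Ψ : ℂ[X], Ψ.coeff 0 = 0 ∧ Ψ.natDegree ≤ m * 16 ^ m ∧
      (∀ w : ℂ, ‖w‖ ≤ 1 → 0 ≤ 1 - (Ψ.eval w).re ∧ 1 - (Ψ.eval w).re ≤ 8 / 5) ∧
      (∀ w : ℂ, ‖w‖ = 1 → ‖w - 1‖ ≤ 1 / 3 → 1 - (Ψ.eval w).re ≤ 8 / 5 * (1 / 2) ^ m) ∧
      (∀ w : ℂ, ‖w‖ < 1 → ‖Ψ.eval w‖ ≤ 2 * ‖w‖ / (1 - ‖w‖)) := by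
  obtain ⟨Ψ, h0, hdeg, hΨ⟩ := exists_psi m hm
  have hre : ∀ w : ℂ, ‖w‖ ≤ 1 → 0 ≤ 1 - (Ψ.eval w).re ∧ 1 - (Ψ.eval w).re ≤ 8 / 5 := by
    intro w hw
    have h1 := re_le_of_circle Ψ 1 (fun α => by linarith [(hΨ α).1]) w hw
    have h2 := le_re_of_circle Ψ (1 - 8 / 5) (fun α => by linarith [(hΨ α).2.1]) w hw
    constructor <;> linarith
  refine ⟨Ψ, h0, hdeg, hre, fun w hw hw1 => ?_, fun w hw => ?_⟩
  · have h1 : w = Complex.exp (Complex.arg w * Complex.I) := by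
      conv_lhs => rw [← Complex.norm_mul_exp_arg_mul_I w, hw]
      simp
    rw [h1] at hw1 ⊢
    exact (hΨ (Complex.arg w)).2.2 hw1
  · have h2 := Complex.borelCaratheodory_zero (f := fun z => Ψ.eval z) (M := 1) (R := 1) (z := w)
      one_pos Ψ.differentiable.differentiableOn ?_ one_pos (by simpa using hw) ?_
    · simpa using h2
    · intro z hz
      have hz' : ‖z‖ < 1 := by simpa using hz
      show (Ψ.eval z).re ≤ 1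
      linarith [(hre z hz'.le).1]
    · rw [← coeff_zero_eq_eval_zero, h0]

end Pool.Agent.H51
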