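import Pool.Agent.H51.CycArr3
import Pool.Agent.H51.CycPsi2

set_option autoImplicit false
open Finset MvPolynomial
open scoped ComplexConjugate

/-! One step of the recursive construction. -/

namespace Pool.Agent.H51

/-- normalised complete homogeneous sum -/
noncomputable def KN (N : ℕ) : MvPolynomial (Fin 2) ℂ :=
  C ((N : ℂ)⁻¹) * ∑ i ∈ range N, X 0 ^ i * X 1 ^ (N - 1 - i)

noncomputable def MN (N : ℕ) : MvPolynomial (Fin 2) ℂ := (X 0 * X 1) ^ N * KN N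

/-- reflected polynomial -/
noncomputable def sharp (N : ℕ) (P : MvPolynomial (Fin 2) ℂ) : MvPolynomial (Fin 2) ℂ :=
  ∑ s ∈ P.support, C (conj (P.coeff s)) * (X 0 ^ (N - s 0) * X 1 ^ (N - s 1))

/-- one step of the construction -/
noncomputable def stepP (b N : ℕ) (Ψ : Polynomial ℂ) (P : MvPolynomial (Fin 2) ℂ) :
    MvPolynomial (Fin 2) ℂ :=
  P + KN N * ((C (b : ℂ) - C (1 / 2) * P) * (X 0 * X 1) ^ N * Polynomial.aeval (MN N) Ψ.divX
    - C (1 / 2) * sharp N P * Polynomial.aeval (MN N) Ψ.divX)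

theorem ev_C (c z w : ℂ) : ev (C c) z w = c := by simp [ev]
theorem ev_X0 (z w : ℂ) : ev (X 0) z w = z := by simp [ev]
theorem ev_X1 (z w : ℂ) : ev (X 1) z w = w := by simp [ev]
theorem ev_pow (P : MvPolynomial (Fin 2) ℂ) (n : ℕ) (z w : ℂ) : ev (P ^ n) z w = ev P z w ^ n :=
  map_pow _ _ _
theorem ev_sub (P Q : MvPolynomial (Fin 2) ℂ) (z w : ℂ) : ev (P - Q) z w = ev P z w - ev Q z w :=
  map_sub _ _ _
theorem ev_sum {ι : Type*} (T : Finset ι) (P : ι → MvPolynomial (Fin 2) ℂ) (z w : ℂ) :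
    ev (∑ i ∈ T, P i) z w = ∑ i ∈ T, ev (P i) z w := map_sum _ _ _

theorem ev_aeval (Q : Polynomial ℂ) (P : MvPolynomial (Fin 2) ℂ) (z w : ℂ) :
    ev (Polynomial.aeval P Q) z w = Q.eval (ev P z w) := by
  unfold ev
  rw [Polynomial.aeval_def, ← Polynomial.coe_eval₂RingHom, ← RingHom.comp_apply]
  have h : (MvPolynomial.eval ![z, w]).comp
      (Polynomial.eval₂RingHom (algebraMap ℂ (MvPolynomial (Fin 2) ℂ)) P)
      = Polynomial.evalRingHom (MvPolynomial.eval ![z, w] P) := by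
    apply Polynomial.ringHom_ext
    · intro a
      simp [MvPolynomial.algebraMap_eq]
    · simp
  rw [h]
  rfl

theorem ev_KN (N : ℕ) (z w : ℂ) : ev (KN N) z w = (N : ℂ)⁻¹ * ∑ i ∈ range N, z ^ i * w ^ (N - 1 - i) := by
  unfold KN
  rw [ev_mul, ev_C, ev_sum]
  simp_rw [ev_mul, ev_pow, ev_X0, ev_X1]

theorem ev_MN (N : ℕ) (z w : ℂ) : ev (MN N) z w = (z * w) ^ N * ev (KN N) z w := by
  unfold MN
  rw [ev_mul, ev_pow, ev_mul, ev_X0, ev_X1]

theorem norm_KN_le (N : ℕ) {z w : ℂ} (hz : ‖z‖ ≤ 1) (hw : ‖w‖ ≤ 1) : ‖ev (KN N) z w‖ ≤ 1 := by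
  rw [ev_KN, norm_mul, norm_inv, Complex.norm_natCast]
  rcases Nat.eq_zero_or_pos N with h | h
  · simp [h]
  · rw [inv_mul_le_iff₀ (by exact_mod_cast h), mul_one]
    refine (norm_sum_le _ _).trans ?_
    calc ∑ i ∈ range N, ‖z ^ i * w ^ (N - 1 - i)‖ ≤ ∑ i ∈ range N, (1 : ℝ) := by
          refine sum_le_sum fun i _ => ?_
          rw [norm_mul, norm_pow, norm_pow]
          exact mul_le_one₀ (pow_le_one₀ (norm_nonneg _) hz) (by positivity)
            (pow_le_one₀ (norm_nonneg _) hw)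
      _ = N := by simp

theorem norm_KN_le' {N : ℕ} (hN : 0 < N) {z w : ℂ} (hz : ‖z‖ ≤ 1) (hw : ‖w‖ ≤ 1) :
    ‖ev (KN N) z w‖ * ‖z - w‖ ≤ 2 / N := by
  rw [ev_KN, ← norm_mul, mul_assoc, geom_sum₂_mul, norm_mul, norm_inv, Complex.norm_natCast]
  have hN' : (0 : ℝ) < N := by exact_mod_cast hN
  rw [div_eq_inv_mul]
  refine mul_le_mul_of_nonneg_left ?_ (by positivity)
  refine (norm_sub_le _ _).trans ?_
  rw [norm_pow, norm_pow]
  have h1 := pow_le_one₀ (n := N) (norm_nonneg z) hz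
  have h2 := pow_le_one₀ (n := N) (norm_nonneg w) hw
  linarith

theorem ev_MN_diag {N : ℕ} (hN : 0 < N) (z : ℂ) : ev (MN N) z z = z ^ (3 * N - 1) := by
  rw [ev_MN, ev_KN]
  have h1 : ∀ i ∈ range N, z ^ i * z ^ (N - 1 - i) = z ^ (N - 1) := by
    intro i hi
    rw [mem_range] at hi
    rw [← pow_add]
    congr 1
    omega
  rw [sum_congr rfl h1, sum_const, card_range, nsmul_eq_mul, ← mul_assoc (N : ℂ)⁻¹,
    inv_mul_cancel₀ (by exact_mod_cast hN.ne'), one_mul, mul_pow, ← pow_add, ← pow_add]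
  congr 1
  omega

theorem norm_MN {N : ℕ} {z w : ℂ} (hz : ‖z‖ = 1) (hw : ‖w‖ = 1) :
    ‖ev (MN N) z w‖ = ‖ev (KN N) z w‖ := by
  rw [ev_MN, norm_mul, norm_pow, norm_mul, hz, hw]
  simp

/-- degree bound in both variables -/
def DegLe (N : ℕ) (P : MvPolynomial (Fin 2) ℂ) : Prop := ∀ i, P.degreeOf i ≤ N

theorem ev_sharp {N : ℕ} {P : MvPolynomial (Fin 2) ℂ} (hP : DegLe N P) {z w : ℂ} (hz : ‖z‖ = 1)
    (hw : ‖w‖ = 1) : ev (sharp N P) z w = (z * w) ^ N * conj (ev P z w) := by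
  unfold sharp
  rw [ev_sum, ev_eq P, map_sum, mul_sum]
  refine sum_congr rfl fun s hs => ?_
  rw [ev_mul, ev_mul, ev_pow, ev_pow, ev_C, ev_X0, ev_X1, map_mul, map_mul, map_pow, map_pow]
  have key : ∀ (ζ : ℂ) (k : ℕ), ‖ζ‖ = 1 → k ≤ N → ζ ^ (N - k) = ζ ^ N * conj ζ ^ k := by
    intro ζ k hζ hk
    have h1 : ζ * conj ζ = 1 := by rw [Complex.mul_conj', hζ]; simp
    calc ζ ^ (N - k) = ζ ^ (N - k) * (ζ * conj ζ) ^ k := by rw [h1, one_pow, mul_one]
      _ = ζ ^ (N - k) * ζ ^ k * conj ζ ^ k := by rw [mul_pow]; ring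
      _ = ζ ^ N * conj ζ ^ k := by rw [← pow_add, Nat.sub_add_cancel hk]
  have h0 : s 0 ≤ N := (MvPolynomial.monomial_le_degreeOf 0 hs).trans (hP 0)
  have h1 : s 1 ≤ N := (MvPolynomial.monomial_le_degreeOf 1 hs).trans (hP 1)
  rw [key z _ hz h0, key w _ hw h1]
  ring

theorem ev_stepP (b : ℕ) {N : ℕ} {Ψ : Polynomial ℂ} (h0 : Ψ.coeff 0 = 0)
    {P : MvPolynomial (Fin 2) ℂ} (hP : DegLe N P) {z w : ℂ} (hz : ‖z‖ = 1) (hw : ‖w‖ = 1) :
    ev (stepP b N Ψ P) z w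
      = ev P z w + (((b : ℝ) - (ev P z w).re : ℝ) : ℂ) * Ψ.eval (ev (MN N) z w) := by
  have hdiv : Ψ.eval (ev (MN N) z w) = Ψ.divX.eval (ev (MN N) z w) * ev (MN N) z w := by
    conv_lhs => rw [← Ψ.divX_mul_X_add, h0]
    simp
  rw [hdiv]
  unfold stepP
  rw [ev_add, ev_mul, ev_sub, ev_mul, ev_mul, ev_sub, ev_mul, ev_mul, ev_mul, ev_aeval, ev_C, ev_C,
    ev_sharp hP hz hw, ev_pow, ev_mul, ev_X0, ev_X1]
  have h2 : (((b : ℝ) - (ev P z w).re : ℝ) : ℂ)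
      = (b : ℂ) - 1 / 2 * (ev P z w + conj (ev P z w)) := by
    rw [Complex.add_conj]
    push_cast
    ring
  rw [h2]
  have h3 := ev_MN N z w
  rw [h3]
  ring

theorem re_ev_stepP (b : ℕ) {N : ℕ} {Ψ : Polynomial ℂ} (h0 : Ψ.coeff 0 = 0)
    {P : MvPolynomial (Fin 2) ℂ} (hP : DegLe N P) {z w : ℂ} (hz : ‖z‖ = 1) (hw : ‖w‖ = 1) :
    (ev (stepP b N Ψ P) z w).re
      = b - (b - (ev P z w).re) * (1 - (Ψ.eval (ev (MN N) z w)).re) := by
  rw [ev_stepP b h0 hP hz hw, Complex.add_re, Complex.re_ofReal_mul]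
  ring

/-! low degree part -/

theorem LowVan.mul_right {D : ℕ} {P : MvPolynomial (Fin 2) ℂ} (hP : LowVan D P)
    (Q : MvPolynomial (Fin 2) ℂ) : LowVan D (P * Q) := by
  intro s hs
  have h1 := MvPolynomial.support_mul P Q hs
  obtain ⟨u, hu, v, hv, rfl⟩ := Finset.mem_add.mp h1
  have := hP u hu
  simp only [Finsupp.add_apply]
  omega

theorem LowVan.sum {ι : Type*} {D : ℕ} (T : Finset ι) (P : ι → MvPolynomial (Fin 2) ℂ)
    (h : ∀ i ∈ T, LowVan D (P i)) : LowVan D (∑ i ∈ T, P i) := by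
  classical
  intro s hs
  have h1 := MvPolynomial.support_sum hs
  obtain ⟨i, hi, hs'⟩ := Finset.mem_biUnion.mp h1
  exact h i hi s hs'

theorem lowVan_monomial (m n : ℕ) :
    LowVan (m + n) ((X 0 : MvPolynomial (Fin 2) ℂ) ^ m * X 1 ^ n) := by
  intro s hs
  rw [MvPolynomial.X_pow_eq_monomial, MvPolynomial.X_pow_eq_monomial, MvPolynomial.monomial_mul]
    at hs
  have h1 := MvPolynomial.support_monomial_subset hs
  rw [Finset.mem_singleton] at h1
  subst h1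
  simp

theorem lowVan_KN (N : ℕ) : LowVan (N - 1) (KN N) := by
  unfold KN
  rw [mul_comm]
  refine LowVan.mul_right ?_ _
  refine LowVan.sum _ _ fun i hi => ?_
  rw [mem_range] at hi
  have h := lowVan_monomial i (N - 1 - i)
  have e : i + (N - 1 - i) = N - 1 := by omega
  rwa [e] at h

theorem lowVan_stepP (b N : ℕ) (Ψ : Polynomial ℂ) (P : MvPolynomial (Fin 2) ℂ) :
    LowVan (N - 1) (stepP b N Ψ P - P) := by
  unfold stepP
  rw [add_sub_cancel_left]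
  exact (lowVan_KN N).mul_right _

theorem LowVan.mono {D D' : ℕ} (h : D' ≤ D) {P : MvPolynomial (Fin 2) ℂ} (hP : LowVan D P) :
    LowVan D' P := fun s hs => h.trans (hP s hs)

theorem ev_zero_of_lowVan {P : MvPolynomial (Fin 2) ℂ} (hP : LowVan 1 P) : ev P 0 0 = 0 := by
  rw [ev_eq]
  refine sum_eq_zero fun s hs => ?_
  have h := hP s hs
  have : (0 : ℂ) ^ (s 0) * 0 ^ (s 1) = 0 := by
    rw [← pow_add]
    exact zero_pow (by omega)
  rw [this, mul_zero]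

/-! degree bounds -/

theorem degLe_C (c : ℂ) (N : ℕ) : DegLe N (C c) := fun i => by rw [degreeOf_C]; exact Nat.zero_le _

theorem DegLe.mul {M N : ℕ} {P Q : MvPolynomial (Fin 2) ℂ} (hP : DegLe M P) (hQ : DegLe N Q) :
    DegLe (M + N) (P * Q) := fun i => (degreeOf_mul_le i P Q).trans (add_le_add (hP i) (hQ i))

theorem DegLe.mono {M N : ℕ} (h : M ≤ N) {P : MvPolynomial (Fin 2) ℂ} (hP : DegLe M P) :
    DegLe N P := fun i => (hP i).trans h

theorem DegLe.add {N : ℕ} {P Q : MvPolynomial (Fin 2) ℂ} (hP : DegLe N P) (hQ : DegLe N Q) :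
    DegLe N (P + Q) := fun i => (degreeOf_add_le i P Q).trans (max_le (hP i) (hQ i))

theorem DegLe.sub {N : ℕ} {P Q : MvPolynomial (Fin 2) ℂ} (hP : DegLe N P) (hQ : DegLe N Q) :
    DegLe N (P - Q) := fun i => (degreeOf_sub_le i P Q).trans (max_le (hP i) (hQ i))

theorem DegLe.pow {M : ℕ} {P : MvPolynomial (Fin 2) ℂ} (hP : DegLe M P) (n : ℕ) :
    DegLe (n * M) (P ^ n) := fun i =>
  (degreeOf_pow_le i P n).trans (Nat.mul_le_mul_left n (hP i))

theorem DegLe.sum {ι : Type*} {N : ℕ} (T : Finset ι) (P : ι → MvPolynomial (Fin 2) ℂ)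
    (h : ∀ i ∈ T, DegLe N (P i)) : DegLe N (∑ i ∈ T, P i) := fun j =>
  (degreeOf_sum_le j T P).trans (Finset.sup_le fun i hi => h i hi j)

theorem degLe_X (j : Fin 2) : DegLe 1 (X j : MvPolynomial (Fin 2) ℂ) := fun i => by
  rw [degreeOf_X]
  split_ifs <;> omega

theorem degLe_X0_pow_mul (m n N : ℕ) (hm : m ≤ N) (hn : n ≤ N) :
    DegLe N ((X 0 : MvPolynomial (Fin 2) ℂ) ^ m * X 1 ^ n) := by
  intro i
  refine (degreeOf_mul_le i _ _).trans ?_
  have h1 := degreeOf_pow_le i (X 0 : MvPolynomial (Fin 2) ℂ) m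
  have h2 := degreeOf_pow_le i (X 1 : MvPolynomial (Fin 2) ℂ) n
  rw [degreeOf_X] at h1 h2
  by_cases h0 : i = 0
  · have h0' : i ≠ 1 := by rw [h0]; decide
    rw [if_pos h0] at h1
    rw [if_neg h0'] at h2
    omega
  · rw [if_neg h0] at h1
    split_ifs at h2 <;> omega

theorem degLe_KN (N : ℕ) : DegLe N (KN N) := by
  unfold KN
  have h := (degLe_C ((N : ℂ)⁻¹) 0).mul (DegLe.sum (N := N) (range N)
    (fun i => (X 0 : MvPolynomial (Fin 2) ℂ) ^ i * X 1 ^ (N - 1 - i)) fun i hi => by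
      rw [mem_range] at hi
      exact degLe_X0_pow_mul _ _ _ (by omega) (by omega))
  rwa [zero_add] at h

theorem degLe_XX (N : ℕ) : DegLe N ((X 0 * X 1 : MvPolynomial (Fin 2) ℂ) ^ N) := by
  rw [mul_pow]
  exact degLe_X0_pow_mul N N N le_rfl le_rfl

theorem degLe_MN (N : ℕ) : DegLe (2 * N) (MN N) := by
  unfold MN
  rw [two_mul]
  exact (degLe_XX N).mul (degLe_KN N)

theorem degLe_sharp (N : ℕ) (P : MvPolynomial (Fin 2) ℂ) : DegLe N (sharp N P) := by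
  unfold sharp
  refine DegLe.sum _ _ fun s _ => ?_
  have h := (degLe_C (conj (P.coeff s)) 0).mul
    (degLe_X0_pow_mul (N - s 0) (N - s 1) N (Nat.sub_le _ _) (Nat.sub_le _ _))
  rwa [zero_add] at h

theorem degLe_aeval (N d : ℕ) (Q : Polynomial ℂ) (hQ : Q.natDegree ≤ d) :
    DegLe (d * (2 * N)) (Polynomial.aeval (MN N) Q) := by
  rw [Polynomial.aeval_eq_sum_range]
  refine DegLe.sum _ _ fun i hi => ?_
  rw [mem_range] at hi
  rw [MvPolynomial.smul_eq_C_mul]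
  have h := (degLe_C (Q.coeff i) 0).mul ((degLe_MN N).pow i)
  rw [zero_add] at h
  exact h.mono (Nat.mul_le_mul_right _ (by omega))

theorem degLe_stepP (b : ℕ) {N d : ℕ} {Ψ : Polynomial ℂ} (hΨ : Ψ.natDegree ≤ d)
    {P : MvPolynomial (Fin 2) ℂ} (hP : DegLe N P) :
    DegLe ((3 + 2 * d) * N) (stepP b N Ψ P) := by
  have hQ : Ψ.divX.natDegree ≤ d := (Polynomial.natDegree_divX_le).trans hΨ
  have h1 := degLe_aeval N d Ψ.divX hQ
  unfold stepP
  refine DegLe.add (hP.mono (by nlinarith)) ?_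
  have h2 : DegLe (N + N + d * (2 * N)) ((C (b : ℂ) - C (1 / 2) * P) * (X 0 * X 1) ^ N *
      Polynomial.aeval (MN N) Ψ.divX) := by
    refine DegLe.mul (DegLe.mul (DegLe.sub (degLe_C _ _) ?_) (degLe_XX N)) h1
    have h := (degLe_C (1 / 2) 0).mul hP
    rwa [zero_add] at h
  have h3 : DegLe (N + d * (2 * N)) (C (1 / 2) * sharp N P * Polynomial.aeval (MN N) Ψ.divX) := by
    refine DegLe.mul ?_ h1
    have h := (degLe_C (1 / 2) 0).mul (degLe_sharp N P)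
    rwa [zero_add] at h
  have h4 := (degLe_KN N).mul (h2.sub (h3.mono (by omega)))
  exact h4.mono (by nlinarith)

end Pool.Agent.H51
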