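import Pool.Agent.H51.CycRec

set_option autoImplicit false
open Finset MvPolynomial

/-! The sequence of polynomials and its bounds on the torus. -/

namespace Pool.Agent.H51

def bA (A j : ℕ) : ℕ := 5 * A * 4 ^ j
def nA (A j : ℕ) : ℕ := 16 * (bA A j) ^ 2 * 4 ^ (bA A j)

theorem bA_succ (A j : ℕ) : bA A (j + 1) = 4 * bA A j := by
  unfold bA; ring

theorem nA_succ (A j : ℕ) : nA A (j + 1) = 16 * 64 ^ (bA A j) * nA A j := by
  unfold nA
  rw [bA_succ, pow_mul, show (64 : ℕ) = 4 ^ 3 by norm_num, ← pow_mul, ← pow_mul,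
    show 4 * bA A j = 3 * bA A j + bA A j by ring, pow_add]
  ring

theorem le_bA {A : ℕ} (j : ℕ) : 5 * A ≤ bA A j := by
  unfold bA
  exact Nat.le_mul_of_pos_right _ (by positivity)

theorem two_pow_le_bA {A : ℕ} (hA : 1 ≤ A) (j : ℕ) : 5 * 2 ^ j * 2 ^ j ≤ bA A j := by
  unfold bA
  have h : (4 : ℕ) ^ j = 2 ^ j * 2 ^ j := by rw [← mul_pow]; norm_num
  rw [h]
  calc 5 * 2 ^ j * 2 ^ j = 5 * 1 * (2 ^ j * 2 ^ j) := by ring
    _ ≤ 5 * A * (2 ^ j * 2 ^ j) := Nat.mul_le_mul_right _ (Nat.mul_le_mul_left _ hA)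

/-- the polynomials `Ψ_m` -/
noncomputable def psi (m : ℕ) : Polynomial ℂ :=
  if h : 2 ≤ m then (psi_facts m h).choose else 0

theorem psi_spec {m : ℕ} (hm : 2 ≤ m) : (psi m).coeff 0 = 0 ∧ (psi m).natDegree ≤ m * 16 ^ m ∧
      (∀ w : ℂ, ‖w‖ ≤ 1 → 0 ≤ 1 - ((psi m).eval w).re ∧ 1 - ((psi m).eval w).re ≤ 8 / 5) ∧
      (∀ w : ℂ, ‖w‖ = 1 → ‖w - 1‖ ≤ 1 / 3 → 1 - ((psi m).eval w).re ≤ 8 / 5 * (1 / 2) ^ m) ∧
      (∀ w : ℂ, ‖w‖ < 1 → ‖(psi m).eval w‖ ≤ 2 * ‖w‖ / (1 - ‖w‖)) := by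
  unfold psi
  rw [dif_pos hm]
  exact (psi_facts m hm).choose_spec

/-- the sequence of polynomials -/
noncomputable def GA (A : ℕ) : ℕ → MvPolynomial (Fin 2) ℂ
  | 0 => C (-(A : ℂ))
  | j + 1 => stepP (bA A j) (nA A j) (psi (bA A j)) (GA A j)

variable {A : ℕ} (hA : 1 ≤ A)

include hA in
theorem two_le_bA (j : ℕ) : 2 ≤ bA A j := by
  have := le_bA (A := A) j
  omega

include hA in
theorem nA_pos (j : ℕ) : 0 < nA A j := by
  have := two_le_bA hA j
  unfold nA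
  positivity

include hA in
theorem one_lt_nA (j : ℕ) : 1 < nA A j := by
  have := two_le_bA hA j
  unfold nA
  have h1 : 1 ≤ (bA A j) ^ 2 := Nat.one_le_iff_ne_zero.mpr (by positivity)
  have h2 : 1 ≤ 4 ^ (bA A j) := Nat.one_le_iff_ne_zero.mpr (by positivity)
  nlinarith [Nat.mul_le_mul h1 h2]

include hA in
theorem GA_degLe (j : ℕ) : DegLe (nA A j) (GA A j) := by
  induction j with
  | zero => exact degLe_C _ _
  | succ j ih =>
    have h1 := degLe_stepP (bA A j) (psi_spec (two_le_bA hA j)).2.1 ih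
    refine h1.mono ?_
    rw [nA_succ]
    refine Nat.mul_le_mul_right _ ?_
    have h2 : bA A j ≤ 4 ^ bA A j := (Nat.lt_pow_self (by norm_num)).le
    have h3 : (64 : ℕ) ^ bA A j = 4 ^ bA A j * 16 ^ bA A j := by rw [← mul_pow]; norm_num
    have h4 : bA A j * 16 ^ bA A j ≤ 4 ^ bA A j * 16 ^ bA A j := Nat.mul_le_mul_right _ h2
    have h5 : 1 ≤ 64 ^ bA A j := Nat.one_le_iff_ne_zero.mpr (by positivity)
    omega

/-- values on the torus -/
theorem GA_succ_re (hA : 1 ≤ A) (j : ℕ) {z w : ℂ} (hz : ‖z‖ = 1) (hw : ‖w‖ = 1) :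
    (ev (GA A (j + 1)) z w).re = (bA A j : ℝ) - ((bA A j : ℝ) - (ev (GA A j) z w).re) *
      (1 - ((psi (bA A j)).eval (ev (MN (nA A j)) z w)).re) :=
  re_ev_stepP (bA A j) (psi_spec (two_le_bA hA j)).1 (GA_degLe hA j) hz hw

theorem norm_MN_le (j : ℕ) {z w : ℂ} (hz : ‖z‖ = 1) (hw : ‖w‖ = 1) :
    ‖ev (MN (nA A j)) z w‖ ≤ 1 := by
  rw [norm_MN hz hw]
  exact norm_KN_le _ hz.le hw.le

include hA in
theorem GA_re_bound (j : ℕ) {z w : ℂ} (hz : ‖z‖ = 1) (hw : ‖w‖ = 1) :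
    |(ev (GA A j) z w).re| ≤ (bA A j : ℝ) / 4 := by
  induction j with
  | zero =>
    have h1 : (ev (GA A 0) z w).re = -(A : ℝ) := by
      show (ev (C (-(A : ℂ))) z w).re = _
      rw [ev_C]; simp
    rw [h1, abs_neg, abs_of_nonneg (by positivity)]
    unfold bA
    push_cast
    have : (0 : ℝ) ≤ A := by positivity
    linarith
  | succ j ih =>
    rw [GA_succ_re hA j hz hw, bA_succ]
    obtain ⟨h1, h2⟩ := (psi_spec (two_le_bA hA j)).2.2.1 _ (norm_MN_le (A := A) j hz hw)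
    rw [abs_le] at ih
    set x := (ev (GA A j) z w).re
    set y := 1 - ((psi (bA A j)).eval (ev (MN (nA A j)) z w)).re
    have hb : (0 : ℝ) ≤ bA A j := by positivity
    have h3 : 0 ≤ (bA A j : ℝ) - x := by linarith
    have h4 : ((bA A j : ℝ) - x) * y ≤ (5 / 4 * bA A j) * (8 / 5) :=
      mul_le_mul (by linarith) h2 h1 (by positivity)
    have h5 : 0 ≤ ((bA A j : ℝ) - x) * y := mul_nonneg h3 h1
    push_cast
    rw [abs_le]
    constructor <;> linarith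

/-- thresholds -/
noncomputable def theta (A j : ℕ) : ℝ := (4 ^ (bA A j) * 2 ^ j)⁻¹

theorem theta_pos (A j : ℕ) : 0 < theta A j := by unfold theta; positivity

include hA in
theorem norm_MN_small (j : ℕ) {z w : ℂ} (hz : ‖z‖ = 1) (hw : ‖w‖ = 1)
    (hzw : theta A j ≤ ‖z - w‖) : ‖ev (MN (nA A j)) z w‖ ≤ (1 / 2) ^ j / (40 * bA A j) := by
  rw [norm_MN hz hw]
  have h1 := norm_KN_le' (nA_pos hA j) hz.le hw.le
  have hθ := theta_pos A j
  have hb : (0 : ℝ) < bA A j := by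
    have := two_le_bA hA j
    exact_mod_cast (by omega : 0 < bA A j)
  have h2 : ‖ev (KN (nA A j)) z w‖ * theta A j ≤ 2 / nA A j :=
    (mul_le_mul_of_nonneg_left hzw (norm_nonneg _)).trans h1
  rw [← le_div_iff₀ hθ] at h2
  refine h2.trans ?_
  have h3 : (5 * 2 ^ j * 2 ^ j : ℝ) ≤ bA A j := by exact_mod_cast two_pow_le_bA hA j
  have h4 : 2 / (nA A j : ℝ) / theta A j = 2 ^ j / (8 * (bA A j : ℝ) ^ 2) := by
    unfold nA theta
    push_cast
    field_simp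
    ring
  rw [h4, one_div, inv_pow, div_le_div_iff₀ (by positivity) (by positivity)]
  have h5 : (2 : ℝ) ^ j * (40 * bA A j) = 8 * (bA A j) * (5 * 2 ^ j) := by ring
  have h6 : ((2 : ℝ) ^ j)⁻¹ * (8 * (bA A j : ℝ) ^ 2) = 8 * (bA A j) * ((bA A j) / 2 ^ j) := by
    field_simp
  rw [h5, h6]
  refine mul_le_mul_of_nonneg_left ?_ (by positivity)
  rw [le_div_iff₀ (by positivity)]
  exact h3

include hA in
theorem GA_incr (j : ℕ) {z w : ℂ} (hz : ‖z‖ = 1) (hw : ‖w‖ = 1) (hzw : theta A j ≤ ‖z - w‖) :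
    |(ev (GA A (j + 1)) z w).re - (ev (GA A j) z w).re| ≤ (1 / 2) ^ (j + 1) := by
  rw [GA_succ_re hA j hz hw]
  have h1 := GA_re_bound hA j hz hw
  have h2 := norm_MN_small hA j hz hw hzw
  set m := ev (MN (nA A j)) z w
  set x := (ev (GA A j) z w).re
  have hb : (10 : ℝ) ≤ bA A j ∨ (2 : ℝ) ≤ bA A j := Or.inr (by exact_mod_cast two_le_bA hA j)
  have hb2 : (2 : ℝ) ≤ bA A j := by exact_mod_cast two_le_bA hA j
  have hp : (0 : ℝ) < (1 / 2) ^ j := by positivity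
  have hp1 : ((1 : ℝ) / 2) ^ j ≤ 1 := pow_le_one₀ (by norm_num) (by norm_num)
  have h3 : ‖m‖ ≤ 1 / 80 := by
    refine h2.trans ?_
    rw [div_le_div_iff₀ (by positivity) (by norm_num)]
    nlinarith
  have h4 := (psi_spec (two_le_bA hA j)).2.2.2.2 m (by linarith)
  have h5 : 2 * ‖m‖ / (1 - ‖m‖) ≤ 2 * ‖m‖ * (80 / 79) := by
    rw [div_le_iff₀ (by linarith)]
    nlinarith [norm_nonneg m]
  have h6 : |((psi (bA A j)).eval m).re| ≤ 2 * ‖m‖ * (80 / 79) :=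
    (Complex.abs_re_le_norm _).trans (h4.trans h5)
  have h7 : (bA A j : ℝ) - ((bA A j : ℝ) - x) * (1 - ((psi (bA A j)).eval m).re) - x
      = ((bA A j : ℝ) - x) * ((psi (bA A j)).eval m).re := by ring
  rw [h7, abs_mul]
  rw [abs_le] at h1
  have h8 : |(bA A j : ℝ) - x| ≤ 5 / 4 * bA A j := by
    rw [abs_le]; constructor <;> linarith
  calc |(bA A j : ℝ) - x| * |((psi (bA A j)).eval m).re|
      ≤ (5 / 4 * bA A j) * (2 * ((1 / 2) ^ j / (40 * bA A j)) * (80 / 79)) := by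
        refine mul_le_mul h8 (h6.trans ?_) (abs_nonneg _) (by positivity)
        gcongr
    _ = (1 / 2) ^ j * (5 / 79) := by
        field_simp
        ring
    _ ≤ (1 / 2) ^ (j + 1) := by
        rw [pow_succ]
        nlinarith

include hA in
theorem GA_re_cases (J : ℕ) {z w : ℂ} (hz : ‖z‖ = 1) (hw : ‖w‖ = 1) :
    |(ev (GA A J) z w).re| ≤ A + (1 - (1 / 2) ^ J) ∨
      ∃ j < J, ‖z - w‖ < theta A j ∧ |(ev (GA A J) z w).re| ≤ bA A j + (1 - (1 / 2) ^ J) := by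
  induction J with
  | zero =>
    left
    have h1 : (ev (GA A 0) z w).re = -(A : ℝ) := by
      show (ev (C (-(A : ℂ))) z w).re = _
      rw [ev_C]; simp
    rw [h1, abs_neg, abs_of_nonneg (by positivity)]
    simp
  | succ J ih =>
    rcases lt_or_ge ‖z - w‖ (theta A J) with h | h
    · right
      refine ⟨J, Nat.lt_succ_self J, h, ?_⟩
      have h1 := GA_re_bound hA (J + 1) hz hw
      rw [bA_succ] at h1
      push_cast at h1
      have h2 : ((1 : ℝ) / 2) ^ (J + 1) ≤ 1 := pow_le_one₀ (by norm_num) (by norm_num)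
      linarith
    · have h1 := GA_incr hA J hz hw h
      have h2 : |(ev (GA A (J + 1)) z w).re| ≤ |(ev (GA A J) z w).re| + (1 / 2) ^ (J + 1) := by
        have h3 := abs_sub_abs_le_abs_sub (ev (GA A (J + 1)) z w).re (ev (GA A J) z w).re
        linarith
      have h3 : ((1 : ℝ) / 2) ^ J = (1 / 2) ^ (J + 1) + (1 / 2) ^ (J + 1) := by
        rw [pow_succ]; ring
      rcases ih with ih | ⟨j, hj, hjθ, hj'⟩
      · left; linarith
      · right
        exact ⟨j, by omega, hjθ, by linarith⟩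

/-- pointwise bound for the exponentials -/
theorem GA_pointwise (hA : 1 ≤ A) (J : ℕ) {z w : ℂ} (hz : ‖z‖ = 1) (hw : ‖w‖ = 1) :
    (4 : ℝ) ^ |(ev (GA A J) z w).re| ≤
      4 * 4 ^ A + ∑ j ∈ range J, {t : ℝ | t < theta A j}.indicator (fun _ => (4 : ℝ) * 4 ^ (bA A j))
        ‖z - w‖ := by
  have hp : (0 : ℝ) < (1 / 2) ^ J := by positivity
  have hnn : ∀ j, (0 : ℝ) ≤ {t : ℝ | t < theta A j}.indicator (fun _ => (4 : ℝ) * 4 ^ (bA A j))
        ‖z - w‖ := fun j => Set.indicator_nonneg (fun _ _ => by positivity) _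
  rcases GA_re_cases hA J hz hw with h | ⟨j, hj, hjθ, hj'⟩
  · have h1 : (4 : ℝ) ^ |(ev (GA A J) z w).re| ≤ 4 ^ ((A : ℝ) + 1) :=
      Real.rpow_le_rpow_of_exponent_le (by norm_num) (by linarith)
    rw [Real.rpow_add_one (by norm_num), Real.rpow_natCast] at h1
    have h2 := sum_nonneg fun j (_ : j ∈ range J) => hnn j
    linarith
  · have h1 : (4 : ℝ) ^ |(ev (GA A J) z w).re| ≤ 4 ^ ((bA A j : ℝ) + 1) :=
      Real.rpow_le_rpow_of_exponent_le (by norm_num) (by linarith)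
    rw [Real.rpow_add_one (by norm_num), Real.rpow_natCast] at h1
    have h2 := single_le_sum (fun j (_ : j ∈ range J) => hnn j) (mem_range.mpr hj)
    have h3 : {t : ℝ | t < theta A j}.indicator (fun _ => (4 : ℝ) * 4 ^ (bA A j)) ‖z - w‖
        = 4 * 4 ^ (bA A j) := Set.indicator_of_mem (by exact hjθ) _
    rw [h3] at h2
    have h4 : (0 : ℝ) ≤ 4 * 4 ^ A := by positivity
    linarith

end Pool.Agent.H51
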