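import Mathlib

/-!
Certificates for edge-magic labelings of cycles.

A labelled cycle is described by the list of pairs (vertex label, label of the edge leading to the
next vertex).  The list is a concatenation of blocks: single vertices and long zigzags, whose
labels and lengths are affine functions of two parameters.  A boolean check on the coefficients
guarantees that the description is an edge-magic labeling for all values of the parameters.
-/

set_option autoImplicit false

namespace Pool.Agent.H51.Magic

/-- There is an edge-magic labeling of the cycle of length `n` with magic sum `k`. -/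
def Magic (n k : ℕ) : Prop :=
  ∃ f : ZMod n ⊕ ZMod n → ℕ,
    Function.Injective f ∧
    (∀ x, 1 ≤ f x ∧ f x ≤ 2 * n) ∧
    ∀ i : ZMod n, f (Sum.inl i) + f (Sum.inr i) + f (Sum.inl (i + 1)) = k

theorem Magic.dual {n k k' : ℕ} (h : Magic n k) (hk : k + k' = 6 * n + 3) : Magic n k' := by
  obtain ⟨f, hinj, hb, hs⟩ := h
  refine ⟨fun x => 2 * n + 1 - f x, ?_, ?_, ?_⟩
  · intro x y hxy
    apply hinj
    have h1 := hb x
    have h2 := hb y
    simp only at hxy
    omega
  · intro x
    have h1 := hb x
    simp only
    omega
  · intro i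
    have h1 := hb (Sum.inl i)
    have h2 := hb (Sum.inr i)
    have h3 := hb (Sum.inl (i + 1))
    have h4 := hs i
    simp only
    omega

/-- `Seg k L w u`: the list `L` of pairs (vertex label, edge label) is a path starting at the
vertex labelled `w`, in which the last edge leads to a vertex labelled `u`. -/
def Seg (k : ℕ) : List (ℕ × ℕ) → ℕ → ℕ → Prop
  | [], w, u => w = u
  | p :: L, w, u => p.1 = w ∧ ∃ w', p.1 + p.2 + w' = k ∧ Seg k L w' u

theorem Seg.append {k : ℕ} {L₁ L₂ : List (ℕ × ℕ)} {w v u : ℕ} (h₁ : Seg k L₁ w v)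
    (h₂ : Seg k L₂ v u) : Seg k (L₁ ++ L₂) w u := by
  induction L₁ generalizing w with
  | nil =>
    simp only [Seg] at h₁
    subst h₁
    simpa using h₂
  | cons p L ih =>
    obtain ⟨h1, w', h2, h3⟩ := h₁
    exact ⟨h1, w', h2, ih h3⟩

theorem Seg.get {k : ℕ} {L : List (ℕ × ℕ)} {w u : ℕ} (h : Seg k L w u) (i : ℕ)
    (hi : i < L.length) :
    L[i].1 + L[i].2 + (if h' : i + 1 < L.length then L[i + 1].1 else u) = k := by
  induction L generalizing w i with
  | nil => simp at hi
  | cons p L ih =>
    obtain ⟨h1, w', h2, h3⟩ := h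
    cases i with
    | zero =>
      cases L with
      | nil =>
        simp only [Seg] at h3
        subst h3
        simpa using h2
      | cons q L =>
        obtain ⟨h4, _⟩ := h3
        simp only [List.getElem_cons_zero, List.length_cons, zero_add]
        simp only [lt_add_iff_pos_left, Nat.zero_lt_succ, dif_pos,
          List.getElem_cons_succ, List.getElem_cons_zero]
        rw [h4]
        exact h2
    | succ i =>
      have hi' : i < L.length := by simpa using hi
      have := ih h3 i hi'
      simpa using this

theorem Seg.head {k : ℕ} {L : List (ℕ × ℕ)} {w u : ℕ} (h : Seg k L w u) (hL : 0 < L.length) :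
    L[0].1 = w := by
  cases L with
  | nil => simp at hL
  | cons p L => exact h.1

/-- All labels of a list of pairs. -/
def labels (L : List (ℕ × ℕ)) : List ℕ := L.map Prod.fst ++ L.map Prod.snd

theorem magic_of_list {n k w : ℕ} {L : List (ℕ × ℕ)} (hn : 0 < n) (hlen : L.length = n)
    (hseg : Seg k L w w) (hnodup : (labels L).Nodup) (hb : ∀ z ∈ labels L, 1 ≤ z ∧ z ≤ 2 * n) :
    Magic n k := by
  have : NeZero n := ⟨hn.ne'⟩
  have hlab : (labels L).length = 2 * n := by simp [labels, hlen]; ring
  let idx : ZMod n ⊕ ZMod n → ℕ := fun x => match x with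
    | Sum.inl i => i.val
    | Sum.inr i => n + i.val
  have hidx : ∀ x, idx x < (labels L).length := by
    rintro (i | i)
    · have := ZMod.val_lt i
      simp only [idx]; omega
    · have := ZMod.val_lt i
      simp only [idx]; omega
  have hidx_inj : Function.Injective idx := by
    rintro (i | i) (j | j) h
    · simp only [idx] at h
      exact congrArg Sum.inl (ZMod.val_injective n h)
    · have := ZMod.val_lt i
      simp only [idx] at h; omega
    · have := ZMod.val_lt j
      simp only [idx] at h; omega
    · simp only [idx] at h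
      exact congrArg Sum.inr (ZMod.val_injective n (by omega))
  let f : ZMod n ⊕ ZMod n → ℕ := fun x => (labels L)[idx x]'(hidx x)
  have hfl : ∀ i : ZMod n, f (Sum.inl i) = (L[i.val]'(by rw [hlen]; exact ZMod.val_lt i)).1 := by
    intro i
    have := ZMod.val_lt i
    simp only [f, idx, labels]
    rw [List.getElem_append_left (by simpa [hlen] using this)]
    simp
  have hfr : ∀ i : ZMod n, f (Sum.inr i) = (L[i.val]'(by rw [hlen]; exact ZMod.val_lt i)).2 := by
    intro i
    have := ZMod.val_lt i
    simp only [f, idx, labels]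
    rw [List.getElem_append_right (by simp [hlen])]
    simp [hlen]
  refine ⟨f, ?_, ?_, ?_⟩
  · intro x y hxy
    apply hidx_inj
    simp only [f] at hxy
    exact (List.Nodup.getElem_inj_iff hnodup).1 hxy
  · intro x
    exact hb _ (List.getElem_mem _)
  · intro i
    rw [hfl, hfr, hfl]
    have hi := ZMod.val_lt i
    have hg := hseg.get i.val (by rw [hlen]; exact hi)
    have hval : (i + 1).val = if i.val + 1 < n then i.val + 1 else 0 := by
      rw [ZMod.val_add]
      have h1 : (1 : ZMod n).val = 1 % n := by
        rw [← Nat.cast_one, ZMod.val_natCast]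
      rw [h1, Nat.add_mod_mod]
      split_ifs with h
      · exact Nat.mod_eq_of_lt h
      · have : i.val + 1 = n := by omega
        rw [this, Nat.mod_self]
    split_ifs at hval with h
    · rw [dif_pos (by rw [hlen]; exact h)] at hg
      have h2 : (L[(i + 1).val]'(by rw [hlen]; exact ZMod.val_lt _)) =
          L[i.val + 1]'(by rw [hlen]; exact h) := by
        congr 1
      rw [h2]
      exact hg
    · rw [dif_neg (by rw [hlen]; exact h)] at hg
      have h2 : (L[(i + 1).val]'(by rw [hlen]; exact ZMod.val_lt _)) =
          L[0]'(by rw [hlen]; exact hn) := by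
        congr 1
      rw [h2, hseg.head (by rw [hlen]; exact hn)]
      exact hg

/-- Upward zigzag `a, b, a+1, b+1, …` with `2 l` vertices; the inner edges have the labels
`elo, …, elo + 2 l - 2` in decreasing order; the last edge (leaving the zigzag) has label
`link`. -/
def zigUp (a b elo link : ℕ) : ℕ → List (ℕ × ℕ)
  | 0 => []
  | l + 1 => (a, elo + 2 * l) :: (b, if l = 0 then link else elo + 2 * l - 1) ::
      zigUp (a + 1) (b + 1) elo link l

/-- Downward zigzag: `zigUp` traversed backwards. -/
def zigDown (a b elo link : ℕ) : ℕ → List (ℕ × ℕ)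
  | 0 => []
  | l + 1 => (b + l, elo) :: (a + l, if l = 0 then link else elo + 1) ::
      zigDown a b (elo + 2) link l

theorem zigUp_seg {k : ℕ} (l : ℕ) : ∀ {a b elo link u : ℕ}, 1 ≤ l → a + b + elo + 2 * l = k + 2 →
    b + l + link + u = k + 1 → Seg k (zigUp a b elo link l) a u := by
  induction l with
  | zero => intro a b elo link u h; omega
  | succ l ih =>
    intro a b elo link u _ h1 h2
    refine ⟨rfl, b, by simp only; omega, rfl, ?_⟩
    rcases Nat.eq_zero_or_pos l with hl | hl
    · subst hl
      refine ⟨u, by simp only [if_pos]; omega, rfl⟩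
    · refine ⟨a + 1, ?_, ?_⟩
      · simp only [hl.ne', if_false]
        omega
      · exact ih hl (by omega) (by omega)

theorem zigDown_seg {k : ℕ} (l : ℕ) : ∀ {a b elo link u : ℕ}, 1 ≤ l →
    a + b + elo + 2 * l = k + 2 → a + link + u = k →
    Seg k (zigDown a b elo link l) (b + l - 1) u := by
  induction l with
  | zero => intro a b elo link u h; omega
  | succ l ih =>
    intro a b elo link u _ h1 h2
    refine ⟨by simp only; omega, a + l, by simp only; omega, rfl, ?_⟩
    rcases Nat.eq_zero_or_pos l with hl | hl
    · subst hl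
      refine ⟨u, by simp only [if_pos]; omega, rfl⟩
    · refine ⟨b + l - 1, ?_, ?_⟩
      · simp only [hl.ne', if_false]
        omega
      · exact ih hl (by omega) (by omega)

theorem zigUp_length (l : ℕ) : ∀ (a b elo link : ℕ), (zigUp a b elo link l).length = 2 * l := by
  induction l with
  | zero => intro a b elo link; rfl
  | succ l ih =>
    intro a b elo link
    simp only [zigUp, List.length_cons, ih]
    ring

theorem zigDown_length (l : ℕ) : ∀ (a b elo link : ℕ),
    (zigDown a b elo link l).length = 2 * l := by
  induction l with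
  | zero => intro a b elo link; rfl
  | succ l ih =>
    intro a b elo link
    simp only [zigDown, List.length_cons, ih]
    ring

theorem labels_count (L : List (ℕ × ℕ)) (z : ℕ) :
    (labels L).count z = (L.map Prod.fst).count z + (L.map Prod.snd).count z := by
  simp [labels]

theorem labels_cons_count (p : ℕ × ℕ) (L : List (ℕ × ℕ)) (z : ℕ) :
    (labels (p :: L)).count z =
      (if p.1 = z then 1 else 0) + (if p.2 = z then 1 else 0) + (labels L).count z := by
  simp only [labels, List.map_cons, List.count_append, List.count_cons, beq_iff_eq]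
  ring

theorem labels_append_count (L₁ L₂ : List (ℕ × ℕ)) (z : ℕ) :
    (labels (L₁ ++ L₂)).count z = (labels L₁).count z + (labels L₂).count z := by
  simp only [labels, List.map_append, List.count_append]
  ring

/-- The union of the intervals `[s, s + len)` for `(s, len)` in the list. -/
def flat (I : List (ℕ × ℕ)) : List ℕ := I.flatMap (fun p => List.range' p.1 p.2)

theorem flat_cons (p : ℕ × ℕ) (I : List (ℕ × ℕ)) : flat (p :: I) = List.range' p.1 p.2 ++ flat I := by
  simp [flat]

theorem flat_append (I J : List (ℕ × ℕ)) : flat (I ++ J) = flat I ++ flat J := by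
  simp [flat]

theorem flat_nil : flat [] = [] := rfl

theorem zigUp_count (l : ℕ) : ∀ (a b elo link : ℕ) (_ : 1 ≤ l) (z : ℕ),
    (labels (zigUp a b elo link l)).count z =
      (flat [(a, l), (b, l), (elo, 2 * l - 1), (link, 1)]).count z := by
  induction l with
  | zero => intro a b elo link h; omega
  | succ l ih =>
    intro a b elo link _ z
    rw [zigUp, labels_cons_count, labels_cons_count]
    rcases Nat.eq_zero_or_pos l with hl | hl
    · subst hl
      simp only [zigUp, flat_cons, flat_nil, labels, List.map_nil, List.append_nil,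
        List.count_nil, List.count_append, List.range'_one, List.count_cons, beq_iff_eq,
        Nat.mul_zero, Nat.add_zero, if_true, Nat.zero_add, Nat.mul_one, Nat.reduceSub]
      ring
    · rw [ih (a + 1) (b + 1) elo link hl z]
      have e1 : 2 * (l + 1) - 1 = (2 * l - 1) + 1 + 1 := by omega
      simp only [flat_cons, flat_nil, List.append_nil, List.count_append, e1]
      rw [List.range'_succ (s := a), List.range'_succ (s := b), List.range'_concat (n := 2 * l - 1 + 1),
        List.range'_concat (n := 2 * l - 1)]
      simp only [List.count_append, List.count_cons, List.count_nil, beq_iff_eq, hl.ne', if_false,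
        one_mul]
      have e2 : elo + 2 * l - 1 = elo + (2 * l - 1) := by omega
      have e3 : elo + 2 * l = elo + (2 * l - 1 + 1) := by omega
      rw [e2, e3]
      ring

theorem zigDown_count (l : ℕ) : ∀ (a b elo link : ℕ) (_ : 1 ≤ l) (z : ℕ),
    (labels (zigDown a b elo link l)).count z =
      (flat [(a, l), (b, l), (elo, 2 * l - 1), (link, 1)]).count z := by
  induction l with
  | zero => intro a b elo link h; omega
  | succ l ih =>
    intro a b elo link _ z
    rw [zigDown, labels_cons_count, labels_cons_count]
    rcases Nat.eq_zero_or_pos l with hl | hl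
    · subst hl
      simp only [zigDown, flat_cons, flat_nil, labels, List.map_nil, List.append_nil,
        List.count_nil, List.count_append, List.range'_one, List.count_cons, beq_iff_eq,
        Nat.add_zero, if_true, Nat.zero_add, Nat.mul_one, Nat.reduceSub]
      ring
    · rw [ih a b (elo + 2) link hl z]
      have e1 : 2 * (l + 1) - 1 = (2 * l - 1) + 1 + 1 := by omega
      simp only [flat_cons, flat_nil, List.append_nil, List.count_append, e1]
      rw [List.range'_concat (s := a) (n := l), List.range'_concat (s := b) (n := l),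
        List.range'_succ (s := elo), List.range'_succ (s := elo + 1)]
      simp only [List.count_append, List.count_cons, List.count_nil, beq_iff_eq, hl.ne', if_false,
        one_mul]
      ring

/-! ### Certificates -/

/-- The affine form `c0 + c1 * x + c2 * y`. -/
structure Aff where
  c0 : ℕ
  c1 : ℕ
  c2 : ℕ

/-- Value of an affine form. -/
def Aff.ev (t : Aff) (x y : ℕ) : ℕ := t.c0 + t.c1 * x + t.c2 * y

/-- Sum of affine forms. -/
def Aff.add (s t : Aff) : Aff := ⟨s.c0 + t.c0, s.c1 + t.c1, s.c2 + t.c2⟩

/-- Adding a constant. -/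
def Aff.addc (s : Aff) (c : ℕ) : Aff := ⟨s.c0 + c, s.c1, s.c2⟩

/-- Subtracting one from the constant coefficient. -/
def Aff.pred (s : Aff) : Aff := ⟨s.c0 - 1, s.c1, s.c2⟩

/-- Coefficientwise equality. -/
def Aff.beq (s t : Aff) : Bool := Nat.beq s.c0 t.c0 && Nat.beq s.c1 t.c1 && Nat.beq s.c2 t.c2

/-- Coefficientwise comparison. -/
def Aff.ble (s t : Aff) : Bool := Nat.ble s.c0 t.c0 && Nat.ble s.c1 t.c1 && Nat.ble s.c2 t.c2

theorem Aff.ev_add (s t : Aff) (x y : ℕ) : (s.add t).ev x y = s.ev x y + t.ev x y := by
  simp only [Aff.add, Aff.ev]; ring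

theorem Aff.ev_addc (s : Aff) (c x y : ℕ) : (s.addc c).ev x y = s.ev x y + c := by
  simp only [Aff.addc, Aff.ev]; ring

theorem Aff.ev_pred (s : Aff) (x y : ℕ) (h : 1 ≤ s.c0) : (s.pred).ev x y = s.ev x y - 1 := by
  simp only [Aff.pred, Aff.ev]
  omega

theorem Aff.eq_of_beq {s t : Aff} (h : s.beq t = true) : s = t := by
  cases s; cases t
  simp only [Aff.beq, Bool.and_eq_true, Nat.beq_eq] at h
  obtain ⟨⟨h1, h2⟩, h3⟩ := h
  simp [h1, h2, h3]

theorem Aff.le_of_ble {s t : Aff} (h : s.ble t = true) (x y : ℕ) : s.ev x y ≤ t.ev x y := by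
  simp only [Aff.ble, Bool.and_eq_true, Nat.ble_eq] at h
  obtain ⟨⟨h1, h2⟩, h3⟩ := h
  simp only [Aff.ev]
  have := Nat.mul_le_mul_right x h2
  have := Nat.mul_le_mul_right y h3
  omega

/-- A block: a single vertex (kind 0), an upward zigzag (kind 1) or a downward zigzag
(any other kind). -/
structure Block where
  kind : ℕ
  a : Aff
  b : Aff
  l : Aff
  elo : Aff
  link : Aff

/-- The list of pairs described by a block. -/
def Block.pairs (B : Block) (x y : ℕ) : List (ℕ × ℕ) :=
  match B.kind with
  | 0 => [(B.a.ev x y, B.link.ev x y)]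
  | 1 => zigUp (B.a.ev x y) (B.b.ev x y) (B.elo.ev x y) (B.link.ev x y) (B.l.ev x y)
  | _ => zigDown (B.a.ev x y) (B.b.ev x y) (B.elo.ev x y) (B.link.ev x y) (B.l.ev x y)

/-- The label of the first vertex of a block. -/
def Block.first (B : Block) : Aff :=
  match B.kind with
  | 0 => B.a
  | 1 => B.a
  | _ => (B.b.add B.l).pred

/-- Number of vertices of a block. -/
def Block.size (B : Block) : Aff :=
  match B.kind with
  | 0 => ⟨1, 0, 0⟩
  | _ => B.l.add B.l

/-- The intervals of labels used by a block, as pairs (start, length). -/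
def Block.ivs (B : Block) : List (Aff × Aff) :=
  match B.kind with
  | 0 => [(B.a, ⟨1, 0, 0⟩), (B.link, ⟨1, 0, 0⟩)]
  | _ => [(B.a, B.l), (B.b, B.l), (B.elo, (B.l.add B.l).pred), (B.link, ⟨1, 0, 0⟩)]

/-- The local check of a block followed by a vertex labelled `u`. -/
def Block.check (B : Block) (k u : Aff) : Bool :=
  match B.kind with
  | 0 => ((B.a.add B.link).add u).beq k
  | 1 => Nat.ble 1 B.l.c0 && ((((B.a.add B.b).add B.elo).add B.l).add B.l).beq (k.addc 2) &&
      (((B.b.add B.l).add B.link).add u).beq (k.addc 1)
  | _ => Nat.ble 1 B.l.c0 && ((((B.a.add B.b).add B.elo).add B.l).add B.l).beq (k.addc 2) &&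
      ((B.a.add B.link).add u).beq k

theorem Block.seg {B : Block} {k u : Aff} (h : B.check k u = true) (x y : ℕ) :
    Seg (k.ev x y) (B.pairs x y) (B.first.ev x y) (u.ev x y) := by
  obtain ⟨kind, a, b, l, elo, link⟩ := B
  match kind, h with
  | 0, h =>
    simp only [Block.check] at h
    have h1 := congrArg (fun t => Aff.ev t x y) (Aff.eq_of_beq h)
    simp only [Aff.ev_add] at h1
    refine ⟨rfl, _, h1, rfl⟩
  | 1, h =>
    simp only [Block.check, Bool.and_eq_true, Nat.ble_eq] at h
    obtain ⟨⟨h0, h1⟩, h2⟩ := h
    have h1 := congrArg (fun t => Aff.ev t x y) (Aff.eq_of_beq h1)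
    have h2 := congrArg (fun t => Aff.ev t x y) (Aff.eq_of_beq h2)
    simp only [Aff.ev_add, Aff.ev_addc] at h1 h2
    have h3 : 1 ≤ l.ev x y := by simp only [Aff.ev]; omega
    simp only [Block.first, Block.pairs]
    exact zigUp_seg _ h3 (by omega) (by omega)
  | m + 2, h =>
    simp only [Block.check, Bool.and_eq_true, Nat.ble_eq] at h
    obtain ⟨⟨h0, h1⟩, h2⟩ := h
    have h1 := congrArg (fun t => Aff.ev t x y) (Aff.eq_of_beq h1)
    have h2 := congrArg (fun t => Aff.ev t x y) (Aff.eq_of_beq h2)
    simp only [Aff.ev_add, Aff.ev_addc] at h1 h2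
    have h3 : 1 ≤ l.ev x y := by simp only [Aff.ev]; omega
    simp only [Block.first, Block.pairs]
    rw [Aff.ev_pred _ _ _ (by simp only [Aff.add]; omega), Aff.ev_add]
    exact zigDown_seg _ h3 (by omega) (by omega)

theorem Block.length_pairs {B : Block} (x y : ℕ) :
    (B.pairs x y).length = B.size.ev x y := by
  obtain ⟨kind, a, b, l, elo, link⟩ := B
  match kind with
  | 0 => simp [Block.pairs, Block.size, Aff.ev]
  | 1 => simp only [Block.pairs, Block.size, Aff.ev_add, zigUp_length]; ring
  | m + 2 => simp only [Block.pairs, Block.size, Aff.ev_add, zigDown_length]; ring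

/-- Evaluation of intervals. -/
def evI (x y : ℕ) (p : Aff × Aff) : ℕ × ℕ := (p.1.ev x y, p.2.ev x y)

theorem Block.count_pairs {B : Block} {k u : Aff} (h : B.check k u = true) (x y z : ℕ) :
    (labels (B.pairs x y)).count z = (flat (B.ivs.map (evI x y))).count z := by
  obtain ⟨kind, a, b, l, elo, link⟩ := B
  match kind, h with
  | 0, h =>
    simp [Block.pairs, Block.ivs, evI, labels, flat, Aff.ev, List.range'_one]
  | 1, h =>
    simp only [Block.check, Bool.and_eq_true, Nat.ble_eq] at h
    obtain ⟨⟨h0, _⟩, _⟩ := h
    have h3 : 1 ≤ l.ev x y := by simp only [Aff.ev]; omega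
    simp only [Block.pairs]
    rw [zigUp_count _ _ _ _ _ h3]
    simp only [Block.ivs, List.map_cons, List.map_nil, evI]
    rw [Aff.ev_pred _ _ _ (by simp only [Aff.add]; omega), Aff.ev_add]
    have e1 : (⟨1, 0, 0⟩ : Aff).ev x y = 1 := by simp [Aff.ev]
    rw [e1, two_mul]
  | m + 2, h =>
    simp only [Block.check, Bool.and_eq_true, Nat.ble_eq] at h
    obtain ⟨⟨h0, _⟩, _⟩ := h
    have h3 : 1 ≤ l.ev x y := by simp only [Aff.ev]; omega
    simp only [Block.pairs]
    rw [zigDown_count _ _ _ _ _ h3]
    simp only [Block.ivs, List.map_cons, List.map_nil, evI]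
    rw [Aff.ev_pred _ _ _ (by simp only [Aff.add]; omega), Aff.ev_add]
    have e1 : (⟨1, 0, 0⟩ : Aff).ev x y = 1 := by simp [Aff.ev]
    rw [e1, two_mul]

/-- First vertex label of a list of blocks followed by a vertex labelled `u`. -/
def firstOf (u : Aff) : List Block → Aff
  | [] => u
  | B :: _ => B.first

/-- Check of a list of blocks followed by a vertex labelled `u`. -/
def checkSeg (k u : Aff) : List Block → Bool
  | [] => true
  | B :: L => B.check k (firstOf u L) && checkSeg k u L

/-- All the pairs of a list of blocks. -/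
def pairsOf (x y : ℕ) : List Block → List (ℕ × ℕ)
  | [] => []
  | B :: L => B.pairs x y ++ pairsOf x y L

/-- Total number of vertices of a list of blocks. -/
def sizeOfBlocks : List Block → Aff
  | [] => ⟨0, 0, 0⟩
  | B :: L => B.size.add (sizeOfBlocks L)

/-- All the intervals of a list of blocks. -/
def ivsOf : List Block → List (Aff × Aff)
  | [] => []
  | B :: L => B.ivs ++ ivsOf L

theorem seg_of_check {k u : Aff} {L : List Block} (h : checkSeg k u L = true) (x y : ℕ) :
    Seg (k.ev x y) (pairsOf x y L) ((firstOf u L).ev x y) (u.ev x y) := by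
  induction L with
  | nil => rfl
  | cons B L ih =>
    simp only [checkSeg, Bool.and_eq_true] at h
    exact (Block.seg h.1 x y).append (ih h.2)

theorem length_pairsOf (L : List Block) (x y : ℕ) :
    (pairsOf x y L).length = (sizeOfBlocks L).ev x y := by
  induction L with
  | nil => simp [pairsOf, sizeOfBlocks, Aff.ev]
  | cons B L ih => simp [pairsOf, sizeOfBlocks, Aff.ev_add, Block.length_pairs, ih]

theorem count_pairsOf {k u : Aff} {L : List Block} (h : checkSeg k u L = true) (x y z : ℕ) :
    (labels (pairsOf x y L)).count z = (flat ((ivsOf L).map (evI x y))).count z := by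
  induction L with
  | nil => rfl
  | cons B L ih =>
    simp only [checkSeg, Bool.and_eq_true] at h
    simp only [pairsOf, ivsOf, List.map_append]
    rw [labels_append_count, flat_append, List.count_append, Block.count_pairs h.1, ih h.2]

/-- Insertion into a list sorted by the constant coefficients of the starts. -/
def ins (p : Aff × Aff) : List (Aff × Aff) → List (Aff × Aff)
  | [] => [p]
  | q :: L => bif Nat.ble p.1.c0 q.1.c0 then p :: q :: L else q :: ins p L

/-- Insertion sort. -/
def isort : List (Aff × Aff) → List (Aff × Aff)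
  | [] => []
  | p :: L => ins p (isort L)

theorem ins_perm (p : Aff × Aff) (L : List (Aff × Aff)) : (ins p L).Perm (p :: L) := by
  induction L with
  | nil => exact List.Perm.refl _
  | cons q L ih =>
    simp only [ins]
    cases Nat.ble p.1.c0 q.1.c0 with
    | true => exact List.Perm.refl _
    | false => exact (List.Perm.cons q ih).trans (List.Perm.swap p q L)

theorem isort_perm (L : List (Aff × Aff)) : (isort L).Perm L := by
  induction L with
  | nil => exact List.Perm.refl _
  | cons p L ih => exact (ins_perm p _).trans (List.Perm.cons p ih)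

/-- The intervals follow each other without overlap, from `lo` up to `hi` (exclusive). -/
def sortedFrom (hi : Aff) : Aff → List (Aff × Aff) → Bool
  | lo, [] => lo.ble hi
  | lo, p :: L => lo.ble p.1 && sortedFrom hi (p.1.add p.2) L

theorem sortedFrom_spec {hi : Aff} {L : List (Aff × Aff)} : ∀ {lo : Aff},
    sortedFrom hi lo L = true → ∀ x y : ℕ,
      (flat (L.map (evI x y))).Nodup ∧
      (∀ z ∈ flat (L.map (evI x y)), lo.ev x y ≤ z ∧ z < hi.ev x y) ∧ lo.ev x y ≤ hi.ev x y := by
  induction L with
  | nil =>
    intro lo h x y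
    simp only [sortedFrom] at h
    refine ⟨by simp [flat], by simp [flat], Aff.le_of_ble h x y⟩
  | cons p L ih =>
    intro lo h x y
    simp only [sortedFrom, Bool.and_eq_true] at h
    obtain ⟨h1, h2, h3⟩ := ih h.2 x y
    have h4 := Aff.le_of_ble h.1 x y
    rw [Aff.ev_add] at h2 h3
    refine ⟨?_, ?_, by omega⟩
    · rw [List.map_cons, flat_cons, List.nodup_append]
      refine ⟨List.nodup_range', h1, ?_⟩
      intro z hz w hw hzw
      subst hzw
      have h5 := h2 z hw
      simp only [evI, List.mem_range'_1] at hz
      omega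
    · intro z hz
      rw [List.map_cons, flat_cons, List.mem_append] at hz
      rcases hz with hz | hz
      · simp only [evI, List.mem_range'_1] at hz
        omega
      · have h5 := h2 z hz
        omega

/-- A certificate: the length of the cycle, the magic sum and the blocks. -/
structure Cert where
  n : Aff
  k : Aff
  blocks : List Block

/-- The check of a certificate. -/
def Cert.check (c : Cert) : Bool :=
  checkSeg c.k (firstOf ⟨0, 0, 0⟩ c.blocks) c.blocks &&
  (sizeOfBlocks c.blocks).beq c.n &&
  Nat.ble 1 c.n.c0 &&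
  sortedFrom ((c.n.add c.n).addc 1) ⟨1, 0, 0⟩ (isort (ivsOf c.blocks))

theorem Cert.magic {c : Cert} (h : c.check = true) (x y : ℕ) :
    Magic (c.n.ev x y) (c.k.ev x y) := by
  simp only [Cert.check, Bool.and_eq_true, Nat.ble_eq] at h
  obtain ⟨⟨⟨h1, h2⟩, h3⟩, h4⟩ := h
  have hn : 0 < c.n.ev x y := by simp only [Aff.ev]; omega
  have hlen : (pairsOf x y c.blocks).length = c.n.ev x y := by
    rw [length_pairsOf, Aff.eq_of_beq h2]
  have hseg := seg_of_check h1 x y
  have hfirst : firstOf (firstOf ⟨0, 0, 0⟩ c.blocks) c.blocks = firstOf ⟨0, 0, 0⟩ c.blocks := by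
    cases c.blocks with
    | nil => rfl
    | cons B L => rfl
  rw [hfirst] at hseg
  have hperm : (labels (pairsOf x y c.blocks)).Perm
      (flat ((isort (ivsOf c.blocks)).map (evI x y))) := by
    have e1 : (labels (pairsOf x y c.blocks)).Perm (flat ((ivsOf c.blocks).map (evI x y))) := by
      rw [List.perm_iff_count]
      intro z
      exact count_pairsOf h1 x y z
    refine e1.trans ?_
    exact (((isort_perm (ivsOf c.blocks)).symm.map (evI x y)).flatMap_right _)
  obtain ⟨h5, h6, _⟩ := sortedFrom_spec h4 x y
  refine magic_of_list hn hlen hseg (hperm.nodup_iff.2 h5) ?_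
  intro z hz
  have h7 := h6 z (hperm.mem_iff.1 hz)
  rw [Aff.ev_addc, Aff.ev_add] at h7
  have e1 : (⟨1, 0, 0⟩ : Aff).ev x y = 1 := by simp [Aff.ev]
  rw [e1] at h7
  omega

end Pool.Agent.H51.Magic
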