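import Pool.Agent.H51.MagicCore

/-! Certificates found by a computer search, each verified by the kernel. -/

set_option autoImplicit false
set_option maxRecDepth 20000

namespace Pool.Agent.H51.Magic

/-- Certificate for n = 4 + 0 x + 0 y, k = 12 + 0 x + 0 y. -/
def cD_4_12 : Cert := ⟨⟨4, 0, 0⟩, ⟨12, 0, 0⟩, [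
  ⟨0, ⟨1, 0, 0⟩, ⟨0, 0, 0⟩, ⟨0, 0, 0⟩, ⟨0, 0, 0⟩, ⟨8, 0, 0⟩⟩,
  ⟨0, ⟨3, 0, 0⟩, ⟨0, 0, 0⟩, ⟨0, 0, 0⟩, ⟨0, 0, 0⟩, ⟨7, 0, 0⟩⟩,
  ⟨0, ⟨2, 0, 0⟩, ⟨0, 0, 0⟩, ⟨0, 0, 0⟩, ⟨0, 0, 0⟩, ⟨4, 0, 0⟩⟩,
  ⟨0, ⟨6, 0, 0⟩, ⟨0, 0, 0⟩, ⟨0, 0, 0⟩, ⟨0, 0, 0⟩, ⟨5, 0, 0⟩⟩]⟩

theorem mD_4_12 : Magic (4) (12) := by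
  have h := Cert.magic (c := cD_4_12) (by decide +kernel) 0 0
  simpa [cD_4_12, Aff.ev] using h

/-- Certificate for n = 4 + 0 x + 0 y, k = 13 + 0 x + 0 y. -/
def cD_4_13 : Cert := ⟨⟨4, 0, 0⟩, ⟨13, 0, 0⟩, [
  ⟨0, ⟨1, 0, 0⟩, ⟨0, 0, 0⟩, ⟨0, 0, 0⟩, ⟨0, 0, 0⟩, ⟨8, 0, 0⟩⟩,
  ⟨0, ⟨4, 0, 0⟩, ⟨0, 0, 0⟩, ⟨0, 0, 0⟩, ⟨0, 0, 0⟩, ⟨3, 0, 0⟩⟩,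
  ⟨0, ⟨6, 0, 0⟩, ⟨0, 0, 0⟩, ⟨0, 0, 0⟩, ⟨0, 0, 0⟩, ⟨2, 0, 0⟩⟩,
  ⟨0, ⟨5, 0, 0⟩, ⟨0, 0, 0⟩, ⟨0, 0, 0⟩, ⟨0, 0, 0⟩, ⟨7, 0, 0⟩⟩]⟩

theorem mD_4_13 : Magic (4) (13) := by
  have h := Cert.magic (c := cD_4_13) (by decide +kernel) 0 0
  simpa [cD_4_13, Aff.ev] using h

/-- Certificate for n = 6 + 0 x + 0 y, k = 17 + 0 x + 0 y. -/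
def cD_6_17 : Cert := ⟨⟨6, 0, 0⟩, ⟨17, 0, 0⟩, [
  ⟨0, ⟨1, 0, 0⟩, ⟨0, 0, 0⟩, ⟨0, 0, 0⟩, ⟨0, 0, 0⟩, ⟨11, 0, 0⟩⟩,
  ⟨0, ⟨5, 0, 0⟩, ⟨0, 0, 0⟩, ⟨0, 0, 0⟩, ⟨0, 0, 0⟩, ⟨10, 0, 0⟩⟩,
  ⟨0, ⟨2, 0, 0⟩, ⟨0, 0, 0⟩, ⟨0, 0, 0⟩, ⟨0, 0, 0⟩, ⟨12, 0, 0⟩⟩,
  ⟨0, ⟨3, 0, 0⟩, ⟨0, 0, 0⟩, ⟨0, 0, 0⟩, ⟨0, 0, 0⟩, ⟨8, 0, 0⟩⟩,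
  ⟨0, ⟨6, 0, 0⟩, ⟨0, 0, 0⟩, ⟨0, 0, 0⟩, ⟨0, 0, 0⟩, ⟨4, 0, 0⟩⟩,
  ⟨0, ⟨7, 0, 0⟩, ⟨0, 0, 0⟩, ⟨0, 0, 0⟩, ⟨0, 0, 0⟩, ⟨9, 0, 0⟩⟩]⟩

theorem mD_6_17 : Magic (6) (17) := by
  have h := Cert.magic (c := cD_6_17) (by decide +kernel) 0 0
  simpa [cD_6_17, Aff.ev] using h

/-- Certificate for n = 6 + 0 x + 0 y, k = 18 + 0 x + 0 y. -/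
def cD_6_18 : Cert := ⟨⟨6, 0, 0⟩, ⟨18, 0, 0⟩, [
  ⟨0, ⟨1, 0, 0⟩, ⟨0, 0, 0⟩, ⟨0, 0, 0⟩, ⟨0, 0, 0⟩, ⟨9, 0, 0⟩⟩,
  ⟨0, ⟨8, 0, 0⟩, ⟨0, 0, 0⟩, ⟨0, 0, 0⟩, ⟨0, 0, 0⟩, ⟨6, 0, 0⟩⟩,
  ⟨0, ⟨4, 0, 0⟩, ⟨0, 0, 0⟩, ⟨0, 0, 0⟩, ⟨0, 0, 0⟩, ⟨12, 0, 0⟩⟩,
  ⟨0, ⟨2, 0, 0⟩, ⟨0, 0, 0⟩, ⟨0, 0, 0⟩, ⟨0, 0, 0⟩, ⟨11, 0, 0⟩⟩,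
  ⟨0, ⟨5, 0, 0⟩, ⟨0, 0, 0⟩, ⟨0, 0, 0⟩, ⟨0, 0, 0⟩, ⟨3, 0, 0⟩⟩,
  ⟨0, ⟨10, 0, 0⟩, ⟨0, 0, 0⟩, ⟨0, 0, 0⟩, ⟨0, 0, 0⟩, ⟨7, 0, 0⟩⟩]⟩

theorem mD_6_18 : Magic (6) (18) := by
  have h := Cert.magic (c := cD_6_18) (by decide +kernel) 0 0
  simpa [cD_6_18, Aff.ev] using h

/-- Certificate for n = 6 + 0 x + 0 y, k = 19 + 0 x + 0 y. -/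
def cD_6_19 : Cert := ⟨⟨6, 0, 0⟩, ⟨19, 0, 0⟩, [
  ⟨0, ⟨1, 0, 0⟩, ⟨0, 0, 0⟩, ⟨0, 0, 0⟩, ⟨0, 0, 0⟩, ⟨12, 0, 0⟩⟩,
  ⟨0, ⟨6, 0, 0⟩, ⟨0, 0, 0⟩, ⟨0, 0, 0⟩, ⟨0, 0, 0⟩, ⟨2, 0, 0⟩⟩,
  ⟨0, ⟨11, 0, 0⟩, ⟨0, 0, 0⟩, ⟨0, 0, 0⟩, ⟨0, 0, 0⟩, ⟨5, 0, 0⟩⟩,
  ⟨0, ⟨3, 0, 0⟩, ⟨0, 0, 0⟩, ⟨0, 0, 0⟩, ⟨0, 0, 0⟩, ⟨9, 0, 0⟩⟩,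
  ⟨0, ⟨7, 0, 0⟩, ⟨0, 0, 0⟩, ⟨0, 0, 0⟩, ⟨0, 0, 0⟩, ⟨4, 0, 0⟩⟩,
  ⟨0, ⟨8, 0, 0⟩, ⟨0, 0, 0⟩, ⟨0, 0, 0⟩, ⟨0, 0, 0⟩, ⟨10, 0, 0⟩⟩]⟩

theorem mD_6_19 : Magic (6) (19) := by
  have h := Cert.magic (c := cD_6_19) (by decide +kernel) 0 0
  simpa [cD_6_19, Aff.ev] using h

/-- Certificate for n = 7 + 0 x + 0 y, k = 19 + 0 x + 0 y. -/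
def cD_7_19 : Cert := ⟨⟨7, 0, 0⟩, ⟨19, 0, 0⟩, [
  ⟨0, ⟨1, 0, 0⟩, ⟨0, 0, 0⟩, ⟨0, 0, 0⟩, ⟨0, 0, 0⟩, ⟨14, 0, 0⟩⟩,
  ⟨0, ⟨4, 0, 0⟩, ⟨0, 0, 0⟩, ⟨0, 0, 0⟩, ⟨0, 0, 0⟩, ⟨13, 0, 0⟩⟩,
  ⟨0, ⟨2, 0, 0⟩, ⟨0, 0, 0⟩, ⟨0, 0, 0⟩, ⟨0, 0, 0⟩, ⟨12, 0, 0⟩⟩,
  ⟨0, ⟨5, 0, 0⟩, ⟨0, 0, 0⟩, ⟨0, 0, 0⟩, ⟨0, 0, 0⟩, ⟨8, 0, 0⟩⟩,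
  ⟨0, ⟨6, 0, 0⟩, ⟨0, 0, 0⟩, ⟨0, 0, 0⟩, ⟨0, 0, 0⟩, ⟨10, 0, 0⟩⟩,
  ⟨0, ⟨3, 0, 0⟩, ⟨0, 0, 0⟩, ⟨0, 0, 0⟩, ⟨0, 0, 0⟩, ⟨9, 0, 0⟩⟩,
  ⟨0, ⟨7, 0, 0⟩, ⟨0, 0, 0⟩, ⟨0, 0, 0⟩, ⟨0, 0, 0⟩, ⟨11, 0, 0⟩⟩]⟩

theorem mD_7_19 : Magic (7) (19) := by
  have h := Cert.magic (c := cD_7_19) (by decide +kernel) 0 0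
  simpa [cD_7_19, Aff.ev] using h

/-- Certificate for n = 7 + 0 x + 0 y, k = 20 + 0 x + 0 y. -/
def cD_7_20 : Cert := ⟨⟨7, 0, 0⟩, ⟨20, 0, 0⟩, [
  ⟨0, ⟨1, 0, 0⟩, ⟨0, 0, 0⟩, ⟨0, 0, 0⟩, ⟨0, 0, 0⟩, ⟨14, 0, 0⟩⟩,
  ⟨0, ⟨5, 0, 0⟩, ⟨0, 0, 0⟩, ⟨0, 0, 0⟩, ⟨0, 0, 0⟩, ⟨13, 0, 0⟩⟩,
  ⟨0, ⟨2, 0, 0⟩, ⟨0, 0, 0⟩, ⟨0, 0, 0⟩, ⟨0, 0, 0⟩, ⟨12, 0, 0⟩⟩,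
  ⟨0, ⟨6, 0, 0⟩, ⟨0, 0, 0⟩, ⟨0, 0, 0⟩, ⟨0, 0, 0⟩, ⟨10, 0, 0⟩⟩,
  ⟨0, ⟨4, 0, 0⟩, ⟨0, 0, 0⟩, ⟨0, 0, 0⟩, ⟨0, 0, 0⟩, ⟨7, 0, 0⟩⟩,
  ⟨0, ⟨9, 0, 0⟩, ⟨0, 0, 0⟩, ⟨0, 0, 0⟩, ⟨0, 0, 0⟩, ⟨3, 0, 0⟩⟩,
  ⟨0, ⟨8, 0, 0⟩, ⟨0, 0, 0⟩, ⟨0, 0, 0⟩, ⟨0, 0, 0⟩, ⟨11, 0, 0⟩⟩]⟩

theorem mD_7_20 : Magic (7) (20) := by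
  have h := Cert.magic (c := cD_7_20) (by decide +kernel) 0 0
  simpa [cD_7_20, Aff.ev] using h

/-- Certificate for n = 7 + 0 x + 0 y, k = 21 + 0 x + 0 y. -/
def cD_7_21 : Cert := ⟨⟨7, 0, 0⟩, ⟨21, 0, 0⟩, [
  ⟨0, ⟨1, 0, 0⟩, ⟨0, 0, 0⟩, ⟨0, 0, 0⟩, ⟨0, 0, 0⟩, ⟨14, 0, 0⟩⟩,
  ⟨0, ⟨6, 0, 0⟩, ⟨0, 0, 0⟩, ⟨0, 0, 0⟩, ⟨0, 0, 0⟩, ⟨10, 0, 0⟩⟩,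
  ⟨0, ⟨5, 0, 0⟩, ⟨0, 0, 0⟩, ⟨0, 0, 0⟩, ⟨0, 0, 0⟩, ⟨12, 0, 0⟩⟩,
  ⟨0, ⟨4, 0, 0⟩, ⟨0, 0, 0⟩, ⟨0, 0, 0⟩, ⟨0, 0, 0⟩, ⟨9, 0, 0⟩⟩,
  ⟨0, ⟨8, 0, 0⟩, ⟨0, 0, 0⟩, ⟨0, 0, 0⟩, ⟨0, 0, 0⟩, ⟨2, 0, 0⟩⟩,
  ⟨0, ⟨11, 0, 0⟩, ⟨0, 0, 0⟩, ⟨0, 0, 0⟩, ⟨0, 0, 0⟩, ⟨3, 0, 0⟩⟩,
  ⟨0, ⟨7, 0, 0⟩, ⟨0, 0, 0⟩, ⟨0, 0, 0⟩, ⟨0, 0, 0⟩, ⟨13, 0, 0⟩⟩]⟩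

theorem mD_7_21 : Magic (7) (21) := by
  have h := Cert.magic (c := cD_7_21) (by decide +kernel) 0 0
  simpa [cD_7_21, Aff.ev] using h

/-- Certificate for n = 7 + 0 x + 0 y, k = 22 + 0 x + 0 y. -/
def cD_7_22 : Cert := ⟨⟨7, 0, 0⟩, ⟨22, 0, 0⟩, [
  ⟨0, ⟨1, 0, 0⟩, ⟨0, 0, 0⟩, ⟨0, 0, 0⟩, ⟨0, 0, 0⟩, ⟨14, 0, 0⟩⟩,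
  ⟨0, ⟨7, 0, 0⟩, ⟨0, 0, 0⟩, ⟨0, 0, 0⟩, ⟨0, 0, 0⟩, ⟨12, 0, 0⟩⟩,
  ⟨0, ⟨3, 0, 0⟩, ⟨0, 0, 0⟩, ⟨0, 0, 0⟩, ⟨0, 0, 0⟩, ⟨10, 0, 0⟩⟩,
  ⟨0, ⟨9, 0, 0⟩, ⟨0, 0, 0⟩, ⟨0, 0, 0⟩, ⟨0, 0, 0⟩, ⟨2, 0, 0⟩⟩,
  ⟨0, ⟨11, 0, 0⟩, ⟨0, 0, 0⟩, ⟨0, 0, 0⟩, ⟨0, 0, 0⟩, ⟨6, 0, 0⟩⟩,
  ⟨0, ⟨5, 0, 0⟩, ⟨0, 0, 0⟩, ⟨0, 0, 0⟩, ⟨0, 0, 0⟩, ⟨4, 0, 0⟩⟩,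
  ⟨0, ⟨13, 0, 0⟩, ⟨0, 0, 0⟩, ⟨0, 0, 0⟩, ⟨0, 0, 0⟩, ⟨8, 0, 0⟩⟩]⟩

theorem mD_7_22 : Magic (7) (22) := by
  have h := Cert.magic (c := cD_7_22) (by decide +kernel) 0 0
  simpa [cD_7_22, Aff.ev] using h

/-- Certificate for n = 8 + 0 x + 0 y, k = 22 + 0 x + 0 y. -/
def cD_8_22 : Cert := ⟨⟨8, 0, 0⟩, ⟨22, 0, 0⟩, [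
  ⟨0, ⟨1, 0, 0⟩, ⟨0, 0, 0⟩, ⟨0, 0, 0⟩, ⟨0, 0, 0⟩, ⟨16, 0, 0⟩⟩,
  ⟨0, ⟨5, 0, 0⟩, ⟨0, 0, 0⟩, ⟨0, 0, 0⟩, ⟨0, 0, 0⟩, ⟨10, 0, 0⟩⟩,
  ⟨0, ⟨7, 0, 0⟩, ⟨0, 0, 0⟩, ⟨0, 0, 0⟩, ⟨0, 0, 0⟩, ⟨11, 0, 0⟩⟩,
  ⟨0, ⟨4, 0, 0⟩, ⟨0, 0, 0⟩, ⟨0, 0, 0⟩, ⟨0, 0, 0⟩, ⟨15, 0, 0⟩⟩,
  ⟨0, ⟨3, 0, 0⟩, ⟨0, 0, 0⟩, ⟨0, 0, 0⟩, ⟨0, 0, 0⟩, ⟨13, 0, 0⟩⟩,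
  ⟨0, ⟨6, 0, 0⟩, ⟨0, 0, 0⟩, ⟨0, 0, 0⟩, ⟨0, 0, 0⟩, ⟨14, 0, 0⟩⟩,
  ⟨0, ⟨2, 0, 0⟩, ⟨0, 0, 0⟩, ⟨0, 0, 0⟩, ⟨0, 0, 0⟩, ⟨8, 0, 0⟩⟩,
  ⟨0, ⟨12, 0, 0⟩, ⟨0, 0, 0⟩, ⟨0, 0, 0⟩, ⟨0, 0, 0⟩, ⟨9, 0, 0⟩⟩]⟩

theorem mD_8_22 : Magic (8) (22) := by
  have h := Cert.magic (c := cD_8_22) (by decide +kernel) 0 0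
  simpa [cD_8_22, Aff.ev] using h

/-- Certificate for n = 8 + 0 x + 0 y, k = 23 + 0 x + 0 y. -/
def cD_8_23 : Cert := ⟨⟨8, 0, 0⟩, ⟨23, 0, 0⟩, [
  ⟨0, ⟨1, 0, 0⟩, ⟨0, 0, 0⟩, ⟨0, 0, 0⟩, ⟨0, 0, 0⟩, ⟨16, 0, 0⟩⟩,
  ⟨0, ⟨6, 0, 0⟩, ⟨0, 0, 0⟩, ⟨0, 0, 0⟩, ⟨0, 0, 0⟩, ⟨15, 0, 0⟩⟩,
  ⟨0, ⟨2, 0, 0⟩, ⟨0, 0, 0⟩, ⟨0, 0, 0⟩, ⟨0, 0, 0⟩, ⟨14, 0, 0⟩⟩,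
  ⟨0, ⟨7, 0, 0⟩, ⟨0, 0, 0⟩, ⟨0, 0, 0⟩, ⟨0, 0, 0⟩, ⟨13, 0, 0⟩⟩,
  ⟨0, ⟨3, 0, 0⟩, ⟨0, 0, 0⟩, ⟨0, 0, 0⟩, ⟨0, 0, 0⟩, ⟨9, 0, 0⟩⟩,
  ⟨0, ⟨11, 0, 0⟩, ⟨0, 0, 0⟩, ⟨0, 0, 0⟩, ⟨0, 0, 0⟩, ⟨4, 0, 0⟩⟩,
  ⟨0, ⟨8, 0, 0⟩, ⟨0, 0, 0⟩, ⟨0, 0, 0⟩, ⟨0, 0, 0⟩, ⟨5, 0, 0⟩⟩,
  ⟨0, ⟨10, 0, 0⟩, ⟨0, 0, 0⟩, ⟨0, 0, 0⟩, ⟨0, 0, 0⟩, ⟨12, 0, 0⟩⟩]⟩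

theorem mD_8_23 : Magic (8) (23) := by
  have h := Cert.magic (c := cD_8_23) (by decide +kernel) 0 0
  simpa [cD_8_23, Aff.ev] using h

/-- Certificate for n = 8 + 0 x + 0 y, k = 24 + 0 x + 0 y. -/
def cD_8_24 : Cert := ⟨⟨8, 0, 0⟩, ⟨24, 0, 0⟩, [
  ⟨0, ⟨1, 0, 0⟩, ⟨0, 0, 0⟩, ⟨0, 0, 0⟩, ⟨0, 0, 0⟩, ⟨16, 0, 0⟩⟩,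
  ⟨0, ⟨7, 0, 0⟩, ⟨0, 0, 0⟩, ⟨0, 0, 0⟩, ⟨0, 0, 0⟩, ⟨15, 0, 0⟩⟩,
  ⟨0, ⟨2, 0, 0⟩, ⟨0, 0, 0⟩, ⟨0, 0, 0⟩, ⟨0, 0, 0⟩, ⟨14, 0, 0⟩⟩,
  ⟨0, ⟨8, 0, 0⟩, ⟨0, 0, 0⟩, ⟨0, 0, 0⟩, ⟨0, 0, 0⟩, ⟨3, 0, 0⟩⟩,
  ⟨0, ⟨13, 0, 0⟩, ⟨0, 0, 0⟩, ⟨0, 0, 0⟩, ⟨0, 0, 0⟩, ⟨6, 0, 0⟩⟩,
  ⟨0, ⟨5, 0, 0⟩, ⟨0, 0, 0⟩, ⟨0, 0, 0⟩, ⟨0, 0, 0⟩, ⟨10, 0, 0⟩⟩,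
  ⟨0, ⟨9, 0, 0⟩, ⟨0, 0, 0⟩, ⟨0, 0, 0⟩, ⟨0, 0, 0⟩, ⟨4, 0, 0⟩⟩,
  ⟨0, ⟨11, 0, 0⟩, ⟨0, 0, 0⟩, ⟨0, 0, 0⟩, ⟨0, 0, 0⟩, ⟨12, 0, 0⟩⟩]⟩

theorem mD_8_24 : Magic (8) (24) := by
  have h := Cert.magic (c := cD_8_24) (by decide +kernel) 0 0
  simpa [cD_8_24, Aff.ev] using h

/-- Certificate for n = 8 + 0 x + 0 y, k = 25 + 0 x + 0 y. -/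
def cD_8_25 : Cert := ⟨⟨8, 0, 0⟩, ⟨25, 0, 0⟩, [
  ⟨0, ⟨1, 0, 0⟩, ⟨0, 0, 0⟩, ⟨0, 0, 0⟩, ⟨0, 0, 0⟩, ⟨16, 0, 0⟩⟩,
  ⟨0, ⟨8, 0, 0⟩, ⟨0, 0, 0⟩, ⟨0, 0, 0⟩, ⟨0, 0, 0⟩, ⟨15, 0, 0⟩⟩,
  ⟨0, ⟨2, 0, 0⟩, ⟨0, 0, 0⟩, ⟨0, 0, 0⟩, ⟨0, 0, 0⟩, ⟨11, 0, 0⟩⟩,
  ⟨0, ⟨12, 0, 0⟩, ⟨0, 0, 0⟩, ⟨0, 0, 0⟩, ⟨0, 0, 0⟩, ⟨4, 0, 0⟩⟩,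
  ⟨0, ⟨9, 0, 0⟩, ⟨0, 0, 0⟩, ⟨0, 0, 0⟩, ⟨0, 0, 0⟩, ⟨3, 0, 0⟩⟩,
  ⟨0, ⟨13, 0, 0⟩, ⟨0, 0, 0⟩, ⟨0, 0, 0⟩, ⟨0, 0, 0⟩, ⟨7, 0, 0⟩⟩,
  ⟨0, ⟨5, 0, 0⟩, ⟨0, 0, 0⟩, ⟨0, 0, 0⟩, ⟨0, 0, 0⟩, ⟨6, 0, 0⟩⟩,
  ⟨0, ⟨14, 0, 0⟩, ⟨0, 0, 0⟩, ⟨0, 0, 0⟩, ⟨0, 0, 0⟩, ⟨10, 0, 0⟩⟩]⟩

theorem mD_8_25 : Magic (8) (25) := by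
  have h := Cert.magic (c := cD_8_25) (by decide +kernel) 0 0
  simpa [cD_8_25, Aff.ev] using h

/-- Certificate for n = 9 + 0 x + 0 y, k = 24 + 0 x + 0 y. -/
def cD_9_24 : Cert := ⟨⟨9, 0, 0⟩, ⟨24, 0, 0⟩, [
  ⟨0, ⟨1, 0, 0⟩, ⟨0, 0, 0⟩, ⟨0, 0, 0⟩, ⟨0, 0, 0⟩, ⟨18, 0, 0⟩⟩,
  ⟨0, ⟨5, 0, 0⟩, ⟨0, 0, 0⟩, ⟨0, 0, 0⟩, ⟨0, 0, 0⟩, ⟨17, 0, 0⟩⟩,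
  ⟨0, ⟨2, 0, 0⟩, ⟨0, 0, 0⟩, ⟨0, 0, 0⟩, ⟨0, 0, 0⟩, ⟨14, 0, 0⟩⟩,
  ⟨0, ⟨8, 0, 0⟩, ⟨0, 0, 0⟩, ⟨0, 0, 0⟩, ⟨0, 0, 0⟩, ⟨10, 0, 0⟩⟩,
  ⟨0, ⟨6, 0, 0⟩, ⟨0, 0, 0⟩, ⟨0, 0, 0⟩, ⟨0, 0, 0⟩, ⟨15, 0, 0⟩⟩,
  ⟨0, ⟨3, 0, 0⟩, ⟨0, 0, 0⟩, ⟨0, 0, 0⟩, ⟨0, 0, 0⟩, ⟨12, 0, 0⟩⟩,
  ⟨0, ⟨9, 0, 0⟩, ⟨0, 0, 0⟩, ⟨0, 0, 0⟩, ⟨0, 0, 0⟩, ⟨11, 0, 0⟩⟩,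
  ⟨0, ⟨4, 0, 0⟩, ⟨0, 0, 0⟩, ⟨0, 0, 0⟩, ⟨0, 0, 0⟩, ⟨13, 0, 0⟩⟩,
  ⟨0, ⟨7, 0, 0⟩, ⟨0, 0, 0⟩, ⟨0, 0, 0⟩, ⟨0, 0, 0⟩, ⟨16, 0, 0⟩⟩]⟩

theorem mD_9_24 : Magic (9) (24) := by
  have h := Cert.magic (c := cD_9_24) (by decide +kernel) 0 0
  simpa [cD_9_24, Aff.ev] using h

/-- Certificate for n = 9 + 0 x + 0 y, k = 25 + 0 x + 0 y. -/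
def cD_9_25 : Cert := ⟨⟨9, 0, 0⟩, ⟨25, 0, 0⟩, [
  ⟨0, ⟨1, 0, 0⟩, ⟨0, 0, 0⟩, ⟨0, 0, 0⟩, ⟨0, 0, 0⟩, ⟨18, 0, 0⟩⟩,
  ⟨0, ⟨6, 0, 0⟩, ⟨0, 0, 0⟩, ⟨0, 0, 0⟩, ⟨0, 0, 0⟩, ⟨17, 0, 0⟩⟩,
  ⟨0, ⟨2, 0, 0⟩, ⟨0, 0, 0⟩, ⟨0, 0, 0⟩, ⟨0, 0, 0⟩, ⟨16, 0, 0⟩⟩,
  ⟨0, ⟨7, 0, 0⟩, ⟨0, 0, 0⟩, ⟨0, 0, 0⟩, ⟨0, 0, 0⟩, ⟨15, 0, 0⟩⟩,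
  ⟨0, ⟨3, 0, 0⟩, ⟨0, 0, 0⟩, ⟨0, 0, 0⟩, ⟨0, 0, 0⟩, ⟨14, 0, 0⟩⟩,
  ⟨0, ⟨8, 0, 0⟩, ⟨0, 0, 0⟩, ⟨0, 0, 0⟩, ⟨0, 0, 0⟩, ⟨5, 0, 0⟩⟩,
  ⟨0, ⟨12, 0, 0⟩, ⟨0, 0, 0⟩, ⟨0, 0, 0⟩, ⟨0, 0, 0⟩, ⟨9, 0, 0⟩⟩,
  ⟨0, ⟨4, 0, 0⟩, ⟨0, 0, 0⟩, ⟨0, 0, 0⟩, ⟨0, 0, 0⟩, ⟨10, 0, 0⟩⟩,
  ⟨0, ⟨11, 0, 0⟩, ⟨0, 0, 0⟩, ⟨0, 0, 0⟩, ⟨0, 0, 0⟩, ⟨13, 0, 0⟩⟩]⟩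

theorem mD_9_25 : Magic (9) (25) := by
  have h := Cert.magic (c := cD_9_25) (by decide +kernel) 0 0
  simpa [cD_9_25, Aff.ev] using h

/-- Certificate for n = 9 + 0 x + 0 y, k = 26 + 0 x + 0 y. -/
def cD_9_26 : Cert := ⟨⟨9, 0, 0⟩, ⟨26, 0, 0⟩, [
  ⟨0, ⟨1, 0, 0⟩, ⟨0, 0, 0⟩, ⟨0, 0, 0⟩, ⟨0, 0, 0⟩, ⟨18, 0, 0⟩⟩,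
  ⟨0, ⟨7, 0, 0⟩, ⟨0, 0, 0⟩, ⟨0, 0, 0⟩, ⟨0, 0, 0⟩, ⟨17, 0, 0⟩⟩,
  ⟨0, ⟨2, 0, 0⟩, ⟨0, 0, 0⟩, ⟨0, 0, 0⟩, ⟨0, 0, 0⟩, ⟨16, 0, 0⟩⟩,
  ⟨0, ⟨8, 0, 0⟩, ⟨0, 0, 0⟩, ⟨0, 0, 0⟩, ⟨0, 0, 0⟩, ⟨15, 0, 0⟩⟩,
  ⟨0, ⟨3, 0, 0⟩, ⟨0, 0, 0⟩, ⟨0, 0, 0⟩, ⟨0, 0, 0⟩, ⟨14, 0, 0⟩⟩,
  ⟨0, ⟨9, 0, 0⟩, ⟨0, 0, 0⟩, ⟨0, 0, 0⟩, ⟨0, 0, 0⟩, ⟨6, 0, 0⟩⟩,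
  ⟨0, ⟨11, 0, 0⟩, ⟨0, 0, 0⟩, ⟨0, 0, 0⟩, ⟨0, 0, 0⟩, ⟨5, 0, 0⟩⟩,
  ⟨0, ⟨10, 0, 0⟩, ⟨0, 0, 0⟩, ⟨0, 0, 0⟩, ⟨0, 0, 0⟩, ⟨4, 0, 0⟩⟩,
  ⟨0, ⟨12, 0, 0⟩, ⟨0, 0, 0⟩, ⟨0, 0, 0⟩, ⟨0, 0, 0⟩, ⟨13, 0, 0⟩⟩]⟩

theorem mD_9_26 : Magic (9) (26) := by
  have h := Cert.magic (c := cD_9_26) (by decide +kernel) 0 0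
  simpa [cD_9_26, Aff.ev] using h

/-- Certificate for n = 9 + 0 x + 0 y, k = 27 + 0 x + 0 y. -/
def cD_9_27 : Cert := ⟨⟨9, 0, 0⟩, ⟨27, 0, 0⟩, [
  ⟨0, ⟨1, 0, 0⟩, ⟨0, 0, 0⟩, ⟨0, 0, 0⟩, ⟨0, 0, 0⟩, ⟨18, 0, 0⟩⟩,
  ⟨0, ⟨8, 0, 0⟩, ⟨0, 0, 0⟩, ⟨0, 0, 0⟩, ⟨0, 0, 0⟩, ⟨17, 0, 0⟩⟩,
  ⟨0, ⟨2, 0, 0⟩, ⟨0, 0, 0⟩, ⟨0, 0, 0⟩, ⟨0, 0, 0⟩, ⟨13, 0, 0⟩⟩,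
  ⟨0, ⟨12, 0, 0⟩, ⟨0, 0, 0⟩, ⟨0, 0, 0⟩, ⟨0, 0, 0⟩, ⟨11, 0, 0⟩⟩,
  ⟨0, ⟨4, 0, 0⟩, ⟨0, 0, 0⟩, ⟨0, 0, 0⟩, ⟨0, 0, 0⟩, ⟨14, 0, 0⟩⟩,
  ⟨0, ⟨9, 0, 0⟩, ⟨0, 0, 0⟩, ⟨0, 0, 0⟩, ⟨0, 0, 0⟩, ⟨3, 0, 0⟩⟩,
  ⟨0, ⟨15, 0, 0⟩, ⟨0, 0, 0⟩, ⟨0, 0, 0⟩, ⟨0, 0, 0⟩, ⟨7, 0, 0⟩⟩,
  ⟨0, ⟨5, 0, 0⟩, ⟨0, 0, 0⟩, ⟨0, 0, 0⟩, ⟨0, 0, 0⟩, ⟨6, 0, 0⟩⟩,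
  ⟨0, ⟨16, 0, 0⟩, ⟨0, 0, 0⟩, ⟨0, 0, 0⟩, ⟨0, 0, 0⟩, ⟨10, 0, 0⟩⟩]⟩

theorem mD_9_27 : Magic (9) (27) := by
  have h := Cert.magic (c := cD_9_27) (by decide +kernel) 0 0
  simpa [cD_9_27, Aff.ev] using h

/-- Certificate for n = 9 + 0 x + 0 y, k = 28 + 0 x + 0 y. -/
def cD_9_28 : Cert := ⟨⟨9, 0, 0⟩, ⟨28, 0, 0⟩, [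
  ⟨0, ⟨1, 0, 0⟩, ⟨0, 0, 0⟩, ⟨0, 0, 0⟩, ⟨0, 0, 0⟩, ⟨18, 0, 0⟩⟩,
  ⟨0, ⟨9, 0, 0⟩, ⟨0, 0, 0⟩, ⟨0, 0, 0⟩, ⟨0, 0, 0⟩, ⟨17, 0, 0⟩⟩,
  ⟨0, ⟨2, 0, 0⟩, ⟨0, 0, 0⟩, ⟨0, 0, 0⟩, ⟨0, 0, 0⟩, ⟨16, 0, 0⟩⟩,
  ⟨0, ⟨10, 0, 0⟩, ⟨0, 0, 0⟩, ⟨0, 0, 0⟩, ⟨0, 0, 0⟩, ⟨5, 0, 0⟩⟩,
  ⟨0, ⟨13, 0, 0⟩, ⟨0, 0, 0⟩, ⟨0, 0, 0⟩, ⟨0, 0, 0⟩, ⟨4, 0, 0⟩⟩,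
  ⟨0, ⟨11, 0, 0⟩, ⟨0, 0, 0⟩, ⟨0, 0, 0⟩, ⟨0, 0, 0⟩, ⟨3, 0, 0⟩⟩,
  ⟨0, ⟨14, 0, 0⟩, ⟨0, 0, 0⟩, ⟨0, 0, 0⟩, ⟨0, 0, 0⟩, ⟨8, 0, 0⟩⟩,
  ⟨0, ⟨6, 0, 0⟩, ⟨0, 0, 0⟩, ⟨0, 0, 0⟩, ⟨0, 0, 0⟩, ⟨7, 0, 0⟩⟩,
  ⟨0, ⟨15, 0, 0⟩, ⟨0, 0, 0⟩, ⟨0, 0, 0⟩, ⟨0, 0, 0⟩, ⟨12, 0, 0⟩⟩]⟩

theorem mD_9_28 : Magic (9) (28) := by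
  have h := Cert.magic (c := cD_9_28) (by decide +kernel) 0 0
  simpa [cD_9_28, Aff.ev] using h

/-- Certificate for n = 10 + 0 x + 0 y, k = 27 + 0 x + 0 y. -/
def cD_10_27 : Cert := ⟨⟨10, 0, 0⟩, ⟨27, 0, 0⟩, [
  ⟨0, ⟨1, 0, 0⟩, ⟨0, 0, 0⟩, ⟨0, 0, 0⟩, ⟨0, 0, 0⟩, ⟨20, 0, 0⟩⟩,
  ⟨0, ⟨6, 0, 0⟩, ⟨0, 0, 0⟩, ⟨0, 0, 0⟩, ⟨0, 0, 0⟩, ⟨19, 0, 0⟩⟩,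
  ⟨0, ⟨2, 0, 0⟩, ⟨0, 0, 0⟩, ⟨0, 0, 0⟩, ⟨0, 0, 0⟩, ⟨18, 0, 0⟩⟩,
  ⟨0, ⟨7, 0, 0⟩, ⟨0, 0, 0⟩, ⟨0, 0, 0⟩, ⟨0, 0, 0⟩, ⟨17, 0, 0⟩⟩,
  ⟨0, ⟨3, 0, 0⟩, ⟨0, 0, 0⟩, ⟨0, 0, 0⟩, ⟨0, 0, 0⟩, ⟨16, 0, 0⟩⟩,
  ⟨0, ⟨8, 0, 0⟩, ⟨0, 0, 0⟩, ⟨0, 0, 0⟩, ⟨0, 0, 0⟩, ⟨14, 0, 0⟩⟩,
  ⟨0, ⟨5, 0, 0⟩, ⟨0, 0, 0⟩, ⟨0, 0, 0⟩, ⟨0, 0, 0⟩, ⟨9, 0, 0⟩⟩,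
  ⟨0, ⟨13, 0, 0⟩, ⟨0, 0, 0⟩, ⟨0, 0, 0⟩, ⟨0, 0, 0⟩, ⟨10, 0, 0⟩⟩,
  ⟨0, ⟨4, 0, 0⟩, ⟨0, 0, 0⟩, ⟨0, 0, 0⟩, ⟨0, 0, 0⟩, ⟨12, 0, 0⟩⟩,
  ⟨0, ⟨11, 0, 0⟩, ⟨0, 0, 0⟩, ⟨0, 0, 0⟩, ⟨0, 0, 0⟩, ⟨15, 0, 0⟩⟩]⟩

theorem mD_10_27 : Magic (10) (27) := by
  have h := Cert.magic (c := cD_10_27) (by decide +kernel) 0 0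
  simpa [cD_10_27, Aff.ev] using h

/-- Certificate for n = 10 + 0 x + 0 y, k = 28 + 0 x + 0 y. -/
def cD_10_28 : Cert := ⟨⟨10, 0, 0⟩, ⟨28, 0, 0⟩, [
  ⟨0, ⟨1, 0, 0⟩, ⟨0, 0, 0⟩, ⟨0, 0, 0⟩, ⟨0, 0, 0⟩, ⟨20, 0, 0⟩⟩,
  ⟨0, ⟨7, 0, 0⟩, ⟨0, 0, 0⟩, ⟨0, 0, 0⟩, ⟨0, 0, 0⟩, ⟨19, 0, 0⟩⟩,
  ⟨0, ⟨2, 0, 0⟩, ⟨0, 0, 0⟩, ⟨0, 0, 0⟩, ⟨0, 0, 0⟩, ⟨18, 0, 0⟩⟩,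
  ⟨0, ⟨8, 0, 0⟩, ⟨0, 0, 0⟩, ⟨0, 0, 0⟩, ⟨0, 0, 0⟩, ⟨16, 0, 0⟩⟩,
  ⟨0, ⟨4, 0, 0⟩, ⟨0, 0, 0⟩, ⟨0, 0, 0⟩, ⟨0, 0, 0⟩, ⟨15, 0, 0⟩⟩,
  ⟨0, ⟨9, 0, 0⟩, ⟨0, 0, 0⟩, ⟨0, 0, 0⟩, ⟨0, 0, 0⟩, ⟨5, 0, 0⟩⟩,
  ⟨0, ⟨14, 0, 0⟩, ⟨0, 0, 0⟩, ⟨0, 0, 0⟩, ⟨0, 0, 0⟩, ⟨11, 0, 0⟩⟩,
  ⟨0, ⟨3, 0, 0⟩, ⟨0, 0, 0⟩, ⟨0, 0, 0⟩, ⟨0, 0, 0⟩, ⟨13, 0, 0⟩⟩,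
  ⟨0, ⟨12, 0, 0⟩, ⟨0, 0, 0⟩, ⟨0, 0, 0⟩, ⟨0, 0, 0⟩, ⟨6, 0, 0⟩⟩,
  ⟨0, ⟨10, 0, 0⟩, ⟨0, 0, 0⟩, ⟨0, 0, 0⟩, ⟨0, 0, 0⟩, ⟨17, 0, 0⟩⟩]⟩

theorem mD_10_28 : Magic (10) (28) := by
  have h := Cert.magic (c := cD_10_28) (by decide +kernel) 0 0
  simpa [cD_10_28, Aff.ev] using h

/-- Certificate for n = 10 + 0 x + 0 y, k = 29 + 0 x + 0 y. -/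
def cD_10_29 : Cert := ⟨⟨10, 0, 0⟩, ⟨29, 0, 0⟩, [
  ⟨0, ⟨1, 0, 0⟩, ⟨0, 0, 0⟩, ⟨0, 0, 0⟩, ⟨0, 0, 0⟩, ⟨20, 0, 0⟩⟩,
  ⟨0, ⟨8, 0, 0⟩, ⟨0, 0, 0⟩, ⟨0, 0, 0⟩, ⟨0, 0, 0⟩, ⟨19, 0, 0⟩⟩,
  ⟨0, ⟨2, 0, 0⟩, ⟨0, 0, 0⟩, ⟨0, 0, 0⟩, ⟨0, 0, 0⟩, ⟨18, 0, 0⟩⟩,
  ⟨0, ⟨9, 0, 0⟩, ⟨0, 0, 0⟩, ⟨0, 0, 0⟩, ⟨0, 0, 0⟩, ⟨17, 0, 0⟩⟩,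
  ⟨0, ⟨3, 0, 0⟩, ⟨0, 0, 0⟩, ⟨0, 0, 0⟩, ⟨0, 0, 0⟩, ⟨15, 0, 0⟩⟩,
  ⟨0, ⟨11, 0, 0⟩, ⟨0, 0, 0⟩, ⟨0, 0, 0⟩, ⟨0, 0, 0⟩, ⟨4, 0, 0⟩⟩,
  ⟨0, ⟨14, 0, 0⟩, ⟨0, 0, 0⟩, ⟨0, 0, 0⟩, ⟨0, 0, 0⟩, ⟨5, 0, 0⟩⟩,
  ⟨0, ⟨10, 0, 0⟩, ⟨0, 0, 0⟩, ⟨0, 0, 0⟩, ⟨0, 0, 0⟩, ⟨13, 0, 0⟩⟩,
  ⟨0, ⟨6, 0, 0⟩, ⟨0, 0, 0⟩, ⟨0, 0, 0⟩, ⟨0, 0, 0⟩, ⟨7, 0, 0⟩⟩,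
  ⟨0, ⟨16, 0, 0⟩, ⟨0, 0, 0⟩, ⟨0, 0, 0⟩, ⟨0, 0, 0⟩, ⟨12, 0, 0⟩⟩]⟩

theorem mD_10_29 : Magic (10) (29) := by
  have h := Cert.magic (c := cD_10_29) (by decide +kernel) 0 0
  simpa [cD_10_29, Aff.ev] using h

/-- Certificate for n = 10 + 0 x + 0 y, k = 30 + 0 x + 0 y. -/
def cD_10_30 : Cert := ⟨⟨10, 0, 0⟩, ⟨30, 0, 0⟩, [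
  ⟨0, ⟨1, 0, 0⟩, ⟨0, 0, 0⟩, ⟨0, 0, 0⟩, ⟨0, 0, 0⟩, ⟨20, 0, 0⟩⟩,
  ⟨0, ⟨9, 0, 0⟩, ⟨0, 0, 0⟩, ⟨0, 0, 0⟩, ⟨0, 0, 0⟩, ⟨19, 0, 0⟩⟩,
  ⟨0, ⟨2, 0, 0⟩, ⟨0, 0, 0⟩, ⟨0, 0, 0⟩, ⟨0, 0, 0⟩, ⟨18, 0, 0⟩⟩,
  ⟨0, ⟨10, 0, 0⟩, ⟨0, 0, 0⟩, ⟨0, 0, 0⟩, ⟨0, 0, 0⟩, ⟨15, 0, 0⟩⟩,
  ⟨0, ⟨5, 0, 0⟩, ⟨0, 0, 0⟩, ⟨0, 0, 0⟩, ⟨0, 0, 0⟩, ⟨8, 0, 0⟩⟩,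
  ⟨0, ⟨17, 0, 0⟩, ⟨0, 0, 0⟩, ⟨0, 0, 0⟩, ⟨0, 0, 0⟩, ⟨6, 0, 0⟩⟩,
  ⟨0, ⟨7, 0, 0⟩, ⟨0, 0, 0⟩, ⟨0, 0, 0⟩, ⟨0, 0, 0⟩, ⟨11, 0, 0⟩⟩,
  ⟨0, ⟨12, 0, 0⟩, ⟨0, 0, 0⟩, ⟨0, 0, 0⟩, ⟨0, 0, 0⟩, ⟨4, 0, 0⟩⟩,
  ⟨0, ⟨14, 0, 0⟩, ⟨0, 0, 0⟩, ⟨0, 0, 0⟩, ⟨0, 0, 0⟩, ⟨3, 0, 0⟩⟩,
  ⟨0, ⟨13, 0, 0⟩, ⟨0, 0, 0⟩, ⟨0, 0, 0⟩, ⟨0, 0, 0⟩, ⟨16, 0, 0⟩⟩]⟩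

theorem mD_10_30 : Magic (10) (30) := by
  have h := Cert.magic (c := cD_10_30) (by decide +kernel) 0 0
  simpa [cD_10_30, Aff.ev] using h

/-- Certificate for n = 10 + 0 x + 0 y, k = 31 + 0 x + 0 y. -/
def cD_10_31 : Cert := ⟨⟨10, 0, 0⟩, ⟨31, 0, 0⟩, [
  ⟨0, ⟨1, 0, 0⟩, ⟨0, 0, 0⟩, ⟨0, 0, 0⟩, ⟨0, 0, 0⟩, ⟨20, 0, 0⟩⟩,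
  ⟨0, ⟨10, 0, 0⟩, ⟨0, 0, 0⟩, ⟨0, 0, 0⟩, ⟨0, 0, 0⟩, ⟨19, 0, 0⟩⟩,
  ⟨0, ⟨2, 0, 0⟩, ⟨0, 0, 0⟩, ⟨0, 0, 0⟩, ⟨0, 0, 0⟩, ⟨18, 0, 0⟩⟩,
  ⟨0, ⟨11, 0, 0⟩, ⟨0, 0, 0⟩, ⟨0, 0, 0⟩, ⟨0, 0, 0⟩, ⟨12, 0, 0⟩⟩,
  ⟨0, ⟨8, 0, 0⟩, ⟨0, 0, 0⟩, ⟨0, 0, 0⟩, ⟨0, 0, 0⟩, ⟨6, 0, 0⟩⟩,
  ⟨0, ⟨17, 0, 0⟩, ⟨0, 0, 0⟩, ⟨0, 0, 0⟩, ⟨0, 0, 0⟩, ⟨5, 0, 0⟩⟩,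
  ⟨0, ⟨9, 0, 0⟩, ⟨0, 0, 0⟩, ⟨0, 0, 0⟩, ⟨0, 0, 0⟩, ⟨7, 0, 0⟩⟩,
  ⟨0, ⟨15, 0, 0⟩, ⟨0, 0, 0⟩, ⟨0, 0, 0⟩, ⟨0, 0, 0⟩, ⟨3, 0, 0⟩⟩,
  ⟨0, ⟨13, 0, 0⟩, ⟨0, 0, 0⟩, ⟨0, 0, 0⟩, ⟨0, 0, 0⟩, ⟨4, 0, 0⟩⟩,
  ⟨0, ⟨14, 0, 0⟩, ⟨0, 0, 0⟩, ⟨0, 0, 0⟩, ⟨0, 0, 0⟩, ⟨16, 0, 0⟩⟩]⟩

theorem mD_10_31 : Magic (10) (31) := by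
  have h := Cert.magic (c := cD_10_31) (by decide +kernel) 0 0
  simpa [cD_10_31, Aff.ev] using h

/-- Certificate for n = 11 + 4 x + 0 y, k = 29 + 10 x + 0 y. -/
def cT25_11_29 : Cert := ⟨⟨11, 4, 0⟩, ⟨29, 10, 0⟩, [
  ⟨1, ⟨6, 2, 0⟩, ⟨1, 0, 0⟩, ⟨1, 1, 0⟩, ⟨22, 6, 0⟩, ⟨21, 6, 0⟩⟩,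
  ⟨1, ⟨7, 3, 0⟩, ⟨2, 1, 0⟩, ⟨1, 1, 0⟩, ⟨20, 4, 0⟩, ⟨19, 4, 0⟩⟩,
  ⟨0, ⟨8, 4, 0⟩, ⟨0, 0, 0⟩, ⟨0, 0, 0⟩, ⟨0, 0, 0⟩, ⟨18, 4, 0⟩⟩,
  ⟨0, ⟨3, 2, 0⟩, ⟨0, 0, 0⟩, ⟨0, 0, 0⟩, ⟨0, 0, 0⟩, ⟨17, 4, 0⟩⟩,
  ⟨0, ⟨9, 4, 0⟩, ⟨0, 0, 0⟩, ⟨0, 0, 0⟩, ⟨0, 0, 0⟩, ⟨16, 4, 0⟩⟩,
  ⟨0, ⟨4, 2, 0⟩, ⟨0, 0, 0⟩, ⟨0, 0, 0⟩, ⟨0, 0, 0⟩, ⟨15, 4, 0⟩⟩,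
  ⟨0, ⟨10, 4, 0⟩, ⟨0, 0, 0⟩, ⟨0, 0, 0⟩, ⟨0, 0, 0⟩, ⟨14, 4, 0⟩⟩,
  ⟨0, ⟨5, 2, 0⟩, ⟨0, 0, 0⟩, ⟨0, 0, 0⟩, ⟨0, 0, 0⟩, ⟨13, 4, 0⟩⟩,
  ⟨0, ⟨11, 4, 0⟩, ⟨0, 0, 0⟩, ⟨0, 0, 0⟩, ⟨0, 0, 0⟩, ⟨12, 4, 0⟩⟩]⟩

theorem mT25_11_29 (x : ℕ) : Magic (11 + 4 * x) (29 + 10 * x) := by
  have h := Cert.magic (c := cT25_11_29) (by decide +kernel) x 0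
  simpa [cT25_11_29, Aff.ev] using h

/-- Certificate for n = 11 + 4 x + 0 y, k = 30 + 10 x + 0 y. -/
def cT25_11_30 : Cert := ⟨⟨11, 4, 0⟩, ⟨30, 10, 0⟩, [
  ⟨1, ⟨1, 0, 0⟩, ⟨7, 2, 0⟩, ⟨1, 1, 0⟩, ⟨22, 6, 0⟩, ⟨15, 4, 0⟩⟩,
  ⟨0, ⟨8, 3, 0⟩, ⟨0, 0, 0⟩, ⟨0, 0, 0⟩, ⟨0, 0, 0⟩, ⟨20, 6, 0⟩⟩,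
  ⟨0, ⟨2, 1, 0⟩, ⟨0, 0, 0⟩, ⟨0, 0, 0⟩, ⟨0, 0, 0⟩, ⟨10, 3, 0⟩⟩,
  ⟨0, ⟨18, 6, 0⟩, ⟨0, 0, 0⟩, ⟨0, 0, 0⟩, ⟨0, 0, 0⟩, ⟨9, 3, 0⟩⟩,
  ⟨1, ⟨3, 1, 0⟩, ⟨11, 3, 0⟩, ⟨1, 1, 0⟩, ⟨16, 4, 0⟩, ⟨13, 4, 0⟩⟩,
  ⟨0, ⟨6, 2, 0⟩, ⟨0, 0, 0⟩, ⟨0, 0, 0⟩, ⟨0, 0, 0⟩, ⟨19, 6, 0⟩⟩,
  ⟨0, ⟨5, 2, 0⟩, ⟨0, 0, 0⟩, ⟨0, 0, 0⟩, ⟨0, 0, 0⟩, ⟨21, 6, 0⟩⟩,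
  ⟨0, ⟨4, 2, 0⟩, ⟨0, 0, 0⟩, ⟨0, 0, 0⟩, ⟨0, 0, 0⟩, ⟨14, 4, 0⟩⟩,
  ⟨0, ⟨12, 4, 0⟩, ⟨0, 0, 0⟩, ⟨0, 0, 0⟩, ⟨0, 0, 0⟩, ⟨17, 6, 0⟩⟩]⟩

theorem mT25_11_30 (x : ℕ) : Magic (11 + 4 * x) (30 + 10 * x) := by
  have h := Cert.magic (c := cT25_11_30) (by decide +kernel) x 0
  simpa [cT25_11_30, Aff.ev] using h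

/-- Certificate for n = 11 + 4 x + 0 y, k = 31 + 10 x + 0 y. -/
def cT25_11_31 : Cert := ⟨⟨11, 4, 0⟩, ⟨31, 10, 0⟩, [
  ⟨1, ⟨1, 0, 0⟩, ⟨8, 2, 0⟩, ⟨1, 1, 0⟩, ⟨22, 6, 0⟩, ⟨14, 4, 0⟩⟩,
  ⟨0, ⟨9, 3, 0⟩, ⟨0, 0, 0⟩, ⟨0, 0, 0⟩, ⟨0, 0, 0⟩, ⟨20, 6, 0⟩⟩,
  ⟨0, ⟨2, 1, 0⟩, ⟨0, 0, 0⟩, ⟨0, 0, 0⟩, ⟨0, 0, 0⟩, ⟨10, 3, 0⟩⟩,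
  ⟨0, ⟨19, 6, 0⟩, ⟨0, 0, 0⟩, ⟨0, 0, 0⟩, ⟨0, 0, 0⟩, ⟨5, 2, 0⟩⟩,
  ⟨0, ⟨7, 2, 0⟩, ⟨0, 0, 0⟩, ⟨0, 0, 0⟩, ⟨0, 0, 0⟩, ⟨18, 6, 0⟩⟩,
  ⟨0, ⟨6, 2, 0⟩, ⟨0, 0, 0⟩, ⟨0, 0, 0⟩, ⟨0, 0, 0⟩, ⟨21, 6, 0⟩⟩,
  ⟨0, ⟨4, 2, 0⟩, ⟨0, 0, 0⟩, ⟨0, 0, 0⟩, ⟨0, 0, 0⟩, ⟨15, 4, 0⟩⟩,
  ⟨2, ⟨3, 1, 0⟩, ⟨12, 3, 0⟩, ⟨1, 1, 0⟩, ⟨16, 4, 0⟩, ⟨11, 3, 0⟩⟩,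
  ⟨0, ⟨17, 6, 0⟩, ⟨0, 0, 0⟩, ⟨0, 0, 0⟩, ⟨0, 0, 0⟩, ⟨13, 4, 0⟩⟩]⟩

theorem mT25_11_31 (x : ℕ) : Magic (11 + 4 * x) (31 + 10 * x) := by
  have h := Cert.magic (c := cT25_11_31) (by decide +kernel) x 0
  simpa [cT25_11_31, Aff.ev] using h

/-- Certificate for n = 11 + 4 x + 0 y, k = 32 + 10 x + 0 y. -/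
def cT25_11_32 : Cert := ⟨⟨11, 4, 0⟩, ⟨32, 10, 0⟩, [
  ⟨1, ⟨1, 0, 0⟩, ⟨9, 2, 0⟩, ⟨1, 1, 0⟩, ⟨22, 6, 0⟩, ⟨21, 6, 0⟩⟩,
  ⟨0, ⟨2, 1, 0⟩, ⟨0, 0, 0⟩, ⟨0, 0, 0⟩, ⟨0, 0, 0⟩, ⟨20, 6, 0⟩⟩,
  ⟨0, ⟨10, 3, 0⟩, ⟨0, 0, 0⟩, ⟨0, 0, 0⟩, ⟨0, 0, 0⟩, ⟨3, 1, 0⟩⟩,
  ⟨0, ⟨19, 6, 0⟩, ⟨0, 0, 0⟩, ⟨0, 0, 0⟩, ⟨0, 0, 0⟩, ⟨6, 2, 0⟩⟩,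
  ⟨0, ⟨7, 2, 0⟩, ⟨0, 0, 0⟩, ⟨0, 0, 0⟩, ⟨0, 0, 0⟩, ⟨8, 2, 0⟩⟩,
  ⟨0, ⟨17, 6, 0⟩, ⟨0, 0, 0⟩, ⟨0, 0, 0⟩, ⟨0, 0, 0⟩, ⟨11, 3, 0⟩⟩,
  ⟨1, ⟨4, 1, 0⟩, ⟨12, 3, 0⟩, ⟨1, 1, 0⟩, ⟨16, 4, 0⟩, ⟨15, 4, 0⟩⟩,
  ⟨0, ⟨5, 2, 0⟩, ⟨0, 0, 0⟩, ⟨0, 0, 0⟩, ⟨0, 0, 0⟩, ⟨14, 4, 0⟩⟩,
  ⟨0, ⟨13, 4, 0⟩, ⟨0, 0, 0⟩, ⟨0, 0, 0⟩, ⟨0, 0, 0⟩, ⟨18, 6, 0⟩⟩]⟩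

theorem mT25_11_32 (x : ℕ) : Magic (11 + 4 * x) (32 + 10 * x) := by
  have h := Cert.magic (c := cT25_11_32) (by decide +kernel) x 0
  simpa [cT25_11_32, Aff.ev] using h

/-- Certificate for n = 11 + 4 x + 0 y, k = 33 + 10 x + 0 y. -/
def cT25_11_33 : Cert := ⟨⟨11, 4, 0⟩, ⟨33, 10, 0⟩, [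
  ⟨1, ⟨1, 0, 0⟩, ⟨10, 2, 0⟩, ⟨1, 1, 0⟩, ⟨22, 6, 0⟩, ⟨21, 6, 0⟩⟩,
  ⟨0, ⟨2, 1, 0⟩, ⟨0, 0, 0⟩, ⟨0, 0, 0⟩, ⟨0, 0, 0⟩, ⟨11, 3, 0⟩⟩,
  ⟨0, ⟨20, 6, 0⟩, ⟨0, 0, 0⟩, ⟨0, 0, 0⟩, ⟨0, 0, 0⟩, ⟨7, 2, 0⟩⟩,
  ⟨0, ⟨6, 2, 0⟩, ⟨0, 0, 0⟩, ⟨0, 0, 0⟩, ⟨0, 0, 0⟩, ⟨8, 2, 0⟩⟩,
  ⟨0, ⟨19, 6, 0⟩, ⟨0, 0, 0⟩, ⟨0, 0, 0⟩, ⟨0, 0, 0⟩, ⟨9, 2, 0⟩⟩,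
  ⟨0, ⟨5, 2, 0⟩, ⟨0, 0, 0⟩, ⟨0, 0, 0⟩, ⟨0, 0, 0⟩, ⟨15, 4, 0⟩⟩,
  ⟨0, ⟨13, 4, 0⟩, ⟨0, 0, 0⟩, ⟨0, 0, 0⟩, ⟨0, 0, 0⟩, ⟨16, 4, 0⟩⟩,
  ⟨2, ⟨12, 3, 0⟩, ⟨4, 1, 0⟩, ⟨1, 1, 0⟩, ⟨17, 4, 0⟩, ⟨3, 1, 0⟩⟩,
  ⟨0, ⟨18, 6, 0⟩, ⟨0, 0, 0⟩, ⟨0, 0, 0⟩, ⟨0, 0, 0⟩, ⟨14, 4, 0⟩⟩]⟩

theorem mT25_11_33 (x : ℕ) : Magic (11 + 4 * x) (33 + 10 * x) := by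
  have h := Cert.magic (c := cT25_11_33) (by decide +kernel) x 0
  simpa [cT25_11_33, Aff.ev] using h

/-- Certificate for n = 11 + 4 x + 0 y, k = 34 + 10 x + 0 y. -/
def cT25_11_34 : Cert := ⟨⟨11, 4, 0⟩, ⟨34, 10, 0⟩, [
  ⟨1, ⟨11, 2, 0⟩, ⟨1, 0, 0⟩, ⟨1, 1, 0⟩, ⟨22, 6, 0⟩, ⟨13, 3, 0⟩⟩,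
  ⟨0, ⟨20, 6, 0⟩, ⟨0, 0, 0⟩, ⟨0, 0, 0⟩, ⟨0, 0, 0⟩, ⟨2, 1, 0⟩⟩,
  ⟨0, ⟨12, 3, 0⟩, ⟨0, 0, 0⟩, ⟨0, 0, 0⟩, ⟨0, 0, 0⟩, ⟨3, 1, 0⟩⟩,
  ⟨0, ⟨19, 6, 0⟩, ⟨0, 0, 0⟩, ⟨0, 0, 0⟩, ⟨0, 0, 0⟩, ⟨9, 2, 0⟩⟩,
  ⟨0, ⟨6, 2, 0⟩, ⟨0, 0, 0⟩, ⟨0, 0, 0⟩, ⟨0, 0, 0⟩, ⟨21, 6, 0⟩⟩,
  ⟨0, ⟨7, 2, 0⟩, ⟨0, 0, 0⟩, ⟨0, 0, 0⟩, ⟨0, 0, 0⟩, ⟨17, 6, 0⟩⟩,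
  ⟨0, ⟨10, 2, 0⟩, ⟨0, 0, 0⟩, ⟨0, 0, 0⟩, ⟨0, 0, 0⟩, ⟨8, 2, 0⟩⟩,
  ⟨0, ⟨16, 6, 0⟩, ⟨0, 0, 0⟩, ⟨0, 0, 0⟩, ⟨0, 0, 0⟩, ⟨4, 1, 0⟩⟩,
  ⟨1, ⟨14, 3, 0⟩, ⟨5, 1, 0⟩, ⟨1, 1, 0⟩, ⟨15, 4, 0⟩, ⟨18, 6, 0⟩⟩]⟩

theorem mT25_11_34 (x : ℕ) : Magic (11 + 4 * x) (34 + 10 * x) := by
  have h := Cert.magic (c := cT25_11_34) (by decide +kernel) x 0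
  simpa [cT25_11_34, Aff.ev] using h

/-- Certificate for n = 11 + 4 x + 0 y, k = 35 + 10 x + 0 y. -/
def cT25_11_35 : Cert := ⟨⟨11, 4, 0⟩, ⟨35, 10, 0⟩, [
  ⟨1, ⟨9, 2, 0⟩, ⟨4, 0, 0⟩, ⟨1, 1, 0⟩, ⟨22, 6, 0⟩, ⟨21, 6, 0⟩⟩,
  ⟨0, ⟨10, 3, 0⟩, ⟨0, 0, 0⟩, ⟨0, 0, 0⟩, ⟨0, 0, 0⟩, ⟨5, 1, 0⟩⟩,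
  ⟨0, ⟨20, 6, 0⟩, ⟨0, 0, 0⟩, ⟨0, 0, 0⟩, ⟨0, 0, 0⟩, ⟨1, 0, 0⟩⟩,
  ⟨0, ⟨14, 4, 0⟩, ⟨0, 0, 0⟩, ⟨0, 0, 0⟩, ⟨0, 0, 0⟩, ⟨2, 0, 0⟩⟩,
  ⟨0, ⟨19, 6, 0⟩, ⟨0, 0, 0⟩, ⟨0, 0, 0⟩, ⟨0, 0, 0⟩, ⟨3, 0, 0⟩⟩,
  ⟨0, ⟨13, 4, 0⟩, ⟨0, 0, 0⟩, ⟨0, 0, 0⟩, ⟨0, 0, 0⟩, ⟨15, 4, 0⟩⟩,
  ⟨0, ⟨7, 2, 0⟩, ⟨0, 0, 0⟩, ⟨0, 0, 0⟩, ⟨0, 0, 0⟩, ⟨16, 4, 0⟩⟩,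
  ⟨2, ⟨6, 1, 0⟩, ⟨12, 3, 0⟩, ⟨1, 1, 0⟩, ⟨17, 4, 0⟩, ⟨11, 3, 0⟩⟩,
  ⟨0, ⟨18, 6, 0⟩, ⟨0, 0, 0⟩, ⟨0, 0, 0⟩, ⟨0, 0, 0⟩, ⟨8, 2, 0⟩⟩]⟩

theorem mT25_11_35 (x : ℕ) : Magic (11 + 4 * x) (35 + 10 * x) := by
  have h := Cert.magic (c := cT25_11_35) (by decide +kernel) x 0
  simpa [cT25_11_35, Aff.ev] using h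

/-- Certificate for n = 11 + 4 x + 0 y, k = 36 + 10 x + 0 y. -/
def cT25_11_36 : Cert := ⟨⟨11, 4, 0⟩, ⟨36, 10, 0⟩, [
  ⟨1, ⟨10, 2, 0⟩, ⟨4, 0, 0⟩, ⟨1, 1, 0⟩, ⟨22, 6, 0⟩, ⟨21, 6, 0⟩⟩,
  ⟨0, ⟨11, 3, 0⟩, ⟨0, 0, 0⟩, ⟨0, 0, 0⟩, ⟨0, 0, 0⟩, ⟨6, 1, 0⟩⟩,
  ⟨0, ⟨19, 6, 0⟩, ⟨0, 0, 0⟩, ⟨0, 0, 0⟩, ⟨0, 0, 0⟩, ⟨5, 1, 0⟩⟩,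
  ⟨1, ⟨12, 3, 0⟩, ⟨7, 1, 0⟩, ⟨1, 1, 0⟩, ⟨17, 4, 0⟩, ⟨16, 4, 0⟩⟩,
  ⟨0, ⟨13, 4, 0⟩, ⟨0, 0, 0⟩, ⟨0, 0, 0⟩, ⟨0, 0, 0⟩, ⟨9, 2, 0⟩⟩,
  ⟨0, ⟨14, 4, 0⟩, ⟨0, 0, 0⟩, ⟨0, 0, 0⟩, ⟨0, 0, 0⟩, ⟨2, 0, 0⟩⟩,
  ⟨0, ⟨20, 6, 0⟩, ⟨0, 0, 0⟩, ⟨0, 0, 0⟩, ⟨0, 0, 0⟩, ⟨1, 0, 0⟩⟩,
  ⟨0, ⟨15, 4, 0⟩, ⟨0, 0, 0⟩, ⟨0, 0, 0⟩, ⟨0, 0, 0⟩, ⟨3, 0, 0⟩⟩,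
  ⟨0, ⟨18, 6, 0⟩, ⟨0, 0, 0⟩, ⟨0, 0, 0⟩, ⟨0, 0, 0⟩, ⟨8, 2, 0⟩⟩]⟩

theorem mT25_11_36 (x : ℕ) : Magic (11 + 4 * x) (36 + 10 * x) := by
  have h := Cert.magic (c := cT25_11_36) (by decide +kernel) x 0
  simpa [cT25_11_36, Aff.ev] using h

/-- Certificate for n = 12 + 4 x + 0 y, k = 32 + 10 x + 0 y. -/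
def cT25_12_32 : Cert := ⟨⟨12, 4, 0⟩, ⟨32, 10, 0⟩, [
  ⟨1, ⟨6, 2, 0⟩, ⟨2, 0, 0⟩, ⟨1, 1, 0⟩, ⟨24, 6, 0⟩, ⟨22, 6, 0⟩⟩,
  ⟨0, ⟨8, 3, 0⟩, ⟨0, 0, 0⟩, ⟨0, 0, 0⟩, ⟨0, 0, 0⟩, ⟨10, 3, 0⟩⟩,
  ⟨0, ⟨14, 4, 0⟩, ⟨0, 0, 0⟩, ⟨0, 0, 0⟩, ⟨0, 0, 0⟩, ⟨11, 3, 0⟩⟩,
  ⟨0, ⟨7, 3, 0⟩, ⟨0, 0, 0⟩, ⟨0, 0, 0⟩, ⟨0, 0, 0⟩, ⟨16, 4, 0⟩⟩,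
  ⟨0, ⟨9, 3, 0⟩, ⟨0, 0, 0⟩, ⟨0, 0, 0⟩, ⟨0, 0, 0⟩, ⟨20, 6, 0⟩⟩,
  ⟨1, ⟨3, 1, 0⟩, ⟨12, 3, 0⟩, ⟨1, 1, 0⟩, ⟨17, 4, 0⟩, ⟨19, 6, 0⟩⟩,
  ⟨0, ⟨1, 0, 0⟩, ⟨0, 0, 0⟩, ⟨0, 0, 0⟩, ⟨0, 0, 0⟩, ⟨18, 6, 0⟩⟩,
  ⟨0, ⟨13, 4, 0⟩, ⟨0, 0, 0⟩, ⟨0, 0, 0⟩, ⟨0, 0, 0⟩, ⟨15, 4, 0⟩⟩,
  ⟨0, ⟨4, 2, 0⟩, ⟨0, 0, 0⟩, ⟨0, 0, 0⟩, ⟨0, 0, 0⟩, ⟨23, 6, 0⟩⟩,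
  ⟨0, ⟨5, 2, 0⟩, ⟨0, 0, 0⟩, ⟨0, 0, 0⟩, ⟨0, 0, 0⟩, ⟨21, 6, 0⟩⟩]⟩

theorem mT25_12_32 (x : ℕ) : Magic (12 + 4 * x) (32 + 10 * x) := by
  have h := Cert.magic (c := cT25_12_32) (by decide +kernel) x 0
  simpa [cT25_12_32, Aff.ev] using h

/-- Certificate for n = 12 + 4 x + 0 y, k = 33 + 10 x + 0 y. -/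
def cT25_12_33 : Cert := ⟨⟨12, 4, 0⟩, ⟨33, 10, 0⟩, [
  ⟨1, ⟨2, 0, 0⟩, ⟨7, 2, 0⟩, ⟨1, 1, 0⟩, ⟨24, 6, 0⟩, ⟨23, 6, 0⟩⟩,
  ⟨0, ⟨3, 1, 0⟩, ⟨0, 0, 0⟩, ⟨0, 0, 0⟩, ⟨0, 0, 0⟩, ⟨22, 6, 0⟩⟩,
  ⟨0, ⟨8, 3, 0⟩, ⟨0, 0, 0⟩, ⟨0, 0, 0⟩, ⟨0, 0, 0⟩, ⟨21, 6, 0⟩⟩,
  ⟨0, ⟨4, 1, 0⟩, ⟨0, 0, 0⟩, ⟨0, 0, 0⟩, ⟨0, 0, 0⟩, ⟨10, 3, 0⟩⟩,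
  ⟨0, ⟨19, 6, 0⟩, ⟨0, 0, 0⟩, ⟨0, 0, 0⟩, ⟨0, 0, 0⟩, ⟨9, 3, 0⟩⟩,
  ⟨1, ⟨5, 1, 0⟩, ⟨11, 3, 0⟩, ⟨1, 1, 0⟩, ⟨17, 4, 0⟩, ⟨16, 4, 0⟩⟩,
  ⟨0, ⟨6, 2, 0⟩, ⟨0, 0, 0⟩, ⟨0, 0, 0⟩, ⟨0, 0, 0⟩, ⟨15, 4, 0⟩⟩,
  ⟨0, ⟨12, 4, 0⟩, ⟨0, 0, 0⟩, ⟨0, 0, 0⟩, ⟨0, 0, 0⟩, ⟨20, 6, 0⟩⟩,
  ⟨0, ⟨1, 0, 0⟩, ⟨0, 0, 0⟩, ⟨0, 0, 0⟩, ⟨0, 0, 0⟩, ⟨14, 4, 0⟩⟩,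
  ⟨0, ⟨18, 6, 0⟩, ⟨0, 0, 0⟩, ⟨0, 0, 0⟩, ⟨0, 0, 0⟩, ⟨13, 4, 0⟩⟩]⟩

theorem mT25_12_33 (x : ℕ) : Magic (12 + 4 * x) (33 + 10 * x) := by
  have h := Cert.magic (c := cT25_12_33) (by decide +kernel) x 0
  simpa [cT25_12_33, Aff.ev] using h

/-- Certificate for n = 12 + 4 x + 0 y, k = 34 + 10 x + 0 y. -/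
def cT25_12_34 : Cert := ⟨⟨12, 4, 0⟩, ⟨34, 10, 0⟩, [
  ⟨1, ⟨9, 2, 0⟩, ⟨1, 0, 0⟩, ⟨1, 1, 0⟩, ⟨24, 6, 0⟩, ⟨23, 6, 0⟩⟩,
  ⟨0, ⟨10, 3, 0⟩, ⟨0, 0, 0⟩, ⟨0, 0, 0⟩, ⟨0, 0, 0⟩, ⟨22, 6, 0⟩⟩,
  ⟨0, ⟨2, 1, 0⟩, ⟨0, 0, 0⟩, ⟨0, 0, 0⟩, ⟨0, 0, 0⟩, ⟨12, 3, 0⟩⟩,
  ⟨0, ⟨20, 6, 0⟩, ⟨0, 0, 0⟩, ⟨0, 0, 0⟩, ⟨0, 0, 0⟩, ⟨11, 3, 0⟩⟩,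
  ⟨1, ⟨3, 1, 0⟩, ⟨13, 3, 0⟩, ⟨1, 1, 0⟩, ⟨18, 4, 0⟩, ⟨17, 4, 0⟩⟩,
  ⟨0, ⟨4, 2, 0⟩, ⟨0, 0, 0⟩, ⟨0, 0, 0⟩, ⟨0, 0, 0⟩, ⟨16, 4, 0⟩⟩,
  ⟨0, ⟨14, 4, 0⟩, ⟨0, 0, 0⟩, ⟨0, 0, 0⟩, ⟨0, 0, 0⟩, ⟨15, 4, 0⟩⟩,
  ⟨0, ⟨5, 2, 0⟩, ⟨0, 0, 0⟩, ⟨0, 0, 0⟩, ⟨0, 0, 0⟩, ⟨21, 6, 0⟩⟩,
  ⟨0, ⟨8, 2, 0⟩, ⟨0, 0, 0⟩, ⟨0, 0, 0⟩, ⟨0, 0, 0⟩, ⟨7, 2, 0⟩⟩,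
  ⟨0, ⟨19, 6, 0⟩, ⟨0, 0, 0⟩, ⟨0, 0, 0⟩, ⟨0, 0, 0⟩, ⟨6, 2, 0⟩⟩]⟩

theorem mT25_12_34 (x : ℕ) : Magic (12 + 4 * x) (34 + 10 * x) := by
  have h := Cert.magic (c := cT25_12_34) (by decide +kernel) x 0
  simpa [cT25_12_34, Aff.ev] using h

/-- Certificate for n = 12 + 4 x + 0 y, k = 35 + 10 x + 0 y. -/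
def cT25_12_35 : Cert := ⟨⟨12, 4, 0⟩, ⟨35, 10, 0⟩, [
  ⟨1, ⟨10, 2, 0⟩, ⟨1, 0, 0⟩, ⟨1, 1, 0⟩, ⟨24, 6, 0⟩, ⟨11, 3, 0⟩⟩,
  ⟨0, ⟨23, 6, 0⟩, ⟨0, 0, 0⟩, ⟨0, 0, 0⟩, ⟨0, 0, 0⟩, ⟨8, 2, 0⟩⟩,
  ⟨0, ⟨4, 2, 0⟩, ⟨0, 0, 0⟩, ⟨0, 0, 0⟩, ⟨0, 0, 0⟩, ⟨16, 4, 0⟩⟩,
  ⟨2, ⟨3, 1, 0⟩, ⟨15, 3, 0⟩, ⟨1, 1, 0⟩, ⟨17, 4, 0⟩, ⟨13, 3, 0⟩⟩,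
  ⟨0, ⟨19, 6, 0⟩, ⟨0, 0, 0⟩, ⟨0, 0, 0⟩, ⟨0, 0, 0⟩, ⟨14, 3, 0⟩⟩,
  ⟨0, ⟨2, 1, 0⟩, ⟨0, 0, 0⟩, ⟨0, 0, 0⟩, ⟨0, 0, 0⟩, ⟨12, 3, 0⟩⟩,
  ⟨0, ⟨21, 6, 0⟩, ⟨0, 0, 0⟩, ⟨0, 0, 0⟩, ⟨0, 0, 0⟩, ⟨5, 2, 0⟩⟩,
  ⟨0, ⟨9, 2, 0⟩, ⟨0, 0, 0⟩, ⟨0, 0, 0⟩, ⟨0, 0, 0⟩, ⟨20, 6, 0⟩⟩,
  ⟨0, ⟨6, 2, 0⟩, ⟨0, 0, 0⟩, ⟨0, 0, 0⟩, ⟨0, 0, 0⟩, ⟨22, 6, 0⟩⟩,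
  ⟨0, ⟨7, 2, 0⟩, ⟨0, 0, 0⟩, ⟨0, 0, 0⟩, ⟨0, 0, 0⟩, ⟨18, 6, 0⟩⟩]⟩

theorem mT25_12_35 (x : ℕ) : Magic (12 + 4 * x) (35 + 10 * x) := by
  have h := Cert.magic (c := cT25_12_35) (by decide +kernel) x 0
  simpa [cT25_12_35, Aff.ev] using h

/-- Certificate for n = 12 + 4 x + 0 y, k = 36 + 10 x + 0 y. -/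
def cT25_12_36 : Cert := ⟨⟨12, 4, 0⟩, ⟨36, 10, 0⟩, [
  ⟨1, ⟨11, 2, 0⟩, ⟨1, 0, 0⟩, ⟨1, 1, 0⟩, ⟨24, 6, 0⟩, ⟨13, 3, 0⟩⟩,
  ⟨0, ⟨22, 6, 0⟩, ⟨0, 0, 0⟩, ⟨0, 0, 0⟩, ⟨0, 0, 0⟩, ⟨2, 1, 0⟩⟩,
  ⟨0, ⟨12, 3, 0⟩, ⟨0, 0, 0⟩, ⟨0, 0, 0⟩, ⟨0, 0, 0⟩, ⟨3, 1, 0⟩⟩,
  ⟨0, ⟨21, 6, 0⟩, ⟨0, 0, 0⟩, ⟨0, 0, 0⟩, ⟨0, 0, 0⟩, ⟨9, 2, 0⟩⟩,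
  ⟨0, ⟨6, 2, 0⟩, ⟨0, 0, 0⟩, ⟨0, 0, 0⟩, ⟨0, 0, 0⟩, ⟨23, 6, 0⟩⟩,
  ⟨0, ⟨7, 2, 0⟩, ⟨0, 0, 0⟩, ⟨0, 0, 0⟩, ⟨0, 0, 0⟩, ⟨19, 6, 0⟩⟩,
  ⟨0, ⟨10, 2, 0⟩, ⟨0, 0, 0⟩, ⟨0, 0, 0⟩, ⟨0, 0, 0⟩, ⟨8, 2, 0⟩⟩,
  ⟨0, ⟨18, 6, 0⟩, ⟨0, 0, 0⟩, ⟨0, 0, 0⟩, ⟨0, 0, 0⟩, ⟨14, 3, 0⟩⟩,
  ⟨1, ⟨4, 1, 0⟩, ⟨15, 3, 0⟩, ⟨1, 1, 0⟩, ⟨17, 4, 0⟩, ⟨16, 4, 0⟩⟩,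
  ⟨0, ⟨5, 2, 0⟩, ⟨0, 0, 0⟩, ⟨0, 0, 0⟩, ⟨0, 0, 0⟩, ⟨20, 6, 0⟩⟩]⟩

theorem mT25_12_36 (x : ℕ) : Magic (12 + 4 * x) (36 + 10 * x) := by
  have h := Cert.magic (c := cT25_12_36) (by decide +kernel) x 0
  simpa [cT25_12_36, Aff.ev] using h

/-- Certificate for n = 12 + 4 x + 0 y, k = 37 + 10 x + 0 y. -/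
def cT25_12_37 : Cert := ⟨⟨12, 4, 0⟩, ⟨37, 10, 0⟩, [
  ⟨1, ⟨12, 2, 0⟩, ⟨1, 0, 0⟩, ⟨1, 1, 0⟩, ⟨24, 6, 0⟩, ⟨15, 3, 0⟩⟩,
  ⟨0, ⟨21, 6, 0⟩, ⟨0, 0, 0⟩, ⟨0, 0, 0⟩, ⟨0, 0, 0⟩, ⟨13, 3, 0⟩⟩,
  ⟨0, ⟨3, 1, 0⟩, ⟨0, 0, 0⟩, ⟨0, 0, 0⟩, ⟨0, 0, 0⟩, ⟨14, 3, 0⟩⟩,
  ⟨0, ⟨20, 6, 0⟩, ⟨0, 0, 0⟩, ⟨0, 0, 0⟩, ⟨0, 0, 0⟩, ⟨8, 2, 0⟩⟩,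
  ⟨0, ⟨9, 2, 0⟩, ⟨0, 0, 0⟩, ⟨0, 0, 0⟩, ⟨0, 0, 0⟩, ⟨6, 2, 0⟩⟩,
  ⟨0, ⟨22, 6, 0⟩, ⟨0, 0, 0⟩, ⟨0, 0, 0⟩, ⟨0, 0, 0⟩, ⟨5, 2, 0⟩⟩,
  ⟨0, ⟨10, 2, 0⟩, ⟨0, 0, 0⟩, ⟨0, 0, 0⟩, ⟨0, 0, 0⟩, ⟨23, 6, 0⟩⟩,
  ⟨2, ⟨16, 3, 0⟩, ⟨4, 1, 0⟩, ⟨1, 1, 0⟩, ⟨17, 4, 0⟩, ⟨2, 1, 0⟩⟩,
  ⟨0, ⟨19, 6, 0⟩, ⟨0, 0, 0⟩, ⟨0, 0, 0⟩, ⟨0, 0, 0⟩, ⟨11, 2, 0⟩⟩,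
  ⟨0, ⟨7, 2, 0⟩, ⟨0, 0, 0⟩, ⟨0, 0, 0⟩, ⟨0, 0, 0⟩, ⟨18, 6, 0⟩⟩]⟩

theorem mT25_12_37 (x : ℕ) : Magic (12 + 4 * x) (37 + 10 * x) := by
  have h := Cert.magic (c := cT25_12_37) (by decide +kernel) x 0
  simpa [cT25_12_37, Aff.ev] using h

/-- Certificate for n = 12 + 4 x + 0 y, k = 38 + 10 x + 0 y. -/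
def cT25_12_38 : Cert := ⟨⟨12, 4, 0⟩, ⟨38, 10, 0⟩, [
  ⟨1, ⟨13, 2, 0⟩, ⟨1, 0, 0⟩, ⟨1, 1, 0⟩, ⟨24, 6, 0⟩, ⟨15, 3, 0⟩⟩,
  ⟨0, ⟨22, 6, 0⟩, ⟨0, 0, 0⟩, ⟨0, 0, 0⟩, ⟨0, 0, 0⟩, ⟨6, 2, 0⟩⟩,
  ⟨0, ⟨10, 2, 0⟩, ⟨0, 0, 0⟩, ⟨0, 0, 0⟩, ⟨0, 0, 0⟩, ⟨23, 6, 0⟩⟩,
  ⟨2, ⟨16, 3, 0⟩, ⟨5, 1, 0⟩, ⟨1, 1, 0⟩, ⟨17, 4, 0⟩, ⟨2, 1, 0⟩⟩,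
  ⟨0, ⟨20, 6, 0⟩, ⟨0, 0, 0⟩, ⟨0, 0, 0⟩, ⟨0, 0, 0⟩, ⟨4, 1, 0⟩⟩,
  ⟨0, ⟨14, 3, 0⟩, ⟨0, 0, 0⟩, ⟨0, 0, 0⟩, ⟨0, 0, 0⟩, ⟨3, 1, 0⟩⟩,
  ⟨0, ⟨21, 6, 0⟩, ⟨0, 0, 0⟩, ⟨0, 0, 0⟩, ⟨0, 0, 0⟩, ⟨9, 2, 0⟩⟩,
  ⟨0, ⟨8, 2, 0⟩, ⟨0, 0, 0⟩, ⟨0, 0, 0⟩, ⟨0, 0, 0⟩, ⟨11, 2, 0⟩⟩,
  ⟨0, ⟨19, 6, 0⟩, ⟨0, 0, 0⟩, ⟨0, 0, 0⟩, ⟨0, 0, 0⟩, ⟨12, 2, 0⟩⟩,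
  ⟨0, ⟨7, 2, 0⟩, ⟨0, 0, 0⟩, ⟨0, 0, 0⟩, ⟨0, 0, 0⟩, ⟨18, 6, 0⟩⟩]⟩

theorem mT25_12_38 (x : ℕ) : Magic (12 + 4 * x) (38 + 10 * x) := by
  have h := Cert.magic (c := cT25_12_38) (by decide +kernel) x 0
  simpa [cT25_12_38, Aff.ev] using h

/-- Certificate for n = 12 + 4 x + 0 y, k = 39 + 10 x + 0 y. -/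
def cT25_12_39 : Cert := ⟨⟨12, 4, 0⟩, ⟨39, 10, 0⟩, [
  ⟨1, ⟨5, 0, 0⟩, ⟨10, 2, 0⟩, ⟨1, 1, 0⟩, ⟨24, 6, 0⟩, ⟨23, 6, 0⟩⟩,
  ⟨0, ⟨6, 1, 0⟩, ⟨0, 0, 0⟩, ⟨0, 0, 0⟩, ⟨0, 0, 0⟩, ⟨12, 3, 0⟩⟩,
  ⟨0, ⟨21, 6, 0⟩, ⟨0, 0, 0⟩, ⟨0, 0, 0⟩, ⟨0, 0, 0⟩, ⟨7, 1, 0⟩⟩,
  ⟨0, ⟨11, 3, 0⟩, ⟨0, 0, 0⟩, ⟨0, 0, 0⟩, ⟨0, 0, 0⟩, ⟨15, 4, 0⟩⟩,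
  ⟨1, ⟨13, 3, 0⟩, ⟨8, 1, 0⟩, ⟨1, 1, 0⟩, ⟨18, 4, 0⟩, ⟨9, 2, 0⟩⟩,
  ⟨0, ⟨22, 6, 0⟩, ⟨0, 0, 0⟩, ⟨0, 0, 0⟩, ⟨0, 0, 0⟩, ⟨1, 0, 0⟩⟩,
  ⟨0, ⟨16, 4, 0⟩, ⟨0, 0, 0⟩, ⟨0, 0, 0⟩, ⟨0, 0, 0⟩, ⟨4, 0, 0⟩⟩,
  ⟨0, ⟨19, 6, 0⟩, ⟨0, 0, 0⟩, ⟨0, 0, 0⟩, ⟨0, 0, 0⟩, ⟨3, 0, 0⟩⟩,
  ⟨0, ⟨17, 4, 0⟩, ⟨0, 0, 0⟩, ⟨0, 0, 0⟩, ⟨0, 0, 0⟩, ⟨2, 0, 0⟩⟩,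
  ⟨0, ⟨20, 6, 0⟩, ⟨0, 0, 0⟩, ⟨0, 0, 0⟩, ⟨0, 0, 0⟩, ⟨14, 4, 0⟩⟩]⟩

theorem mT25_12_39 (x : ℕ) : Magic (12 + 4 * x) (39 + 10 * x) := by
  have h := Cert.magic (c := cT25_12_39) (by decide +kernel) x 0
  simpa [cT25_12_39, Aff.ev] using h

/-- Certificate for n = 13 + 4 x + 0 y, k = 34 + 10 x + 0 y. -/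
def cT25_13_34 : Cert := ⟨⟨13, 4, 0⟩, ⟨34, 10, 0⟩, [
  ⟨1, ⟨7, 2, 0⟩, ⟨1, 0, 0⟩, ⟨1, 1, 0⟩, ⟨26, 6, 0⟩, ⟨25, 6, 0⟩⟩,
  ⟨1, ⟨8, 3, 0⟩, ⟨2, 1, 0⟩, ⟨1, 1, 0⟩, ⟨24, 4, 0⟩, ⟨23, 4, 0⟩⟩,
  ⟨0, ⟨9, 4, 0⟩, ⟨0, 0, 0⟩, ⟨0, 0, 0⟩, ⟨0, 0, 0⟩, ⟨22, 4, 0⟩⟩,
  ⟨0, ⟨3, 2, 0⟩, ⟨0, 0, 0⟩, ⟨0, 0, 0⟩, ⟨0, 0, 0⟩, ⟨21, 4, 0⟩⟩,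
  ⟨0, ⟨10, 4, 0⟩, ⟨0, 0, 0⟩, ⟨0, 0, 0⟩, ⟨0, 0, 0⟩, ⟨20, 4, 0⟩⟩,
  ⟨0, ⟨4, 2, 0⟩, ⟨0, 0, 0⟩, ⟨0, 0, 0⟩, ⟨0, 0, 0⟩, ⟨19, 4, 0⟩⟩,
  ⟨0, ⟨11, 4, 0⟩, ⟨0, 0, 0⟩, ⟨0, 0, 0⟩, ⟨0, 0, 0⟩, ⟨18, 4, 0⟩⟩,
  ⟨0, ⟨5, 2, 0⟩, ⟨0, 0, 0⟩, ⟨0, 0, 0⟩, ⟨0, 0, 0⟩, ⟨17, 4, 0⟩⟩,
  ⟨0, ⟨12, 4, 0⟩, ⟨0, 0, 0⟩, ⟨0, 0, 0⟩, ⟨0, 0, 0⟩, ⟨16, 4, 0⟩⟩,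
  ⟨0, ⟨6, 2, 0⟩, ⟨0, 0, 0⟩, ⟨0, 0, 0⟩, ⟨0, 0, 0⟩, ⟨15, 4, 0⟩⟩,
  ⟨0, ⟨13, 4, 0⟩, ⟨0, 0, 0⟩, ⟨0, 0, 0⟩, ⟨0, 0, 0⟩, ⟨14, 4, 0⟩⟩]⟩

theorem mT25_13_34 (x : ℕ) : Magic (13 + 4 * x) (34 + 10 * x) := by
  have h := Cert.magic (c := cT25_13_34) (by decide +kernel) x 0
  simpa [cT25_13_34, Aff.ev] using h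

/-- Certificate for n = 13 + 4 x + 0 y, k = 35 + 10 x + 0 y. -/
def cT25_13_35 : Cert := ⟨⟨13, 4, 0⟩, ⟨35, 10, 0⟩, [
  ⟨1, ⟨3, 0, 0⟩, ⟨9, 2, 0⟩, ⟨1, 1, 0⟩, ⟨23, 6, 0⟩, ⟨22, 6, 0⟩⟩,
  ⟨0, ⟨4, 1, 0⟩, ⟨0, 0, 0⟩, ⟨0, 0, 0⟩, ⟨0, 0, 0⟩, ⟨11, 3, 0⟩⟩,
  ⟨0, ⟨20, 6, 0⟩, ⟨0, 0, 0⟩, ⟨0, 0, 0⟩, ⟨0, 0, 0⟩, ⟨10, 3, 0⟩⟩,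
  ⟨0, ⟨5, 1, 0⟩, ⟨0, 0, 0⟩, ⟨0, 0, 0⟩, ⟨0, 0, 0⟩, ⟨24, 8, 0⟩⟩,
  ⟨1, ⟨6, 1, 0⟩, ⟨12, 3, 0⟩, ⟨1, 1, 0⟩, ⟨17, 4, 0⟩, ⟨16, 4, 0⟩⟩,
  ⟨0, ⟨7, 2, 0⟩, ⟨0, 0, 0⟩, ⟨0, 0, 0⟩, ⟨0, 0, 0⟩, ⟨15, 4, 0⟩⟩,
  ⟨0, ⟨13, 4, 0⟩, ⟨0, 0, 0⟩, ⟨0, 0, 0⟩, ⟨0, 0, 0⟩, ⟨21, 6, 0⟩⟩,
  ⟨0, ⟨1, 0, 0⟩, ⟨0, 0, 0⟩, ⟨0, 0, 0⟩, ⟨0, 0, 0⟩, ⟨26, 8, 0⟩⟩,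
  ⟨0, ⟨8, 2, 0⟩, ⟨0, 0, 0⟩, ⟨0, 0, 0⟩, ⟨0, 0, 0⟩, ⟨25, 8, 0⟩⟩,
  ⟨0, ⟨2, 0, 0⟩, ⟨0, 0, 0⟩, ⟨0, 0, 0⟩, ⟨0, 0, 0⟩, ⟨19, 6, 0⟩⟩,
  ⟨0, ⟨14, 4, 0⟩, ⟨0, 0, 0⟩, ⟨0, 0, 0⟩, ⟨0, 0, 0⟩, ⟨18, 6, 0⟩⟩]⟩

theorem mT25_13_35 (x : ℕ) : Magic (13 + 4 * x) (35 + 10 * x) := by
  have h := Cert.magic (c := cT25_13_35) (by decide +kernel) x 0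
  simpa [cT25_13_35, Aff.ev] using h

/-- Certificate for n = 13 + 4 x + 0 y, k = 36 + 10 x + 0 y. -/
def cT25_13_36 : Cert := ⟨⟨13, 4, 0⟩, ⟨36, 10, 0⟩, [
  ⟨1, ⟨8, 2, 0⟩, ⟨2, 0, 0⟩, ⟨1, 1, 0⟩, ⟨26, 6, 0⟩, ⟨25, 6, 0⟩⟩,
  ⟨0, ⟨9, 3, 0⟩, ⟨0, 0, 0⟩, ⟨0, 0, 0⟩, ⟨0, 0, 0⟩, ⟨24, 6, 0⟩⟩,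
  ⟨0, ⟨3, 1, 0⟩, ⟨0, 0, 0⟩, ⟨0, 0, 0⟩, ⟨0, 0, 0⟩, ⟨22, 6, 0⟩⟩,
  ⟨0, ⟨11, 3, 0⟩, ⟨0, 0, 0⟩, ⟨0, 0, 0⟩, ⟨0, 0, 0⟩, ⟨10, 3, 0⟩⟩,
  ⟨0, ⟨15, 4, 0⟩, ⟨0, 0, 0⟩, ⟨0, 0, 0⟩, ⟨0, 0, 0⟩, ⟨1, 0, 0⟩⟩,
  ⟨0, ⟨20, 6, 0⟩, ⟨0, 0, 0⟩, ⟨0, 0, 0⟩, ⟨0, 0, 0⟩, ⟨12, 3, 0⟩⟩,
  ⟨1, ⟨4, 1, 0⟩, ⟨13, 3, 0⟩, ⟨1, 1, 0⟩, ⟨19, 4, 0⟩, ⟨18, 4, 0⟩⟩,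
  ⟨0, ⟨5, 2, 0⟩, ⟨0, 0, 0⟩, ⟨0, 0, 0⟩, ⟨0, 0, 0⟩, ⟨17, 4, 0⟩⟩,
  ⟨0, ⟨14, 4, 0⟩, ⟨0, 0, 0⟩, ⟨0, 0, 0⟩, ⟨0, 0, 0⟩, ⟨16, 4, 0⟩⟩,
  ⟨0, ⟨6, 2, 0⟩, ⟨0, 0, 0⟩, ⟨0, 0, 0⟩, ⟨0, 0, 0⟩, ⟨23, 6, 0⟩⟩,
  ⟨0, ⟨7, 2, 0⟩, ⟨0, 0, 0⟩, ⟨0, 0, 0⟩, ⟨0, 0, 0⟩, ⟨21, 6, 0⟩⟩]⟩

theorem mT25_13_36 (x : ℕ) : Magic (13 + 4 * x) (36 + 10 * x) := by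
  have h := Cert.magic (c := cT25_13_36) (by decide +kernel) x 0
  simpa [cT25_13_36, Aff.ev] using h

/-- Certificate for n = 13 + 4 x + 0 y, k = 37 + 10 x + 0 y. -/
def cT25_13_37 : Cert := ⟨⟨13, 4, 0⟩, ⟨37, 10, 0⟩, [
  ⟨1, ⟨10, 2, 0⟩, ⟨1, 0, 0⟩, ⟨1, 1, 0⟩, ⟨26, 6, 0⟩, ⟨25, 6, 0⟩⟩,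
  ⟨0, ⟨11, 3, 0⟩, ⟨0, 0, 0⟩, ⟨0, 0, 0⟩, ⟨0, 0, 0⟩, ⟨24, 6, 0⟩⟩,
  ⟨0, ⟨2, 1, 0⟩, ⟨0, 0, 0⟩, ⟨0, 0, 0⟩, ⟨0, 0, 0⟩, ⟨23, 6, 0⟩⟩,
  ⟨0, ⟨12, 3, 0⟩, ⟨0, 0, 0⟩, ⟨0, 0, 0⟩, ⟨0, 0, 0⟩, ⟨3, 1, 0⟩⟩,
  ⟨0, ⟨22, 6, 0⟩, ⟨0, 0, 0⟩, ⟨0, 0, 0⟩, ⟨0, 0, 0⟩, ⟨7, 2, 0⟩⟩,
  ⟨0, ⟨8, 2, 0⟩, ⟨0, 0, 0⟩, ⟨0, 0, 0⟩, ⟨0, 0, 0⟩, ⟨9, 2, 0⟩⟩,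
  ⟨0, ⟨20, 6, 0⟩, ⟨0, 0, 0⟩, ⟨0, 0, 0⟩, ⟨0, 0, 0⟩, ⟨13, 3, 0⟩⟩,
  ⟨1, ⟨4, 1, 0⟩, ⟨14, 3, 0⟩, ⟨1, 1, 0⟩, ⟨19, 4, 0⟩, ⟨18, 4, 0⟩⟩,
  ⟨0, ⟨5, 2, 0⟩, ⟨0, 0, 0⟩, ⟨0, 0, 0⟩, ⟨0, 0, 0⟩, ⟨17, 4, 0⟩⟩,
  ⟨0, ⟨15, 4, 0⟩, ⟨0, 0, 0⟩, ⟨0, 0, 0⟩, ⟨0, 0, 0⟩, ⟨16, 4, 0⟩⟩,
  ⟨0, ⟨6, 2, 0⟩, ⟨0, 0, 0⟩, ⟨0, 0, 0⟩, ⟨0, 0, 0⟩, ⟨21, 6, 0⟩⟩]⟩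

theorem mT25_13_37 (x : ℕ) : Magic (13 + 4 * x) (37 + 10 * x) := by
  have h := Cert.magic (c := cT25_13_37) (by decide +kernel) x 0
  simpa [cT25_13_37, Aff.ev] using h

/-- Certificate for n = 13 + 4 x + 0 y, k = 38 + 10 x + 0 y. -/
def cT25_13_38 : Cert := ⟨⟨13, 4, 0⟩, ⟨38, 10, 0⟩, [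
  ⟨1, ⟨11, 2, 0⟩, ⟨1, 0, 0⟩, ⟨1, 1, 0⟩, ⟨26, 6, 0⟩, ⟨25, 6, 0⟩⟩,
  ⟨0, ⟨12, 3, 0⟩, ⟨0, 0, 0⟩, ⟨0, 0, 0⟩, ⟨0, 0, 0⟩, ⟨24, 6, 0⟩⟩,
  ⟨0, ⟨2, 1, 0⟩, ⟨0, 0, 0⟩, ⟨0, 0, 0⟩, ⟨0, 0, 0⟩, ⟨14, 3, 0⟩⟩,
  ⟨0, ⟨22, 6, 0⟩, ⟨0, 0, 0⟩, ⟨0, 0, 0⟩, ⟨0, 0, 0⟩, ⟨13, 3, 0⟩⟩,
  ⟨1, ⟨3, 1, 0⟩, ⟨15, 3, 0⟩, ⟨1, 1, 0⟩, ⟨20, 4, 0⟩, ⟨19, 4, 0⟩⟩,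
  ⟨0, ⟨4, 2, 0⟩, ⟨0, 0, 0⟩, ⟨0, 0, 0⟩, ⟨0, 0, 0⟩, ⟨18, 4, 0⟩⟩,
  ⟨0, ⟨16, 4, 0⟩, ⟨0, 0, 0⟩, ⟨0, 0, 0⟩, ⟨0, 0, 0⟩, ⟨17, 4, 0⟩⟩,
  ⟨0, ⟨5, 2, 0⟩, ⟨0, 0, 0⟩, ⟨0, 0, 0⟩, ⟨0, 0, 0⟩, ⟨10, 2, 0⟩⟩,
  ⟨0, ⟨23, 6, 0⟩, ⟨0, 0, 0⟩, ⟨0, 0, 0⟩, ⟨0, 0, 0⟩, ⟨7, 2, 0⟩⟩,
  ⟨0, ⟨8, 2, 0⟩, ⟨0, 0, 0⟩, ⟨0, 0, 0⟩, ⟨0, 0, 0⟩, ⟨9, 2, 0⟩⟩,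
  ⟨0, ⟨21, 6, 0⟩, ⟨0, 0, 0⟩, ⟨0, 0, 0⟩, ⟨0, 0, 0⟩, ⟨6, 2, 0⟩⟩]⟩

theorem mT25_13_38 (x : ℕ) : Magic (13 + 4 * x) (38 + 10 * x) := by
  have h := Cert.magic (c := cT25_13_38) (by decide +kernel) x 0
  simpa [cT25_13_38, Aff.ev] using h

/-- Certificate for n = 13 + 4 x + 0 y, k = 39 + 10 x + 0 y. -/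
def cT25_13_39 : Cert := ⟨⟨13, 4, 0⟩, ⟨39, 10, 0⟩, [
  ⟨1, ⟨12, 2, 0⟩, ⟨1, 0, 0⟩, ⟨1, 1, 0⟩, ⟨26, 6, 0⟩, ⟨14, 3, 0⟩⟩,
  ⟨0, ⟨24, 6, 0⟩, ⟨0, 0, 0⟩, ⟨0, 0, 0⟩, ⟨0, 0, 0⟩, ⟨13, 3, 0⟩⟩,
  ⟨0, ⟨2, 1, 0⟩, ⟨0, 0, 0⟩, ⟨0, 0, 0⟩, ⟨0, 0, 0⟩, ⟨16, 3, 0⟩⟩,
  ⟨0, ⟨21, 6, 0⟩, ⟨0, 0, 0⟩, ⟨0, 0, 0⟩, ⟨0, 0, 0⟩, ⟨15, 3, 0⟩⟩,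
  ⟨1, ⟨3, 1, 0⟩, ⟨17, 3, 0⟩, ⟨1, 1, 0⟩, ⟨19, 4, 0⟩, ⟨18, 4, 0⟩⟩,
  ⟨0, ⟨4, 2, 0⟩, ⟨0, 0, 0⟩, ⟨0, 0, 0⟩, ⟨0, 0, 0⟩, ⟨10, 2, 0⟩⟩,
  ⟨0, ⟨25, 6, 0⟩, ⟨0, 0, 0⟩, ⟨0, 0, 0⟩, ⟨0, 0, 0⟩, ⟨8, 2, 0⟩⟩,
  ⟨0, ⟨6, 2, 0⟩, ⟨0, 0, 0⟩, ⟨0, 0, 0⟩, ⟨0, 0, 0⟩, ⟨22, 6, 0⟩⟩,
  ⟨0, ⟨11, 2, 0⟩, ⟨0, 0, 0⟩, ⟨0, 0, 0⟩, ⟨0, 0, 0⟩, ⟨5, 2, 0⟩⟩,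
  ⟨0, ⟨23, 6, 0⟩, ⟨0, 0, 0⟩, ⟨0, 0, 0⟩, ⟨0, 0, 0⟩, ⟨9, 2, 0⟩⟩,
  ⟨0, ⟨7, 2, 0⟩, ⟨0, 0, 0⟩, ⟨0, 0, 0⟩, ⟨0, 0, 0⟩, ⟨20, 6, 0⟩⟩]⟩

theorem mT25_13_39 (x : ℕ) : Magic (13 + 4 * x) (39 + 10 * x) := by
  have h := Cert.magic (c := cT25_13_39) (by decide +kernel) x 0
  simpa [cT25_13_39, Aff.ev] using h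

/-- Certificate for n = 13 + 4 x + 0 y, k = 40 + 10 x + 0 y. -/
def cT25_13_40 : Cert := ⟨⟨13, 4, 0⟩, ⟨40, 10, 0⟩, [
  ⟨1, ⟨1, 0, 0⟩, ⟨13, 2, 0⟩, ⟨1, 1, 0⟩, ⟨26, 6, 0⟩, ⟨3, 1, 0⟩⟩,
  ⟨0, ⟨24, 6, 0⟩, ⟨0, 0, 0⟩, ⟨0, 0, 0⟩, ⟨0, 0, 0⟩, ⟨14, 3, 0⟩⟩,
  ⟨0, ⟨2, 1, 0⟩, ⟨0, 0, 0⟩, ⟨0, 0, 0⟩, ⟨0, 0, 0⟩, ⟨15, 3, 0⟩⟩,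
  ⟨0, ⟨23, 6, 0⟩, ⟨0, 0, 0⟩, ⟨0, 0, 0⟩, ⟨0, 0, 0⟩, ⟨7, 2, 0⟩⟩,
  ⟨0, ⟨10, 2, 0⟩, ⟨0, 0, 0⟩, ⟨0, 0, 0⟩, ⟨0, 0, 0⟩, ⟨8, 2, 0⟩⟩,
  ⟨0, ⟨22, 6, 0⟩, ⟨0, 0, 0⟩, ⟨0, 0, 0⟩, ⟨0, 0, 0⟩, ⟨12, 2, 0⟩⟩,
  ⟨0, ⟨6, 2, 0⟩, ⟨0, 0, 0⟩, ⟨0, 0, 0⟩, ⟨0, 0, 0⟩, ⟨25, 6, 0⟩⟩,
  ⟨0, ⟨9, 2, 0⟩, ⟨0, 0, 0⟩, ⟨0, 0, 0⟩, ⟨0, 0, 0⟩, ⟨11, 2, 0⟩⟩,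
  ⟨0, ⟨20, 6, 0⟩, ⟨0, 0, 0⟩, ⟨0, 0, 0⟩, ⟨0, 0, 0⟩, ⟨16, 3, 0⟩⟩,
  ⟨1, ⟨4, 1, 0⟩, ⟨17, 3, 0⟩, ⟨1, 1, 0⟩, ⟨19, 4, 0⟩, ⟨5, 2, 0⟩⟩,
  ⟨0, ⟨18, 4, 0⟩, ⟨0, 0, 0⟩, ⟨0, 0, 0⟩, ⟨0, 0, 0⟩, ⟨21, 6, 0⟩⟩]⟩

theorem mT25_13_40 (x : ℕ) : Magic (13 + 4 * x) (40 + 10 * x) := by
  have h := Cert.magic (c := cT25_13_40) (by decide +kernel) x 0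
  simpa [cT25_13_40, Aff.ev] using h

/-- Certificate for n = 13 + 4 x + 0 y, k = 41 + 10 x + 0 y. -/
def cT25_13_41 : Cert := ⟨⟨13, 4, 0⟩, ⟨41, 10, 0⟩, [
  ⟨1, ⟨1, 0, 0⟩, ⟨14, 2, 0⟩, ⟨1, 1, 0⟩, ⟨26, 6, 0⟩, ⟨3, 1, 0⟩⟩,
  ⟨0, ⟨24, 6, 0⟩, ⟨0, 0, 0⟩, ⟨0, 0, 0⟩, ⟨0, 0, 0⟩, ⟨15, 3, 0⟩⟩,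
  ⟨0, ⟨2, 1, 0⟩, ⟨0, 0, 0⟩, ⟨0, 0, 0⟩, ⟨0, 0, 0⟩, ⟨16, 3, 0⟩⟩,
  ⟨0, ⟨23, 6, 0⟩, ⟨0, 0, 0⟩, ⟨0, 0, 0⟩, ⟨0, 0, 0⟩, ⟨12, 2, 0⟩⟩,
  ⟨0, ⟨6, 2, 0⟩, ⟨0, 0, 0⟩, ⟨0, 0, 0⟩, ⟨0, 0, 0⟩, ⟨10, 2, 0⟩⟩,
  ⟨0, ⟨25, 6, 0⟩, ⟨0, 0, 0⟩, ⟨0, 0, 0⟩, ⟨0, 0, 0⟩, ⟨5, 2, 0⟩⟩,
  ⟨0, ⟨11, 2, 0⟩, ⟨0, 0, 0⟩, ⟨0, 0, 0⟩, ⟨0, 0, 0⟩, ⟨9, 2, 0⟩⟩,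
  ⟨0, ⟨21, 6, 0⟩, ⟨0, 0, 0⟩, ⟨0, 0, 0⟩, ⟨0, 0, 0⟩, ⟨7, 2, 0⟩⟩,
  ⟨0, ⟨13, 2, 0⟩, ⟨0, 0, 0⟩, ⟨0, 0, 0⟩, ⟨0, 0, 0⟩, ⟨8, 2, 0⟩⟩,
  ⟨0, ⟨20, 6, 0⟩, ⟨0, 0, 0⟩, ⟨0, 0, 0⟩, ⟨0, 0, 0⟩, ⟨17, 3, 0⟩⟩,
  ⟨1, ⟨4, 1, 0⟩, ⟨18, 3, 0⟩, ⟨1, 1, 0⟩, ⟨19, 4, 0⟩, ⟨22, 6, 0⟩⟩]⟩

theorem mT25_13_41 (x : ℕ) : Magic (13 + 4 * x) (41 + 10 * x) := by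
  have h := Cert.magic (c := cT25_13_41) (by decide +kernel) x 0
  simpa [cT25_13_41, Aff.ev] using h

/-- Certificate for n = 14 + 4 x + 0 y, k = 37 + 10 x + 0 y. -/
def cT25_14_37 : Cert := ⟨⟨14, 4, 0⟩, ⟨37, 10, 0⟩, [
  ⟨1, ⟨8, 2, 0⟩, ⟨1, 0, 0⟩, ⟨1, 1, 0⟩, ⟨28, 6, 0⟩, ⟨24, 6, 0⟩⟩,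
  ⟨0, ⟨12, 3, 0⟩, ⟨0, 0, 0⟩, ⟨0, 0, 0⟩, ⟨0, 0, 0⟩, ⟨23, 6, 0⟩⟩,
  ⟨1, ⟨2, 1, 0⟩, ⟨14, 3, 0⟩, ⟨1, 1, 0⟩, ⟨21, 4, 0⟩, ⟨20, 4, 0⟩⟩,
  ⟨0, ⟨3, 2, 0⟩, ⟨0, 0, 0⟩, ⟨0, 0, 0⟩, ⟨0, 0, 0⟩, ⟨19, 4, 0⟩⟩,
  ⟨0, ⟨15, 4, 0⟩, ⟨0, 0, 0⟩, ⟨0, 0, 0⟩, ⟨0, 0, 0⟩, ⟨13, 3, 0⟩⟩,
  ⟨0, ⟨9, 3, 0⟩, ⟨0, 0, 0⟩, ⟨0, 0, 0⟩, ⟨0, 0, 0⟩, ⟨18, 4, 0⟩⟩,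
  ⟨0, ⟨10, 3, 0⟩, ⟨0, 0, 0⟩, ⟨0, 0, 0⟩, ⟨0, 0, 0⟩, ⟨11, 3, 0⟩⟩,
  ⟨0, ⟨16, 4, 0⟩, ⟨0, 0, 0⟩, ⟨0, 0, 0⟩, ⟨0, 0, 0⟩, ⟨17, 4, 0⟩⟩,
  ⟨0, ⟨4, 2, 0⟩, ⟨0, 0, 0⟩, ⟨0, 0, 0⟩, ⟨0, 0, 0⟩, ⟨27, 6, 0⟩⟩,
  ⟨0, ⟨6, 2, 0⟩, ⟨0, 0, 0⟩, ⟨0, 0, 0⟩, ⟨0, 0, 0⟩, ⟨26, 6, 0⟩⟩,
  ⟨0, ⟨5, 2, 0⟩, ⟨0, 0, 0⟩, ⟨0, 0, 0⟩, ⟨0, 0, 0⟩, ⟨25, 6, 0⟩⟩,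
  ⟨0, ⟨7, 2, 0⟩, ⟨0, 0, 0⟩, ⟨0, 0, 0⟩, ⟨0, 0, 0⟩, ⟨22, 6, 0⟩⟩]⟩

theorem mT25_14_37 (x : ℕ) : Magic (14 + 4 * x) (37 + 10 * x) := by
  have h := Cert.magic (c := cT25_14_37) (by decide +kernel) x 0
  simpa [cT25_14_37, Aff.ev] using h

/-- Certificate for n = 14 + 4 x + 0 y, k = 38 + 10 x + 0 y. -/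
def cT25_14_38 : Cert := ⟨⟨14, 4, 0⟩, ⟨38, 10, 0⟩, [
  ⟨1, ⟨9, 2, 0⟩, ⟨1, 0, 0⟩, ⟨1, 1, 0⟩, ⟨28, 6, 0⟩, ⟨26, 6, 0⟩⟩,
  ⟨0, ⟨11, 3, 0⟩, ⟨0, 0, 0⟩, ⟨0, 0, 0⟩, ⟨0, 0, 0⟩, ⟨17, 4, 0⟩⟩,
  ⟨0, ⟨10, 3, 0⟩, ⟨0, 0, 0⟩, ⟨0, 0, 0⟩, ⟨0, 0, 0⟩, ⟨12, 3, 0⟩⟩,
  ⟨0, ⟨16, 4, 0⟩, ⟨0, 0, 0⟩, ⟨0, 0, 0⟩, ⟨0, 0, 0⟩, ⟨18, 4, 0⟩⟩,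
  ⟨0, ⟨4, 2, 0⟩, ⟨0, 0, 0⟩, ⟨0, 0, 0⟩, ⟨0, 0, 0⟩, ⟨19, 4, 0⟩⟩,
  ⟨0, ⟨15, 4, 0⟩, ⟨0, 0, 0⟩, ⟨0, 0, 0⟩, ⟨0, 0, 0⟩, ⟨20, 4, 0⟩⟩,
  ⟨0, ⟨3, 2, 0⟩, ⟨0, 0, 0⟩, ⟨0, 0, 0⟩, ⟨0, 0, 0⟩, ⟨21, 4, 0⟩⟩,
  ⟨2, ⟨2, 1, 0⟩, ⟨14, 3, 0⟩, ⟨1, 1, 0⟩, ⟨22, 4, 0⟩, ⟨13, 3, 0⟩⟩,
  ⟨0, ⟨23, 6, 0⟩, ⟨0, 0, 0⟩, ⟨0, 0, 0⟩, ⟨0, 0, 0⟩, ⟨8, 2, 0⟩⟩,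
  ⟨0, ⟨7, 2, 0⟩, ⟨0, 0, 0⟩, ⟨0, 0, 0⟩, ⟨0, 0, 0⟩, ⟨25, 6, 0⟩⟩,
  ⟨0, ⟨6, 2, 0⟩, ⟨0, 0, 0⟩, ⟨0, 0, 0⟩, ⟨0, 0, 0⟩, ⟨27, 6, 0⟩⟩,
  ⟨0, ⟨5, 2, 0⟩, ⟨0, 0, 0⟩, ⟨0, 0, 0⟩, ⟨0, 0, 0⟩, ⟨24, 6, 0⟩⟩]⟩

theorem mT25_14_38 (x : ℕ) : Magic (14 + 4 * x) (38 + 10 * x) := by
  have h := Cert.magic (c := cT25_14_38) (by decide +kernel) x 0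
  simpa [cT25_14_38, Aff.ev] using h

/-- Certificate for n = 14 + 4 x + 0 y, k = 39 + 10 x + 0 y. -/
def cT25_14_39 : Cert := ⟨⟨14, 4, 0⟩, ⟨39, 10, 0⟩, [
  ⟨1, ⟨1, 0, 0⟩, ⟨10, 2, 0⟩, ⟨1, 1, 0⟩, ⟨28, 6, 0⟩, ⟨27, 6, 0⟩⟩,
  ⟨0, ⟨2, 1, 0⟩, ⟨0, 0, 0⟩, ⟨0, 0, 0⟩, ⟨0, 0, 0⟩, ⟨26, 6, 0⟩⟩,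
  ⟨0, ⟨11, 3, 0⟩, ⟨0, 0, 0⟩, ⟨0, 0, 0⟩, ⟨0, 0, 0⟩, ⟨25, 6, 0⟩⟩,
  ⟨0, ⟨3, 1, 0⟩, ⟨0, 0, 0⟩, ⟨0, 0, 0⟩, ⟨0, 0, 0⟩, ⟨24, 6, 0⟩⟩,
  ⟨0, ⟨12, 3, 0⟩, ⟨0, 0, 0⟩, ⟨0, 0, 0⟩, ⟨0, 0, 0⟩, ⟨4, 1, 0⟩⟩,
  ⟨0, ⟨23, 6, 0⟩, ⟨0, 0, 0⟩, ⟨0, 0, 0⟩, ⟨0, 0, 0⟩, ⟨7, 2, 0⟩⟩,
  ⟨0, ⟨9, 2, 0⟩, ⟨0, 0, 0⟩, ⟨0, 0, 0⟩, ⟨0, 0, 0⟩, ⟨22, 6, 0⟩⟩,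
  ⟨0, ⟨8, 2, 0⟩, ⟨0, 0, 0⟩, ⟨0, 0, 0⟩, ⟨0, 0, 0⟩, ⟨16, 4, 0⟩⟩,
  ⟨0, ⟨15, 4, 0⟩, ⟨0, 0, 0⟩, ⟨0, 0, 0⟩, ⟨0, 0, 0⟩, ⟨18, 4, 0⟩⟩,
  ⟨0, ⟨6, 2, 0⟩, ⟨0, 0, 0⟩, ⟨0, 0, 0⟩, ⟨0, 0, 0⟩, ⟨19, 4, 0⟩⟩,
  ⟨2, ⟨5, 1, 0⟩, ⟨14, 3, 0⟩, ⟨1, 1, 0⟩, ⟨20, 4, 0⟩, ⟨13, 3, 0⟩⟩,
  ⟨0, ⟨21, 6, 0⟩, ⟨0, 0, 0⟩, ⟨0, 0, 0⟩, ⟨0, 0, 0⟩, ⟨17, 4, 0⟩⟩]⟩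

theorem mT25_14_39 (x : ℕ) : Magic (14 + 4 * x) (39 + 10 * x) := by
  have h := Cert.magic (c := cT25_14_39) (by decide +kernel) x 0
  simpa [cT25_14_39, Aff.ev] using h

/-- Certificate for n = 14 + 4 x + 0 y, k = 40 + 10 x + 0 y. -/
def cT25_14_40 : Cert := ⟨⟨14, 4, 0⟩, ⟨40, 10, 0⟩, [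
  ⟨1, ⟨11, 2, 0⟩, ⟨1, 0, 0⟩, ⟨1, 1, 0⟩, ⟨28, 6, 0⟩, ⟨13, 3, 0⟩⟩,
  ⟨0, ⟨26, 6, 0⟩, ⟨0, 0, 0⟩, ⟨0, 0, 0⟩, ⟨0, 0, 0⟩, ⟨12, 3, 0⟩⟩,
  ⟨0, ⟨2, 1, 0⟩, ⟨0, 0, 0⟩, ⟨0, 0, 0⟩, ⟨0, 0, 0⟩, ⟨14, 3, 0⟩⟩,
  ⟨0, ⟨24, 6, 0⟩, ⟨0, 0, 0⟩, ⟨0, 0, 0⟩, ⟨0, 0, 0⟩, ⟨10, 2, 0⟩⟩,
  ⟨0, ⟨6, 2, 0⟩, ⟨0, 0, 0⟩, ⟨0, 0, 0⟩, ⟨0, 0, 0⟩, ⟨25, 6, 0⟩⟩,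
  ⟨0, ⟨9, 2, 0⟩, ⟨0, 0, 0⟩, ⟨0, 0, 0⟩, ⟨0, 0, 0⟩, ⟨23, 6, 0⟩⟩,
  ⟨0, ⟨8, 2, 0⟩, ⟨0, 0, 0⟩, ⟨0, 0, 0⟩, ⟨0, 0, 0⟩, ⟨27, 6, 0⟩⟩,
  ⟨0, ⟨5, 2, 0⟩, ⟨0, 0, 0⟩, ⟨0, 0, 0⟩, ⟨0, 0, 0⟩, ⟨18, 4, 0⟩⟩,
  ⟨0, ⟨17, 4, 0⟩, ⟨0, 0, 0⟩, ⟨0, 0, 0⟩, ⟨0, 0, 0⟩, ⟨19, 4, 0⟩⟩,
  ⟨0, ⟨4, 2, 0⟩, ⟨0, 0, 0⟩, ⟨0, 0, 0⟩, ⟨0, 0, 0⟩, ⟨20, 4, 0⟩⟩,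
  ⟨2, ⟨3, 1, 0⟩, ⟨16, 3, 0⟩, ⟨1, 1, 0⟩, ⟨21, 4, 0⟩, ⟨15, 3, 0⟩⟩,
  ⟨0, ⟨22, 6, 0⟩, ⟨0, 0, 0⟩, ⟨0, 0, 0⟩, ⟨0, 0, 0⟩, ⟨7, 2, 0⟩⟩]⟩

theorem mT25_14_40 (x : ℕ) : Magic (14 + 4 * x) (40 + 10 * x) := by
  have h := Cert.magic (c := cT25_14_40) (by decide +kernel) x 0
  simpa [cT25_14_40, Aff.ev] using h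

/-- Certificate for n = 14 + 4 x + 0 y, k = 41 + 10 x + 0 y. -/
def cT25_14_41 : Cert := ⟨⟨14, 4, 0⟩, ⟨41, 10, 0⟩, [
  ⟨1, ⟨1, 0, 0⟩, ⟨12, 2, 0⟩, ⟨1, 1, 0⟩, ⟨28, 6, 0⟩, ⟨27, 6, 0⟩⟩,
  ⟨0, ⟨2, 1, 0⟩, ⟨0, 0, 0⟩, ⟨0, 0, 0⟩, ⟨0, 0, 0⟩, ⟨16, 3, 0⟩⟩,
  ⟨0, ⟨23, 6, 0⟩, ⟨0, 0, 0⟩, ⟨0, 0, 0⟩, ⟨0, 0, 0⟩, ⟨15, 3, 0⟩⟩,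
  ⟨0, ⟨3, 1, 0⟩, ⟨0, 0, 0⟩, ⟨0, 0, 0⟩, ⟨0, 0, 0⟩, ⟨14, 3, 0⟩⟩,
  ⟨0, ⟨24, 6, 0⟩, ⟨0, 0, 0⟩, ⟨0, 0, 0⟩, ⟨0, 0, 0⟩, ⟨13, 3, 0⟩⟩,
  ⟨1, ⟨4, 1, 0⟩, ⟨17, 3, 0⟩, ⟨1, 1, 0⟩, ⟨20, 4, 0⟩, ⟨19, 4, 0⟩⟩,
  ⟨0, ⟨5, 2, 0⟩, ⟨0, 0, 0⟩, ⟨0, 0, 0⟩, ⟨0, 0, 0⟩, ⟨26, 6, 0⟩⟩,
  ⟨0, ⟨10, 2, 0⟩, ⟨0, 0, 0⟩, ⟨0, 0, 0⟩, ⟨0, 0, 0⟩, ⟨6, 2, 0⟩⟩,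
  ⟨0, ⟨25, 6, 0⟩, ⟨0, 0, 0⟩, ⟨0, 0, 0⟩, ⟨0, 0, 0⟩, ⟨7, 2, 0⟩⟩,
  ⟨0, ⟨9, 2, 0⟩, ⟨0, 0, 0⟩, ⟨0, 0, 0⟩, ⟨0, 0, 0⟩, ⟨21, 6, 0⟩⟩,
  ⟨0, ⟨11, 2, 0⟩, ⟨0, 0, 0⟩, ⟨0, 0, 0⟩, ⟨0, 0, 0⟩, ⟨8, 2, 0⟩⟩,
  ⟨0, ⟨22, 6, 0⟩, ⟨0, 0, 0⟩, ⟨0, 0, 0⟩, ⟨0, 0, 0⟩, ⟨18, 4, 0⟩⟩]⟩

theorem mT25_14_41 (x : ℕ) : Magic (14 + 4 * x) (41 + 10 * x) := by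
  have h := Cert.magic (c := cT25_14_41) (by decide +kernel) x 0
  simpa [cT25_14_41, Aff.ev] using h

/-- Certificate for n = 14 + 4 x + 0 y, k = 42 + 10 x + 0 y. -/
def cT25_14_42 : Cert := ⟨⟨14, 4, 0⟩, ⟨42, 10, 0⟩, [
  ⟨1, ⟨1, 0, 0⟩, ⟨13, 2, 0⟩, ⟨1, 1, 0⟩, ⟨28, 6, 0⟩, ⟨3, 1, 0⟩⟩,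
  ⟨0, ⟨26, 6, 0⟩, ⟨0, 0, 0⟩, ⟨0, 0, 0⟩, ⟨0, 0, 0⟩, ⟨14, 3, 0⟩⟩,
  ⟨0, ⟨2, 1, 0⟩, ⟨0, 0, 0⟩, ⟨0, 0, 0⟩, ⟨0, 0, 0⟩, ⟨15, 3, 0⟩⟩,
  ⟨0, ⟨25, 6, 0⟩, ⟨0, 0, 0⟩, ⟨0, 0, 0⟩, ⟨0, 0, 0⟩, ⟨7, 2, 0⟩⟩,
  ⟨0, ⟨10, 2, 0⟩, ⟨0, 0, 0⟩, ⟨0, 0, 0⟩, ⟨0, 0, 0⟩, ⟨8, 2, 0⟩⟩,
  ⟨0, ⟨24, 6, 0⟩, ⟨0, 0, 0⟩, ⟨0, 0, 0⟩, ⟨0, 0, 0⟩, ⟨12, 2, 0⟩⟩,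
  ⟨0, ⟨6, 2, 0⟩, ⟨0, 0, 0⟩, ⟨0, 0, 0⟩, ⟨0, 0, 0⟩, ⟨27, 6, 0⟩⟩,
  ⟨0, ⟨9, 2, 0⟩, ⟨0, 0, 0⟩, ⟨0, 0, 0⟩, ⟨0, 0, 0⟩, ⟨11, 2, 0⟩⟩,
  ⟨0, ⟨22, 6, 0⟩, ⟨0, 0, 0⟩, ⟨0, 0, 0⟩, ⟨0, 0, 0⟩, ⟨16, 3, 0⟩⟩,
  ⟨1, ⟨4, 1, 0⟩, ⟨17, 3, 0⟩, ⟨1, 1, 0⟩, ⟨21, 4, 0⟩, ⟨20, 4, 0⟩⟩,
  ⟨0, ⟨5, 2, 0⟩, ⟨0, 0, 0⟩, ⟨0, 0, 0⟩, ⟨0, 0, 0⟩, ⟨19, 4, 0⟩⟩,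
  ⟨0, ⟨18, 4, 0⟩, ⟨0, 0, 0⟩, ⟨0, 0, 0⟩, ⟨0, 0, 0⟩, ⟨23, 6, 0⟩⟩]⟩

theorem mT25_14_42 (x : ℕ) : Magic (14 + 4 * x) (42 + 10 * x) := by
  have h := Cert.magic (c := cT25_14_42) (by decide +kernel) x 0
  simpa [cT25_14_42, Aff.ev] using h

/-- Certificate for n = 14 + 4 x + 0 y, k = 43 + 10 x + 0 y. -/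
def cT25_14_43 : Cert := ⟨⟨14, 4, 0⟩, ⟨43, 10, 0⟩, [
  ⟨1, ⟨14, 2, 0⟩, ⟨1, 0, 0⟩, ⟨1, 1, 0⟩, ⟨28, 6, 0⟩, ⟨18, 3, 0⟩⟩,
  ⟨0, ⟨24, 6, 0⟩, ⟨0, 0, 0⟩, ⟨0, 0, 0⟩, ⟨0, 0, 0⟩, ⟨12, 2, 0⟩⟩,
  ⟨0, ⟨7, 2, 0⟩, ⟨0, 0, 0⟩, ⟨0, 0, 0⟩, ⟨0, 0, 0⟩, ⟨9, 2, 0⟩⟩,
  ⟨0, ⟨27, 6, 0⟩, ⟨0, 0, 0⟩, ⟨0, 0, 0⟩, ⟨0, 0, 0⟩, ⟨5, 2, 0⟩⟩,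
  ⟨0, ⟨11, 2, 0⟩, ⟨0, 0, 0⟩, ⟨0, 0, 0⟩, ⟨0, 0, 0⟩, ⟨22, 6, 0⟩⟩,
  ⟨0, ⟨10, 2, 0⟩, ⟨0, 0, 0⟩, ⟨0, 0, 0⟩, ⟨0, 0, 0⟩, ⟨8, 2, 0⟩⟩,
  ⟨0, ⟨25, 6, 0⟩, ⟨0, 0, 0⟩, ⟨0, 0, 0⟩, ⟨0, 0, 0⟩, ⟨16, 3, 0⟩⟩,
  ⟨0, ⟨2, 1, 0⟩, ⟨0, 0, 0⟩, ⟨0, 0, 0⟩, ⟨0, 0, 0⟩, ⟨15, 3, 0⟩⟩,
  ⟨0, ⟨26, 6, 0⟩, ⟨0, 0, 0⟩, ⟨0, 0, 0⟩, ⟨0, 0, 0⟩, ⟨13, 2, 0⟩⟩,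
  ⟨0, ⟨4, 2, 0⟩, ⟨0, 0, 0⟩, ⟨0, 0, 0⟩, ⟨0, 0, 0⟩, ⟨20, 4, 0⟩⟩,
  ⟨2, ⟨3, 1, 0⟩, ⟨19, 3, 0⟩, ⟨1, 1, 0⟩, ⟨21, 4, 0⟩, ⟨17, 3, 0⟩⟩,
  ⟨0, ⟨23, 6, 0⟩, ⟨0, 0, 0⟩, ⟨0, 0, 0⟩, ⟨0, 0, 0⟩, ⟨6, 2, 0⟩⟩]⟩

theorem mT25_14_43 (x : ℕ) : Magic (14 + 4 * x) (43 + 10 * x) := by
  have h := Cert.magic (c := cT25_14_43) (by decide +kernel) x 0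
  simpa [cT25_14_43, Aff.ev] using h

/-- Certificate for n = 14 + 4 x + 0 y, k = 44 + 10 x + 0 y. -/
def cT25_14_44 : Cert := ⟨⟨14, 4, 0⟩, ⟨44, 10, 0⟩, [
  ⟨1, ⟨1, 0, 0⟩, ⟨15, 2, 0⟩, ⟨1, 1, 0⟩, ⟨28, 6, 0⟩, ⟨3, 1, 0⟩⟩,
  ⟨0, ⟨26, 6, 0⟩, ⟨0, 0, 0⟩, ⟨0, 0, 0⟩, ⟨0, 0, 0⟩, ⟨16, 3, 0⟩⟩,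
  ⟨0, ⟨2, 1, 0⟩, ⟨0, 0, 0⟩, ⟨0, 0, 0⟩, ⟨0, 0, 0⟩, ⟨17, 3, 0⟩⟩,
  ⟨0, ⟨25, 6, 0⟩, ⟨0, 0, 0⟩, ⟨0, 0, 0⟩, ⟨0, 0, 0⟩, ⟨13, 2, 0⟩⟩,
  ⟨0, ⟨6, 2, 0⟩, ⟨0, 0, 0⟩, ⟨0, 0, 0⟩, ⟨0, 0, 0⟩, ⟨14, 2, 0⟩⟩,
  ⟨0, ⟨24, 6, 0⟩, ⟨0, 0, 0⟩, ⟨0, 0, 0⟩, ⟨0, 0, 0⟩, ⟨11, 2, 0⟩⟩,
  ⟨0, ⟨9, 2, 0⟩, ⟨0, 0, 0⟩, ⟨0, 0, 0⟩, ⟨0, 0, 0⟩, ⟨8, 2, 0⟩⟩,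
  ⟨0, ⟨27, 6, 0⟩, ⟨0, 0, 0⟩, ⟨0, 0, 0⟩, ⟨0, 0, 0⟩, ⟨7, 2, 0⟩⟩,
  ⟨0, ⟨10, 2, 0⟩, ⟨0, 0, 0⟩, ⟨0, 0, 0⟩, ⟨0, 0, 0⟩, ⟨12, 2, 0⟩⟩,
  ⟨0, ⟨22, 6, 0⟩, ⟨0, 0, 0⟩, ⟨0, 0, 0⟩, ⟨0, 0, 0⟩, ⟨18, 3, 0⟩⟩,
  ⟨1, ⟨4, 1, 0⟩, ⟨19, 3, 0⟩, ⟨1, 1, 0⟩, ⟨21, 4, 0⟩, ⟨5, 2, 0⟩⟩,
  ⟨0, ⟨20, 4, 0⟩, ⟨0, 0, 0⟩, ⟨0, 0, 0⟩, ⟨0, 0, 0⟩, ⟨23, 6, 0⟩⟩]⟩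

theorem mT25_14_44 (x : ℕ) : Magic (14 + 4 * x) (44 + 10 * x) := by
  have h := Cert.magic (c := cT25_14_44) (by decide +kernel) x 0
  simpa [cT25_14_44, Aff.ev] using h

/-- Certificate for n = 11 + 4 x + 0 y, k = 34 + 12 x + 0 y. -/
def cT30_11_34 : Cert := ⟨⟨11, 4, 0⟩, ⟨34, 12, 0⟩, [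
  ⟨1, ⟨1, 0, 0⟩, ⟨19, 6, 0⟩, ⟨1, 1, 0⟩, ⟨14, 4, 0⟩, ⟨13, 4, 0⟩⟩,
  ⟨0, ⟨2, 1, 0⟩, ⟨0, 0, 0⟩, ⟨0, 0, 0⟩, ⟨0, 0, 0⟩, ⟨21, 7, 0⟩⟩,
  ⟨0, ⟨11, 4, 0⟩, ⟨0, 0, 0⟩, ⟨0, 0, 0⟩, ⟨0, 0, 0⟩, ⟨20, 7, 0⟩⟩,
  ⟨1, ⟨3, 1, 0⟩, ⟨22, 7, 0⟩, ⟨1, 1, 0⟩, ⟨9, 2, 0⟩, ⟨5, 2, 0⟩⟩,
  ⟨0, ⟨7, 2, 0⟩, ⟨0, 0, 0⟩, ⟨0, 0, 0⟩, ⟨0, 0, 0⟩, ⟨17, 6, 0⟩⟩,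
  ⟨0, ⟨10, 4, 0⟩, ⟨0, 0, 0⟩, ⟨0, 0, 0⟩, ⟨0, 0, 0⟩, ⟨8, 2, 0⟩⟩,
  ⟨0, ⟨16, 6, 0⟩, ⟨0, 0, 0⟩, ⟨0, 0, 0⟩, ⟨0, 0, 0⟩, ⟨6, 2, 0⟩⟩,
  ⟨0, ⟨12, 4, 0⟩, ⟨0, 0, 0⟩, ⟨0, 0, 0⟩, ⟨0, 0, 0⟩, ⟨4, 2, 0⟩⟩,
  ⟨0, ⟨18, 6, 0⟩, ⟨0, 0, 0⟩, ⟨0, 0, 0⟩, ⟨0, 0, 0⟩, ⟨15, 6, 0⟩⟩]⟩

theorem mT30_11_34 (x : ℕ) : Magic (11 + 4 * x) (34 + 12 * x) := by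
  have h := Cert.magic (c := cT30_11_34) (by decide +kernel) x 0
  simpa [cT30_11_34, Aff.ev] using h

/-- Certificate for n = 12 + 4 x + 0 y, k = 37 + 12 x + 0 y. -/
def cT30_12_37 : Cert := ⟨⟨12, 4, 0⟩, ⟨37, 12, 0⟩, [
  ⟨1, ⟨1, 0, 0⟩, ⟨20, 6, 0⟩, ⟨1, 1, 0⟩, ⟨16, 4, 0⟩, ⟨15, 4, 0⟩⟩,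
  ⟨0, ⟨2, 1, 0⟩, ⟨0, 0, 0⟩, ⟨0, 0, 0⟩, ⟨0, 0, 0⟩, ⟨22, 7, 0⟩⟩,
  ⟨0, ⟨13, 4, 0⟩, ⟨0, 0, 0⟩, ⟨0, 0, 0⟩, ⟨0, 0, 0⟩, ⟨21, 7, 0⟩⟩,
  ⟨1, ⟨3, 1, 0⟩, ⟨23, 7, 0⟩, ⟨1, 1, 0⟩, ⟨11, 2, 0⟩, ⟨10, 2, 0⟩⟩,
  ⟨0, ⟨4, 2, 0⟩, ⟨0, 0, 0⟩, ⟨0, 0, 0⟩, ⟨0, 0, 0⟩, ⟨9, 2, 0⟩⟩,
  ⟨0, ⟨24, 8, 0⟩, ⟨0, 0, 0⟩, ⟨0, 0, 0⟩, ⟨0, 0, 0⟩, ⟨8, 2, 0⟩⟩,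
  ⟨0, ⟨5, 2, 0⟩, ⟨0, 0, 0⟩, ⟨0, 0, 0⟩, ⟨0, 0, 0⟩, ⟨14, 4, 0⟩⟩,
  ⟨0, ⟨18, 6, 0⟩, ⟨0, 0, 0⟩, ⟨0, 0, 0⟩, ⟨0, 0, 0⟩, ⟨7, 2, 0⟩⟩,
  ⟨0, ⟨12, 4, 0⟩, ⟨0, 0, 0⟩, ⟨0, 0, 0⟩, ⟨0, 0, 0⟩, ⟨6, 2, 0⟩⟩,
  ⟨0, ⟨19, 6, 0⟩, ⟨0, 0, 0⟩, ⟨0, 0, 0⟩, ⟨0, 0, 0⟩, ⟨17, 6, 0⟩⟩]⟩

theorem mT30_12_37 (x : ℕ) : Magic (12 + 4 * x) (37 + 12 * x) := by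
  have h := Cert.magic (c := cT30_12_37) (by decide +kernel) x 0
  simpa [cT30_12_37, Aff.ev] using h

/-- Certificate for n = 13 + 4 x + 0 y, k = 40 + 12 x + 0 y. -/
def cT30_13_40 : Cert := ⟨⟨13, 4, 0⟩, ⟨40, 12, 0⟩, [
  ⟨1, ⟨1, 0, 0⟩, ⟨22, 6, 0⟩, ⟨1, 1, 0⟩, ⟨17, 4, 0⟩, ⟨16, 4, 0⟩⟩,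
  ⟨0, ⟨2, 1, 0⟩, ⟨0, 0, 0⟩, ⟨0, 0, 0⟩, ⟨0, 0, 0⟩, ⟨24, 7, 0⟩⟩,
  ⟨0, ⟨14, 4, 0⟩, ⟨0, 0, 0⟩, ⟨0, 0, 0⟩, ⟨0, 0, 0⟩, ⟨23, 7, 0⟩⟩,
  ⟨1, ⟨3, 1, 0⟩, ⟨25, 7, 0⟩, ⟨1, 1, 0⟩, ⟨12, 2, 0⟩, ⟨11, 2, 0⟩⟩,
  ⟨0, ⟨4, 2, 0⟩, ⟨0, 0, 0⟩, ⟨0, 0, 0⟩, ⟨0, 0, 0⟩, ⟨10, 2, 0⟩⟩,
  ⟨0, ⟨26, 8, 0⟩, ⟨0, 0, 0⟩, ⟨0, 0, 0⟩, ⟨0, 0, 0⟩, ⟨8, 2, 0⟩⟩,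
  ⟨0, ⟨6, 2, 0⟩, ⟨0, 0, 0⟩, ⟨0, 0, 0⟩, ⟨0, 0, 0⟩, ⟨21, 6, 0⟩⟩,
  ⟨0, ⟨13, 4, 0⟩, ⟨0, 0, 0⟩, ⟨0, 0, 0⟩, ⟨0, 0, 0⟩, ⟨9, 2, 0⟩⟩,
  ⟨0, ⟨18, 6, 0⟩, ⟨0, 0, 0⟩, ⟨0, 0, 0⟩, ⟨0, 0, 0⟩, ⟨7, 2, 0⟩⟩,
  ⟨0, ⟨15, 4, 0⟩, ⟨0, 0, 0⟩, ⟨0, 0, 0⟩, ⟨0, 0, 0⟩, ⟨5, 2, 0⟩⟩,
  ⟨0, ⟨20, 6, 0⟩, ⟨0, 0, 0⟩, ⟨0, 0, 0⟩, ⟨0, 0, 0⟩, ⟨19, 6, 0⟩⟩]⟩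

theorem mT30_13_40 (x : ℕ) : Magic (13 + 4 * x) (40 + 12 * x) := by
  have h := Cert.magic (c := cT30_13_40) (by decide +kernel) x 0
  simpa [cT30_13_40, Aff.ev] using h

/-- Certificate for n = 14 + 4 x + 0 y, k = 43 + 12 x + 0 y. -/
def cT30_14_43 : Cert := ⟨⟨14, 4, 0⟩, ⟨43, 12, 0⟩, [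
  ⟨1, ⟨1, 0, 0⟩, ⟨24, 6, 0⟩, ⟨1, 1, 0⟩, ⟨18, 4, 0⟩, ⟨3, 1, 0⟩⟩,
  ⟨0, ⟨16, 4, 0⟩, ⟨0, 0, 0⟩, ⟨0, 0, 0⟩, ⟨0, 0, 0⟩, ⟨25, 7, 0⟩⟩,
  ⟨0, ⟨2, 1, 0⟩, ⟨0, 0, 0⟩, ⟨0, 0, 0⟩, ⟨0, 0, 0⟩, ⟨27, 7, 0⟩⟩,
  ⟨0, ⟨14, 4, 0⟩, ⟨0, 0, 0⟩, ⟨0, 0, 0⟩, ⟨0, 0, 0⟩, ⟨8, 2, 0⟩⟩,
  ⟨0, ⟨21, 6, 0⟩, ⟨0, 0, 0⟩, ⟨0, 0, 0⟩, ⟨0, 0, 0⟩, ⟨12, 4, 0⟩⟩,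
  ⟨0, ⟨10, 2, 0⟩, ⟨0, 0, 0⟩, ⟨0, 0, 0⟩, ⟨0, 0, 0⟩, ⟨5, 2, 0⟩⟩,
  ⟨2, ⟨4, 1, 0⟩, ⟨28, 7, 0⟩, ⟨1, 1, 0⟩, ⟨11, 2, 0⟩, ⟨26, 7, 0⟩⟩,
  ⟨0, ⟨13, 4, 0⟩, ⟨0, 0, 0⟩, ⟨0, 0, 0⟩, ⟨0, 0, 0⟩, ⟨23, 6, 0⟩⟩,
  ⟨0, ⟨7, 2, 0⟩, ⟨0, 0, 0⟩, ⟨0, 0, 0⟩, ⟨0, 0, 0⟩, ⟨17, 4, 0⟩⟩,
  ⟨0, ⟨19, 6, 0⟩, ⟨0, 0, 0⟩, ⟨0, 0, 0⟩, ⟨0, 0, 0⟩, ⟨9, 2, 0⟩⟩,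
  ⟨0, ⟨15, 4, 0⟩, ⟨0, 0, 0⟩, ⟨0, 0, 0⟩, ⟨0, 0, 0⟩, ⟨6, 2, 0⟩⟩,
  ⟨0, ⟨22, 6, 0⟩, ⟨0, 0, 0⟩, ⟨0, 0, 0⟩, ⟨0, 0, 0⟩, ⟨20, 6, 0⟩⟩]⟩

theorem mT30_14_43 (x : ℕ) : Magic (14 + 4 * x) (43 + 12 * x) := by
  have h := Cert.magic (c := cT30_14_43) (by decide +kernel) x 0
  simpa [cT30_14_43, Aff.ev] using h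

/-- Certificate for n = 11 + 4 x + 0 y, k = 33 + 12 x + 0 y. -/
def cT30_11_33 : Cert := ⟨⟨11, 4, 0⟩, ⟨33, 12, 0⟩, [
  ⟨1, ⟨17, 6, 0⟩, ⟨1, 0, 0⟩, ⟨1, 1, 0⟩, ⟨15, 4, 0⟩, ⟨20, 7, 0⟩⟩,
  ⟨0, ⟨12, 4, 0⟩, ⟨0, 0, 0⟩, ⟨0, 0, 0⟩, ⟨0, 0, 0⟩, ⟨19, 7, 0⟩⟩,
  ⟨0, ⟨2, 1, 0⟩, ⟨0, 0, 0⟩, ⟨0, 0, 0⟩, ⟨0, 0, 0⟩, ⟨18, 7, 0⟩⟩,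
  ⟨0, ⟨13, 4, 0⟩, ⟨0, 0, 0⟩, ⟨0, 0, 0⟩, ⟨0, 0, 0⟩, ⟨4, 2, 0⟩⟩,
  ⟨0, ⟨16, 6, 0⟩, ⟨0, 0, 0⟩, ⟨0, 0, 0⟩, ⟨0, 0, 0⟩, ⟨7, 2, 0⟩⟩,
  ⟨0, ⟨10, 4, 0⟩, ⟨0, 0, 0⟩, ⟨0, 0, 0⟩, ⟨0, 0, 0⟩, ⟨14, 4, 0⟩⟩,
  ⟨0, ⟨9, 4, 0⟩, ⟨0, 0, 0⟩, ⟨0, 0, 0⟩, ⟨0, 0, 0⟩, ⟨21, 7, 0⟩⟩,
  ⟨1, ⟨3, 1, 0⟩, ⟨22, 7, 0⟩, ⟨1, 1, 0⟩, ⟨8, 2, 0⟩, ⟨6, 2, 0⟩⟩,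
  ⟨0, ⟨5, 2, 0⟩, ⟨0, 0, 0⟩, ⟨0, 0, 0⟩, ⟨0, 0, 0⟩, ⟨11, 4, 0⟩⟩]⟩

theorem mT30_11_33 (x : ℕ) : Magic (11 + 4 * x) (33 + 12 * x) := by
  have h := Cert.magic (c := cT30_11_33) (by decide +kernel) x 0
  simpa [cT30_11_33, Aff.ev] using h

/-- Certificate for n = 12 + 4 x + 0 y, k = 36 + 12 x + 0 y. -/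
def cT30_12_36 : Cert := ⟨⟨12, 4, 0⟩, ⟨36, 12, 0⟩, [
  ⟨1, ⟨19, 6, 0⟩, ⟨1, 0, 0⟩, ⟨1, 1, 0⟩, ⟨16, 4, 0⟩, ⟨23, 7, 0⟩⟩,
  ⟨0, ⟨12, 4, 0⟩, ⟨0, 0, 0⟩, ⟨0, 0, 0⟩, ⟨0, 0, 0⟩, ⟨22, 7, 0⟩⟩,
  ⟨0, ⟨2, 1, 0⟩, ⟨0, 0, 0⟩, ⟨0, 0, 0⟩, ⟨0, 0, 0⟩, ⟨21, 7, 0⟩⟩,
  ⟨0, ⟨13, 4, 0⟩, ⟨0, 0, 0⟩, ⟨0, 0, 0⟩, ⟨0, 0, 0⟩, ⟨20, 7, 0⟩⟩,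
  ⟨1, ⟨3, 1, 0⟩, ⟨24, 7, 0⟩, ⟨1, 1, 0⟩, ⟨9, 2, 0⟩, ⟨7, 2, 0⟩⟩,
  ⟨0, ⟨5, 2, 0⟩, ⟨0, 0, 0⟩, ⟨0, 0, 0⟩, ⟨0, 0, 0⟩, ⟨17, 6, 0⟩⟩,
  ⟨0, ⟨14, 4, 0⟩, ⟨0, 0, 0⟩, ⟨0, 0, 0⟩, ⟨0, 0, 0⟩, ⟨4, 2, 0⟩⟩,
  ⟨0, ⟨18, 6, 0⟩, ⟨0, 0, 0⟩, ⟨0, 0, 0⟩, ⟨0, 0, 0⟩, ⟨8, 2, 0⟩⟩,
  ⟨0, ⟨10, 4, 0⟩, ⟨0, 0, 0⟩, ⟨0, 0, 0⟩, ⟨0, 0, 0⟩, ⟨15, 4, 0⟩⟩,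
  ⟨0, ⟨11, 4, 0⟩, ⟨0, 0, 0⟩, ⟨0, 0, 0⟩, ⟨0, 0, 0⟩, ⟨6, 2, 0⟩⟩]⟩

theorem mT30_12_36 (x : ℕ) : Magic (12 + 4 * x) (36 + 12 * x) := by
  have h := Cert.magic (c := cT30_12_36) (by decide +kernel) x 0
  simpa [cT30_12_36, Aff.ev] using h

/-- Certificate for n = 13 + 4 x + 0 y, k = 39 + 12 x + 0 y. -/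
def cT30_13_39 : Cert := ⟨⟨13, 4, 0⟩, ⟨39, 12, 0⟩, [
  ⟨1, ⟨21, 6, 0⟩, ⟨1, 0, 0⟩, ⟨1, 1, 0⟩, ⟨17, 4, 0⟩, ⟨22, 7, 0⟩⟩,
  ⟨0, ⟨16, 4, 0⟩, ⟨0, 0, 0⟩, ⟨0, 0, 0⟩, ⟨0, 0, 0⟩, ⟨18, 6, 0⟩⟩,
  ⟨0, ⟨5, 2, 0⟩, ⟨0, 0, 0⟩, ⟨0, 0, 0⟩, ⟨0, 0, 0⟩, ⟨15, 4, 0⟩⟩,
  ⟨0, ⟨19, 6, 0⟩, ⟨0, 0, 0⟩, ⟨0, 0, 0⟩, ⟨0, 0, 0⟩, ⟨9, 2, 0⟩⟩,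
  ⟨0, ⟨11, 4, 0⟩, ⟨0, 0, 0⟩, ⟨0, 0, 0⟩, ⟨0, 0, 0⟩, ⟨8, 2, 0⟩⟩,
  ⟨0, ⟨20, 6, 0⟩, ⟨0, 0, 0⟩, ⟨0, 0, 0⟩, ⟨0, 0, 0⟩, ⟨13, 4, 0⟩⟩,
  ⟨0, ⟨6, 2, 0⟩, ⟨0, 0, 0⟩, ⟨0, 0, 0⟩, ⟨0, 0, 0⟩, ⟨7, 2, 0⟩⟩,
  ⟨2, ⟨3, 1, 0⟩, ⟨26, 7, 0⟩, ⟨1, 1, 0⟩, ⟨10, 2, 0⟩, ⟨24, 7, 0⟩⟩,
  ⟨0, ⟨12, 4, 0⟩, ⟨0, 0, 0⟩, ⟨0, 0, 0⟩, ⟨0, 0, 0⟩, ⟨25, 7, 0⟩⟩,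
  ⟨0, ⟨2, 1, 0⟩, ⟨0, 0, 0⟩, ⟨0, 0, 0⟩, ⟨0, 0, 0⟩, ⟨23, 7, 0⟩⟩,
  ⟨0, ⟨14, 4, 0⟩, ⟨0, 0, 0⟩, ⟨0, 0, 0⟩, ⟨0, 0, 0⟩, ⟨4, 2, 0⟩⟩]⟩

theorem mT30_13_39 (x : ℕ) : Magic (13 + 4 * x) (39 + 12 * x) := by
  have h := Cert.magic (c := cT30_13_39) (by decide +kernel) x 0
  simpa [cT30_13_39, Aff.ev] using h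

/-- Certificate for n = 14 + 4 x + 0 y, k = 42 + 12 x + 0 y. -/
def cT30_14_42 : Cert := ⟨⟨14, 4, 0⟩, ⟨42, 12, 0⟩, [
  ⟨1, ⟨23, 6, 0⟩, ⟨1, 0, 0⟩, ⟨1, 1, 0⟩, ⟨18, 4, 0⟩, ⟨27, 7, 0⟩⟩,
  ⟨0, ⟨14, 4, 0⟩, ⟨0, 0, 0⟩, ⟨0, 0, 0⟩, ⟨0, 0, 0⟩, ⟨26, 7, 0⟩⟩,
  ⟨0, ⟨2, 1, 0⟩, ⟨0, 0, 0⟩, ⟨0, 0, 0⟩, ⟨0, 0, 0⟩, ⟨25, 7, 0⟩⟩,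
  ⟨0, ⟨15, 4, 0⟩, ⟨0, 0, 0⟩, ⟨0, 0, 0⟩, ⟨0, 0, 0⟩, ⟨24, 7, 0⟩⟩,
  ⟨1, ⟨3, 1, 0⟩, ⟨28, 7, 0⟩, ⟨1, 1, 0⟩, ⟨11, 2, 0⟩, ⟨5, 2, 0⟩⟩,
  ⟨0, ⟨9, 2, 0⟩, ⟨0, 0, 0⟩, ⟨0, 0, 0⟩, ⟨0, 0, 0⟩, ⟨20, 6, 0⟩⟩,
  ⟨0, ⟨13, 4, 0⟩, ⟨0, 0, 0⟩, ⟨0, 0, 0⟩, ⟨0, 0, 0⟩, ⟨10, 2, 0⟩⟩,
  ⟨0, ⟨19, 6, 0⟩, ⟨0, 0, 0⟩, ⟨0, 0, 0⟩, ⟨0, 0, 0⟩, ⟨6, 2, 0⟩⟩,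
  ⟨0, ⟨17, 4, 0⟩, ⟨0, 0, 0⟩, ⟨0, 0, 0⟩, ⟨0, 0, 0⟩, ⟨21, 6, 0⟩⟩,
  ⟨0, ⟨4, 2, 0⟩, ⟨0, 0, 0⟩, ⟨0, 0, 0⟩, ⟨0, 0, 0⟩, ⟨16, 4, 0⟩⟩,
  ⟨0, ⟨22, 6, 0⟩, ⟨0, 0, 0⟩, ⟨0, 0, 0⟩, ⟨0, 0, 0⟩, ⟨8, 2, 0⟩⟩,
  ⟨0, ⟨12, 4, 0⟩, ⟨0, 0, 0⟩, ⟨0, 0, 0⟩, ⟨0, 0, 0⟩, ⟨7, 2, 0⟩⟩]⟩

theorem mT30_14_42 (x : ℕ) : Magic (14 + 4 * x) (42 + 12 * x) := by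
  have h := Cert.magic (c := cT30_14_42) (by decide +kernel) x 0
  simpa [cT30_14_42, Aff.ev] using h

/-- Certificate for n = 11 + 4 x + 0 y, k = 32 + 12 x + 0 y. -/
def cT30_11_32 : Cert := ⟨⟨11, 4, 0⟩, ⟨32, 12, 0⟩, [
  ⟨1, ⟨17, 6, 0⟩, ⟨1, 0, 0⟩, ⟨1, 1, 0⟩, ⟨14, 4, 0⟩, ⟨19, 7, 0⟩⟩,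
  ⟨0, ⟨12, 4, 0⟩, ⟨0, 0, 0⟩, ⟨0, 0, 0⟩, ⟨0, 0, 0⟩, ⟨18, 7, 0⟩⟩,
  ⟨0, ⟨2, 1, 0⟩, ⟨0, 0, 0⟩, ⟨0, 0, 0⟩, ⟨0, 0, 0⟩, ⟨21, 7, 0⟩⟩,
  ⟨0, ⟨9, 4, 0⟩, ⟨0, 0, 0⟩, ⟨0, 0, 0⟩, ⟨0, 0, 0⟩, ⟨20, 7, 0⟩⟩,
  ⟨1, ⟨3, 1, 0⟩, ⟨22, 7, 0⟩, ⟨1, 1, 0⟩, ⟨7, 2, 0⟩, ⟨6, 2, 0⟩⟩,
  ⟨0, ⟨4, 2, 0⟩, ⟨0, 0, 0⟩, ⟨0, 0, 0⟩, ⟨0, 0, 0⟩, ⟨15, 6, 0⟩⟩,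
  ⟨0, ⟨13, 4, 0⟩, ⟨0, 0, 0⟩, ⟨0, 0, 0⟩, ⟨0, 0, 0⟩, ⟨8, 4, 0⟩⟩,
  ⟨0, ⟨11, 4, 0⟩, ⟨0, 0, 0⟩, ⟨0, 0, 0⟩, ⟨0, 0, 0⟩, ⟨16, 6, 0⟩⟩,
  ⟨0, ⟨5, 2, 0⟩, ⟨0, 0, 0⟩, ⟨0, 0, 0⟩, ⟨0, 0, 0⟩, ⟨10, 4, 0⟩⟩]⟩

theorem mT30_11_32 (x : ℕ) : Magic (11 + 4 * x) (32 + 12 * x) := by
  have h := Cert.magic (c := cT30_11_32) (by decide +kernel) x 0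
  simpa [cT30_11_32, Aff.ev] using h

/-- Certificate for n = 12 + 4 x + 0 y, k = 35 + 12 x + 0 y. -/
def cT30_12_35 : Cert := ⟨⟨12, 4, 0⟩, ⟨35, 12, 0⟩, [
  ⟨1, ⟨19, 6, 0⟩, ⟨1, 0, 0⟩, ⟨1, 1, 0⟩, ⟨15, 4, 0⟩, ⟨23, 7, 0⟩⟩,
  ⟨0, ⟨11, 4, 0⟩, ⟨0, 0, 0⟩, ⟨0, 0, 0⟩, ⟨0, 0, 0⟩, ⟨22, 7, 0⟩⟩,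
  ⟨0, ⟨2, 1, 0⟩, ⟨0, 0, 0⟩, ⟨0, 0, 0⟩, ⟨0, 0, 0⟩, ⟨21, 7, 0⟩⟩,
  ⟨0, ⟨12, 4, 0⟩, ⟨0, 0, 0⟩, ⟨0, 0, 0⟩, ⟨0, 0, 0⟩, ⟨20, 7, 0⟩⟩,
  ⟨1, ⟨3, 1, 0⟩, ⟨24, 7, 0⟩, ⟨1, 1, 0⟩, ⟨8, 2, 0⟩, ⟨6, 2, 0⟩⟩,
  ⟨0, ⟨5, 2, 0⟩, ⟨0, 0, 0⟩, ⟨0, 0, 0⟩, ⟨0, 0, 0⟩, ⟨16, 6, 0⟩⟩,
  ⟨0, ⟨14, 4, 0⟩, ⟨0, 0, 0⟩, ⟨0, 0, 0⟩, ⟨0, 0, 0⟩, ⟨17, 6, 0⟩⟩,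
  ⟨0, ⟨4, 2, 0⟩, ⟨0, 0, 0⟩, ⟨0, 0, 0⟩, ⟨0, 0, 0⟩, ⟨13, 4, 0⟩⟩,
  ⟨0, ⟨18, 6, 0⟩, ⟨0, 0, 0⟩, ⟨0, 0, 0⟩, ⟨0, 0, 0⟩, ⟨10, 4, 0⟩⟩,
  ⟨0, ⟨7, 2, 0⟩, ⟨0, 0, 0⟩, ⟨0, 0, 0⟩, ⟨0, 0, 0⟩, ⟨9, 4, 0⟩⟩]⟩

theorem mT30_12_35 (x : ℕ) : Magic (12 + 4 * x) (35 + 12 * x) := by
  have h := Cert.magic (c := cT30_12_35) (by decide +kernel) x 0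
  simpa [cT30_12_35, Aff.ev] using h

/-- Certificate for n = 13 + 4 x + 0 y, k = 38 + 12 x + 0 y. -/
def cT30_13_38 : Cert := ⟨⟨13, 4, 0⟩, ⟨38, 12, 0⟩, [
  ⟨1, ⟨21, 6, 0⟩, ⟨1, 0, 0⟩, ⟨1, 1, 0⟩, ⟨16, 4, 0⟩, ⟨24, 7, 0⟩⟩,
  ⟨0, ⟨13, 4, 0⟩, ⟨0, 0, 0⟩, ⟨0, 0, 0⟩, ⟨0, 0, 0⟩, ⟨23, 7, 0⟩⟩,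
  ⟨0, ⟨2, 1, 0⟩, ⟨0, 0, 0⟩, ⟨0, 0, 0⟩, ⟨0, 0, 0⟩, ⟨22, 7, 0⟩⟩,
  ⟨0, ⟨14, 4, 0⟩, ⟨0, 0, 0⟩, ⟨0, 0, 0⟩, ⟨0, 0, 0⟩, ⟨18, 6, 0⟩⟩,
  ⟨0, ⟨6, 2, 0⟩, ⟨0, 0, 0⟩, ⟨0, 0, 0⟩, ⟨0, 0, 0⟩, ⟨17, 6, 0⟩⟩,
  ⟨0, ⟨15, 4, 0⟩, ⟨0, 0, 0⟩, ⟨0, 0, 0⟩, ⟨0, 0, 0⟩, ⟨4, 2, 0⟩⟩,
  ⟨0, ⟨19, 6, 0⟩, ⟨0, 0, 0⟩, ⟨0, 0, 0⟩, ⟨0, 0, 0⟩, ⟨11, 4, 0⟩⟩,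
  ⟨0, ⟨8, 2, 0⟩, ⟨0, 0, 0⟩, ⟨0, 0, 0⟩, ⟨0, 0, 0⟩, ⟨20, 6, 0⟩⟩,
  ⟨0, ⟨10, 4, 0⟩, ⟨0, 0, 0⟩, ⟨0, 0, 0⟩, ⟨0, 0, 0⟩, ⟨25, 7, 0⟩⟩,
  ⟨1, ⟨3, 1, 0⟩, ⟨26, 7, 0⟩, ⟨1, 1, 0⟩, ⟨9, 2, 0⟩, ⟨7, 2, 0⟩⟩,
  ⟨0, ⟨5, 2, 0⟩, ⟨0, 0, 0⟩, ⟨0, 0, 0⟩, ⟨0, 0, 0⟩, ⟨12, 4, 0⟩⟩]⟩

theorem mT30_13_38 (x : ℕ) : Magic (13 + 4 * x) (38 + 12 * x) := by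
  have h := Cert.magic (c := cT30_13_38) (by decide +kernel) x 0
  simpa [cT30_13_38, Aff.ev] using h

/-- Certificate for n = 14 + 4 x + 0 y, k = 41 + 12 x + 0 y. -/
def cT30_14_41 : Cert := ⟨⟨14, 4, 0⟩, ⟨41, 12, 0⟩, [
  ⟨1, ⟨23, 6, 0⟩, ⟨1, 0, 0⟩, ⟨1, 1, 0⟩, ⟨17, 4, 0⟩, ⟨27, 7, 0⟩⟩,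
  ⟨0, ⟨13, 4, 0⟩, ⟨0, 0, 0⟩, ⟨0, 0, 0⟩, ⟨0, 0, 0⟩, ⟨26, 7, 0⟩⟩,
  ⟨0, ⟨2, 1, 0⟩, ⟨0, 0, 0⟩, ⟨0, 0, 0⟩, ⟨0, 0, 0⟩, ⟨25, 7, 0⟩⟩,
  ⟨0, ⟨14, 4, 0⟩, ⟨0, 0, 0⟩, ⟨0, 0, 0⟩, ⟨0, 0, 0⟩, ⟨24, 7, 0⟩⟩,
  ⟨1, ⟨3, 1, 0⟩, ⟨28, 7, 0⟩, ⟨1, 1, 0⟩, ⟨10, 2, 0⟩, ⟨5, 2, 0⟩⟩,
  ⟨0, ⟨8, 2, 0⟩, ⟨0, 0, 0⟩, ⟨0, 0, 0⟩, ⟨0, 0, 0⟩, ⟨22, 6, 0⟩⟩,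
  ⟨0, ⟨11, 4, 0⟩, ⟨0, 0, 0⟩, ⟨0, 0, 0⟩, ⟨0, 0, 0⟩, ⟨9, 2, 0⟩⟩,
  ⟨0, ⟨21, 6, 0⟩, ⟨0, 0, 0⟩, ⟨0, 0, 0⟩, ⟨0, 0, 0⟩, ⟨4, 2, 0⟩⟩,
  ⟨0, ⟨16, 4, 0⟩, ⟨0, 0, 0⟩, ⟨0, 0, 0⟩, ⟨0, 0, 0⟩, ⟨18, 6, 0⟩⟩,
  ⟨0, ⟨7, 2, 0⟩, ⟨0, 0, 0⟩, ⟨0, 0, 0⟩, ⟨0, 0, 0⟩, ⟨19, 6, 0⟩⟩,
  ⟨0, ⟨15, 4, 0⟩, ⟨0, 0, 0⟩, ⟨0, 0, 0⟩, ⟨0, 0, 0⟩, ⟨20, 6, 0⟩⟩,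
  ⟨0, ⟨6, 2, 0⟩, ⟨0, 0, 0⟩, ⟨0, 0, 0⟩, ⟨0, 0, 0⟩, ⟨12, 4, 0⟩⟩]⟩

theorem mT30_14_41 (x : ℕ) : Magic (14 + 4 * x) (41 + 12 * x) := by
  have h := Cert.magic (c := cT30_14_41) (by decide +kernel) x 0
  simpa [cT30_14_41, Aff.ev] using h

/-- Certificate for n = 11 + 4 x + 0 y, k = 31 + 12 x + 0 y. -/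
def cT30_11_31 : Cert := ⟨⟨11, 4, 0⟩, ⟨31, 12, 0⟩, [
  ⟨1, ⟨1, 0, 0⟩, ⟨17, 6, 0⟩, ⟨1, 1, 0⟩, ⟨13, 4, 0⟩, ⟨12, 4, 0⟩⟩,
  ⟨0, ⟨2, 1, 0⟩, ⟨0, 0, 0⟩, ⟨0, 0, 0⟩, ⟨0, 0, 0⟩, ⟨19, 7, 0⟩⟩,
  ⟨0, ⟨10, 4, 0⟩, ⟨0, 0, 0⟩, ⟨0, 0, 0⟩, ⟨0, 0, 0⟩, ⟨18, 7, 0⟩⟩,
  ⟨1, ⟨3, 1, 0⟩, ⟨20, 7, 0⟩, ⟨1, 1, 0⟩, ⟨8, 2, 0⟩, ⟨7, 2, 0⟩⟩,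
  ⟨0, ⟨4, 2, 0⟩, ⟨0, 0, 0⟩, ⟨0, 0, 0⟩, ⟨0, 0, 0⟩, ⟨22, 8, 0⟩⟩,
  ⟨0, ⟨5, 2, 0⟩, ⟨0, 0, 0⟩, ⟨0, 0, 0⟩, ⟨0, 0, 0⟩, ⟨15, 6, 0⟩⟩,
  ⟨0, ⟨11, 4, 0⟩, ⟨0, 0, 0⟩, ⟨0, 0, 0⟩, ⟨0, 0, 0⟩, ⟨14, 6, 0⟩⟩,
  ⟨0, ⟨6, 2, 0⟩, ⟨0, 0, 0⟩, ⟨0, 0, 0⟩, ⟨0, 0, 0⟩, ⟨16, 6, 0⟩⟩,
  ⟨0, ⟨9, 4, 0⟩, ⟨0, 0, 0⟩, ⟨0, 0, 0⟩, ⟨0, 0, 0⟩, ⟨21, 8, 0⟩⟩]⟩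

theorem mT30_11_31 (x : ℕ) : Magic (11 + 4 * x) (31 + 12 * x) := by
  have h := Cert.magic (c := cT30_11_31) (by decide +kernel) x 0
  simpa [cT30_11_31, Aff.ev] using h

/-- Certificate for n = 12 + 4 x + 0 y, k = 34 + 12 x + 0 y. -/
def cT30_12_34 : Cert := ⟨⟨12, 4, 0⟩, ⟨34, 12, 0⟩, [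
  ⟨1, ⟨2, 0, 0⟩, ⟨17, 6, 0⟩, ⟨1, 1, 0⟩, ⟨15, 4, 0⟩, ⟨14, 4, 0⟩⟩,
  ⟨0, ⟨3, 1, 0⟩, ⟨0, 0, 0⟩, ⟨0, 0, 0⟩, ⟨0, 0, 0⟩, ⟨13, 4, 0⟩⟩,
  ⟨0, ⟨18, 7, 0⟩, ⟨0, 0, 0⟩, ⟨0, 0, 0⟩, ⟨0, 0, 0⟩, ⟨12, 4, 0⟩⟩,
  ⟨0, ⟨4, 1, 0⟩, ⟨0, 0, 0⟩, ⟨0, 0, 0⟩, ⟨0, 0, 0⟩, ⟨20, 7, 0⟩⟩,
  ⟨0, ⟨10, 4, 0⟩, ⟨0, 0, 0⟩, ⟨0, 0, 0⟩, ⟨0, 0, 0⟩, ⟨19, 7, 0⟩⟩,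
  ⟨1, ⟨5, 1, 0⟩, ⟨21, 7, 0⟩, ⟨1, 1, 0⟩, ⟨8, 2, 0⟩, ⟨6, 2, 0⟩⟩,
  ⟨0, ⟨7, 2, 0⟩, ⟨0, 0, 0⟩, ⟨0, 0, 0⟩, ⟨0, 0, 0⟩, ⟨16, 6, 0⟩⟩,
  ⟨0, ⟨11, 4, 0⟩, ⟨0, 0, 0⟩, ⟨0, 0, 0⟩, ⟨0, 0, 0⟩, ⟨22, 8, 0⟩⟩,
  ⟨0, ⟨1, 0, 0⟩, ⟨0, 0, 0⟩, ⟨0, 0, 0⟩, ⟨0, 0, 0⟩, ⟨24, 8, 0⟩⟩,
  ⟨0, ⟨9, 4, 0⟩, ⟨0, 0, 0⟩, ⟨0, 0, 0⟩, ⟨0, 0, 0⟩, ⟨23, 8, 0⟩⟩]⟩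

theorem mT30_12_34 (x : ℕ) : Magic (12 + 4 * x) (34 + 12 * x) := by
  have h := Cert.magic (c := cT30_12_34) (by decide +kernel) x 0
  simpa [cT30_12_34, Aff.ev] using h

/-- Certificate for n = 13 + 4 x + 0 y, k = 37 + 12 x + 0 y. -/
def cT30_13_37 : Cert := ⟨⟨13, 4, 0⟩, ⟨37, 12, 0⟩, [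
  ⟨1, ⟨20, 6, 0⟩, ⟨1, 0, 0⟩, ⟨1, 1, 0⟩, ⟨16, 4, 0⟩, ⟨24, 7, 0⟩⟩,
  ⟨0, ⟨12, 4, 0⟩, ⟨0, 0, 0⟩, ⟨0, 0, 0⟩, ⟨0, 0, 0⟩, ⟨15, 4, 0⟩⟩,
  ⟨0, ⟨10, 4, 0⟩, ⟨0, 0, 0⟩, ⟨0, 0, 0⟩, ⟨0, 0, 0⟩, ⟨19, 6, 0⟩⟩,
  ⟨0, ⟨8, 2, 0⟩, ⟨0, 0, 0⟩, ⟨0, 0, 0⟩, ⟨0, 0, 0⟩, ⟨18, 6, 0⟩⟩,
  ⟨0, ⟨11, 4, 0⟩, ⟨0, 0, 0⟩, ⟨0, 0, 0⟩, ⟨0, 0, 0⟩, ⟨23, 7, 0⟩⟩,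
  ⟨1, ⟨3, 1, 0⟩, ⟨25, 7, 0⟩, ⟨1, 1, 0⟩, ⟨9, 2, 0⟩, ⟨7, 2, 0⟩⟩,
  ⟨0, ⟨5, 2, 0⟩, ⟨0, 0, 0⟩, ⟨0, 0, 0⟩, ⟨0, 0, 0⟩, ⟨26, 8, 0⟩⟩,
  ⟨0, ⟨6, 2, 0⟩, ⟨0, 0, 0⟩, ⟨0, 0, 0⟩, ⟨0, 0, 0⟩, ⟨17, 6, 0⟩⟩,
  ⟨0, ⟨14, 4, 0⟩, ⟨0, 0, 0⟩, ⟨0, 0, 0⟩, ⟨0, 0, 0⟩, ⟨21, 7, 0⟩⟩,
  ⟨0, ⟨2, 1, 0⟩, ⟨0, 0, 0⟩, ⟨0, 0, 0⟩, ⟨0, 0, 0⟩, ⟨22, 7, 0⟩⟩,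
  ⟨0, ⟨13, 4, 0⟩, ⟨0, 0, 0⟩, ⟨0, 0, 0⟩, ⟨0, 0, 0⟩, ⟨4, 2, 0⟩⟩]⟩

theorem mT30_13_37 (x : ℕ) : Magic (13 + 4 * x) (37 + 12 * x) := by
  have h := Cert.magic (c := cT30_13_37) (by decide +kernel) x 0
  simpa [cT30_13_37, Aff.ev] using h

/-- Certificate for n = 14 + 4 x + 0 y, k = 40 + 12 x + 0 y. -/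
def cT30_14_40 : Cert := ⟨⟨14, 4, 0⟩, ⟨40, 12, 0⟩, [
  ⟨1, ⟨22, 6, 0⟩, ⟨1, 0, 0⟩, ⟨1, 1, 0⟩, ⟨17, 4, 0⟩, ⟨26, 7, 0⟩⟩,
  ⟨0, ⟨13, 4, 0⟩, ⟨0, 0, 0⟩, ⟨0, 0, 0⟩, ⟨0, 0, 0⟩, ⟨25, 7, 0⟩⟩,
  ⟨0, ⟨2, 1, 0⟩, ⟨0, 0, 0⟩, ⟨0, 0, 0⟩, ⟨0, 0, 0⟩, ⟨24, 7, 0⟩⟩,
  ⟨0, ⟨14, 4, 0⟩, ⟨0, 0, 0⟩, ⟨0, 0, 0⟩, ⟨0, 0, 0⟩, ⟨23, 7, 0⟩⟩,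
  ⟨1, ⟨3, 1, 0⟩, ⟨27, 7, 0⟩, ⟨1, 1, 0⟩, ⟨10, 2, 0⟩, ⟨8, 2, 0⟩⟩,
  ⟨0, ⟨5, 2, 0⟩, ⟨0, 0, 0⟩, ⟨0, 0, 0⟩, ⟨0, 0, 0⟩, ⟨28, 8, 0⟩⟩,
  ⟨0, ⟨7, 2, 0⟩, ⟨0, 0, 0⟩, ⟨0, 0, 0⟩, ⟨0, 0, 0⟩, ⟨18, 6, 0⟩⟩,
  ⟨0, ⟨15, 4, 0⟩, ⟨0, 0, 0⟩, ⟨0, 0, 0⟩, ⟨0, 0, 0⟩, ⟨21, 6, 0⟩⟩,
  ⟨0, ⟨4, 2, 0⟩, ⟨0, 0, 0⟩, ⟨0, 0, 0⟩, ⟨0, 0, 0⟩, ⟨16, 4, 0⟩⟩,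
  ⟨0, ⟨20, 6, 0⟩, ⟨0, 0, 0⟩, ⟨0, 0, 0⟩, ⟨0, 0, 0⟩, ⟨11, 4, 0⟩⟩,
  ⟨0, ⟨9, 2, 0⟩, ⟨0, 0, 0⟩, ⟨0, 0, 0⟩, ⟨0, 0, 0⟩, ⟨19, 6, 0⟩⟩,
  ⟨0, ⟨12, 4, 0⟩, ⟨0, 0, 0⟩, ⟨0, 0, 0⟩, ⟨0, 0, 0⟩, ⟨6, 2, 0⟩⟩]⟩

theorem mT30_14_40 (x : ℕ) : Magic (14 + 4 * x) (40 + 12 * x) := by
  have h := Cert.magic (c := cT30_14_40) (by decide +kernel) x 0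
  simpa [cT30_14_40, Aff.ev] using h

/-- Certificate for n = 18 + 4 x + 6 y, k = 55 + 12 x + 15 y. -/
def cF1_18_55 : Cert := ⟨⟨18, 4, 6⟩, ⟨55, 12, 15⟩, [
  ⟨1, ⟨3, 0, 0⟩, ⟨16, 4, 3⟩, ⟨1, 0, 1⟩, ⟨36, 8, 10⟩, ⟨34, 8, 10⟩⟩,
  ⟨0, ⟨5, 0, 1⟩, ⟨0, 0, 0⟩, ⟨0, 0, 0⟩, ⟨0, 0, 0⟩, ⟨26, 6, 8⟩⟩,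
  ⟨0, ⟨24, 6, 6⟩, ⟨0, 0, 0⟩, ⟨0, 0, 0⟩, ⟨0, 0, 0⟩, ⟨4, 0, 1⟩⟩,
  ⟨1, ⟨27, 6, 8⟩, ⟨6, 0, 1⟩, ⟨1, 1, 0⟩, ⟨22, 4, 6⟩, ⟨28, 7, 8⟩⟩,
  ⟨0, ⟨21, 4, 6⟩, ⟨0, 0, 0⟩, ⟨0, 0, 0⟩, ⟨0, 0, 0⟩, ⟨11, 2, 3⟩⟩,
  ⟨0, ⟨23, 6, 6⟩, ⟨0, 0, 0⟩, ⟨0, 0, 0⟩, ⟨0, 0, 0⟩, ⟨12, 2, 3⟩⟩,
  ⟨2, ⟨10, 2, 2⟩, ⟨20, 4, 5⟩, ⟨1, 0, 1⟩, ⟨25, 6, 6⟩, ⟨13, 2, 3⟩⟩,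
  ⟨2, ⟨9, 1, 2⟩, ⟨32, 7, 10⟩, ⟨1, 1, 0⟩, ⟨14, 2, 3⟩, ⟨15, 4, 3⟩⟩,
  ⟨0, ⟨31, 7, 10⟩, ⟨0, 0, 0⟩, ⟨0, 0, 0⟩, ⟨0, 0, 0⟩, ⟨7, 1, 1⟩⟩,
  ⟨1, ⟨17, 4, 4⟩, ⟨8, 1, 1⟩, ⟨1, 0, 1⟩, ⟨30, 7, 8⟩, ⟨29, 7, 8⟩⟩,
  ⟨0, ⟨18, 4, 5⟩, ⟨0, 0, 0⟩, ⟨0, 0, 0⟩, ⟨0, 0, 0⟩, ⟨2, 0, 0⟩⟩,
  ⟨0, ⟨35, 8, 10⟩, ⟨0, 0, 0⟩, ⟨0, 0, 0⟩, ⟨0, 0, 0⟩, ⟨1, 0, 0⟩⟩,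
  ⟨0, ⟨19, 4, 5⟩, ⟨0, 0, 0⟩, ⟨0, 0, 0⟩, ⟨0, 0, 0⟩, ⟨33, 8, 10⟩⟩]⟩

theorem mF1_18_55 (x y : ℕ) : Magic (18 + 4 * x + 6 * y) (55 + 12 * x + 15 * y) := by
  have h := Cert.magic (c := cF1_18_55) (by decide +kernel) x y
  simpa [cF1_18_55, Aff.ev] using h

/-- Certificate for n = 18 + 4 x + 6 y, k = 54 + 12 x + 15 y. -/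
def cF1_18_54 : Cert := ⟨⟨18, 4, 6⟩, ⟨54, 12, 15⟩, [
  ⟨1, ⟨2, 0, 0⟩, ⟨16, 4, 3⟩, ⟨1, 0, 1⟩, ⟨36, 8, 10⟩, ⟨12, 2, 3⟩⟩,
  ⟨0, ⟨26, 6, 8⟩, ⟨0, 0, 0⟩, ⟨0, 0, 0⟩, ⟨0, 0, 0⟩, ⟨4, 0, 1⟩⟩,
  ⟨0, ⟨24, 6, 6⟩, ⟨0, 0, 0⟩, ⟨0, 0, 0⟩, ⟨0, 0, 0⟩, ⟨3, 0, 1⟩⟩,
  ⟨1, ⟨27, 6, 8⟩, ⟨5, 0, 1⟩, ⟨1, 1, 0⟩, ⟨22, 4, 6⟩, ⟨28, 7, 8⟩⟩,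
  ⟨0, ⟨21, 4, 6⟩, ⟨0, 0, 0⟩, ⟨0, 0, 0⟩, ⟨0, 0, 0⟩, ⟨10, 2, 3⟩⟩,
  ⟨0, ⟨23, 6, 6⟩, ⟨0, 0, 0⟩, ⟨0, 0, 0⟩, ⟨0, 0, 0⟩, ⟨11, 2, 3⟩⟩,
  ⟨2, ⟨9, 2, 2⟩, ⟨20, 4, 5⟩, ⟨1, 0, 1⟩, ⟨25, 6, 6⟩, ⟨13, 2, 3⟩⟩,
  ⟨2, ⟨8, 1, 2⟩, ⟨32, 7, 10⟩, ⟨1, 1, 0⟩, ⟨14, 2, 3⟩, ⟨15, 4, 3⟩⟩,
  ⟨0, ⟨31, 7, 10⟩, ⟨0, 0, 0⟩, ⟨0, 0, 0⟩, ⟨0, 0, 0⟩, ⟨6, 1, 1⟩⟩,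
  ⟨1, ⟨17, 4, 4⟩, ⟨7, 1, 1⟩, ⟨1, 0, 1⟩, ⟨30, 7, 8⟩, ⟨29, 7, 8⟩⟩,
  ⟨0, ⟨18, 4, 5⟩, ⟨0, 0, 0⟩, ⟨0, 0, 0⟩, ⟨0, 0, 0⟩, ⟨35, 8, 10⟩⟩,
  ⟨0, ⟨1, 0, 0⟩, ⟨0, 0, 0⟩, ⟨0, 0, 0⟩, ⟨0, 0, 0⟩, ⟨34, 8, 10⟩⟩,
  ⟨0, ⟨19, 4, 5⟩, ⟨0, 0, 0⟩, ⟨0, 0, 0⟩, ⟨0, 0, 0⟩, ⟨33, 8, 10⟩⟩]⟩

theorem mF1_18_54 (x y : ℕ) : Magic (18 + 4 * x + 6 * y) (54 + 12 * x + 15 * y) := by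
  have h := Cert.magic (c := cF1_18_54) (by decide +kernel) x y
  simpa [cF1_18_54, Aff.ev] using h

/-- Certificate for n = 18 + 4 x + 6 y, k = 53 + 12 x + 15 y. -/
def cF1_18_53 : Cert := ⟨⟨18, 4, 6⟩, ⟨53, 12, 15⟩, [
  ⟨1, ⟨15, 4, 3⟩, ⟨2, 0, 0⟩, ⟨1, 0, 1⟩, ⟨36, 8, 10⟩, ⟨23, 6, 6⟩⟩,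
  ⟨0, ⟨28, 6, 8⟩, ⟨0, 0, 0⟩, ⟨0, 0, 0⟩, ⟨0, 0, 0⟩, ⟨22, 6, 6⟩⟩,
  ⟨1, ⟨3, 0, 1⟩, ⟨29, 6, 8⟩, ⟨1, 1, 0⟩, ⟨21, 4, 6⟩, ⟨4, 1, 1⟩⟩,
  ⟨2, ⟨9, 2, 2⟩, ⟨20, 4, 5⟩, ⟨1, 0, 1⟩, ⟨24, 6, 6⟩, ⟨19, 4, 5⟩⟩,
  ⟨0, ⟨25, 6, 8⟩, ⟨0, 0, 0⟩, ⟨0, 0, 0⟩, ⟨0, 0, 0⟩, ⟨12, 2, 3⟩⟩,
  ⟨0, ⟨16, 4, 4⟩, ⟨0, 0, 0⟩, ⟨0, 0, 0⟩, ⟨0, 0, 0⟩, ⟨27, 6, 8⟩⟩,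
  ⟨0, ⟨10, 2, 3⟩, ⟨0, 0, 0⟩, ⟨0, 0, 0⟩, ⟨0, 0, 0⟩, ⟨26, 6, 8⟩⟩,
  ⟨1, ⟨17, 4, 4⟩, ⟨5, 1, 1⟩, ⟨1, 0, 1⟩, ⟨31, 7, 8⟩, ⟨30, 7, 8⟩⟩,
  ⟨0, ⟨18, 4, 5⟩, ⟨0, 0, 0⟩, ⟨0, 0, 0⟩, ⟨0, 0, 0⟩, ⟨1, 0, 0⟩⟩,
  ⟨0, ⟨34, 8, 10⟩, ⟨0, 0, 0⟩, ⟨0, 0, 0⟩, ⟨0, 0, 0⟩, ⟨8, 2, 2⟩⟩,
  ⟨0, ⟨11, 2, 3⟩, ⟨0, 0, 0⟩, ⟨0, 0, 0⟩, ⟨0, 0, 0⟩, ⟨35, 8, 10⟩⟩,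
  ⟨0, ⟨7, 2, 2⟩, ⟨0, 0, 0⟩, ⟨0, 0, 0⟩, ⟨0, 0, 0⟩, ⟨13, 2, 3⟩⟩,
  ⟨2, ⟨6, 1, 2⟩, ⟨33, 7, 10⟩, ⟨1, 1, 0⟩, ⟨14, 2, 3⟩, ⟨32, 7, 10⟩⟩]⟩

theorem mF1_18_53 (x y : ℕ) : Magic (18 + 4 * x + 6 * y) (53 + 12 * x + 15 * y) := by
  have h := Cert.magic (c := cF1_18_53) (by decide +kernel) x y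
  simpa [cF1_18_53, Aff.ev] using h

/-- Certificate for n = 18 + 4 x + 6 y, k = 52 + 12 x + 15 y. -/
def cF1_18_52 : Cert := ⟨⟨18, 4, 6⟩, ⟨52, 12, 15⟩, [
  ⟨1, ⟨15, 4, 3⟩, ⟨1, 0, 0⟩, ⟨1, 0, 1⟩, ⟨36, 8, 10⟩, ⟨35, 8, 10⟩⟩,
  ⟨0, ⟨16, 4, 4⟩, ⟨0, 0, 0⟩, ⟨0, 0, 0⟩, ⟨0, 0, 0⟩, ⟨26, 6, 8⟩⟩,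
  ⟨0, ⟨10, 2, 3⟩, ⟨0, 0, 0⟩, ⟨0, 0, 0⟩, ⟨0, 0, 0⟩, ⟨17, 4, 4⟩⟩,
  ⟨0, ⟨25, 6, 8⟩, ⟨0, 0, 0⟩, ⟨0, 0, 0⟩, ⟨0, 0, 0⟩, ⟨9, 2, 3⟩⟩,
  ⟨1, ⟨18, 4, 4⟩, ⟨3, 1, 1⟩, ⟨1, 0, 1⟩, ⟨31, 7, 8⟩, ⟨30, 7, 8⟩⟩,
  ⟨0, ⟨19, 4, 5⟩, ⟨0, 0, 0⟩, ⟨0, 0, 0⟩, ⟨0, 0, 0⟩, ⟨29, 7, 8⟩⟩,
  ⟨0, ⟨4, 1, 2⟩, ⟨0, 0, 0⟩, ⟨0, 0, 0⟩, ⟨0, 0, 0⟩, ⟨20, 4, 5⟩⟩,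
  ⟨2, ⟨2, 0, 1⟩, ⟨28, 6, 8⟩, ⟨1, 1, 0⟩, ⟨22, 4, 6⟩, ⟨27, 6, 8⟩⟩,
  ⟨0, ⟨23, 6, 6⟩, ⟨0, 0, 0⟩, ⟨0, 0, 0⟩, ⟨0, 0, 0⟩, ⟨8, 2, 3⟩⟩,
  ⟨2, ⟨7, 2, 2⟩, ⟨21, 4, 5⟩, ⟨1, 0, 1⟩, ⟨24, 6, 6⟩, ⟨11, 2, 3⟩⟩,
  ⟨0, ⟨34, 8, 10⟩, ⟨0, 0, 0⟩, ⟨0, 0, 0⟩, ⟨0, 0, 0⟩, ⟨12, 2, 3⟩⟩,
  ⟨0, ⟨6, 2, 2⟩, ⟨0, 0, 0⟩, ⟨0, 0, 0⟩, ⟨0, 0, 0⟩, ⟨13, 2, 3⟩⟩,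
  ⟨2, ⟨5, 1, 2⟩, ⟨33, 7, 10⟩, ⟨1, 1, 0⟩, ⟨14, 2, 3⟩, ⟨32, 7, 10⟩⟩]⟩

theorem mF1_18_52 (x y : ℕ) : Magic (18 + 4 * x + 6 * y) (52 + 12 * x + 15 * y) := by
  have h := Cert.magic (c := cF1_18_52) (by decide +kernel) x y
  simpa [cF1_18_52, Aff.ev] using h

/-- Certificate for n = 18 + 4 x + 6 y, k = 51 + 12 x + 15 y. -/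
def cF1_18_51 : Cert := ⟨⟨18, 4, 6⟩, ⟨51, 12, 15⟩, [
  ⟨1, ⟨14, 4, 3⟩, ⟨1, 0, 0⟩, ⟨1, 0, 1⟩, ⟨36, 8, 10⟩, ⟨35, 8, 10⟩⟩,
  ⟨0, ⟨15, 4, 4⟩, ⟨0, 0, 0⟩, ⟨0, 0, 0⟩, ⟨0, 0, 0⟩, ⟨27, 6, 8⟩⟩,
  ⟨0, ⟨9, 2, 3⟩, ⟨0, 0, 0⟩, ⟨0, 0, 0⟩, ⟨0, 0, 0⟩, ⟨16, 4, 4⟩⟩,
  ⟨0, ⟨26, 6, 8⟩, ⟨0, 0, 0⟩, ⟨0, 0, 0⟩, ⟨0, 0, 0⟩, ⟨23, 6, 6⟩⟩,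
  ⟨1, ⟨2, 0, 1⟩, ⟨28, 6, 8⟩, ⟨1, 1, 0⟩, ⟨21, 4, 6⟩, ⟨20, 4, 6⟩⟩,
  ⟨1, ⟨3, 1, 1⟩, ⟨17, 4, 4⟩, ⟨1, 0, 1⟩, ⟨31, 7, 8⟩, ⟨30, 7, 8⟩⟩,
  ⟨0, ⟨4, 1, 2⟩, ⟨0, 0, 0⟩, ⟨0, 0, 0⟩, ⟨0, 0, 0⟩, ⟨29, 7, 8⟩⟩,
  ⟨1, ⟨18, 4, 5⟩, ⟨8, 2, 2⟩, ⟨1, 0, 1⟩, ⟨25, 6, 6⟩, ⟨24, 6, 6⟩⟩,
  ⟨0, ⟨19, 4, 6⟩, ⟨0, 0, 0⟩, ⟨0, 0, 0⟩, ⟨0, 0, 0⟩, ⟨22, 6, 6⟩⟩,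
  ⟨0, ⟨10, 2, 3⟩, ⟨0, 0, 0⟩, ⟨0, 0, 0⟩, ⟨0, 0, 0⟩, ⟨7, 2, 2⟩⟩,
  ⟨0, ⟨34, 8, 10⟩, ⟨0, 0, 0⟩, ⟨0, 0, 0⟩, ⟨0, 0, 0⟩, ⟨11, 2, 3⟩⟩,
  ⟨0, ⟨6, 2, 2⟩, ⟨0, 0, 0⟩, ⟨0, 0, 0⟩, ⟨0, 0, 0⟩, ⟨12, 2, 3⟩⟩,
  ⟨2, ⟨5, 1, 2⟩, ⟨33, 7, 10⟩, ⟨1, 1, 0⟩, ⟨13, 2, 3⟩, ⟨32, 7, 10⟩⟩]⟩

theorem mF1_18_51 (x y : ℕ) : Magic (18 + 4 * x + 6 * y) (51 + 12 * x + 15 * y) := by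
  have h := Cert.magic (c := cF1_18_51) (by decide +kernel) x y
  simpa [cF1_18_51, Aff.ev] using h

/-- Certificate for n = 16 + 4 x + 6 y, k = 47 + 12 x + 15 y. -/
def cF1_16_47 : Cert := ⟨⟨16, 4, 6⟩, ⟨47, 12, 15⟩, [
  ⟨1, ⟨13, 4, 3⟩, ⟨2, 0, 0⟩, ⟨1, 0, 1⟩, ⟨32, 8, 10⟩, ⟨20, 6, 6⟩⟩,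
  ⟨1, ⟨25, 6, 8⟩, ⟨3, 0, 1⟩, ⟨1, 1, 0⟩, ⟨19, 4, 6⟩, ⟨26, 7, 8⟩⟩,
  ⟨2, ⟨8, 2, 2⟩, ⟨18, 4, 5⟩, ⟨1, 0, 1⟩, ⟨21, 6, 6⟩, ⟨17, 4, 5⟩⟩,
  ⟨0, ⟨22, 6, 8⟩, ⟨0, 0, 0⟩, ⟨0, 0, 0⟩, ⟨0, 0, 0⟩, ⟨11, 2, 3⟩⟩,
  ⟨0, ⟨14, 4, 4⟩, ⟨0, 0, 0⟩, ⟨0, 0, 0⟩, ⟨0, 0, 0⟩, ⟨24, 6, 8⟩⟩,
  ⟨0, ⟨9, 2, 3⟩, ⟨0, 0, 0⟩, ⟨0, 0, 0⟩, ⟨0, 0, 0⟩, ⟨23, 6, 8⟩⟩,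
  ⟨1, ⟨15, 4, 4⟩, ⟨4, 1, 1⟩, ⟨1, 0, 1⟩, ⟨28, 7, 8⟩, ⟨27, 7, 8⟩⟩,
  ⟨0, ⟨16, 4, 5⟩, ⟨0, 0, 0⟩, ⟨0, 0, 0⟩, ⟨0, 0, 0⟩, ⟨1, 0, 0⟩⟩,
  ⟨0, ⟨30, 8, 10⟩, ⟨0, 0, 0⟩, ⟨0, 0, 0⟩, ⟨0, 0, 0⟩, ⟨7, 2, 2⟩⟩,
  ⟨0, ⟨10, 2, 3⟩, ⟨0, 0, 0⟩, ⟨0, 0, 0⟩, ⟨0, 0, 0⟩, ⟨31, 8, 10⟩⟩,
  ⟨2, ⟨29, 7, 10⟩, ⟨6, 1, 2⟩, ⟨1, 1, 0⟩, ⟨12, 2, 3⟩, ⟨5, 1, 2⟩⟩]⟩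

theorem mF1_16_47 (x y : ℕ) : Magic (16 + 4 * x + 6 * y) (47 + 12 * x + 15 * y) := by
  have h := Cert.magic (c := cF1_16_47) (by decide +kernel) x y
  simpa [cF1_16_47, Aff.ev] using h

/-- Certificate for n = 19 + 4 x + 6 y, k = 55 + 12 x + 15 y. -/
def cF1_19_55 : Cert := ⟨⟨19, 4, 6⟩, ⟨55, 12, 15⟩, [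
  ⟨1, ⟨16, 4, 3⟩, ⟨1, 0, 0⟩, ⟨1, 0, 1⟩, ⟨38, 8, 10⟩, ⟨24, 6, 6⟩⟩,
  ⟨0, ⟨30, 6, 8⟩, ⟨0, 0, 0⟩, ⟨0, 0, 0⟩, ⟨0, 0, 0⟩, ⟨23, 6, 6⟩⟩,
  ⟨1, ⟨2, 0, 1⟩, ⟨31, 6, 8⟩, ⟨1, 1, 0⟩, ⟨22, 4, 6⟩, ⟨3, 1, 1⟩⟩,
  ⟨2, ⟨9, 2, 2⟩, ⟨21, 4, 5⟩, ⟨1, 0, 1⟩, ⟨25, 6, 6⟩, ⟨20, 4, 5⟩⟩,
  ⟨0, ⟨26, 6, 8⟩, ⟨0, 0, 0⟩, ⟨0, 0, 0⟩, ⟨0, 0, 0⟩, ⟨12, 2, 3⟩⟩,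
  ⟨0, ⟨17, 4, 4⟩, ⟨0, 0, 0⟩, ⟨0, 0, 0⟩, ⟨0, 0, 0⟩, ⟨28, 6, 8⟩⟩,
  ⟨0, ⟨10, 2, 3⟩, ⟨0, 0, 0⟩, ⟨0, 0, 0⟩, ⟨0, 0, 0⟩, ⟨27, 6, 8⟩⟩,
  ⟨1, ⟨18, 4, 4⟩, ⟨4, 1, 1⟩, ⟨1, 0, 1⟩, ⟨33, 7, 8⟩, ⟨32, 7, 8⟩⟩,
  ⟨0, ⟨19, 4, 5⟩, ⟨0, 0, 0⟩, ⟨0, 0, 0⟩, ⟨0, 0, 0⟩, ⟨29, 6, 8⟩⟩,
  ⟨0, ⟨7, 2, 2⟩, ⟨0, 0, 0⟩, ⟨0, 0, 0⟩, ⟨0, 0, 0⟩, ⟨37, 8, 10⟩⟩,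
  ⟨0, ⟨11, 2, 3⟩, ⟨0, 0, 0⟩, ⟨0, 0, 0⟩, ⟨0, 0, 0⟩, ⟨8, 2, 2⟩⟩,
  ⟨0, ⟨36, 8, 10⟩, ⟨0, 0, 0⟩, ⟨0, 0, 0⟩, ⟨0, 0, 0⟩, ⟨13, 2, 3⟩⟩,
  ⟨0, ⟨6, 2, 2⟩, ⟨0, 0, 0⟩, ⟨0, 0, 0⟩, ⟨0, 0, 0⟩, ⟨14, 2, 3⟩⟩,
  ⟨2, ⟨5, 1, 2⟩, ⟨35, 7, 10⟩, ⟨1, 1, 0⟩, ⟨15, 2, 3⟩, ⟨34, 7, 10⟩⟩]⟩

theorem mF1_19_55 (x y : ℕ) : Magic (19 + 4 * x + 6 * y) (55 + 12 * x + 15 * y) := by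
  have h := Cert.magic (c := cF1_19_55) (by decide +kernel) x y
  simpa [cF1_19_55, Aff.ev] using h

/-- Certificate for n = 17 + 4 x + 6 y, k = 49 + 12 x + 15 y. -/
def cF1_17_49 : Cert := ⟨⟨17, 4, 6⟩, ⟨49, 12, 15⟩, [
  ⟨1, ⟨14, 4, 3⟩, ⟨1, 0, 0⟩, ⟨1, 0, 1⟩, ⟨34, 8, 10⟩, ⟨21, 6, 6⟩⟩,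
  ⟨1, ⟨27, 6, 8⟩, ⟨2, 0, 1⟩, ⟨1, 1, 0⟩, ⟨20, 4, 6⟩, ⟨30, 7, 10⟩⟩,
  ⟨1, ⟨17, 4, 4⟩, ⟨3, 1, 1⟩, ⟨1, 0, 1⟩, ⟨29, 7, 8⟩, ⟨28, 7, 8⟩⟩,
  ⟨0, ⟨18, 4, 5⟩, ⟨0, 0, 0⟩, ⟨0, 0, 0⟩, ⟨0, 0, 0⟩, ⟨24, 6, 8⟩⟩,
  ⟨0, ⟨7, 2, 2⟩, ⟨0, 0, 0⟩, ⟨0, 0, 0⟩, ⟨0, 0, 0⟩, ⟨9, 2, 3⟩⟩,
  ⟨0, ⟨33, 8, 10⟩, ⟨0, 0, 0⟩, ⟨0, 0, 0⟩, ⟨0, 0, 0⟩, ⟨6, 2, 2⟩⟩,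
  ⟨0, ⟨10, 2, 3⟩, ⟨0, 0, 0⟩, ⟨0, 0, 0⟩, ⟨0, 0, 0⟩, ⟨16, 4, 4⟩⟩,
  ⟨0, ⟨23, 6, 8⟩, ⟨0, 0, 0⟩, ⟨0, 0, 0⟩, ⟨0, 0, 0⟩, ⟨11, 2, 3⟩⟩,
  ⟨0, ⟨15, 4, 4⟩, ⟨0, 0, 0⟩, ⟨0, 0, 0⟩, ⟨0, 0, 0⟩, ⟨26, 6, 8⟩⟩,
  ⟨2, ⟨19, 4, 5⟩, ⟨8, 2, 2⟩, ⟨1, 0, 1⟩, ⟨22, 6, 6⟩, ⟨25, 6, 8⟩⟩,
  ⟨0, ⟨5, 2, 2⟩, ⟨0, 0, 0⟩, ⟨0, 0, 0⟩, ⟨0, 0, 0⟩, ⟨12, 2, 3⟩⟩,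
  ⟨2, ⟨4, 1, 2⟩, ⟨32, 7, 10⟩, ⟨1, 1, 0⟩, ⟨13, 2, 3⟩, ⟨31, 7, 10⟩⟩]⟩

theorem mF1_17_49 (x y : ℕ) : Magic (17 + 4 * x + 6 * y) (49 + 12 * x + 15 * y) := by
  have h := Cert.magic (c := cF1_17_49) (by decide +kernel) x y
  simpa [cF1_17_49, Aff.ev] using h

/-- Certificate for n = 13 + 4 x + 6 y, k = 36 + 12 x + 15 y. -/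
def cF1_13_36 : Cert := ⟨⟨13, 4, 6⟩, ⟨36, 12, 15⟩, [
  ⟨1, ⟨9, 4, 3⟩, ⟨1, 0, 0⟩, ⟨1, 0, 1⟩, ⟨26, 8, 10⟩, ⟨25, 8, 10⟩⟩,
  ⟨0, ⟨10, 4, 4⟩, ⟨0, 0, 0⟩, ⟨0, 0, 0⟩, ⟨0, 0, 0⟩, ⟨24, 8, 10⟩⟩,
  ⟨1, ⟨2, 0, 1⟩, ⟨18, 6, 8⟩, ⟨1, 1, 0⟩, ⟨16, 4, 6⟩, ⟨15, 4, 6⟩⟩,
  ⟨1, ⟨3, 1, 1⟩, ⟨11, 4, 4⟩, ⟨1, 0, 1⟩, ⟨22, 7, 8⟩, ⟨21, 7, 8⟩⟩,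
  ⟨0, ⟨4, 1, 2⟩, ⟨0, 0, 0⟩, ⟨0, 0, 0⟩, ⟨0, 0, 0⟩, ⟨20, 7, 8⟩⟩,
  ⟨0, ⟨12, 4, 5⟩, ⟨0, 0, 0⟩, ⟨0, 0, 0⟩, ⟨0, 0, 0⟩, ⟨19, 7, 8⟩⟩,
  ⟨1, ⟨5, 1, 2⟩, ⟨23, 7, 10⟩, ⟨1, 1, 0⟩, ⟨8, 2, 3⟩, ⟨7, 2, 3⟩⟩,
  ⟨1, ⟨6, 2, 2⟩, ⟨13, 4, 5⟩, ⟨1, 0, 1⟩, ⟨17, 6, 6⟩, ⟨14, 4, 6⟩⟩]⟩

theorem mF1_13_36 (x y : ℕ) : Magic (13 + 4 * x + 6 * y) (36 + 12 * x + 15 * y) := by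
  have h := Cert.magic (c := cF1_13_36) (by decide +kernel) x y
  simpa [cF1_13_36, Aff.ev] using h

/-- Certificate for n = 15 + 4 x + 6 y, k = 42 + 12 x + 15 y. -/
def cF1_15_42 : Cert := ⟨⟨15, 4, 6⟩, ⟨42, 12, 15⟩, [
  ⟨1, ⟨11, 4, 3⟩, ⟨1, 0, 0⟩, ⟨1, 0, 1⟩, ⟨30, 8, 10⟩, ⟨19, 6, 6⟩⟩,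
  ⟨0, ⟨22, 6, 8⟩, ⟨0, 0, 0⟩, ⟨0, 0, 0⟩, ⟨0, 0, 0⟩, ⟨13, 4, 4⟩⟩,
  ⟨0, ⟨7, 2, 3⟩, ⟨0, 0, 0⟩, ⟨0, 0, 0⟩, ⟨0, 0, 0⟩, ⟨12, 4, 4⟩⟩,
  ⟨1, ⟨23, 6, 8⟩, ⟨2, 0, 1⟩, ⟨1, 1, 0⟩, ⟨17, 4, 6⟩, ⟨26, 7, 10⟩⟩,
  ⟨1, ⟨14, 4, 4⟩, ⟨3, 1, 1⟩, ⟨1, 0, 1⟩, ⟨25, 7, 8⟩, ⟨24, 7, 8⟩⟩,
  ⟨1, ⟨15, 4, 5⟩, ⟨6, 2, 2⟩, ⟨1, 0, 1⟩, ⟨21, 6, 6⟩, ⟨20, 6, 6⟩⟩,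
  ⟨0, ⟨16, 4, 6⟩, ⟨0, 0, 0⟩, ⟨0, 0, 0⟩, ⟨0, 0, 0⟩, ⟨18, 6, 6⟩⟩,
  ⟨0, ⟨8, 2, 3⟩, ⟨0, 0, 0⟩, ⟨0, 0, 0⟩, ⟨0, 0, 0⟩, ⟨29, 8, 10⟩⟩,
  ⟨0, ⟨5, 2, 2⟩, ⟨0, 0, 0⟩, ⟨0, 0, 0⟩, ⟨0, 0, 0⟩, ⟨9, 2, 3⟩⟩,
  ⟨2, ⟨4, 1, 2⟩, ⟨28, 7, 10⟩, ⟨1, 1, 0⟩, ⟨10, 2, 3⟩, ⟨27, 7, 10⟩⟩]⟩

theorem mF1_15_42 (x y : ℕ) : Magic (15 + 4 * x + 6 * y) (42 + 12 * x + 15 * y) := by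
  have h := Cert.magic (c := cF1_15_42) (by decide +kernel) x y
  simpa [cF1_15_42, Aff.ev] using h

/-- Certificate for n = 17 + 4 x + 6 y, k = 50 + 12 x + 15 y. -/
def cF1_17_50 : Cert := ⟨⟨17, 4, 6⟩, ⟨50, 12, 15⟩, [
  ⟨1, ⟨15, 4, 3⟩, ⟨1, 0, 0⟩, ⟨1, 0, 1⟩, ⟨34, 8, 10⟩, ⟨22, 6, 6⟩⟩,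
  ⟨1, ⟨27, 6, 8⟩, ⟨2, 0, 1⟩, ⟨1, 1, 0⟩, ⟨21, 4, 6⟩, ⟨28, 7, 8⟩⟩,
  ⟨2, ⟨7, 2, 2⟩, ⟨20, 4, 5⟩, ⟨1, 0, 1⟩, ⟨23, 6, 6⟩, ⟨19, 4, 5⟩⟩,
  ⟨0, ⟨24, 6, 8⟩, ⟨0, 0, 0⟩, ⟨0, 0, 0⟩, ⟨0, 0, 0⟩, ⟨10, 2, 3⟩⟩,
  ⟨0, ⟨16, 4, 4⟩, ⟨0, 0, 0⟩, ⟨0, 0, 0⟩, ⟨0, 0, 0⟩, ⟨9, 2, 3⟩⟩,
  ⟨0, ⟨25, 6, 8⟩, ⟨0, 0, 0⟩, ⟨0, 0, 0⟩, ⟨0, 0, 0⟩, ⟨8, 2, 3⟩⟩,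
  ⟨1, ⟨17, 4, 4⟩, ⟨3, 1, 1⟩, ⟨1, 0, 1⟩, ⟨30, 7, 8⟩, ⟨29, 7, 8⟩⟩,
  ⟨0, ⟨18, 4, 5⟩, ⟨0, 0, 0⟩, ⟨0, 0, 0⟩, ⟨0, 0, 0⟩, ⟨26, 6, 8⟩⟩,
  ⟨0, ⟨6, 2, 2⟩, ⟨0, 0, 0⟩, ⟨0, 0, 0⟩, ⟨0, 0, 0⟩, ⟨11, 2, 3⟩⟩,
  ⟨0, ⟨33, 8, 10⟩, ⟨0, 0, 0⟩, ⟨0, 0, 0⟩, ⟨0, 0, 0⟩, ⟨12, 2, 3⟩⟩,
  ⟨0, ⟨5, 2, 2⟩, ⟨0, 0, 0⟩, ⟨0, 0, 0⟩, ⟨0, 0, 0⟩, ⟨13, 2, 3⟩⟩,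
  ⟨2, ⟨4, 1, 2⟩, ⟨32, 7, 10⟩, ⟨1, 1, 0⟩, ⟨14, 2, 3⟩, ⟨31, 7, 10⟩⟩]⟩

theorem mF1_17_50 (x y : ℕ) : Magic (17 + 4 * x + 6 * y) (50 + 12 * x + 15 * y) := by
  have h := Cert.magic (c := cF1_17_50) (by decide +kernel) x y
  simpa [cF1_17_50, Aff.ev] using h

/-- Certificate for n = 15 + 4 x + 6 y, k = 44 + 12 x + 15 y. -/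
def cF1_15_44 : Cert := ⟨⟨15, 4, 6⟩, ⟨44, 12, 15⟩, [
  ⟨1, ⟨12, 4, 3⟩, ⟨2, 0, 0⟩, ⟨1, 0, 1⟩, ⟨30, 8, 10⟩, ⟨29, 8, 10⟩⟩,
  ⟨0, ⟨13, 4, 4⟩, ⟨0, 0, 0⟩, ⟨0, 0, 0⟩, ⟨0, 0, 0⟩, ⟨10, 2, 3⟩⟩,
  ⟨0, ⟨21, 6, 8⟩, ⟨0, 0, 0⟩, ⟨0, 0, 0⟩, ⟨0, 0, 0⟩, ⟨14, 4, 4⟩⟩,
  ⟨0, ⟨9, 2, 3⟩, ⟨0, 0, 0⟩, ⟨0, 0, 0⟩, ⟨0, 0, 0⟩, ⟨28, 8, 10⟩⟩,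
  ⟨1, ⟨7, 2, 2⟩, ⟨17, 4, 5⟩, ⟨1, 0, 1⟩, ⟨20, 6, 6⟩, ⟨8, 2, 3⟩⟩,
  ⟨0, ⟨19, 6, 6⟩, ⟨0, 0, 0⟩, ⟨0, 0, 0⟩, ⟨0, 0, 0⟩, ⟨3, 0, 1⟩⟩,
  ⟨1, ⟨22, 6, 8⟩, ⟨4, 0, 1⟩, ⟨1, 1, 0⟩, ⟨18, 4, 6⟩, ⟨25, 7, 10⟩⟩,
  ⟨1, ⟨15, 4, 4⟩, ⟨5, 1, 1⟩, ⟨1, 0, 1⟩, ⟨24, 7, 8⟩, ⟨23, 7, 8⟩⟩,
  ⟨0, ⟨16, 4, 5⟩, ⟨0, 0, 0⟩, ⟨0, 0, 0⟩, ⟨0, 0, 0⟩, ⟨1, 0, 0⟩⟩,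
  ⟨2, ⟨6, 1, 2⟩, ⟨27, 7, 10⟩, ⟨1, 1, 0⟩, ⟨11, 2, 3⟩, ⟨26, 7, 10⟩⟩]⟩

theorem mF1_15_44 (x y : ℕ) : Magic (15 + 4 * x + 6 * y) (44 + 12 * x + 15 * y) := by
  have h := Cert.magic (c := cF1_15_44) (by decide +kernel) x y
  simpa [cF1_15_44, Aff.ev] using h

/-- Small cases. -/
theorem small (n k : ℕ) (hn : 4 ≤ n) (hn' : n ≤ 10) (h5 : n ≠ 5) (hk : 5 * n + 3 ≤ 2 * k) (hk' : k ≤ 3 * n + 1) :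
    Magic n k := by
  interval_cases n
  · have hcases : k = 12 ∨ k = 13 := by omega
    rcases hcases with rfl | rfl
    · exact mD_4_12
    · exact mD_4_13
  · exact absurd rfl h5
  · have hcases : k = 17 ∨ k = 18 ∨ k = 19 := by omega
    rcases hcases with rfl | rfl | rfl
    · exact mD_6_17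
    · exact mD_6_18
    · exact mD_6_19
  · have hcases : k = 19 ∨ k = 20 ∨ k = 21 ∨ k = 22 := by omega
    rcases hcases with rfl | rfl | rfl | rfl
    · exact mD_7_19
    · exact mD_7_20
    · exact mD_7_21
    · exact mD_7_22
  · have hcases : k = 22 ∨ k = 23 ∨ k = 24 ∨ k = 25 := by omega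
    rcases hcases with rfl | rfl | rfl | rfl
    · exact mD_8_22
    · exact mD_8_23
    · exact mD_8_24
    · exact mD_8_25
  · have hcases : k = 24 ∨ k = 25 ∨ k = 26 ∨ k = 27 ∨ k = 28 := by omega
    rcases hcases with rfl | rfl | rfl | rfl | rfl
    · exact mD_9_24
    · exact mD_9_25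
    · exact mD_9_26
    · exact mD_9_27
    · exact mD_9_28
  · have hcases : k = 27 ∨ k = 28 ∨ k = 29 ∨ k = 30 ∨ k = 31 := by omega
    rcases hcases with rfl | rfl | rfl | rfl | rfl
    · exact mD_10_27
    · exact mD_10_28
    · exact mD_10_29
    · exact mD_10_30
    · exact mD_10_31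

theorem low11 (x s : ℕ) (hs : s ≤ 7) : Magic (11 + 4 * x) (29 + s + 10 * x) := by
  interval_cases s
  · exact mT25_11_29 x
  · exact mT25_11_30 x
  · exact mT25_11_31 x
  · exact mT25_11_32 x
  · exact mT25_11_33 x
  · exact mT25_11_34 x
  · exact mT25_11_35 x
  · exact mT25_11_36 x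

theorem low12 (x s : ℕ) (hs : s ≤ 7) : Magic (12 + 4 * x) (32 + s + 10 * x) := by
  interval_cases s
  · exact mT25_12_32 x
  · exact mT25_12_33 x
  · exact mT25_12_34 x
  · exact mT25_12_35 x
  · exact mT25_12_36 x
  · exact mT25_12_37 x
  · exact mT25_12_38 x
  · exact mT25_12_39 x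

theorem low13 (x s : ℕ) (hs : s ≤ 7) : Magic (13 + 4 * x) (34 + s + 10 * x) := by
  interval_cases s
  · exact mT25_13_34 x
  · exact mT25_13_35 x
  · exact mT25_13_36 x
  · exact mT25_13_37 x
  · exact mT25_13_38 x
  · exact mT25_13_39 x
  · exact mT25_13_40 x
  · exact mT25_13_41 x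

theorem low14 (x s : ℕ) (hs : s ≤ 7) : Magic (14 + 4 * x) (37 + s + 10 * x) := by
  interval_cases s
  · exact mT25_14_37 x
  · exact mT25_14_38 x
  · exact mT25_14_39 x
  · exact mT25_14_40 x
  · exact mT25_14_41 x
  · exact mT25_14_42 x
  · exact mT25_14_43 x
  · exact mT25_14_44 x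

theorem mid11 (x e : ℕ) (he : e ≤ 3) : Magic (11 + 4 * x) (31 + e + 12 * x) := by
  interval_cases e
  · exact mT30_11_31 x
  · exact mT30_11_32 x
  · exact mT30_11_33 x
  · exact mT30_11_34 x

theorem mid12 (x e : ℕ) (he : e ≤ 3) : Magic (12 + 4 * x) (34 + e + 12 * x) := by
  interval_cases e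
  · exact mT30_12_34 x
  · exact mT30_12_35 x
  · exact mT30_12_36 x
  · exact mT30_12_37 x

theorem mid13 (x e : ℕ) (he : e ≤ 3) : Magic (13 + 4 * x) (37 + e + 12 * x) := by
  interval_cases e
  · exact mT30_13_37 x
  · exact mT30_13_38 x
  · exact mT30_13_39 x
  · exact mT30_13_40 x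

theorem mid14 (x e : ℕ) (he : e ≤ 3) : Magic (14 + 4 * x) (40 + e + 12 * x) := by
  interval_cases e
  · exact mT30_14_40 x
  · exact mT30_14_41 x
  · exact mT30_14_42 x
  · exact mT30_14_43 x

theorem inner_odd (s d : ℕ) (hs : 8 ≤ s) (hd : 4 ≤ d) :
    Magic (2 * (s + d) + 1) (5 * (s + d) + 4 + s) := by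
  have hcases : (∃ x y, s = 6 + 2 * x ∧ d = 3 + 3 * y) ∨ (∃ x y, s = 2 + 2 * x ∧ d = 4 + 3 * y) ∨ (∃ x y, s = 6 + 2 * x ∧ d = 2 + 3 * y) ∨ (∃ x y, s = 5 + 2 * x ∧ d = 3 + 3 * y) ∨ (∃ x y, s = 3 + 2 * x ∧ d = 4 + 3 * y) ∨ (∃ x y, s = 5 + 2 * x ∧ d = 2 + 3 * y) := by
    have h1 : s % 2 = 0 ∨ s % 2 = 1 := by omega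
    have h2 : d % 3 = 0 ∨ d % 3 = 1 ∨ d % 3 = 2 := by omega
    rcases h1 with h1 | h1 <;> rcases h2 with h2 | h2 | h2
    · exact Or.inl ⟨(s - 6) / 2, (d - 3) / 3, by omega, by omega⟩
    · exact Or.inr (Or.inl ⟨(s - 2) / 2, (d - 4) / 3, by omega, by omega⟩)
    · exact Or.inr (Or.inr (Or.inl ⟨(s - 6) / 2, (d - 2) / 3, by omega, by omega⟩))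
    · exact Or.inr (Or.inr (Or.inr (Or.inl ⟨(s - 5) / 2, (d - 3) / 3, by omega, by omega⟩)))
    · exact Or.inr (Or.inr (Or.inr (Or.inr (Or.inl ⟨(s - 3) / 2, (d - 4) / 3, by omega, by omega⟩))))
    · exact Or.inr (Or.inr (Or.inr (Or.inr (Or.inr (⟨(s - 5) / 2, (d - 2) / 3, by omega, by omega⟩)))))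
  rcases hcases with ⟨x, y, hs', hd'⟩ | ⟨x, y, hs', hd'⟩ | ⟨x, y, hs', hd'⟩ | ⟨x, y, hs', hd'⟩ | ⟨x, y, hs', hd'⟩ | ⟨x, y, hs', hd'⟩
  · have h := mF1_19_55 x y
    have e1 : 2 * (s + d) + 1 = 19 + 4 * x + 6 * y := by omega
    have e2 : 5 * (s + d) + 4 + s = 55 + 12 * x + 15 * y := by omega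
    rw [e1, e2]
    exact h
  · have h := mF1_13_36 x y
    have e1 : 2 * (s + d) + 1 = 13 + 4 * x + 6 * y := by omega
    have e2 : 5 * (s + d) + 4 + s = 36 + 12 * x + 15 * y := by omega
    rw [e1, e2]
    exact h
  · have h := mF1_17_50 x y
    have e1 : 2 * (s + d) + 1 = 17 + 4 * x + 6 * y := by omega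
    have e2 : 5 * (s + d) + 4 + s = 50 + 12 * x + 15 * y := by omega
    rw [e1, e2]
    exact h
  · have h := mF1_17_49 x y
    have e1 : 2 * (s + d) + 1 = 17 + 4 * x + 6 * y := by omega
    have e2 : 5 * (s + d) + 4 + s = 49 + 12 * x + 15 * y := by omega
    rw [e1, e2]
    exact h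
  · have h := mF1_15_42 x y
    have e1 : 2 * (s + d) + 1 = 15 + 4 * x + 6 * y := by omega
    have e2 : 5 * (s + d) + 4 + s = 42 + 12 * x + 15 * y := by omega
    rw [e1, e2]
    exact h
  · have h := mF1_15_44 x y
    have e1 : 2 * (s + d) + 1 = 15 + 4 * x + 6 * y := by omega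
    have e2 : 5 * (s + d) + 4 + s = 44 + 12 * x + 15 * y := by omega
    rw [e1, e2]
    exact h

theorem inner_even (s d : ℕ) (hs : 8 ≤ s) (hd : 4 ≤ d) :
    Magic (2 * (s + d) + 2) (5 * (s + d) + 7 + s) := by
  have hcases : (∃ x y, s = 8 + 2 * x ∧ d = 0 + 3 * y) ∨ (∃ x y, s = 4 + 2 * x ∧ d = 4 + 3 * y) ∨ (∃ x y, s = 6 + 2 * x ∧ d = 2 + 3 * y) ∨ (∃ x y, s = 5 + 2 * x ∧ d = 3 + 3 * y) ∨ (∃ x y, s = 7 + 2 * x ∧ d = 1 + 3 * y) ∨ (∃ x y, s = 5 + 2 * x ∧ d = 2 + 3 * y) := by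
    have h1 : s % 2 = 0 ∨ s % 2 = 1 := by omega
    have h2 : d % 3 = 0 ∨ d % 3 = 1 ∨ d % 3 = 2 := by omega
    rcases h1 with h1 | h1 <;> rcases h2 with h2 | h2 | h2
    · exact Or.inl ⟨(s - 8) / 2, (d - 0) / 3, by omega, by omega⟩
    · exact Or.inr (Or.inl ⟨(s - 4) / 2, (d - 4) / 3, by omega, by omega⟩)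
    · exact Or.inr (Or.inr (Or.inl ⟨(s - 6) / 2, (d - 2) / 3, by omega, by omega⟩))
    · exact Or.inr (Or.inr (Or.inr (Or.inl ⟨(s - 5) / 2, (d - 3) / 3, by omega, by omega⟩)))
    · exact Or.inr (Or.inr (Or.inr (Or.inr (Or.inl ⟨(s - 7) / 2, (d - 1) / 3, by omega, by omega⟩))))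
    · exact Or.inr (Or.inr (Or.inr (Or.inr (Or.inr (⟨(s - 5) / 2, (d - 2) / 3, by omega, by omega⟩)))))
  rcases hcases with ⟨x, y, hs', hd'⟩ | ⟨x, y, hs', hd'⟩ | ⟨x, y, hs', hd'⟩ | ⟨x, y, hs', hd'⟩ | ⟨x, y, hs', hd'⟩ | ⟨x, y, hs', hd'⟩
  · have h := mF1_18_55 x y
    have e1 : 2 * (s + d) + 2 = 18 + 4 * x + 6 * y := by omega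
    have e2 : 5 * (s + d) + 7 + s = 55 + 12 * x + 15 * y := by omega
    rw [e1, e2]
    exact h
  · have h := mF1_18_51 x y
    have e1 : 2 * (s + d) + 2 = 18 + 4 * x + 6 * y := by omega
    have e2 : 5 * (s + d) + 7 + s = 51 + 12 * x + 15 * y := by omega
    rw [e1, e2]
    exact h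
  · have h := mF1_18_53 x y
    have e1 : 2 * (s + d) + 2 = 18 + 4 * x + 6 * y := by omega
    have e2 : 5 * (s + d) + 7 + s = 53 + 12 * x + 15 * y := by omega
    rw [e1, e2]
    exact h
  · have h := mF1_18_52 x y
    have e1 : 2 * (s + d) + 2 = 18 + 4 * x + 6 * y := by omega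
    have e2 : 5 * (s + d) + 7 + s = 52 + 12 * x + 15 * y := by omega
    rw [e1, e2]
    exact h
  · have h := mF1_18_54 x y
    have e1 : 2 * (s + d) + 2 = 18 + 4 * x + 6 * y := by omega
    have e2 : 5 * (s + d) + 7 + s = 54 + 12 * x + 15 * y := by omega
    rw [e1, e2]
    exact h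
  · have h := mF1_16_47 x y
    have e1 : 2 * (s + d) + 2 = 16 + 4 * x + 6 * y := by omega
    have e2 : 5 * (s + d) + 7 + s = 47 + 12 * x + 15 * y := by omega
    rw [e1, e2]
    exact h

/-- All magic sums in the lower half of the range. -/
theorem lower_half (n k : ℕ) (hn : 4 ≤ n) (h5 : n ≠ 5) (hk : 5 * n + 3 ≤ 2 * k) (hk' : k ≤ 3 * n + 1) :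
    Magic n k := by
  rcases Nat.lt_or_ge n 11 with h | h
  · exact small n k hn (by omega) h5 hk hk'
  -- residue of n modulo 4
  have hres : (∃ x, n = 11 + 4 * x) ∨ (∃ x, n = 12 + 4 * x) ∨ (∃ x, n = 13 + 4 * x) ∨
      (∃ x, n = 14 + 4 * x) := by
    have h4 : n % 4 = 3 ∨ n % 4 = 0 ∨ n % 4 = 1 ∨ n % 4 = 2 := by omega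
    rcases h4 with h4 | h4 | h4 | h4
    · exact Or.inl ⟨(n - 11) / 4, by omega⟩
    · exact Or.inr (Or.inl ⟨(n - 12) / 4, by omega⟩)
    · exact Or.inr (Or.inr (Or.inl ⟨(n - 13) / 4, by omega⟩))
    · exact Or.inr (Or.inr (Or.inr ⟨(n - 14) / 4, by omega⟩))

  rcases hres with ⟨x, hx⟩ | ⟨x, hx⟩ | ⟨x, hx⟩ | ⟨x, hx⟩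
  · obtain ⟨s, hs⟩ : ∃ s, k = 29 + s + 10 * x := ⟨k - (29 + 10 * x), by omega⟩
    rcases Nat.lt_or_ge s 8 with h1 | h1
    · rw [hx, hs]
      exact low11 x s (by omega)
    · obtain ⟨d, hd⟩ : ∃ d, k + d = 3 * n + 1 := ⟨3 * n + 1 - k, by omega⟩
      rcases Nat.lt_or_ge d 4 with h2 | h2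
      · obtain ⟨e, he⟩ : ∃ e, k = 31 + e + 12 * x := ⟨k - (31 + 12 * x), by omega⟩
        rw [hx, he]
        exact mid11 x e (by omega)
      · have h3 := inner_odd s d h1 h2
        have e1 : n = 2 * (s + d) + 1 := by omega
        have e2 : k = 5 * (s + d) + 4 + s := by omega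
        rw [e1, e2]
        exact h3
  · obtain ⟨s, hs⟩ : ∃ s, k = 32 + s + 10 * x := ⟨k - (32 + 10 * x), by omega⟩
    rcases Nat.lt_or_ge s 8 with h1 | h1
    · rw [hx, hs]
      exact low12 x s (by omega)
    · obtain ⟨d, hd⟩ : ∃ d, k + d = 3 * n + 1 := ⟨3 * n + 1 - k, by omega⟩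
      rcases Nat.lt_or_ge d 4 with h2 | h2
      · obtain ⟨e, he⟩ : ∃ e, k = 34 + e + 12 * x := ⟨k - (34 + 12 * x), by omega⟩
        rw [hx, he]
        exact mid12 x e (by omega)
      · have h3 := inner_even s d h1 h2
        have e1 : n = 2 * (s + d) + 2 := by omega
        have e2 : k = 5 * (s + d) + 7 + s := by omega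
        rw [e1, e2]
        exact h3
  · obtain ⟨s, hs⟩ : ∃ s, k = 34 + s + 10 * x := ⟨k - (34 + 10 * x), by omega⟩
    rcases Nat.lt_or_ge s 8 with h1 | h1
    · rw [hx, hs]
      exact low13 x s (by omega)
    · obtain ⟨d, hd⟩ : ∃ d, k + d = 3 * n + 1 := ⟨3 * n + 1 - k, by omega⟩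
      rcases Nat.lt_or_ge d 4 with h2 | h2
      · obtain ⟨e, he⟩ : ∃ e, k = 37 + e + 12 * x := ⟨k - (37 + 12 * x), by omega⟩
        rw [hx, he]
        exact mid13 x e (by omega)
      · have h3 := inner_odd s d h1 h2
        have e1 : n = 2 * (s + d) + 1 := by omega
        have e2 : k = 5 * (s + d) + 4 + s := by omega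
        rw [e1, e2]
        exact h3
  · obtain ⟨s, hs⟩ : ∃ s, k = 37 + s + 10 * x := ⟨k - (37 + 10 * x), by omega⟩
    rcases Nat.lt_or_ge s 8 with h1 | h1
    · rw [hx, hs]
      exact low14 x s (by omega)
    · obtain ⟨d, hd⟩ : ∃ d, k + d = 3 * n + 1 := ⟨3 * n + 1 - k, by omega⟩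
      rcases Nat.lt_or_ge d 4 with h2 | h2
      · obtain ⟨e, he⟩ : ∃ e, k = 40 + e + 12 * x := ⟨k - (40 + 12 * x), by omega⟩
        rw [hx, he]
        exact mid14 x e (by omega)
      · have h3 := inner_even s d h1 h2
        have e1 : n = 2 * (s + d) + 2 := by omega
        have e2 : k = 5 * (s + d) + 7 + s := by omega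
        rw [e1, e2]
        exact h3

/-- All magic sums in the full range. -/
theorem full_range (n k : ℕ) (hn : 4 ≤ n) (h5 : n ≠ 5) (hk : 5 * n + 3 ≤ 2 * k)
    (hk' : 2 * k ≤ 7 * n + 3) : Magic n k := by
  rcases Nat.lt_or_ge (3 * n + 1) k with h | h
  · exact (lower_half n (6 * n + 3 - k) hn h5 (by omega) (by omega)).dual (by omega)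
  · exact lower_half n k hn h5 hk h

end Pool.Agent.H51.Magic
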