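import Mathlib
import Pool.Agent.H51.MagicData

/-!
Edge-magic labelings of the cycles: definitions in Mathlib terms, counting bounds and the small
cases, for the exact spectrum of magic sums of all cycles.
-/

set_option autoImplicit false

namespace Pool.Agent.H51.MagicIns

open Pool.Agent.H51.Magic

/-- `f` is an edge-magic labeling of `G` with magic sum `k`: a bijection from the vertices and
edges onto `{1, ..., p + q}` (`p` vertices, `q` edges) such that `f u + f (uv) + f v = k` for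
every edge `uv`. -/
def IsEdgeMagic {V : Type} (G : SimpleGraph V) (f : V ⊕ G.edgeSet → ℕ) (k : ℕ) : Prop :=
  Set.BijOn f Set.univ (Set.Icc 1 (Nat.card V + Nat.card G.edgeSet)) ∧
    ∀ (u v : V) (h : G.Adj u v),
      f (Sum.inl u) + f (Sum.inr ⟨s(u, v), h⟩) + f (Sum.inl v) = k

/-! ### the edges of a cycle -/

theorem cyc_adj (m : ℕ) (u v : Fin (m + 3)) :
    (SimpleGraph.cycleGraph (m + 3)).Adj u v ↔ v = u + 1 ∨ u = v + 1 := by
  rw [SimpleGraph.cycleGraph_adj]
  constructor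
  · rintro (h | h)
    · right
      rw [← h]
      abel
    · left
      rw [← h]
      abel
  · rintro (h | h)
    · right
      rw [h]
      abel
    · left
      rw [h]
      abel

theorem two_ne (m : ℕ) : (1 : Fin (m + 3)) + 1 ≠ 0 := by
  intro h
  have h1 := congrArg Fin.val h
  rw [Fin.val_add, Fin.val_one] at h1
  simp only [Fin.val_zero] at h1
  rw [Nat.mod_eq_of_lt (by omega)] at h1
  omega

/-- the edge from `i` to `i + 1` -/
def edg (m : ℕ) (i : Fin (m + 3)) : (SimpleGraph.cycleGraph (m + 3)).edgeSet :=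
  ⟨s(i, i + 1), (cyc_adj m i (i + 1)).2 (Or.inl rfl)⟩

theorem edg_bij (m : ℕ) : Function.Bijective (edg m) := by
  constructor
  · intro i j h
    have h1 : s(i, i + 1) = s(j, j + 1) := congrArg Subtype.val h
    rw [Sym2.eq_iff] at h1
    rcases h1 with h1 | h1
    · exact h1.1
    · exfalso
      have h2 : i = i + 1 + 1 := by
        conv_lhs => rw [h1.1]
        rw [h1.2]
      have h3 : (1 : Fin (m + 3)) + 1 = 0 := by
        have h4 : i + (1 + 1) = i + 0 := by
          rw [← add_assoc, add_zero]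
          exact h2.symm
        exact add_left_cancel h4
      exact two_ne m h3
  · rintro ⟨e, he⟩
    induction e using Sym2.ind with
    | _ u v =>
      rcases (cyc_adj m u v).1 he with h | h
      · refine ⟨u, Subtype.ext ?_⟩
        change s(u, u + 1) = s(u, v)
        rw [h]
      · refine ⟨v, Subtype.ext ?_⟩
        change s(v, v + 1) = s(u, v)
        rw [h]
        exact Sym2.eq_swap

/-- the edges are numbered by the vertices -/
noncomputable def edgE (m : ℕ) : Fin (m + 3) ≃ (SimpleGraph.cycleGraph (m + 3)).edgeSet :=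
  Equiv.ofBijective (edg m) (edg_bij m)

theorem card_edges (m : ℕ) : Nat.card (SimpleGraph.cycleGraph (m + 3)).edgeSet = m + 3 := by
  rw [← Nat.card_congr (edgE m), Nat.card_eq_fintype_card, Fintype.card_fin]

/-- the labelings of the cycle, in terms of `Fin` -/
def MagicF (m k : ℕ) : Prop :=
  ∃ f : Fin (m + 3) ⊕ Fin (m + 3) → ℕ, Function.Injective f ∧
    (∀ x, 1 ≤ f x ∧ f x ≤ 2 * (m + 3)) ∧
    ∀ i : Fin (m + 3), f (Sum.inl i) + f (Sum.inr i) + f (Sum.inl (i + 1)) = k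

theorem magicF_iff (m k : ℕ) : MagicF m k ↔ Magic (m + 3) k := Iff.rfl

theorem edgeMagic_iff (m k : ℕ) :
    (∃ f, IsEdgeMagic (SimpleGraph.cycleGraph (m + 3)) f k) ↔ Magic (m + 3) k := by
  rw [← magicF_iff]
  constructor
  · rintro ⟨f, hb, hs⟩
    rw [Nat.card_eq_fintype_card, Fintype.card_fin, card_edges] at hb
    refine ⟨fun x : Fin (m + 3) ⊕ Fin (m + 3) => f (Sum.map id (edgE m) x), ?_, ?_, ?_⟩
    · intro x y hxy
      have h1 := hb.injOn (Set.mem_univ _) (Set.mem_univ _) hxy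
      exact Sum.map_injective.2 ⟨Function.injective_id, (edgE m).injective⟩ h1
    · intro x
      have h1 : f (Sum.map id (edgE m) x) ∈ Set.Icc 1 (m + 3 + (m + 3)) :=
        hb.mapsTo (Set.mem_univ (Sum.map id (edgE m) x))
      refine ⟨h1.1, le_trans h1.2 ?_⟩
      omega
    · intro i
      exact hs i (i + 1) ((cyc_adj m i (i + 1)).2 (Or.inl rfl))
  · rintro ⟨g, hinj, hb, hs⟩
    have hinj' : Function.Injective (fun x : Fin (m + 3) ⊕ (SimpleGraph.cycleGraph (m + 3)).edgeSet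
        => g (Sum.map id (edgE m).symm x)) := by
      intro x y hxy
      exact Sum.map_injective.2 ⟨Function.injective_id, (edgE m).symm.injective⟩ (hinj hxy)
    refine ⟨fun x => g (Sum.map id (edgE m).symm x), ?_, ?_⟩
    · rw [Nat.card_eq_fintype_card, Fintype.card_fin, card_edges]
      refine ⟨?_, hinj'.injOn, ?_⟩
      · intro x _
        have h1 := hb (Sum.map id (edgE m).symm x)
        refine ⟨h1.1, le_trans h1.2 ?_⟩
        omega
      · have hsub : Set.range (fun x : Fin (m + 3) ⊕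
            (SimpleGraph.cycleGraph (m + 3)).edgeSet => g (Sum.map id (edgE m).symm x)) ⊆
            Set.Icc 1 (m + 3 + (m + 3)) := by
          rintro _ ⟨x, rfl⟩
          have h1 := hb (Sum.map id (edgE m).symm x)
          refine ⟨h1.1, le_trans h1.2 ?_⟩
          omega
        have hfin : Finite (SimpleGraph.cycleGraph (m + 3)).edgeSet := Finite.of_equiv _ (edgE m)
        have hc : (Set.Icc 1 (m + 3 + (m + 3))).ncard ≤ (Set.range (fun x : Fin (m + 3) ⊕
            (SimpleGraph.cycleGraph (m + 3)).edgeSet =>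
              g (Sum.map id (edgE m).symm x))).ncard := by
          rw [← Set.image_univ, Set.ncard_image_of_injective _ hinj', Set.ncard_univ,
            Nat.card_sum, card_edges, Nat.card_eq_fintype_card, Fintype.card_fin]
          rw [← Finset.coe_Icc, Set.ncard_coe_finset, Nat.card_Icc]
          omega
        have heq := Set.eq_of_subset_of_ncard_le hsub hc (Set.finite_Icc _ _)
        intro y hy
        rw [← heq] at hy
        obtain ⟨x, hx⟩ := hy
        exact ⟨x, Set.mem_univ _, hx⟩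
    · intro u v h
      rcases (cyc_adj m u v).1 h with h1 | h1
      · have h2 : (edgE m).symm ⟨s(u, v), h⟩ = u := by
          rw [Equiv.symm_apply_eq]
          apply Subtype.ext
          change s(u, v) = s(u, u + 1)
          rw [h1]
        change g (Sum.inl u) + g (Sum.inr ((edgE m).symm ⟨s(u, v), h⟩)) + g (Sum.inl v) = k
        rw [h2, h1]
        exact hs u
      · have h2 : (edgE m).symm ⟨s(u, v), h⟩ = v := by
          rw [Equiv.symm_apply_eq]
          apply Subtype.ext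
          change s(u, v) = s(v, v + 1)
          rw [h1]
          exact Sym2.eq_swap
        change g (Sum.inl u) + g (Sum.inr ((edgE m).symm ⟨s(u, v), h⟩)) + g (Sum.inl v) = k
        rw [h2, h1]
        have h3 := hs v
        omega

/-! ### the counting bounds -/

theorem sum_ge (S : Finset ℕ) (h : ∀ s ∈ S, 1 ≤ s) : S.card * (S.card + 1) ≤ 2 * ∑ s ∈ S, s := by
  have h1 : ∀ i : Fin S.card, (i : ℕ) + 1 ≤ S.orderEmbOfFin rfl i := by
    intro i
    obtain ⟨i, hi⟩ := i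
    induction i with
    | zero => exact h _ (S.orderEmbOfFin_mem rfl _)
    | succ i ih =>
      have h2 := ih (by omega)
      have h3 : S.orderEmbOfFin rfl ⟨i, by omega⟩ < S.orderEmbOfFin rfl ⟨i + 1, hi⟩ :=
        (S.orderEmbOfFin rfl).strictMono (by
          rw [Fin.lt_def]
          exact Nat.lt_succ_self i)
      simp only at h2 ⊢
      omega
  have h2 : ∑ s ∈ S, s = ∑ i : Fin S.card, S.orderEmbOfFin rfl i := by
    have h3 : S = Finset.univ.map (S.orderEmbOfFin rfl).toEmbedding := by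
      rw [Finset.map_orderEmbOfFin_univ]
    conv_lhs => rw [h3]
    rw [Finset.sum_map]
    rfl
  have h3 : ∑ i : Fin S.card, ((i : ℕ) + 1) ≤ ∑ i : Fin S.card, S.orderEmbOfFin rfl i :=
    Finset.sum_le_sum (fun i _ => h1 i)
  have h4 : ∑ i : Fin S.card, ((i : ℕ) + 1) = ∑ i ∈ Finset.range S.card, (i + 1) :=
    (Fin.sum_univ_eq_sum_range (fun i => i + 1) S.card)
  have h5 : 2 * ∑ i ∈ Finset.range S.card, (i + 1) = S.card * (S.card + 1) := by
    have : ∀ n : ℕ, 2 * ∑ i ∈ Finset.range n, (i + 1) = n * (n + 1) := by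
      intro n
      induction n with
      | zero => simp
      | succ n ih =>
        rw [Finset.sum_range_succ, mul_add, ih]
        ring
    exact this _
  rw [h2]
  omega

theorem lower_gen (n k : ℕ) (hn : 3 ≤ n) (h : Magic n k) : 5 * n + 3 ≤ 2 * k := by
  obtain ⟨f, hinj, hb, hs⟩ := h
  have : NeZero n := ⟨by omega⟩
  have hcard : Fintype.card (ZMod n) = n := ZMod.card n
  -- the sum over all edges
  have h1 : ∑ i : ZMod n, (f (Sum.inl i) + f (Sum.inr i) + f (Sum.inl (i + 1))) = n * k := by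
    rw [Finset.sum_congr rfl (fun i _ => hs i), Finset.sum_const, Finset.card_univ, hcard,
      smul_eq_mul]
  have h2 : ∑ i : ZMod n, f (Sum.inl (i + 1)) = ∑ i : ZMod n, f (Sum.inl i) :=
    Equiv.sum_comp (Equiv.addRight (1 : ZMod n)) (fun i => f (Sum.inl i))
  rw [Finset.sum_add_distrib, Finset.sum_add_distrib, h2] at h1
  -- all labels
  have h3 : Finset.univ.image f = Finset.Icc 1 (2 * n) := by
    apply Finset.eq_of_subset_of_card_le
    · intro y hy
      obtain ⟨x, -, rfl⟩ := Finset.mem_image.1 hy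
      exact Finset.mem_Icc.2 (hb x)
    · rw [Finset.card_image_of_injective _ hinj, Finset.card_univ, Fintype.card_sum, hcard,
        Nat.card_Icc]
      omega
  have h4 : ∑ x, f x = ∑ y ∈ Finset.Icc 1 (2 * n), y := by
    rw [← h3, Finset.sum_image (fun x _ y _ h => hinj h)]
  have h5 : 2 * ∑ y ∈ Finset.Icc 1 (2 * n), y = 2 * n * (2 * n + 1) := by
    have : ∀ N : ℕ, 2 * ∑ y ∈ Finset.Icc 1 N, y = N * (N + 1) := by
      intro N
      induction N with
      | zero => simp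
      | succ N ih =>
        rw [Finset.sum_Icc_succ_top (by omega), mul_add, ih]
        ring
    exact this _
  have h6 : ∑ x, f x = ∑ i : ZMod n, f (Sum.inl i) + ∑ i : ZMod n, f (Sum.inr i) :=
    Fintype.sum_sum_type f
  -- the vertex labels
  have h7 : n * (n + 1) ≤ 2 * ∑ i : ZMod n, f (Sum.inl i) := by
    have hinj2 : Function.Injective (fun i : ZMod n => f (Sum.inl i)) :=
      fun i j hij => Sum.inl_injective (hinj hij)
    have h8 := sum_ge (Finset.univ.image (fun i : ZMod n => f (Sum.inl i))) (by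
      intro s hs2
      obtain ⟨i, -, rfl⟩ := Finset.mem_image.1 hs2
      exact (hb _).1)
    rw [Finset.card_image_of_injective _ hinj2, Finset.card_univ, hcard,
      Finset.sum_image (fun x _ y _ h => hinj2 h)] at h8
    exact h8
  have h9 : n * (5 * n + 3) ≤ n * (2 * k) := by
    have h10 : 2 * (n * k) = 2 * n * (2 * n + 1) + 2 * ∑ i : ZMod n, f (Sum.inl i) := by
      rw [← h1, ← h5, ← h4, h6]
      ring
    have h11 : n * (2 * k) = 2 * (n * k) := by ring
    have h12 : n * (5 * n + 3) = 2 * n * (2 * n + 1) + n * (n + 1) := by ring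
    rw [h11, h12, h10]
    omega
  exact Nat.le_of_mul_le_mul_left h9 (by omega)

theorem lower (m k : ℕ) (h : Magic (m + 3) k) : 5 * (m + 3) + 3 ≤ 2 * k :=
  lower_gen (m + 3) k (by omega) h

theorem le_top (m k : ℕ) (h : Magic (m + 3) k) : k ≤ 6 * (m + 3) + 3 := by
  obtain ⟨f, -, hb, hs⟩ := h
  have h1 := hs 0
  have h2 := (hb (Sum.inl 0)).2
  have h3 := (hb (Sum.inr 0)).2
  have h4 := (hb (Sum.inl (0 + 1))).2
  omega

theorem upper (m k : ℕ) (h : Magic (m + 3) k) : 2 * k ≤ 7 * (m + 3) + 3 := by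
  have h1 := le_top m k h
  have h2 := lower m _ (h.dual (k' := 6 * (m + 3) + 3 - k) (by omega))
  omega

/-! ### the cycles of length three and five -/

theorem three (k : ℕ) (h1 : 9 ≤ k) (h2 : k ≤ 12) : Magic 3 k := by
  have h : k = 9 ∨ k = 10 ∨ k = 11 ∨ k = 12 := by omega
  rcases h with rfl | rfl | rfl | rfl
  · refine ⟨Sum.elim (![1, 2, 3] : Fin 3 → ℕ) (![6, 4, 5] : Fin 3 → ℕ), ?_, ?_, ?_⟩
    · change Function.Injective (Sum.elim (![1, 2, 3] : Fin 3 → ℕ) (![6, 4, 5] : Fin 3 → ℕ))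
      decide
    · change ∀ x : Fin 3 ⊕ Fin 3, _
      decide
    · change ∀ i : Fin 3, _
      decide
  · refine ⟨Sum.elim (![1, 3, 5] : Fin 3 → ℕ) (![6, 2, 4] : Fin 3 → ℕ), ?_, ?_, ?_⟩
    · change Function.Injective (Sum.elim (![1, 3, 5] : Fin 3 → ℕ) (![6, 2, 4] : Fin 3 → ℕ))
      decide
    · change ∀ x : Fin 3 ⊕ Fin 3, _
      decide
    · change ∀ i : Fin 3, _
      decide
  · refine ⟨Sum.elim (![2, 4, 6] : Fin 3 → ℕ) (![5, 1, 3] : Fin 3 → ℕ), ?_, ?_, ?_⟩
    · change Function.Injective (Sum.elim (![2, 4, 6] : Fin 3 → ℕ) (![5, 1, 3] : Fin 3 → ℕ))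
      decide
    · change ∀ x : Fin 3 ⊕ Fin 3, _
      decide
    · change ∀ i : Fin 3, _
      decide
  · refine ⟨Sum.elim (![4, 5, 6] : Fin 3 → ℕ) (![3, 1, 2] : Fin 3 → ℕ), ?_, ?_, ?_⟩
    · change Function.Injective (Sum.elim (![4, 5, 6] : Fin 3 → ℕ) (![3, 1, 2] : Fin 3 → ℕ))
      decide
    · change ∀ x : Fin 3 ⊕ Fin 3, _
      decide
    · change ∀ i : Fin 3, _
      decide

/-- the possible labels -/
def L10 : List ℕ := [1, 2, 3, 4, 5, 6, 7, 8, 9, 10]

theorem mem_L10 (a : ℕ) (h1 : 1 ≤ a) (h2 : a ≤ 10) : a ∈ L10 := by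
  unfold L10
  simp only [List.mem_cons, List.not_mem_nil, or_false]
  omega

/-- there is no edge-magic labeling of the cycle of length five with magic sum 15: the vertex
labels `a b c d e`, the edge labels `15 - a - b` and so on -/
theorem five_aux : ∀ a ∈ L10, ∀ b ∈ L10, (a ≠ b ∧ 5 ≤ a + b ∧ a + b ≤ 14) → ∀ c ∈ L10,
    (c ≠ a ∧ c ≠ b ∧ 5 ≤ b + c ∧ b + c ≤ 14 ∧ a + b + c ≠ 15) → ∀ d ∈ L10,
    (d ≠ a ∧ d ≠ b ∧ d ≠ c ∧ 5 ≤ c + d ∧ c + d ≤ 14 ∧ b + c + d ≠ 15 ∧ a + b + d ≠ 15 ∧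
      c + d + a ≠ 15) → ∀ e ∈ L10,
    ¬ ([a, b, c, d, e, 15 - (a + b), 15 - (b + c), 15 - (c + d), 15 - (d + e),
        15 - (e + a)].Nodup ∧ 5 ≤ d + e ∧ d + e ≤ 14 ∧ 5 ≤ e + a ∧ e + a ≤ 14) := by
  decide +kernel

theorem aux_ne (a b c w : ℕ) (h : a + w + b = 15) (hne : c ≠ w) : a + b + c ≠ 15 := by
  omega

theorem aux_ne2 (a b c w : ℕ) (h : a + w + b = 15) (hne : c ≠ w) : c + a + b ≠ 15 := by
  omega

theorem aux_le (a b w : ℕ) (h : a + w + b = 15) (h1 : 1 ≤ w) (h2 : w ≤ 10) :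
    5 ≤ a + b ∧ a + b ≤ 14 := by
  omega

theorem aux_eq (a b w : ℕ) (h : a + w + b = 15) : w = 15 - (a + b) := by
  omega

theorem aux_perm (a b c : ℕ) (h : a + b + c ≠ 15) : c + a + b ≠ 15 := by
  omega

/-- the labels of a labeling with magic sum 15 -/
theorem not_five_aux (f : Fin 5 ⊕ Fin 5 → ℕ) (hinj : Function.Injective f)
    (hb : ∀ x, 1 ≤ f x ∧ f x ≤ 10)
    (hs : ∀ i : Fin 5, f (Sum.inl i) + f (Sum.inr i) + f (Sum.inl (i + 1)) = 15) : False := by
  have e0 : f (Sum.inl 0) + f (Sum.inr 0) + f (Sum.inl 1) = 15 := hs 0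
  have e1 : f (Sum.inl 1) + f (Sum.inr 1) + f (Sum.inl 2) = 15 := hs 1
  have e2 : f (Sum.inl 2) + f (Sum.inr 2) + f (Sum.inl 3) = 15 := hs 2
  have e3 : f (Sum.inl 3) + f (Sum.inr 3) + f (Sum.inl 4) = 15 := hs 3
  have e4 : f (Sum.inl 4) + f (Sum.inr 4) + f (Sum.inl 0) = 15 := hs 4
  have ne : ∀ x y : Fin 5 ⊕ Fin 5, x ≠ y → f x ≠ f y := fun x y h h' => h (hinj h')
  have nd : (([Sum.inl 0, Sum.inl 1, Sum.inl 2, Sum.inl 3, Sum.inl 4, Sum.inr 0, Sum.inr 1,
      Sum.inr 2, Sum.inr 3, Sum.inr 4] : List (Fin 5 ⊕ Fin 5)).map f).Nodup := by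
    refine List.Nodup.map hinj ?_
    decide
  have nd2 : [f (Sum.inl 0), f (Sum.inl 1), f (Sum.inl 2), f (Sum.inl 3), f (Sum.inl 4),
      f (Sum.inr 0), f (Sum.inr 1), f (Sum.inr 2), f (Sum.inr 3), f (Sum.inr 4)].Nodup := nd
  clear nd
  rw [aux_eq _ _ _ e0, aux_eq _ _ _ e1, aux_eq _ _ _ e2, aux_eq _ _ _ e3,
    aux_eq _ _ _ e4] at nd2
  have a01 := ne (Sum.inl 0) (Sum.inl 1) (by decide)
  have a20 := ne (Sum.inl 2) (Sum.inl 0) (by decide)
  have a21 := ne (Sum.inl 2) (Sum.inl 1) (by decide)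
  have a30 := ne (Sum.inl 3) (Sum.inl 0) (by decide)
  have a31 := ne (Sum.inl 3) (Sum.inl 1) (by decide)
  have a32 := ne (Sum.inl 3) (Sum.inl 2) (by decide)
  have l0 := aux_le _ _ _ e0 (hb _).1 (hb _).2
  have l1 := aux_le _ _ _ e1 (hb _).1 (hb _).2
  have l2 := aux_le _ _ _ e2 (hb _).1 (hb _).2
  have l3 := aux_le _ _ _ e3 (hb _).1 (hb _).2
  have l4 := aux_le _ _ _ e4 (hb _).1 (hb _).2
  have s1 := aux_ne _ _ _ _ e0 (ne (Sum.inl 2) (Sum.inr 0) (by decide))
  have s2 := aux_ne _ _ _ _ e1 (ne (Sum.inl 3) (Sum.inr 1) (by decide))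
  have s3 := aux_ne _ _ _ _ e0 (ne (Sum.inl 3) (Sum.inr 0) (by decide))
  have s4 := aux_ne _ _ _ _ e2 (ne (Sum.inl 0) (Sum.inr 2) (by decide))
  exact five_aux _ (mem_L10 _ (hb _).1 (hb _).2) _ (mem_L10 _ (hb _).1 (hb _).2)
    ⟨a01, l0.1, l0.2⟩ _ (mem_L10 _ (hb _).1 (hb _).2)
    ⟨a20, a21, l1.1, l1.2, s1⟩ _ (mem_L10 _ (hb _).1 (hb _).2)
    ⟨a30, a31, a32, l2.1, l2.2, s2, s3, s4⟩ _ (mem_L10 _ (hb _).1 (hb _).2)
    ⟨nd2, l3.1, l3.2, l4.1, l4.2⟩

theorem not_five : ¬ Magic 5 15 := by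
  rintro ⟨f, hinj, hb, hs⟩
  exact not_five_aux f hinj hb hs

theorem not_five' : ¬ Magic 5 18 := fun h => not_five (h.dual (by norm_num))

theorem five (k : ℕ) (h : k = 14 ∨ k = 16 ∨ k = 17 ∨ k = 19) : Magic 5 k := by
  rcases h with rfl | rfl | rfl | rfl
  · refine ⟨Sum.elim (![1, 3, 5, 2, 4] : Fin 5 → ℕ) (![10, 6, 7, 8, 9] : Fin 5 → ℕ), ?_, ?_, ?_⟩
    · change Function.Injective (Sum.elim (![1, 3, 5, 2, 4] : Fin 5 → ℕ)
        (![10, 6, 7, 8, 9] : Fin 5 → ℕ))
      decide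
    · change ∀ x : Fin 5 ⊕ Fin 5, _
      decide
    · change ∀ i : Fin 5, _
      decide
  · refine ⟨Sum.elim (![1, 5, 9, 3, 7] : Fin 5 → ℕ) (![10, 2, 4, 6, 8] : Fin 5 → ℕ), ?_, ?_, ?_⟩
    · change Function.Injective (Sum.elim (![1, 5, 9, 3, 7] : Fin 5 → ℕ)
        (![10, 2, 4, 6, 8] : Fin 5 → ℕ))
      decide
    · change ∀ x : Fin 5 ⊕ Fin 5, _
      decide
    · change ∀ i : Fin 5, _
      decide
  · refine ⟨Sum.elim (![1, 7, 8, 4, 10] : Fin 5 → ℕ) (![9, 2, 5, 3, 6] : Fin 5 → ℕ), ?_, ?_, ?_⟩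
    · change Function.Injective (Sum.elim (![1, 7, 8, 4, 10] : Fin 5 → ℕ)
        (![9, 2, 5, 3, 6] : Fin 5 → ℕ))
      decide
    · change ∀ x : Fin 5 ⊕ Fin 5, _
      decide
    · change ∀ i : Fin 5, _
      decide
  · refine ⟨Sum.elim (![6, 8, 10, 7, 9] : Fin 5 → ℕ) (![5, 1, 2, 3, 4] : Fin 5 → ℕ), ?_, ?_, ?_⟩
    · change Function.Injective (Sum.elim (![6, 8, 10, 7, 9] : Fin 5 → ℕ)
        (![5, 1, 2, 3, 4] : Fin 5 → ℕ))
      decide
    · change ∀ x : Fin 5 ⊕ Fin 5, _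
      decide
    · change ∀ i : Fin 5, _
      decide

/-- the spectrum of magic sums of a cycle -/
theorem spectrum (m k : ℕ) : Magic (m + 3) k ↔
    5 * (m + 3) + 3 ≤ 2 * k ∧ 2 * k ≤ 7 * (m + 3) + 3 ∧ ¬ (m + 3 = 5 ∧ (k = 15 ∨ k = 18)) := by
  constructor
  · intro h
    refine ⟨lower m k h, upper m k h, ?_⟩
    rintro ⟨h5, h6⟩
    have hm : m = 2 := by omega
    subst hm
    rcases h6 with rfl | rfl
    · exact not_five h
    · exact not_five' h
  · rintro ⟨h1, h2, h3⟩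
    by_cases h5 : m = 2
    · subst h5
      exact five k (by omega)
    · by_cases h0 : m = 0
      · subst h0
        exact three k (by omega) (by omega)
      · exact full_range (m + 3) k (by omega) (by omega) h1 h2

end Pool.Agent.H51.MagicIns
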